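import Pool.Agent.Lib.H45U.U1
import Pool.Agent.Lib.H76Y.T1

/-!
# U2: algebras which respect a form
-/

set_option autoImplicit false
set_option linter.unusedSectionVars false
namespace Pool.Agent.H45U
open Module Matrix Polynomial Pool.Agent.H53Toric
open Pool.Agent.H76P (dg dq dg_mul dg_one)
open Pool.Agent.H76Y (SyL NsL)
open Pool.Agent.H76Z (Cl OrL Cls)

variable {κ : Type*} {K : Type*} [Field K] [CharZero K] [Fintype κ] [DecidableEq κ]
  {L : Submodule K (Module.End K (κ → K))}

theorem adj_one {J : Matrix κ κ K} (hd : IsUnit J.det) :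
    adjE J (1 : Module.End K (κ → K)) = 1 := by
  have h1 : (1 : Module.End K (κ → K)) = phi (1 : Matrix κ κ K) := (map_one _).symm
  rw [h1, adjE_phi, Matrix.transpose_one, Matrix.mul_one, Matrix.nonsing_inv_mul _ hd]

theorem form_shift {J : Matrix κ κ K} (hd : IsUnit J.det) {y : Module.End K (κ → K)}
    (hy : adjE J y = -y) {c : K} (hyy : (y + c • 1) * (y + c • 1) = 1) : c • y = 0 := by
  have h1 : adjE J (y + c • 1) = -y + c • 1 := by
    rw [map_add, map_smul, adj_one hd, hy]
  have h2 : (-y + c • 1) * (-y + c • 1) = (1 : Module.End K (κ → K)) := by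
    rw [← h1, ← adjE_mul hd, hyy, adj_one hd]
  have h3 : (y + c • 1) * (y + c • 1) - (-y + c • 1) * (-y + c • 1) = (4 : K) • (c • y) := by
    have e1 : (y + c • 1) * (y + c • 1) = y * y + (2 * c) • y + (c * c) • (1 : Module.End K (κ → K)) := by
      rw [add_mul, mul_add, mul_add, smul_mul_assoc, smul_mul_assoc, mul_smul_comm, one_mul, one_mul,
        mul_one]
      module
    have e2 : (-y + c • 1) * (-y + c • 1) =
        y * y - (2 * c) • y + (c * c) • (1 : Module.End K (κ → K)) := by
      have e3 : -y * -y = y * y := neg_mul_neg y y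
      rw [add_mul, mul_add, mul_add, smul_mul_assoc, smul_mul_assoc, mul_smul_comm, one_mul, one_mul,
        mul_one, e3]
      module
    rw [e1, e2]
    module
  rw [hyy, h2, sub_self] at h3
  exact (smul_eq_zero.1 h3.symm).resolve_left (by norm_num)

theorem skew_form (h : SyL L ∨ OrL L) :
    ∃ J : Matrix κ κ K, IsUnit J.det ∧ ∀ X ∈ L, adjE J X = -X := by
  rcases h with ⟨J, -, h1, h2⟩ | ⟨J, -, h1, h2⟩
  · exact ⟨J, h1, h2⟩
  · exact ⟨J, h1, h2⟩

theorem dq_shift (ε : κ → ℚ) {c : ℚ} (h : ∀ a, ε a = c + 1 ∨ ε a = c - 1) :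
    ((dq ε : Module.End K (κ → K)) + ((-c : ℚ) : K) • 1) * (dq ε + ((-c : ℚ) : K) • 1) = 1 := by
  have h1 : (dq ε : Module.End K (κ → K)) + ((-c : ℚ) : K) • 1 = dq (fun a => ε a - c) := by
    have h2 : (dq (fun a => ε a - c) : Module.End K (κ → K)) = dq ε + dq (fun _ : κ => -c) := by
      rw [← H76Y.dq_add]
      congr 1
      funext a
      show ε a - c = ε a + -c
      ring
    rw [h2]
    congr 1
  rw [h1]
  refine H76Y.dq_sq fun a => ?_
  rcases h a with h2 | h2
  · left
    rw [h2]
    ring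
  · right
    rw [h2]
    ring

/-- If `L` respects a form, the two configurations are equal. -/
theorem Yo_eq (h : SyL L ∨ OrL L) : H25U.Yo L = H76P.Yo L := by
  obtain ⟨J, hd, hs⟩ := skew_form h
  apply le_antisymm
  · refine Submodule.span_le.2 ?_
    rintro ε ⟨⟨c, hc⟩, hε⟩
    have h1 := form_shift hd (hs _ hε) (dq_shift (K := K) ε hc)
    rcases smul_eq_zero.1 h1 with h2 | h2
    · have h3 : c = 0 := by
        have h4 : (-c : ℚ) = 0 := by exact_mod_cast h2
        linarith
      refine Submodule.subset_span ⟨fun a => ?_, hε⟩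
      have h4 := hc a
      rw [h3] at h4
      simpa using h4
    · have h3 : ε = 0 := by
        refine H76Y.dq_inj (K := K) ?_
        rw [h2]
        unfold dq
        refine LinearMap.ext fun w => funext fun a => ?_
        rw [H76P.dg_apply]
        simp
      rw [h3]
      exact Submodule.zero_mem _
  · refine Submodule.span_le.2 ?_
    rintro ε ⟨h1, hε⟩
    exact Submodule.subset_span ⟨⟨0, fun a => by simpa using h1 a⟩, hε⟩

theorem tm_iff (h : SyL L ∨ OrL L) : H25U.TM L ↔ H76Y.TM L := by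
  have hY := Yo_eq h
  obtain ⟨J, hd, hs⟩ := skew_form h
  constructor
  · intro hT
    refine ⟨⟨hT.cmp.lie, hT.cmp.irr, hT.cmp.tr, fun T hc => hT.cmp.gen T fun y hy => ?_⟩, ?_, ?_⟩
    · rintro ⟨c, hyy⟩
      rcases smul_eq_zero.1 (form_shift hd (hs y hy) hyy) with h1 | h1
      · refine hc y hy ?_
        rwa [h1, zero_smul, add_zero] at hyy
      · rw [h1, mul_zero, zero_mul]
    · intro f hf
      rw [← hY]
      exact hT.diag f hf
    · intro a b hab
      rw [← hY]
      exact hT.sep a b hab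
  · intro hT
    refine ⟨⟨hT.cmp.lie, hT.cmp.irr, hT.cmp.tr, fun T hc => hT.cmp.gen T fun y hy hyy => ?_⟩, ?_, ?_⟩
    · exact hc y hy ⟨0, by rwa [zero_smul, add_zero]⟩
    · intro f hf
      rw [hY]
      exact hT.diag f hf
    · intro a b hab
      rw [hY]
      exact hT.sep a b hab

end Pool.Agent.H45U
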