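import Pool.Agent.Lib.H25U.C6
import Pool.Agent.Lib.H25U.BLN
import Pool.Agent.Lib.H25U.FullN
import Pool.Agent.Lib.H25U.FullD
import Pool.Agent.Lib.H45U.U2
import Pool.Agent.Lib.H76Y.E1

/-!
# U3: the names of the configuration theory; semilinear automorphisms
-/

set_option autoImplicit false
set_option linter.unusedSectionVars false
namespace Pool.Agent.H45U

export Pool.Agent.H25U (Hs Yo CmpN TM Yo_mem Yo_sum exists_decomp ideal_span AZ_comm AZ_inter AZ_scalar
  dq_AZ PT_one PT_mul PT_inv PT_unique PT_diag compN one_nsY parE parE_eq PT_parE inv_AZ)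

open Module Matrix Pool.Agent.H53Toric
open Pool.Agent.H76P Pool.Agent.H76V Pool.Agent.H76Q Pool.Agent.H76Y
open Pool.Agent.H76T (IsIdeal Fam)

variable {κ : Type*} {K : Type*} [Field K] [CharZero K] [Fintype κ] [DecidableEq κ]
  {L : Submodule K (Module.End K (κ → K))} [IsAlgClosed K] [Nonempty κ]
  {Y : Submodule ℚ (κ → ℚ)} {P : Module.End ℚ Y}

theorem theta_perm {θ : Module.End K (κ → K) ≃+* Module.End K (κ → K)} {τ : K ≃+* K}
    {σ : Equiv.Perm κ} (hθ : ThetaN L θ τ σ) {f : κ → ℚ} (hf : f ∈ Yo L) : f ∘ σ ∈ Yo L := by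
  unfold H25U.Yo at hf ⊢
  induction hf using Submodule.span_induction with
  | mem ε hε =>
    obtain ⟨⟨c, hc⟩, hε2⟩ := hε
    refine Submodule.subset_span ⟨⟨c, fun a => hc (σ a)⟩, (hθ.mem _).1 ?_⟩
    rw [e1_dq hθ]
    exact hε2
  | zero => exact Submodule.zero_mem _
  | add f g _ _ hf hg => exact Submodule.add_mem _ hf hg
  | smul c f _ hf => exact Submodule.smul_mem _ c hf

theorem thetaAZ {θ : Module.End K (κ → K) ≃+* Module.End K (κ → K)} {τ : K ≃+* K}
    {σ : Equiv.Perm κ} (hθ : ThetaN L θ τ σ) (hY : Yo L = Y) (hst : StabP P σ)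
    {X : Module.End K (κ → K)} (hX : X ∈ AZ L P) : θ X ∈ AZ L P := by
  unfold H76Q.AZ at hX ⊢
  induction hX using Algebra.adjoin_induction with
  | mem X hX =>
    obtain ⟨I, hI, hP, hXI⟩ := hX
    refine Algebra.subset_adjoin ⟨_, e1_ideal hθ hI, ?_, (H76T.mem_mv' (hθ := hθ.smul)).2 hXI⟩
    intro f hf hfI k k' hkk
    have h1 : dq (f ∘ σ) ∈ I := by
      have h2 := H76T.mem_mv.1 hfI
      rwa [← e1_dq hθ f, RingEquiv.symm_apply_apply] at h2
    have h3 : f ∘ σ ∈ Y := by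
      rw [← hY]
      exact theta_perm hθ (hY ▸ hf)
    have h4 := hP (f ∘ σ) h3 h1 (σ.symm k) (σ.symm k') ((hst.1 _ _).2 (by
      rwa [Equiv.apply_symm_apply, Equiv.apply_symm_apply]))
    rwa [Function.comp_apply, Function.comp_apply, Equiv.apply_symm_apply, Equiv.apply_symm_apply] at h4
  | algebraMap r =>
    rw [Algebra.algebraMap_eq_smul_one, hθ.smul, map_one]
    exact Subalgebra.smul_mem _ (Subalgebra.one_mem _) _
  | add X X' _ _ h h' => rw [map_add]; exact Subalgebra.add_mem _ h h'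
  | mul X X' _ _ h h' => rw [map_mul]; exact Subalgebra.mul_mem _ h h'

theorem thetaPt {θ : Module.End K (κ → K) ≃+* Module.End K (κ → K)} {τ : K ≃+* K}
    {σ : Equiv.Perm κ} (hθ : ThetaN L θ τ σ) (hY : Yo L = Y) (hst : StabP P σ)
    {X u r : Module.End K (κ → K)} {t : K} (h1 : PTN L P X u r t) :
    PTN L P (θ X) (θ u) (θ r) (τ t) := by
  obtain ⟨hu, hr, hX, ht, hut, hrt⟩ := h1
  have hPP : (1 : Module.End ℚ Y) - (1 - P) = P := sub_sub_cancel 1 P
  have hst' : StabP (1 - P) σ := ⟨hst.2, fun k k' => hPP.symm ▸ hst.1 k k'⟩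
  refine ⟨thetaAZ hθ hY hst hu, thetaAZ hθ hY hst' hr, by rw [hX, map_mul], ?_, ?_, ?_⟩
  · exact fun h0 => ht ((map_eq_zero τ).1 h0)
  · rw [hθ.det, hut]
  · rw [hθ.det]
    exact fun h0 => hrt ((map_eq_zero τ).1 h0)

end Pool.Agent.H45U
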