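import Pool.Agent.Lib.H45U.A7
import Pool.Agent.Lib.H45U.W1
import Pool.Agent.Lib.H45U.F3
import Pool.Agent.Lib.H25U.Bridge
import Pool.Agent.Lib.H76Z.W2
import Pool.Agent.Lib.H76Z.W9

/-!
# the local data
-/

set_option autoImplicit false
set_option linter.unusedSectionVars false
namespace Pool.Agent.H45U
open Pool.Agent.H76Y Pool.Agent.H76Z
open Pool.Agent.H76P Pool.Agent.H76V Pool.Agent.H76Q
open Module Matrix Polynomial Pool.Agent.H53Toric
open Pool.Agent.H76P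
open Pool.Agent.H76T (IsIdeal Fam Lc)
open Pool.Agent.H76U (cmp preL IsSplitting)
open Pool.Agent.H76RM (spanK similD)

/-- An element with two values and unequal multiplicities excludes all invariant forms. -/
theorem ns_of {κ : Type*} {K : Type*} [Field K] [CharZero K] [IsAlgClosed K] [Fintype κ] [DecidableEq κ]
    {L : Submodule K (Module.End K (κ → K))} [Nonempty κ] {Y : Submodule ℚ (κ → ℚ)}
    (h : TM L) (hY : Yo L = Y) {ε : κ → ℚ} {c : ℚ} (h1 : ∀ k, ε k = 1 ∨ ε k = -1)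
    (hc : (fun k => ε k - c) ∈ Y) (hs : 2 * (Finset.univ.filter fun k => ε k = 1).card ≠ Fintype.card κ)
    (hs0 : (Finset.univ.filter fun k => ε k = 1).card ≠ 0)
    (hs1 : (Finset.univ.filter fun k => ε k = 1).card ≠ Fintype.card κ) : NsL L := by
  intro B hinv
  by_contra hB
  have hmem : (dq (fun k => ε k - c) : Module.End K (κ → K)) ∈ L := Yo_mem (by rw [hY]; exact hc)
  have hsum0 : ∑ k, (ε k - c) = 0 := Yo_sum h.cmp (by rw [hY]; exact hc)
  have hsum : ∑ k, ε k = 2 * ((Finset.univ.filter fun k => ε k = 1).card : ℚ) - Fintype.card κ := by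
    have e1 : ∀ k, ε k = 2 * (if ε k = 1 then 1 else 0) - 1 := by
      intro k
      rcases h1 k with h2 | h2
      · rw [h2, if_pos rfl]
        norm_num
      · rw [h2, if_neg (by norm_num)]
        norm_num
    rw [Finset.sum_congr rfl fun k _ => e1 k, Finset.sum_sub_distrib, ← Finset.mul_sum,
      Finset.sum_boole, Finset.sum_const, Finset.card_univ, nsmul_eq_mul, mul_one]
  have hy0 : (dq (fun k => ε k - c) : Module.End K (κ → K)) ≠ 0 := by
    intro h0
    have h2 : (fun k => ε k - c) = 0 := H76Y.dq_inj (K := K) (by rw [h0, H25U.t13_zero])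
    have h3 : ∀ k, ε k = c := fun k => sub_eq_zero.1 (congrFun h2 k)
    by_cases hcc : c = 1
    · apply hs1
      rw [Finset.filter_true_of_mem fun k _ => by rw [h3, hcc], Finset.card_univ]
    · apply hs0
      rw [Finset.filter_false_of_mem fun k _ => by rw [h3]; exact hcc, Finset.card_empty]
  have hsq : ((dq (fun k => ε k - c) : Module.End K (κ → K)) + (c : K) • 1) *
      (dq (fun k => ε k - c) + (c : K) • 1) = 1 := by
    rw [dq_sub_const, sub_add_cancel]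
    exact H76Y.dq_sq h1
  have h4 := h.cmp.shift_zero hB hinv hmem hy0 hsq
  have h5 : c = 0 := by exact_mod_cast h4
  rw [h5] at hsum0
  simp only [sub_zero] at hsum0
  rw [hsum0] at hsum
  apply hs
  have h6 : (2 * ((Finset.univ.filter fun k => ε k = 1).card : ℚ)) = Fintype.card κ := by linarith
  exact_mod_cast h6

/-- The determinant on a component. -/
theorem det_comp {ι : Type*} [Fintype ι] [DecidableEq ι] {K : Type*} [Field K] {n : ℕ}
    {e x : Matrix ι ι K} {U : Matrix ι (Fin n) K} {V : Matrix (Fin n) ι K} {d : Fin n → K}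
    (hUV : e = U * V) (hVU : V * U = 1) (hx : x * U = U * Matrix.diagonal d) :
    (1 - e + x * e).det = ∏ k, d k := by
  have h1 : 1 - e + x * e = 1 + U * ((Matrix.diagonal d - 1) * V) := by
    rw [hUV, ← Matrix.mul_assoc x, hx, Matrix.sub_mul, Matrix.mul_sub, Matrix.one_mul,
      Matrix.mul_assoc]
    abel
  rw [h1, Matrix.det_one_add_mul_comm, Matrix.mul_assoc, hVU, Matrix.mul_one, add_sub_cancel,
    Matrix.det_diagonal]

variable {ι : Type*} [Fintype ι] [DecidableEq ι] {ψ : Matrix ι ι ℚ}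
    {D : Subalgebra ℚ (Matrix ι ι ℚ)} {M : Type*} [Field M] [NumberField M]
    {m : ℕ} {cl : Fin m → Cl} {bar : Fin m → Fin m} {e : Fin m → Matrix ι ι M} {u₀ : Matrix ι ι M} {G : Type*} [Group G]
    {ρ : ∀ (l : ℕ) [Fact l.Prime], G →* Matrix.GeneralLinearGroup ι ℚ_[l]}
    {p : ℕ} [Fact p.Prime] {σ : G} {q : ℚ} {F : Fin m → M[X]}
    {φ μ ν : Matrix ι ι (AlgebraicClosure ℚ_[p])} {v : AlgebraicClosure ℚ_[p] → ℚ}
    {Δ : Set (AlgebraicClosure ℚ_[p] ≃+* AlgebraicClosure ℚ_[p])}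
    {Ω : Type*} [Field Ω] [CharZero Ω] [IsAlgClosed Ω] [Algebra.IsAlgebraic ℚ Ω] {j : M →+* Ω}
    {R : Finset Ω} {N : Set ℕ} {hd : Fin m → Ω → ℕ} {ub : Fin m → Prop}
    (C : Core5a ψ D cl bar e u₀ ρ p σ q F φ μ ν v Δ j R N hd ub)

include C

/-- The number of eigenvalues is the rank of the idempotent. -/
theorem Core5a.card (b : Fin m)
    {n : ℕ} {a : Fin n → Ω} (ha : Function.Injective a)
    (hroot : ∀ y : Ω, (F b).eval₂ j y = 0 ↔ ∃ k, y = a k) : n = (e b).rank := by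
  obtain ⟨a', ha', hroot'⟩ := C.enum b
  have h1 : ∀ k, ∃ k', a k = a' k' := fun k => (hroot' _).1 ((hroot _).2 ⟨k, rfl⟩)
  have h2 : ∀ k, ∃ k', a' k = a k' := fun k => (hroot _).1 ((hroot' _).2 ⟨k, rfl⟩)
  choose f hf using h1
  choose g hg using h2
  have hfi : Function.Injective f := fun x y h => ha (by rw [hf, hf, h])
  have hgi : Function.Injective g := fun x y h => ha' (by rw [hg, hg, h])
  have h3 := Fintype.card_le_of_injective f hfi
  have h4 := Fintype.card_le_of_injective g hgi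
  rw [Fintype.card_fin, Fintype.card_fin] at h3 h4
  exact le_antisymm h3 h4

/-- The local data at `p`, with the old data if the component is balanced. -/
theorem Core5a.locp0 (b : Fin m)
    {n : ℕ} {a : Fin n → Ω} (ha : Function.Injective a)
    (hroot : ∀ y : Ω, (F b).eval₂ j y = 0 ↔ ∃ k, y = a k)
    (i : Ω →+* AlgebraicClosure ℚ_[p]) :
    ∃ (H₀ : Subgroup G) (U : Matrix ι (Fin n) (AlgebraicClosure ℚ_[p]))
      (V : Matrix (Fin n) ι (AlgebraicClosure ℚ_[p])), H₀.FiniteIndex ∧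
      LocU (ψ.map (algebraMap ℚ (AlgebraicClosure ℚ_[p]))) (img (AlgebraicClosure ℚ_[p]) (ρ p) H₀)
        (properProj (AlgebraicClosure ℚ_[p]) (ρ p)) ((e b).map (i.comp j)) φ
        U V (fun k => i (a k)) (YS a) ∧
      (cl b = .s → SyL (LcN (ψ.map (algebraMap ℚ (AlgebraicClosure ℚ_[p])))
        (img (AlgebraicClosure ℚ_[p]) (ρ p) H₀) U V)) ∧
      (cl b = .o → OrL (LcN (ψ.map (algebraMap ℚ (AlgebraicClosure ℚ_[p])))
        (img (AlgebraicClosure ℚ_[p]) (ρ p) H₀) U V)) ∧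
      ((∀ h ∈ properProj (AlgebraicClosure ℚ_[p]) (ρ p), 2 * (h * (e b).map (i.comp j)).rank = n) →
        (∏ k, i (a k)) ^ 2 = algebraMap ℚ (AlgebraicClosure ℚ_[p]) q ^ n ∧
        H76Y.TM (LcN (ψ.map (algebraMap ℚ (AlgebraicClosure ℚ_[p])))
          (img (AlgebraicClosure ℚ_[p]) (ρ p) H₀) U V) ∧
        H76P.Yo (LcN (ψ.map (algebraMap ℚ (AlgebraicClosure ℚ_[p])))
          (img (AlgebraicClosure ℚ_[p]) (ρ p) H₀) U V) = YS a ∧
        (cl b = .n → NsL (LcN (ψ.map (algebraMap ℚ (AlgebraicClosure ℚ_[p])))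
          (img (AlgebraicClosure ℚ_[p]) (ρ p) H₀) U V))) := by
  obtain ⟨H₀, -, hfin, hprime⟩ := H76RM.exists_prime (K := AlgebraicClosure ℚ_[p]) (ρ p) ⊤ inferInstance
  obtain ⟨U, V, hL⟩ := mk_locU C.hψ C.hψ0 D (ρ p) (C.lin p) (C.sim p) (C.semis p) (C.commt p) (C.gen p) C.hspl
    C.frobp C.crys.phigen C.multp hfin hprime j i b ha hroot (fun k l N hN h =>
      ha (C.tor b ((hroot _).2 ⟨k, rfl⟩) ((hroot _).2 ⟨l, rfl⟩) hN h))
  exact ⟨H₀, U, V, hfin, hL⟩

/-- The same for `l ≠ p`. -/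
theorem Core5a.locl0 (b : Fin m)
    {n : ℕ} {a : Fin n → Ω} (ha : Function.Injective a)
    (hroot : ∀ y : Ω, (F b).eval₂ j y = 0 ↔ ∃ k, y = a k)
    (l : ℕ) [Fact l.Prime] (hl : l ≠ p) (i : Ω →+* AlgebraicClosure ℚ_[l]) :
    ∃ (H₀ : Subgroup G) (U : Matrix ι (Fin n) (AlgebraicClosure ℚ_[l]))
      (V : Matrix (Fin n) ι (AlgebraicClosure ℚ_[l])), H₀.FiniteIndex ∧
      LocU (ψ.map (algebraMap ℚ (AlgebraicClosure ℚ_[l]))) (img (AlgebraicClosure ℚ_[l]) (ρ l) H₀)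
        (properProj (AlgebraicClosure ℚ_[l]) (ρ l)) ((e b).map (i.comp j))
        ((ρ l σ).1.map (algebraMap ℚ_[l] (AlgebraicClosure ℚ_[l])))
        U V (fun k => i (a k)) (YS a) ∧
      (cl b = .s → SyL (LcN (ψ.map (algebraMap ℚ (AlgebraicClosure ℚ_[l])))
        (img (AlgebraicClosure ℚ_[l]) (ρ l) H₀) U V)) ∧
      (cl b = .o → OrL (LcN (ψ.map (algebraMap ℚ (AlgebraicClosure ℚ_[l])))
        (img (AlgebraicClosure ℚ_[l]) (ρ l) H₀) U V)) ∧
      ((∀ h ∈ properProj (AlgebraicClosure ℚ_[l]) (ρ l), 2 * (h * (e b).map (i.comp j)).rank = n) →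
        (∏ k, i (a k)) ^ 2 = algebraMap ℚ (AlgebraicClosure ℚ_[l]) q ^ n ∧
        H76Y.TM (LcN (ψ.map (algebraMap ℚ (AlgebraicClosure ℚ_[l])))
          (img (AlgebraicClosure ℚ_[l]) (ρ l) H₀) U V) ∧
        H76P.Yo (LcN (ψ.map (algebraMap ℚ (AlgebraicClosure ℚ_[l])))
          (img (AlgebraicClosure ℚ_[l]) (ρ l) H₀) U V) = YS a ∧
        (cl b = .n → NsL (LcN (ψ.map (algebraMap ℚ (AlgebraicClosure ℚ_[l])))
          (img (AlgebraicClosure ℚ_[l]) (ρ l) H₀) U V))) := by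
  obtain ⟨H₀, -, hfin, hprime⟩ := H76RM.exists_prime (K := AlgebraicClosure ℚ_[l]) (ρ l) ⊤ inferInstance
  have hmult : ((ρ l σ).1.map (algebraMap ℚ_[l] (AlgebraicClosure ℚ_[l])))ᵀ *
      ψ.map (algebraMap ℚ (AlgebraicClosure ℚ_[l])) * (ρ l σ).1.map (algebraMap ℚ_[l] (AlgebraicClosure ℚ_[l])) =
      algebraMap ℚ (AlgebraicClosure ℚ_[l]) q • ψ.map (algebraMap ℚ (AlgebraicClosure ℚ_[l])) := by
    have h1 := congrArg (fun m : Matrix ι ι ℚ_[l] => m.map (algebraMap ℚ_[l] (AlgebraicClosure ℚ_[l]))) (C.mult l hl)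
    have h2 : (ψ.map (algebraMap ℚ ℚ_[l])).map (algebraMap ℚ_[l] (AlgebraicClosure ℚ_[l])) =
        ψ.map (algebraMap ℚ (AlgebraicClosure ℚ_[l])) := by
      ext i j
      simp
    have h3 : (algebraMap ℚ ℚ_[l] q • ψ.map (algebraMap ℚ ℚ_[l])).map
        (algebraMap ℚ_[l] (AlgebraicClosure ℚ_[l])) =
        algebraMap ℚ (AlgebraicClosure ℚ_[l]) q • ψ.map (algebraMap ℚ (AlgebraicClosure ℚ_[l])) := by
      ext i j
      simp
    simp only [Matrix.map_mul] at h1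
    rw [h2, h3, Matrix.transpose_map] at h1
    exact h1
  obtain ⟨U, V, hL⟩ := mk_locU C.hψ C.hψ0 D (ρ l) (C.lin l) (C.sim l) (C.semis l) (C.commt l) (C.gen l) C.hspl
    (C.frob l hl) (C.gen l σ) hmult hfin hprime j i b ha hroot (fun k l N hN h =>
      ha (C.tor b ((hroot _).2 ⟨k, rfl⟩) ((hroot _).2 ⟨l, rfl⟩) hN h))
  exact ⟨H₀, U, V, hfin, hL⟩

/-- For each element `r` of `R` there is an embedding at which the valuation of `r` is `1`. -/
theorem Core5a.w2_i {r : Ω} (hr : r ∈ R) :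
    ∃ i : Ω →+* AlgebraicClosure ℚ_[p], v (i r) = 1 := by
  obtain ⟨i₀⟩ := H76Z.w9_exists_i p Ω
  obtain ⟨r₀, hr₀, h1, -⟩ := C.Rval i₀
  obtain ⟨s, hs⟩ := C.Rtrans r hr r₀ hr₀
  refine ⟨i₀.comp s.toRingHom, ?_⟩
  show v (i₀ (s r)) = 1
  rw [hs, h1]

/-- The function of the signs at an element of `R`. -/
theorem Core5a.ht_at (b : Fin m)
    {n : ℕ} {a : Fin n → Ω} (ha : Function.Injective a)
    (hroot : ∀ y : Ω, (F b).eval₂ j y = 0 ↔ ∃ k, y = a k) {r : Ω} (hr : r ∈ R) :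
    ∃ (ε : Fin n → ℚ) (c : ℚ), (∀ k, ε k = 1 ∨ ε k = -1) ∧ (fun k => ε k - c) ∈ YS a ∧
      (Finset.univ.filter fun k => ε k = 1).card = hd b r := by
  obtain ⟨i, hi⟩ := C.w2_i hr
  obtain ⟨H₀, U, V, -, hL, -⟩ := C.locp0 b ha hroot i
  obtain ⟨ε, hε⟩ := exists_HT hL C.crys.mu C.crys.muphi
  obtain ⟨-, h1, c, h2, -⟩ := HT_spec hL C.crys.mu C.crys.muphi hε
  refine ⟨ε, c, h1, h2, ?_⟩
  rw [← HT_rank hL C.crys.mu C.crys.muphi hε]
  exact C.hdg b i r hr hi

/-- In the class without a form all algebras with the configuration of a component with unequal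
multiplicities respect no form. -/
theorem Core5a.cls_n (b : Fin m)
    {n : ℕ} {a : Fin n → Ω} (ha : Function.Injective a)
    (hroot : ∀ y : Ω, (F b).eval₂ j y = 0 ↔ ∃ k, y = a k) {r : Ω} (hr : r ∈ R)
    (h0 : hd b r ≠ 0) (h1 : hd b r ≠ (e b).rank) (h2 : 2 * hd b r ≠ (e b).rank)
    {K : Type*} [Field K] [CharZero K] [IsAlgClosed K]
    {L : Submodule K (Module.End K (Fin n → K))} [Nonempty (Fin n)]
    (hT : TM L) (hY : Yo L = YS a) : NsL L := by
  obtain ⟨ε, c, h3, h4, h5⟩ := C.ht_at b ha hroot hr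
  have hn := C.card b ha hroot
  refine ns_of hT hY h3 h4 ?_ ?_ ?_
  · rw [h5, Fintype.card_fin, hn]
    exact h2
  · rw [h5]
    exact h0
  · rw [h5, Fintype.card_fin, hn]
    exact h1

/-- The eigenvalues are not zero. -/
theorem Core5a.ne (b : Fin m) {n : ℕ} {a : Fin n → Ω}
    (hroot : ∀ y : Ω, (F b).eval₂ j y = 0 ↔ ∃ k, y = a k) (k : Fin n) : a k ≠ 0 := by
  let i : Ω →+* AlgebraicClosure ℚ_[p] := (IsAlgClosed.lift : Ω →ₐ[ℚ] AlgebraicClosure ℚ_[p]).toRingHom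
  intro h0
  exact w1_ne C i b ((hroot (a k)).2 ⟨k, rfl⟩) (by rw [h0, map_zero])

/-- The multiplier is not zero. -/
theorem Core5a.q_ne (b : Fin m) : algebraMap ℚ Ω q ≠ 0 := by
  intro h0
  have h1 : q = 0 := by
    rw [← map_zero (algebraMap ℚ Ω)] at h0
    exact (algebraMap ℚ Ω).injective h0
  exact absurd (C.multp) (by
    rw [h1, map_zero, zero_smul]
    intro h3
    have h4 := congrArg Matrix.det h3
    obtain ⟨-, hdet⟩ := gram_basic C.hψ C.hψ0 (AlgebraicClosure ℚ_[p])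
    have hι : Nonempty ι := by
      by_contra hemp
      rw [not_nonempty_iff] at hemp
      apply C.hspl.ne_zero b
      ext i'
      exact (hemp.false i').elim
    rw [Matrix.det_mul, Matrix.det_mul, Matrix.det_transpose, Matrix.det_zero] at h4
    exact mul_ne_zero (mul_ne_zero C.frobp.idc.1 hdet.ne_zero) C.frobp.idc.1 h4)

/-- The valuation of the product of the eigenvalues is the multiplicity. -/
theorem Core5a.vprod (b : Fin m)
    {n : ℕ} {a : Fin n → Ω} (ha : Function.Injective a)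
    (hroot : ∀ y : Ω, (F b).eval₂ j y = 0 ↔ ∃ k, y = a k) (i : Ω →+* AlgebraicClosure ℚ_[p]) :
    v (i (∏ k, a k)) = (μ * (e b).map (i.comp j)).rank := by
  have hv : IsVal v := C.crys.val
  obtain ⟨H₀, U, V, -, hL, -, -, h3⟩ := C.locp0 b ha hroot i
  by_cases hb : cl b = .n
  · rw [← C.wa b hb (i.comp j), det_comp hL.UV hL.VU hL.ec.eig, map_prod]
  · have hc := C.card b ha hroot
    have hbal := fun h hh => (C.bal p h hh (i.comp j) b hb).trans hc.symm
    obtain ⟨h1, -⟩ := h3 hbal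
    have hi : ∀ {z : Ω}, z ≠ 0 → i z ≠ 0 := fun hz => (map_ne_zero i).2 hz
    have hpa0 : (∏ k, a k) ≠ 0 := Finset.prod_ne_zero_iff.2 fun k _ => C.ne b hroot k
    have hq0 : algebraMap ℚ (AlgebraicClosure ℚ_[p]) q ≠ 0 := by
      intro h0
      have h2 := hi (C.q_ne b)
      apply h2
      rw [eq_ratCast, map_ratCast, ← eq_ratCast (algebraMap ℚ (AlgebraicClosure ℚ_[p]))]
      exact h0
    have h2 : 2 * v (i (∏ k, a k)) = n := by
      have h4 := H76Z.w6y_vpow hv (hi hpa0) 2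
      rw [map_prod, h1, H76Z.w6y_vpow hv hq0, C.vq, ← map_prod] at h4
      push_cast at h4
      linarith
    have h5 : ((2 * (μ * (e b).map (i.comp j)).rank : ℕ) : ℚ) = n := by
      rw [hbal μ C.crys.mu]
    push_cast at h5
    linarith

end Pool.Agent.H45U
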