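import Pool.Agent.Lib.H25U.U0
import Pool.Agent.Lib.H76Z.Z1

/-!
# U1: definitions for the fifth version (components without a form, all multiplicities)
-/

set_option autoImplicit false
set_option linter.unusedSectionVars false
namespace Pool.Agent.H45U
open Module Matrix Polynomial Pool.Agent.H53Toric
open Pool.Agent.H25U
open Pool.Agent.H76P hiding Hs Yo pt pt_apply wc IsWt
open Pool.Agent.H76Q
open Pool.Agent.H76Y hiding CmpN TM LocN GoodN Cls Core3 PartN MumN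
open Pool.Agent.H76Z hiding LocN GoodN Cls Core3
open Pool.Agent.H76U (cmp preL Lb)
open Pool.Agent.H76RM (spanK similD)

section
variable {κ : Type*} [Fintype κ] [DecidableEq κ] {K : Type*} [Field K]

/-- `L` respects an alternating form, a symmetric form, no form, according to the class `t`; there is
no condition in the class without a form in the dimensions `1` and `2`. -/
def ClsU (t : Cl) (L : Submodule K (Module.End K (κ → K))) : Prop :=
  (t = .s → SyL L) ∧ (t = .o → OrL L) ∧ (t = .n → 2 < Fintype.card κ → NsL L)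

/-- `P` is compatible with the simple ideals of all Lie algebras in the class `t` with the
configuration `Y`. -/
def GoodU {n : ℕ} {Y : Submodule ℚ (Fin n → ℚ)} (t : Cl) (P : Module.End ℚ Y) : Prop :=
  ∀ (K : Type) [Field K] [CharZero K] [IsAlgClosed K]
    (L : Submodule K (Module.End K (Fin n → K))), TM L → ClsU t L → Yo L = Y → Comp L P

end

section
variable {ι : Type*} [Fintype ι] [DecidableEq ι] {K : Type*} [Field K]

/-- `e = U V` an idempotent, `V U = 1`, the columns of `U` are eigenvectors of `x` with the eigenvalues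
`d`; `S` the image of a subgroup of finite index, `𝓗` the set of projectors, `Y` the configuration. -/
structure LocU [CharZero K]
    (J : Matrix ι ι K) (S 𝓗 : Set (Matrix ι ι K)) (e x : Matrix ι ι K) {n : ℕ}
    (U : Matrix ι (Fin n) K) (V : Matrix (Fin n) ι K) (d : Fin n → K)
    (Y : Submodule ℚ (Fin n → ℚ)) : Prop where
  pos : 0 < n
  UV : e = U * V
  VU : V * U = 1
  ec : EC x U d
  ex : e * x = x * e
  ts : TM (LcN J S U V)
  yo : Yo (LcN J S U V) = Y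
  par : ∀ h ∈ 𝓗, h * h = h ∧ h * e = e * h ∧
    ∃ c : ℚ, phi (cmp U V ((2 : K) • h - (c : K) • 1)) ∈ LcN J S U V
  lie : ∀ C ∈ zlie S, C * e = e * C ∧ ∃ c : K, phi (cmp U V (C - c • 1)) ∈ LcN J S U V

end

/-- The combinatorial structure on the set `R` given by a decomposition of the component `e` into `k`
tensor factors with the dimensions `A`; `h r` is the multiplicity of the component at `r`.  `c`
distributes the elements of `R` whose multiplicity is not `0` and not the rank of `e` into `k`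
classes, which are permuted by all `s` such that the image of `e` under `s` is linked with `e` or with
the conjugate `e'` of `e`; `s` acts trivially on the classes if it acts on the roots of `F` as
`y ↦ q / y`, and the permutation has a cycle of odd length if `t` is true and a fixed point if `u` is
true. -/
structure PartU {ι : Type*} [Fintype ι] [DecidableEq ι] (D : Subalgebra ℚ (Matrix ι ι ℚ))
    {M Ω : Type*} [Field M] [Field Ω] [CharZero Ω] (j : M →+* Ω) (t u : Prop) (e e' : Matrix ι ι M)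
    (F : M[X]) (q : ℚ) (R : Finset Ω) (h : Ω → ℕ) {k : ℕ} (c : Ω → Option (Fin k)) (A : Fin k → ℕ) :
    Prop where
  none : ∀ r ∈ R, c r = none ↔ h r = 0 ∨ h r = e.rank
  surj : ∀ x, ∃ r ∈ R, c r = some x
  dvd : ∀ r ∈ R, ∀ x, c r = some x → e.rank ∣ h r * A x
  two : ∀ x, 2 ≤ A x
  perm : ∀ s : Ω ≃+* Ω, Linked D (e.map j) (e.map (s.toRingHom.comp j)) ∨
      Linked D (e'.map j) (e.map (s.toRingHom.comp j)) →
    ∃ π : Equiv.Perm (Fin k), (∀ r ∈ R, c (s r) = (c r).map π) ∧ (∀ x, A (π x) = A x) ∧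
      ((∀ y, F.eval₂ j y = 0 → s y * y = algebraMap ℚ Ω q) → π = 1) ∧
      (t → ∃ (n : ℕ) (x : Fin k), Odd n ∧ (π ^ n) x = x) ∧ (u → ∃ x : Fin k, π x = x)

/-- The combinatorial structure on the set of embeddings of `F` given by a decomposition of the
component `e` into `k` tensor factors with the dimensions `A`; `h τ` is the multiplicity of the
component at the embedding `τ`.  `c` distributes the embeddings whose multiplicity is not `0` and not
the rank of `e` into `k` classes, which are permuted by all `s` such that the image of `e` under `s`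
is linked with `e` or with the conjugate `e'` of `e`; complex conjugations act trivially on the
classes, and the permutation has a cycle of odd length if `t` is true and a fixed point if `u` is
true. -/
structure MumU {ι : Type*} [Fintype ι] [DecidableEq ι] (D : Subalgebra ℚ (Matrix ι ι ℚ))
    {M Ω : Type*} [Field M] [Field Ω] [CharZero Ω] (j : M →+* Ω) (t u : Prop) (e e' : Matrix ι ι M)
    (F : Type*) [Field F] (h : (F →+* Ω) → ℕ) {k : ℕ} (c : (F →+* Ω) → Option (Fin k))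
    (A : Fin k → ℕ) : Prop where
  none : ∀ τ, c τ = none ↔ h τ = 0 ∨ h τ = e.rank
  surj : ∀ x, ∃ τ, c τ = some x
  dvd : ∀ τ x, c τ = some x → e.rank ∣ h τ * A x
  two : ∀ x, 2 ≤ A x
  perm : ∀ s : Ω ≃+* Ω, Linked D (e.map j) (e.map (s.toRingHom.comp j)) ∨
      Linked D (e'.map j) (e.map (s.toRingHom.comp j)) →
    ∃ π : Equiv.Perm (Fin k), (∀ τ : F →+* Ω, c (s.toRingHom.comp τ) = (c τ).map π) ∧
      (∀ x, A (π x) = A x) ∧
      ((∃ κ : Ω →+* ℂ, ∀ y, κ (s y) = starRingEnd ℂ (κ y)) → π = 1) ∧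
      (t → ∃ (n : ℕ) (x : Fin k), Odd n ∧ (π ^ n) x = x) ∧ (u → ∃ x : Fin k, π x = x)

/-- The hypotheses of the fifth version of the theorem except the conditions on the ranks and on the
multiplicities; `hd b r` is
the multiplicity of the component `b` at `r`, and `ub b` says that the component `b` is not the
component of an abelian variety with potentially good reduction at almost all `l`. -/
structure Core5a {ι : Type*} [Fintype ι] [DecidableEq ι] (ψ : Matrix ι ι ℚ)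
    (D : Subalgebra ℚ (Matrix ι ι ℚ)) {M : Type*} [Field M] [NumberField M]
    {m : ℕ} (cl : Fin m → Cl) (bar : Fin m → Fin m) (e : Fin m → Matrix ι ι M) (u : Matrix ι ι M) {G : Type*} [Group G]
    (ρ : ∀ (l : ℕ) [Fact l.Prime], G →* Matrix.GeneralLinearGroup ι ℚ_[l])
    (p : ℕ) [Fact p.Prime] (σ : G) (q : ℚ) (F : Fin m → M[X])
    (φ μ ν : Matrix ι ι (AlgebraicClosure ℚ_[p])) (v : AlgebraicClosure ℚ_[p] → ℚ)
    (Δ : Set (AlgebraicClosure ℚ_[p] ≃+* AlgebraicClosure ℚ_[p]))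
    {Ω : Type*} [Field Ω] [CharZero Ω] [IsAlgClosed Ω] [Algebra.IsAlgebraic ℚ Ω] (j : M →+* Ω)
    (R : Finset Ω) (N : Set ℕ) (hd : Fin m → Ω → ℕ) (ub : Fin m → Prop) : Prop where
  hψ : ψᵀ = -ψ
  hψ0 : ψ.det ≠ 0
  hspl : Splits D ψ cl bar e u
  lin : ∀ (l : ℕ) [Fact l.Prime], ∀ g : G, ∀ d ∈ D,
      (ρ l g).1 * d.map (algebraMap ℚ ℚ_[l]) = d.map (algebraMap ℚ ℚ_[l]) * (ρ l g).1
  sim : ∀ (l : ℕ) [Fact l.Prime], ∀ g : G, ∃ c : ℚ_[l],
      (ρ l g).1ᵀ * ψ.map (algebraMap ℚ ℚ_[l]) * (ρ l g).1 = c • ψ.map (algebraMap ℚ ℚ_[l])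
  semis : ∀ (l : ℕ) [Fact l.Prime], ∀ H : Subgroup G, H.FiniteIndex →
      ∀ W : Submodule (AlgebraicClosure ℚ_[l]) (ι → AlgebraicClosure ℚ_[l]),
      (∀ s ∈ img (AlgebraicClosure ℚ_[l]) (ρ l) H, ∀ w ∈ W, s *ᵥ w ∈ W) →
      ∃ W' : Submodule (AlgebraicClosure ℚ_[l]) (ι → AlgebraicClosure ℚ_[l]),
        (∀ s ∈ img (AlgebraicClosure ℚ_[l]) (ρ l) H, ∀ w ∈ W', s *ᵥ w ∈ W') ∧ IsCompl W W'
  commt : ∀ (l : ℕ) [Fact l.Prime], ∀ H : Subgroup G, H.FiniteIndex →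
      ∀ y : Matrix ι ι (AlgebraicClosure ℚ_[l]),
      (∀ s ∈ img (AlgebraicClosure ℚ_[l]) (ρ l) H, y * s = s * y) →
        y ∈ spanK (AlgebraicClosure ℚ_[l]) D
  gen : ∀ (l : ℕ) [Fact l.Prime], ∀ g : G,
      (ρ l g).1.map (algebraMap ℚ_[l] (AlgebraicClosure ℚ_[l])) ∈
        tgen (AlgebraicClosure ℚ_[l]) (ρ l)
  bal : ∀ (l : ℕ) [Fact l.Prime], ∀ h ∈ properProj (AlgebraicClosure ℚ_[l]) (ρ l),
      ∀ (i : M →+* AlgebraicClosure ℚ_[l]) (b : Fin m), cl b ≠ .n →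
        2 * (h * (e b).map i).rank = (e b).rank
  wa : ∀ b : Fin m, cl b = .n → ∀ i : M →+* AlgebraicClosure ℚ_[p],
      v (1 - (e b).map i + φ * (e b).map i).det = (μ * (e b).map i).rank
  hdg : ∀ (b : Fin m) (i : Ω →+* AlgebraicClosure ℚ_[p]), ∀ r ∈ R, v (i r) = 1 →
      (μ * (e b).map (i.comp j)).rank = hd b r
  hq : ∀ n : ℕ, n ≠ 0 → q ^ n ≠ 1
  mult : ∀ (l : ℕ) [Fact l.Prime], l ≠ p →
      (ρ l σ).1ᵀ * ψ.map (algebraMap ℚ ℚ_[l]) * (ρ l σ).1 =
        algebraMap ℚ ℚ_[l] q • ψ.map (algebraMap ℚ ℚ_[l])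
  frob : ∀ (l : ℕ) [Fact l.Prime], l ≠ p →
      FrobT (AlgebraicClosure ℚ_[l]) (ρ l) e F
        ((ρ l σ).1.map (algebraMap ℚ_[l] (AlgebraicClosure ℚ_[l])))
  frobp : FrobT (AlgebraicClosure ℚ_[p]) (ρ p) e F φ
  multp : φᵀ * ψ.map (algebraMap ℚ (AlgebraicClosure ℚ_[p])) * φ =
      algebraMap ℚ (AlgebraicClosure ℚ_[p]) q • ψ.map (algebraMap ℚ (AlgebraicClosure ℚ_[p]))
  crys : CrysN (AlgebraicClosure ℚ_[p]) (ρ p) e σ φ μ ν v Δ
  vq : v (algebraMap ℚ (AlgebraicClosure ℚ_[p]) q) = 1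
  hN : p ∈ N
  arith : ∀ b, H45P.ArithM (e b).rank R N ρ σ
  munr : ∀ b, ∀ δ ∈ Δ, ∀ z : AlgebraicClosure ℚ_[p], z ^ (e b).rank = 1 → δ z = z
  Rstab : ∀ s : Ω ≃+* Ω, ∀ r ∈ R, s r ∈ R
  Rval : ∀ i : Ω →+* AlgebraicClosure ℚ_[p],
      ∃ r ∈ R, v (i r) = 1 ∧ ∀ r' ∈ R, r' ≠ r → v (i r') = 0
  Rfix : ∀ i : Ω →+* AlgebraicClosure ℚ_[p], ∀ r ∈ R, ∀ δ ∈ Δ, δ (i r) = i r
  Rtrans : ∀ r ∈ R, ∀ r' ∈ R, ∃ s : Ω ≃+* Ω, s r = r'
  dec : ∀ (s : Ω ≃+* Ω) (T : Finset Ω), ∃ (l : ℕ) (_ : Fact l.Prime), l ∉ N ∧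
      ∃ (i : Ω →+* AlgebraicClosure ℚ_[l]) (t : AlgebraicClosure ℚ_[l] ≃ₐ[ℚ_[l]] AlgebraicClosure ℚ_[l]),
        ∀ x ∈ T, t (i x) = i (s x)
  bad : ∀ b, ub b → ∀ (l : ℕ) [Fact l.Prime], l ∉ N → ∃ X : Matrix ι ι ℚ_[l], X * X = 0 ∧
      (∀ H : Subgroup G, H.FiniteIndex → X.map (algebraMap ℚ_[l] (AlgebraicClosure ℚ_[l])) ∈
        zlie (img (AlgebraicClosure ℚ_[l]) (ρ l) H)) ∧
      ∀ i : M →+* AlgebraicClosure ℚ_[l],
        X.map (algebraMap ℚ_[l] (AlgebraicClosure ℚ_[l])) * (e b).map i ≠ 0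
  gal : ∀ b, ∀ a a' : Ω, (F b).eval₂ j a = 0 → (F b).eval₂ j a' = 0 → a ≠ a' →
      ∃ i : Ω →+* AlgebraicClosure ℚ_[p], v (i a) ≠ v (i a')
  tors : ∀ z ∈ Subgroup.closure {z : Ωˣ | (z : Ω) = algebraMap ℚ Ω q ∨ ∃ b, (F b).eval₂ j (z : Ω) = 0},
      (∀ i : Ω →+* AlgebraicClosure ℚ_[p], v (i z) = 0) → ∃ n : ℕ, n ≠ 0 ∧ z ^ n = 1

/-- The set of the roots of `F` is not mapped to itself by any `y ↦ z / y`. -/
def NoDual {M Ω : Type*} [Field M] [Field Ω] (j : M →+* Ω) (F : M[X]) : Prop :=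
  ¬ ∃ z : Ω, ∀ y : Ω, F.eval₂ j y = 0 → ∃ y' : Ω, F.eval₂ j y' = 0 ∧ y * y' = z

/-- The roots of `F` are not mapped to roots of `F'` by any `y ↦ z y`. -/
def NoProp {M Ω : Type*} [Field M] [Field Ω] (j : M →+* Ω) (F F' : M[X]) : Prop :=
  ¬ ∃ z : Ω, ∀ y : Ω, F.eval₂ j y = 0 → F'.eval₂ j (z * y) = 0

/-- The roots of `F` are not, up to a constant `z`, products of two different roots of `F'`. -/
def NoSix {M Ω : Type*} [Field M] [Field Ω] (j : M →+* Ω) (F F' : M[X]) : Prop :=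
  ¬ ∃ z : Ω, ∀ y : Ω, F.eval₂ j y = 0 → ∃ y₁ y₂ : Ω, F'.eval₂ j y₁ = 0 ∧ F'.eval₂ j y₂ = 0 ∧
    y₁ ≠ y₂ ∧ y = z * (y₁ * y₂)

/-- The hypotheses of the fifth version with the condition on the components without a form. -/
structure Core5 {ι : Type*} [Fintype ι] [DecidableEq ι] (ψ : Matrix ι ι ℚ)
    (D : Subalgebra ℚ (Matrix ι ι ℚ)) {M : Type*} [Field M] [NumberField M]
    {m : ℕ} (cl : Fin m → Cl) (bar : Fin m → Fin m) (e : Fin m → Matrix ι ι M) (u : Matrix ι ι M) {G : Type*} [Group G]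
    (ρ : ∀ (l : ℕ) [Fact l.Prime], G →* Matrix.GeneralLinearGroup ι ℚ_[l])
    (p : ℕ) [Fact p.Prime] (σ : G) (q : ℚ) (F : Fin m → M[X])
    (φ μ ν : Matrix ι ι (AlgebraicClosure ℚ_[p])) (v : AlgebraicClosure ℚ_[p] → ℚ)
    (Δ : Set (AlgebraicClosure ℚ_[p] ≃+* AlgebraicClosure ℚ_[p]))
    {Ω : Type*} [Field Ω] [CharZero Ω] [IsAlgClosed Ω] [Algebra.IsAlgebraic ℚ Ω] (j : M →+* Ω)
    (R : Finset Ω) (N : Set ℕ) (hd : Fin m → Ω → ℕ) (ub : Fin m → Prop) : Prop extends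
    Core5a ψ D cl bar e u ρ p σ q F φ μ ν v Δ j R N hd ub where
  alt : ∀ b : Fin m, cl b = .n → (e b).rank ≤ 2 ∨ (∀ r ∈ R, 2 * hd b r = (e b).rank) ∨
      (∃ r ∈ R, hd b r ≠ 0 ∧ hd b r ≠ (e b).rank ∧ 2 * hd b r ≠ (e b).rank) ∨ NoDual j (F b)

end Pool.Agent.H45U
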