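import Pool.Agent.Lib.H76Y.G5
import Pool.Agent.Lib.H25U.T1
import Pool.Agent.Lib.H45U.U1

/-!
# G4: the component in an eigenbasis, without a condition of balance
-/

set_option autoImplicit false
set_option linter.unusedSectionVars false
namespace Pool.Agent.H45U
open Module Matrix Polynomial Pool.Agent.H53Toric
open Pool.Agent.H25U (CmpN TM Hs Yo)
open Pool.Agent.H76P hiding Hs Yo pt pt_apply wc IsWt
open Pool.Agent.H76V Pool.Agent.H76Q
open Pool.Agent.H76Y hiding CmpN TM LocN GoodN Cls Core3 PartN MumN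
open Pool.Agent.H76RM (van zlie_commute)
open Pool.Agent.H76U (preL cmp Split4 preL_e P_cmp irr_comp p_P mem_Lb preL_bracket cmp_mul cmp_one)
open Pool.Agent.H76V (SH)

variable {ι : Type*} [Fintype ι] [DecidableEq ι] {K : Type*} [Field K]
  [CharZero K] [IsAlgClosed K] {B : Type*} [Fintype B] [DecidableEq B]
  {J : Matrix ι ι K} {DD : Submodule K (Matrix ι ι K)}
  {bar : B → B} {e : B → Matrix ι ι K} (h : Split4 J DD bar e) {b : B}
  {n : ℕ} {S : Set (Matrix ι ι K)} {𝓗 : Set (Matrix ι ι K)} {φ φ' : Matrix ι ι K}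
  (hdet : IsUnit J.det)
  {P : Matrix ι (Fin n) K} {Q : Matrix (Fin n) ι K}
  (hPQ : e b = P * Q) (hQP : Q * P = 1)
  (g : PH S J DD 𝓗 φ φ') {d : Fin n → K} (E : EC φ P d)


/-- The constant by which the projector of rank `r` on a space of dimension `n` is shifted. -/
def sc (n r : ℕ) : ℚ := 2 * r / n

include h hdet hPQ hQP g in
/-- `2 x - c` has trace zero on the component if `c = 2 rank (x e_b) / n`. -/
theorem shift_mem (hn : 0 < n) {x : Matrix ι ι K} (hx : x ∈ 𝓗) :
    phi (cmp P Q ((2 : K) • x - ((sc n (x * e b).rank : ℚ) : K) • 1)) ∈ LcN J S P Q := by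
  have hxe := g5_comm (b := b) h g hx
  refine g4_mem h hPQ hQP g (g4_preL hdet g ((zlie S).smul_mem (2 : K) (g.sh.hz x hx)) _) ?_
  have h1 : cmp P Q x * cmp P Q x = cmp P Q x := by
    rw [← Pool.Agent.H76U.cmp_mul hPQ hQP hxe, g.sh.hi x hx]
  have h2 : (cmp P Q x).trace = ((cmp P Q x).rank : K) := by
    have h3 : phi (cmp P Q x) * phi (cmp P Q x) = phi (cmp P Q x) := by rw [← map_mul, h1]
    have h4 := trace_idem h3
    rw [g4_trace] at h4
    exact h4
  have h5 : (cmp P Q x).rank = (x * e b).rank := Pool.Agent.H76U.rank_cmp hPQ hQP hxe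
  have hn' : (n : K) ≠ 0 := by exact_mod_cast hn.ne'
  rw [map_sub, map_smul, map_smul, Pool.Agent.H76U.cmp_one hPQ hQP, Matrix.trace_sub,
    Matrix.trace_smul, Matrix.trace_smul, h2, h5, Matrix.trace_one, Fintype.card_fin, smul_eq_mul,
    smul_eq_mul]
  unfold sc
  push_cast
  rw [div_mul_cancel₀ _ hn', sub_self]

include h hPQ hQP g in
/-- `2 x - c`, shifted by `c - 1`, has square `1`. -/
theorem shift_sq {x : Matrix ι ι K} (hx : x ∈ 𝓗) (c : K) :
    (phi (cmp P Q ((2 : K) • x - c • 1)) + (c - 1) • 1) *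
      (phi (cmp P Q ((2 : K) • x - c • 1)) + (c - 1) • 1) = 1 := by
  have hxe := g5_comm (b := b) h g hx
  have h3 : cmp P Q x * cmp P Q x = cmp P Q x := by
    rw [← cmp_mul hPQ hQP hxe, g.sh.hi x hx]
  have h4 : phi (cmp P Q ((2 : K) • x - c • 1)) + (c - 1) • (1 : Module.End K (Fin n → K)) =
      phi ((2 : K) • cmp P Q x - 1) := by
    rw [map_sub (cmp P Q), map_smul (cmp P Q), map_smul (cmp P Q), cmp_one hPQ hQP,
      map_sub (phi (ι := Fin n) (K := K)), map_sub (phi (ι := Fin n) (K := K)),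
      map_smul (phi (ι := Fin n) (K := K)) c, map_one (phi (ι := Fin n) (K := K))]
    module
  rw [h4, ← map_mul, ← map_one (phi (ι := Fin n) (K := K))]
  congr 1
  simp only [sub_mul, mul_sub, smul_mul_assoc, mul_smul_comm, h3, mul_one, one_mul]
  module

include h hPQ hQP g in
theorem shift_of {W : Submodule K (Fin n → K)} (c : Matrix ι ι K → K) (hinv : ∀ x ∈ 𝓗, ∀ w ∈ W,
    phi (cmp P Q ((2 : K) • x - c x • 1)) w ∈ W) : W = ⊥ ∨ W = ⊤ := by
  refine g5_irr h hPQ hQP g fun x hx w hw => ?_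
  have h3 := hinv x hx w hw
  rw [map_sub, map_smul, map_smul, cmp_one hPQ hQP, phi_apply, Matrix.sub_mulVec, Matrix.smul_mulVec,
    Matrix.smul_mulVec, Matrix.one_mulVec] at h3
  have h4 := W.smul_mem (1 / 2 : K) (W.add_mem h3 (W.smul_mem (c x) hw))
  rw [sub_add_cancel, smul_smul] at h4
  norm_num at h4
  exact h4

include h hdet hPQ hQP g in
theorem cmp_unitU (hn : 0 < n) : CmpN (LcN J S P Q) := by
  have : Nonempty (Fin n) := ⟨⟨0, hn⟩⟩
  refine ⟨?_, ?_, fun X hX => hX.2, ?_⟩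
  · intro X hX Y hY
    refine ⟨?_, ?_⟩
    · obtain ⟨x, rfl⟩ := (phi (ι := Fin n) (K := K)).surjective X
      obtain ⟨y, rfl⟩ := (phi (ι := Fin n) (K := K)).surjective Y
      obtain ⟨A, hA, rfl⟩ := mem_Lb.1 hX.1
      obtain ⟨A', hA', rfl⟩ := mem_Lb.1 hY.1
      rw [← map_mul (phi (ι := Fin n) (K := K)), ← map_mul (phi (ι := Fin n) (K := K)),
        ← map_sub (phi (ι := Fin n) (K := K)), ← cmp_mul hPQ hQP (preL_e h g.sh.one g.sh.SD hA'),
        ← cmp_mul hPQ hQP (preL_e h g.sh.one g.sh.SD hA), ← map_sub]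
      obtain ⟨h1, h2⟩ := preL_bracket hA hA'
      exact mem_Lb.2 ⟨_, ⟨⟨0, _, h1, by rw [zero_smul, add_zero]⟩, 0, by rw [h2, zero_smul]⟩, rfl⟩
    · rw [map_sub, LinearMap.trace_mul_comm, sub_self]
  · intro W hW
    exact shift_of h hPQ hQP g (fun x => ((sc n (x * e b).rank : ℚ) : K))
      fun x hx w hw => hW _ (shift_mem h hdet hPQ hQP g hn hx) w hw
  · intro T hT
    obtain ⟨c, hc⟩ := Module.End.exists_eigenvalue T
    refine ⟨c, ?_⟩
    have h1 : Module.End.eigenspace T c = ⊤ := by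
      rcases shift_of h hPQ hQP g (W := Module.End.eigenspace T c)
        (fun x => ((sc n (x * e b).rank : ℚ) : K)) (fun x hx w hw => by
        rw [Module.End.mem_eigenspace_iff] at hw ⊢
        have h2 := hT _ (shift_mem h hdet hPQ hQP g hn hx) ⟨_, shift_sq h hPQ hQP g hx _⟩
        have h3 := congrArg (fun f : Module.End K (Fin n → K) => f w) h2
        change T ((phi (cmp P Q ((2 : K) • x - ((sc n (x * e b).rank : ℚ) : K) • 1))) w) =
          (phi (cmp P Q ((2 : K) • x - ((sc n (x * e b).rank : ℚ) : K) • 1))) (T w) at h3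
        rw [h3, hw, map_smul]) with h2 | h2
      · exact absurd h2 hc
      · exact h2
    apply LinearMap.ext
    intro w
    have h2 : w ∈ Module.End.eigenspace T c := by rw [h1]; trivial
    rw [Module.End.mem_eigenspace_iff] at h2
    exact h2

include h hdet hPQ hQP g E in
/-- PROOF. `x` commutes with `e b` and `φ`, so its compression is diagonal with entries `0` and `1`. -/
theorem eps_memU (hn : 0 < n) {x : Matrix ι ι K} (hx : x ∈ 𝓗) (hxφ : x * φ = φ * x) :
    ∃ (c : ℚ) (ε : Fin n → ℚ), (∀ a, ε a = c + 1 ∨ ε a = c - 1) ∧ ε ∈ Hs (LcN J S P Q) ∧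
      cmp P Q x = Matrix.diagonal (fun k => if ε k = c + 1 then (1 : K) else 0) := by
  classical
  have hxe := g5_comm (b := b) h g hx
  obtain ⟨f, hf⟩ := cmp_diag h hPQ hQP g E hxe hxφ
  have hff : ∀ k, f k = 0 ∨ f k = 1 := by
    intro k
    have h1 := Pool.Agent.H76U.cmp_mul hPQ hQP (A := x) (C := x) hxe
    rw [g.sh.hi x hx, hf, Matrix.diagonal_mul_diagonal] at h1
    have h2 := congrFun (congrFun h1 k) k
    rw [Matrix.diagonal_apply_eq, Matrix.diagonal_apply_eq] at h2
    have h3 : f k * (f k - 1) = 0 := by rw [mul_sub, mul_one, ← h2, sub_self]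
    rcases mul_eq_zero.1 h3 with h4 | h4
    · exact Or.inl h4
    · exact Or.inr (sub_eq_zero.1 h4)
  have hmem := shift_mem h hdet hPQ hQP g hn hx
  obtain ⟨s, hs⟩ : ∃ s : ℚ, s = sc n (x * e b).rank := ⟨_, rfl⟩
  rw [← hs] at hmem
  have h01 : ¬ (0 : K) = 1 := zero_ne_one
  obtain ⟨ε, hε⟩ : ∃ ε : Fin n → ℚ, ∀ k, ε k = if f k = 1 then 2 - s else -s := ⟨_, fun _ => rfl⟩
  have hval : phi (cmp P Q ((2 : K) • x - (s : K) • 1)) = dq ε := by
    have h1 : cmp P Q ((2 : K) • x - (s : K) • 1) = Matrix.diagonal (fun k => 2 * f k - (s : K)) := by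
      rw [map_sub, map_smul, map_smul, Pool.Agent.H76U.cmp_one hPQ hQP, hf]
      ext i j
      by_cases hij : i = j
      · subst hij
        simp
      · simp [Matrix.diagonal_apply_ne _ hij, Matrix.one_apply_ne hij]
    rw [h1, phi_diag]
    unfold dq
    congr 1
    ext k
    rw [hε k]
    rcases hff k with h2 | h2
    · have h3 : ¬ f k = 1 := by rw [h2]; exact zero_ne_one
      rw [if_neg h3, h2]
      push_cast
      ring
    · rw [if_pos h2, h2]
      push_cast
      ring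
  have hpm : ∀ a, ε a = (1 - s) + 1 ∨ ε a = (1 - s) - 1 := by
    intro a
    rw [hε a]
    split_ifs
    · left
      ring
    · right
      ring
  refine ⟨1 - s, ε, hpm, ⟨⟨1 - s, hpm⟩, ?_⟩, ?_⟩
  · rw [← hval]
    exact hmem
  · rw [hf]
    congr 1
    funext k
    rcases hff k with h2 | h2
    · have h3 : ¬ f k = 1 := by rw [h2]; exact zero_ne_one
      have h4 : ¬ (ε k = 1 - s + 1) := by
        rw [hε k, if_neg h3]
        intro h5
        linarith
      rw [if_neg h4]
      exact h2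
    · have h4 : ε k = 1 - s + 1 := by
        rw [hε k, if_pos h2]
        ring
      rw [if_pos h4]
      exact h2

include h hdet hPQ hQP g E in
/-- The proof is that of `H76Y.loglin_of_mem`, which does not use the balance. -/
theorem loglin_of_memU {f : Fin n → K} (hf : dg f ∈ LcN J S P Q) :
    ∃ c : K, LogLin d (fun k => f k - c) := by
  classical
  have hf1 : phi (Matrix.diagonal f) ∈ Pool.Agent.H76U.Lb J S P Q := by
    rw [phi_diag]
    exact hf.1
  obtain ⟨A, hAL, hAf⟩ := Pool.Agent.H76U.mem_Lb.1 hf1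
  have hAe := Pool.Agent.H76V.preL_ec (b := b) h g.sh hAL
  obtain ⟨c, C, hC, rfl⟩ := hAL.1
  refine ⟨c, ?_⟩
  have hCe : C * e b = e b * C := by
    rw [add_mul, mul_add, smul_mul_assoc, one_mul, mul_smul_comm, mul_one] at hAe
    exact add_right_cancel hAe
  have hCf : cmp P Q C = Matrix.diagonal (fun k => f k - c) := by
    rw [map_add, map_smul, Pool.Agent.H76U.cmp_one hPQ hQP] at hAf
    have h1 : cmp P Q C = Matrix.diagonal f - c • 1 := by rw [← hAf, add_sub_cancel_right]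
    rw [h1]
    ext i j
    by_cases hij : i = j
    · subst hij
      simp
    · simp [Matrix.diagonal_apply_ne _ hij, Matrix.one_apply_ne hij]
  have hφe : φ * e b = e b * φ := g.φD _ (h.mem b)
  have hφP := E.eig
  have hQφ : Q * φ = Matrix.diagonal d * Q := by
    rw [← Pool.Agent.H76U.cmp_Q hPQ hQP hφe, cmp_phi hQP E]
  have hCP : C * P = P * Matrix.diagonal (fun k => f k - c) := by
    rw [← hCf, Pool.Agent.H76U.P_cmp hPQ hQP hCe]
  have hCeb : C * e b = P * Matrix.diagonal (fun k => f k - c) * Q := by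
    rw [hPQ, ← Matrix.mul_assoc, hCP]
  have hcomm : (C * e b) * φ = φ * (C * e b) := by
    rw [hCeb]
    calc P * Matrix.diagonal (fun k => f k - c) * Q * φ =
        P * Matrix.diagonal (fun k => f k - c) * (Q * φ) := by rw [Matrix.mul_assoc]
      _ = P * (Matrix.diagonal (fun k => f k - c) * Matrix.diagonal d) * Q := by
          rw [hQφ, Matrix.mul_assoc, Matrix.mul_assoc, Matrix.mul_assoc]
      _ = P * (Matrix.diagonal d * Matrix.diagonal (fun k => f k - c)) * Q := by
          rw [Matrix.diagonal_mul_diagonal, Matrix.diagonal_mul_diagonal]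
          congr 3
          ext k
          ring
      _ = (P * Matrix.diagonal d) * Matrix.diagonal (fun k => f k - c) * Q := by
          rw [Matrix.mul_assoc, Matrix.mul_assoc, Matrix.mul_assoc, Matrix.mul_assoc]
      _ = (φ * P) * Matrix.diagonal (fun k => f k - c) * Q := by rw [hφP]
      _ = _ := by rw [Matrix.mul_assoc, Matrix.mul_assoc, Matrix.mul_assoc]
  obtain ⟨C₁, hC₁, hC₁φ, hC₁p⟩ := zero_part g.inv g.dgb g.cnj hC
  have hC₁e := hC₁p (e b) hφe.symm hcomm
  obtain ⟨P₀, Q₀, d₀, hPQ₀, hQP₀, hφ₀⟩ := g.dgb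
  have hQφP₀ : Q₀ * φ * P₀ = Matrix.diagonal d₀ := by
    rw [hφ₀]
    calc Q₀ * (P₀ * Matrix.diagonal d₀ * Q₀) * P₀ = (Q₀ * P₀) * Matrix.diagonal d₀ * (Q₀ * P₀) := by noncomm_ring
      _ = Matrix.diagonal d₀ := by rw [hQP₀, one_mul, mul_one]
  have hd₀ : ∀ i, d₀ i ≠ 0 := by
    have hprod : Matrix.diagonal d₀ * (Q₀ * φ' * P₀) = 1 := by
      rw [← hQφP₀]
      calc Q₀ * φ * P₀ * (Q₀ * φ' * P₀) = Q₀ * φ * (P₀ * Q₀) * φ' * P₀ := by noncomm_ring
        _ = Q₀ * (φ * φ') * P₀ := by rw [hPQ₀]; noncomm_ring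
        _ = 1 := by rw [g.inv, mul_one, hQP₀]
    intro i h0
    have h1 := congrFun (congrFun hprod i) i
    rw [Matrix.diagonal_mul, h0, zero_mul, Matrix.one_apply_eq] at h1
    exact one_ne_zero h1.symm
  obtain ⟨f₀, hf₀, hlog⟩ := zlie_pow hPQ₀ hQP₀ hd₀ hφ₀ (g.torus C₁ hC₁ hC₁φ)
  -- the matrix `R`
  have hebP : e b * P = P := by rw [hPQ, Matrix.mul_assoc, hQP, Matrix.mul_one]
  have hC₁P : C₁ * P = P * Matrix.diagonal (fun k => f k - c) := by
    calc C₁ * P = C₁ * (e b * P) := by rw [hebP]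
      _ = (C₁ * e b) * P := by rw [Matrix.mul_assoc]
      _ = C * (e b * P) := by rw [hC₁e, Matrix.mul_assoc]
      _ = _ := by rw [hebP, hCP]
  have hR1 : ∀ i k, d₀ i * (Q₀ * P) i k = (Q₀ * P) i k * d k := by
    intro i k
    have h1 : Matrix.diagonal d₀ * (Q₀ * P) = (Q₀ * P) * Matrix.diagonal d := by
      have h2 : Q₀ * φ = Matrix.diagonal d₀ * Q₀ := by
        rw [hφ₀]
        calc Q₀ * (P₀ * Matrix.diagonal d₀ * Q₀) = (Q₀ * P₀) * Matrix.diagonal d₀ * Q₀ := by noncomm_ring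
          _ = _ := by rw [hQP₀, one_mul]
      rw [← Matrix.mul_assoc, ← h2, Matrix.mul_assoc, hφP, Matrix.mul_assoc]
    have h3 := congrFun (congrFun h1 i) k
    rwa [Matrix.diagonal_mul, Matrix.mul_diagonal] at h3
  have hR2 : ∀ i k, f₀ i * (Q₀ * P) i k = (Q₀ * P) i k * (f k - c) := by
    intro i k
    have h1 : Matrix.diagonal f₀ * (Q₀ * P) = (Q₀ * P) * Matrix.diagonal (fun k => f k - c) := by
      have h2 : Q₀ * C₁ = Matrix.diagonal f₀ * Q₀ := by
        rw [hf₀]
        calc Q₀ * (P₀ * Matrix.diagonal f₀ * Q₀) = (Q₀ * P₀) * Matrix.diagonal f₀ * Q₀ := by noncomm_ring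
          _ = _ := by rw [hQP₀, one_mul]
      rw [← Matrix.mul_assoc, ← h2, Matrix.mul_assoc, hC₁P, Matrix.mul_assoc]
    have h3 := congrFun (congrFun h1 i) k
    rwa [Matrix.diagonal_mul, Matrix.mul_diagonal] at h3
  have hR3 : ∀ k, ∃ i, (Q₀ * P) i k ≠ 0 := by
    intro k
    by_contra hcon
    push Not at hcon
    have h1 : (Q * P₀) * (Q₀ * P) = 1 := by
      calc (Q * P₀) * (Q₀ * P) = Q * (P₀ * Q₀) * P := by
            rw [Matrix.mul_assoc, Matrix.mul_assoc, Matrix.mul_assoc]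
        _ = 1 := by rw [hPQ₀, Matrix.mul_one, hQP]
    have h2 := congrFun (congrFun h1 k) k
    rw [Matrix.mul_apply, Matrix.one_apply_eq, Finset.sum_eq_zero] at h2
    · exact one_ne_zero h2.symm
    · intro i _
      rw [hcon i, mul_zero]
  choose i hi using hR3
  have hdi : ∀ k, d₀ (i k) = d k := by
    intro k
    have h1 := hR1 (i k) k
    rw [mul_comm] at h1
    exact mul_left_cancel₀ (hi k) h1
  have hfi : ∀ k, f₀ (i k) = f k - c := by
    intro k
    have h1 := hR2 (i k) k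
    rw [mul_comm] at h1
    exact mul_left_cancel₀ (hi k) h1
  intro m hm
  have h1 : ∏ j, d₀ j ^ (∑ k ∈ Finset.univ.filter (fun k => i k = j), m k) = 1 := by
    rw [← hm, ← Finset.prod_fiberwise Finset.univ i (fun k => d k ^ m k)]
    refine Finset.prod_congr rfl fun j _ => ?_
    have h2 : ∀ s : Finset (Fin n), d₀ j ^ (∑ k ∈ s, m k) = ∏ k ∈ s, d₀ j ^ m k := by
      intro s
      refine Finset.induction_on s ?_ ?_
      · rw [Finset.sum_empty, Finset.prod_empty, zpow_zero]
      · intro a s ha ih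
        rw [Finset.sum_insert ha, Finset.prod_insert ha, zpow_add₀ (hd₀ j), ih]
    rw [h2]
    refine Finset.prod_congr rfl fun k hk => ?_
    rw [← hdi k, (Finset.mem_filter.1 hk).2]
  have h2 := hlog _ h1
  rw [← h2, ← Finset.sum_fiberwise Finset.univ i (fun k => (m k : K) * (f k - c))]
  refine Finset.sum_congr rfl fun j _ => ?_
  rw [Int.cast_sum, Finset.sum_mul]
  refine Finset.sum_congr rfl fun k hk => ?_
  rw [← hfi k, (Finset.mem_filter.1 hk).2]

end Pool.Agent.H45U
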