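import Pool.Agent.Lib.H76Q.A2
import Pool.Agent.Lib.H76Q.A3
import Pool.Agent.Lib.H76Q.Q3
import Pool.Agent.Lib.H45U.G6

/-!
# G7: the configuration of the Lie algebra, without a condition of balance
-/

set_option autoImplicit false
set_option linter.unusedSectionVars false
namespace Pool.Agent.H45U
open Module Matrix Polynomial Pool.Agent.H53Toric
open Pool.Agent.H25U (CmpN TM Hs Yo)
open Pool.Agent.H76P hiding Hs Yo pt pt_apply wc IsWt
open Pool.Agent.H76V Pool.Agent.H76Q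
open Pool.Agent.H76Y hiding CmpN TM LocN GoodN Cls Core3 PartN MumN
open Pool.Agent.H76RM (van zlie_commute spanK similD)
open Pool.Agent.H76U (preL cmp Split4)
open Pool.Agent.H76V (SH)

variable {ι : Type*} [Fintype ι] [DecidableEq ι] {K : Type*} [Field K]
  [CharZero K] [IsAlgClosed K] {B : Type*} [Fintype B] [DecidableEq B]
  {J : Matrix ι ι K} {DD : Submodule K (Matrix ι ι K)}
  {bar : B → B} {e : B → Matrix ι ι K} (h : Split4 J DD bar e) {b : B}
  {n : ℕ} {S : Set (Matrix ι ι K)} {𝓗 : Set (Matrix ι ι K)} {φ φ' : Matrix ι ι K}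
  (hdet : IsUnit J.det)
  {P : Matrix ι (Fin n) K} {Q : Matrix (Fin n) ι K}
  (hPQ : e b = P * Q) (hQP : Q * P = 1)
  (g : PH S J DD 𝓗 φ φ') {d : Fin n → K} (E : EC φ P d)

include h hdet hPQ hQP g E in
/-- PROOF. By `span_of_loglin` and `rat_of_spanK` `f + constant` is in `span ℚ (insert 1 (Hs L))`: `f - c` is log linear with `c : K`, so
`cst K f = (f - c) + c • 1` is in the span over `K` of `cst K '' (insert 1 (Hs L))`, so `f ∈ span ℚ (insert 1 (Hs L))`, `f = y + r • 1` with `y ∈ Yo L`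
(`Submodule.mem_span_insert`).  The sum of the values of `f` is `0`, that of `y` too (`Yo_sum`, `cmp_unit`), so `r * n = 0`, `r = 0`. -/
theorem mem_YoU (hn : 0 < n) {f : Fin n → ℚ} {c : K}
    (hf : LogLin d (fun k => (f k : K) - c)) (hs : ∑ k, f k = 0) : f ∈ Yo (LcN J S P Q) := by
  have h1 := span_of_loglinU h hdet hPQ hQP g E hn hf
  have h2 : cst K f ∈ Submodule.span K (cst K '' (insert 1 (Hs (LcN J S P Q)))) := by
    have h3 : cst K f = (fun k => (f k : K) - c) + c • cst K (1 : Fin n → ℚ) := by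
      funext k
      simp [cst]
    rw [h3]
    exact Submodule.add_mem _ h1
      (Submodule.smul_mem _ _ (Submodule.subset_span ⟨1, Set.mem_insert _ _, rfl⟩))
  have h4 := rat_of_spanK h2
  obtain ⟨r, y, hy, hfy⟩ := Submodule.mem_span_insert.1 h4
  have hy' : y ∈ Yo (LcN J S P Q) := hy
  have h5 := H25U.Yo_sum (cmp_unitU h hdet hPQ hQP g hn) hy'
  have h6 : r * (n : ℚ) = 0 := by
    have h7 : ∑ k, f k = r * n + ∑ k, y k := by
      rw [hfy]
      simp [Finset.sum_add_distrib, mul_comm]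
    rw [hs, h5, add_zero] at h7
    exact h7.symm
  have hr : r = 0 := by
    rcases mul_eq_zero.1 h6 with h8 | h8
    · exact h8
    · exact absurd h8 (by exact_mod_cast hn.ne')
  rw [hfy, hr, zero_smul, zero_add]
  exact hy'

include h hdet hPQ hQP g E in
/-- PROOF. `loglin_of_mem` and `mem_Yo`; the sum is `0` by `CmpN.tr` and `dg_trace`. -/
theorem diag_memU (hn : 0 < n) {f : Fin n → ℚ} (hf : dq f ∈ LcN J S P Q) :
    f ∈ Yo (LcN J S P Q) := by
  obtain ⟨c, hc⟩ := loglin_of_memU h hdet hPQ hQP g E (f := fun k => (f k : K)) hf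
  refine mem_YoU h hdet hPQ hQP g E hn hc ?_
  have h1 := (cmp_unitU h hdet hPQ hQP g hn).tr _ hf
  unfold dq at h1
  rw [H25U.dg_trace] at h1
  exact_mod_cast h1

include h hdet hPQ hQP g E in
/-- PROOF. `≤`: `f ∈ Yo` has sum `0` (`Yo_sum`) and `dq f ∈ L` (`Yo_mem`), so `f - c` is log linear for some `c : K` (`loglin_of_mem`, see the proof of `diag_mem`).
If all relations `m` have `∑ m = 0`, the same holds with `c = 0`; otherwise `c = ∑ m f / ∑ m` is rational.  `≥`: `mem_Yo`. -/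
theorem Yo_eq_YSU (hn : 0 < n) : Yo (LcN J S P Q) = YS d := by
  apply le_antisymm
  · intro f hf
    have h1 := H25U.Yo_mem hf
    have h2 := H25U.Yo_sum (cmp_unitU h hdet hPQ hQP g hn) hf
    obtain ⟨c, hc⟩ := loglin_of_memU h hdet hPQ hQP g E (f := fun k => (f k : K)) h1
    have hexp : ∀ m : Fin n → ℤ, ∑ k, (m k : K) * ((f k : K) - c) =
        ((∑ k, (m k : ℚ) * f k : ℚ) : K) - c * ((∑ k, m k : ℤ) : K) := by
      intro m
      push_cast
      rw [Finset.mul_sum, ← Finset.sum_sub_distrib]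
      exact Finset.sum_congr rfl fun k _ => by ring
    refine ⟨h2, ?_⟩
    by_cases hz : ∀ m : Fin n → ℤ, ∏ k, d k ^ m k = 1 → ∑ k, m k = 0
    · refine ⟨0, fun m hm => ?_⟩
      have h3 : ∑ k, (m k : K) * ((f k : K) - c) = 0 := hc m hm
      rw [hexp, hz m hm, Int.cast_zero, mul_zero, sub_zero] at h3
      have h4 : ∑ k, (m k : ℚ) * f k = 0 := by exact_mod_cast h3
      have h5 : ∑ k, (m k : ℚ) * (f k - 0) = ∑ k, (m k : ℚ) * f k :=
        Finset.sum_congr rfl fun k _ => by rw [sub_zero]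
      exact h5.trans h4
    · push Not at hz
      obtain ⟨m0, hm0, hm1⟩ := hz
      have h3 : ∑ k, (m0 k : K) * ((f k : K) - c) = 0 := hc m0 hm0
      rw [hexp, sub_eq_zero] at h3
      have hne : ((∑ k, m0 k : ℤ) : K) ≠ 0 := by exact_mod_cast hm1
      have hcr : c = (((∑ k, (m0 k : ℚ) * f k) / ((∑ k, m0 k : ℤ) : ℚ) : ℚ) : K) := by
        rw [Rat.cast_div, Rat.cast_intCast, h3, mul_div_assoc, div_self hne, mul_one]
      refine ⟨(∑ k, (m0 k : ℚ) * f k) / ((∑ k, m0 k : ℤ) : ℚ), fun m hm => ?_⟩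
      have h4 : ∑ k, (m k : K) * ((f k : K) - c) = 0 := hc m hm
      rw [hcr] at h4
      exact_mod_cast h4
  · rintro f ⟨h1, c, h2⟩
    refine mem_YoU h hdet hPQ hQP g E hn (c := (c : K)) ?_ h1
    intro m hm
    have h3 := congrArg (Rat.cast : ℚ → K) (h2 m hm)
    show ∑ k, (m k : K) * ((f k : K) - (c : K)) = 0
    exact_mod_cast h3

include h hdet hPQ hQP g E in
/-- PROOF. `cmp_unit`, `diag_mem`; `sep`: `YS_sep` (A3) and `Yo_eq_YS`. -/
theorem mk_tmU (hn : 0 < n)
    (ht : ∀ a b : Fin n, ∀ N : ℕ, N ≠ 0 → d a ^ N = d b ^ N → a = b) :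
    TM (LcN J S P Q) := by
  refine ⟨cmp_unitU h hdet hPQ hQP g hn,
    fun f hf => diag_memU h hdet hPQ hQP g E hn hf, ?_⟩
  intro a b hab
  rw [Yo_eq_YSU h hdet hPQ hQP g E hn]
  exact YS_sep E.ne ht a b hab

end Pool.Agent.H45U
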