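import Pool.Agent.Lib.H76Z.A7
import Pool.Agent.Lib.H45U.G7

/-!
# A7: existence of the local data, without a condition of balance
-/

set_option autoImplicit false
set_option linter.unusedSectionVars false
namespace Pool.Agent.H45U
open Module Matrix Polynomial Pool.Agent.H53Toric
open Pool.Agent.H25U
open Pool.Agent.H76P hiding Hs Yo pt pt_apply wc IsWt
open Pool.Agent.H76Q
open Pool.Agent.H76Y hiding CmpN TM LocN GoodN Cls Core3 PartN MumN
open Pool.Agent.H76Z hiding LocN GoodN Cls Core3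
open Pool.Agent.H76U (cmp preL Lb)
open Pool.Agent.H76RM (spanK similD)

/-- The hypotheses are those of `H76Z.mk_loc` without `bal`.  With balance the algebra satisfies the
old conditions, too. -/
theorem mk_locU {ι : Type*} [Fintype ι] [DecidableEq ι] {K : Type*} [Field K] [CharZero K]
    [IsAlgClosed K] {L : Type*} [Field L] [CharZero L] [Algebra L K] {G : Type*} [Group G]
    {ψ : Matrix ι ι ℚ}
    (hψ : ψᵀ = -ψ) (hψ0 : ψ.det ≠ 0) (D : Subalgebra ℚ (Matrix ι ι ℚ))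
    (ρ : G →* Matrix.GeneralLinearGroup ι L)
    (lin : ∀ σ : G, ∀ d ∈ D, (ρ σ).1 * d.map (algebraMap ℚ L) =
      d.map (algebraMap ℚ L) * (ρ σ).1)
    (sim : ∀ σ : G, ∃ c : L, (ρ σ).1ᵀ * ψ.map (algebraMap ℚ L) * (ρ σ).1 =
      c • ψ.map (algebraMap ℚ L))
    (semis : ∀ H : Subgroup G, H.FiniteIndex → ∀ W : Submodule K (ι → K),
      (∀ s ∈ img K ρ H, ∀ w ∈ W, s *ᵥ w ∈ W) →
      ∃ W' : Submodule K (ι → K), (∀ s ∈ img K ρ H, ∀ w ∈ W', s *ᵥ w ∈ W') ∧ IsCompl W W')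
    (commt : ∀ H : Subgroup G, H.FiniteIndex → ∀ y : Matrix ι ι K,
      (∀ s ∈ img K ρ H, y * s = s * y) → y ∈ spanK K D)
    (gen : ∀ g : G, (ρ g).1.map (algebraMap L K) ∈ tgen K ρ)
    {M : Type*} [Field M] [CharZero M] {m : ℕ} {cl : Fin m → Cl} {bar : Fin m → Fin m}
    {e : Fin m → Matrix ι ι M} {u₀ : Matrix ι ι M} {F : Fin m → M[X]}
    (hspl : Splits D ψ cl bar e u₀) {x : Matrix ι ι K} (hF : FrobT K ρ e F x)
    (hx : x ∈ tgen K ρ) {q : ℚ}
    (hmult : xᵀ * ψ.map (algebraMap ℚ K) * x = algebraMap ℚ K q • ψ.map (algebraMap ℚ K))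
    {H₀ : Subgroup G} (hfin : H₀.FiniteIndex) (hprime : (H76RM.van (img K ρ H₀)).IsPrime)
    {Ω : Type*} [Field Ω] [IsAlgClosed Ω] (j : M →+* Ω) (i : Ω →+* K) (b : Fin m)
    {n : ℕ} {a : Fin n → Ω} (ha : Function.Injective a)
    (hroot : ∀ y : Ω, (F b).eval₂ j y = 0 ↔ ∃ k, y = a k)
    (ht : ∀ k l : Fin n, ∀ N : ℕ, N ≠ 0 → a k ^ N = a l ^ N → k = l) :
    ∃ (U : Matrix ι (Fin n) K) (V : Matrix (Fin n) ι K),
      LocU (ψ.map (algebraMap ℚ K)) (img K ρ H₀) (properProj K ρ) ((e b).map (i.comp j)) x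
        U V (fun k => i (a k)) (YS a) ∧
      (cl b = .s → SyL (LcN (ψ.map (algebraMap ℚ K)) (img K ρ H₀) U V)) ∧
      (cl b = .o → OrL (LcN (ψ.map (algebraMap ℚ K)) (img K ρ H₀) U V)) ∧
      ((∀ h ∈ properProj K ρ, 2 * (h * (e b).map (i.comp j)).rank = n) →
        (∏ k, i (a k)) ^ 2 = algebraMap ℚ K q ^ n ∧
        H76Y.TM (LcN (ψ.map (algebraMap ℚ K)) (img K ρ H₀) U V) ∧
        H76P.Yo (LcN (ψ.map (algebraMap ℚ K)) (img K ρ H₀) U V) = YS a ∧
        (cl b = .n → NsL (LcN (ψ.map (algebraMap ℚ K)) (img K ρ H₀) U V))) := by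
  classical
  obtain ⟨hJ, hdet0⟩ := gram_basic hψ hψ0 K
  have hsplK : Splits D ψ cl bar (fun c => (e c).map (i.comp j)) (u₀.map (i.comp j)) :=
    hspl.map (i.comp j)
  have hspl4 := hsplK.split4
  have hι : Nonempty ι := by
    by_contra hemp
    rw [not_nonempty_iff] at hemp
    apply hsplK.ne_zero b
    ext i'
    exact (hemp.false i').elim
  obtain ⟨φ', g₀⟩ := mk_phT (K := K) hψ hψ0 D ρ lin sim semis commt gen hF hfin hprime
  have g := ph_unit g₀ hsplK.umem
  have hus : ∀ s ∈ img K ρ H₀, s * u₀.map (i.comp j) = u₀.map (i.comp j) * s := fun s hs =>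
    g₀.sh.SD s hs _ hsplK.umem
  have hdet : IsUnit (ψ.map (algebraMap ℚ K) * u₀.map (i.comp j)).det := by
    rw [Matrix.det_mul]
    exact hdet0.mul hsplK.unit
  have hφe : x * (e b).map (i.comp j) = (e b).map (i.comp j) * x := g.φD _ (hspl4.mem b)
  obtain ⟨U, V, hUV, hVU, E⟩ := exists_ecT hF j i b (hspl.idem b) hφe.symm ha hroot
  have hn : 0 < n := by
    rw [Nat.pos_iff_ne_zero]
    rintro rfl
    apply hsplK.ne_zero b
    rw [hUV]
    ext i' j'
    rw [Matrix.mul_apply, Finset.univ_eq_empty, Finset.sum_empty]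
    rfl
  have hL : LcN (ψ.map (algebraMap ℚ K) * u₀.map (i.comp j)) (img K ρ H₀) U V =
      LcN (ψ.map (algebraMap ℚ K)) (img K ρ H₀) U V :=
    lcN_unit g₀.sh.one hus hsplK.unit U V
  have hti : ∀ k l : Fin n, ∀ N : ℕ, N ≠ 0 → i (a k) ^ N = i (a l) ^ N → k = l := by
    intro k l N hN hkl
    refine ht k l N hN (i.injective ?_)
    rw [map_pow, map_pow]
    exact hkl
  have heP : (e b).map (i.comp j) * U = U := by
    rw [hUV, Matrix.mul_assoc, hVU, Matrix.mul_one]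
  -- the transposed form on the component
  have htr : ∀ A : Matrix ι ι K, Uᵀ * A * U =
      Uᵀ * (((e b).map (i.comp j))ᵀ * A * (e b).map (i.comp j)) * U := by
    intro A
    have h1 : Uᵀ * ((e b).map (i.comp j))ᵀ = Uᵀ := by rw [← Matrix.transpose_mul, heP]
    calc Uᵀ * A * U = (Uᵀ * ((e b).map (i.comp j))ᵀ) * A * ((e b).map (i.comp j) * U) := by
          rw [h1, heP]
      _ = _ := by simp only [Matrix.mul_assoc]
  refine ⟨U, V, ?_, fun hb => ?_, fun hb => ?_, fun bal => ⟨?_, ?_, ?_, fun hb => ?_⟩⟩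
  · refine
      { pos := hn
        UV := hUV
        VU := hVU
        ec := E
        ex := hφe.symm
        ts := hL ▸ mk_tmU (b := b) hspl4 hdet hUV hVU g E hn hti
        yo := ?_
        par := ?_
        lie := ?_ }
    · rw [← hL, Yo_eq_YSU (b := b) hspl4 hdet hUV hVU g E hn]
      exact YS_map i a
    · intro h hh
      rw [← hL]
      exact ⟨g.sh.hi h hh, H76Y.g5_comm (b := b) hspl4 g hh, _,
        shift_mem (b := b) hspl4 hdet hUV hVU g hn hh⟩
    · intro C hC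
      rw [← hL]
      refine ⟨?_, H76Y.lc_of_zlie (b := b) hspl4 hdet hUV hVU g hn hC⟩
      exact Pool.Agent.H76RM.zlie_commute g.sh.one (fun s hs => g.sh.SD s hs _ (hspl4.mem b)) hC
  · rw [← hL]
    have hbar : bar b = b := (hspl.self b).2 (by rw [hb]; decide)
    obtain ⟨h1, h2⟩ := form_inv (b := b) hspl4 hUV hVU g hbar hdet hn
    refine ⟨_, ?_, h1, h2⟩
    rw [Matrix.transpose_mul, Matrix.transpose_mul, Matrix.transpose_transpose, ← Matrix.mul_assoc,
      htr, hsplK.alt b hb, Matrix.mul_neg, Matrix.neg_mul, ← htr]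
  · rw [← hL]
    have hbar : bar b = b := (hspl.self b).2 (by rw [hb]; decide)
    obtain ⟨h1, h2⟩ := form_inv (b := b) hspl4 hUV hVU g hbar hdet hn
    refine ⟨_, ?_, h1, h2⟩
    rw [Matrix.transpose_mul, Matrix.transpose_mul, Matrix.transpose_transpose, ← Matrix.mul_assoc,
      htr, hsplK.sym b hb, ← htr]
  · obtain ⟨-, c, -, hc, hd⟩ := EN.tgen_det (n := n) (J := ψ.map (algebraMap ℚ K)) hUV hVU
      (𝓗 := properProj K ρ) (fun h hh => ⟨g.sh.hi h hh, H76Y.g5_comm (b := b) hspl4 g hh,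
        g₀.sh.hs h hh, bal h hh⟩) hx
    have hJ0 : ψ.map (algebraMap ℚ K) ≠ 0 := by
      intro h0
      rw [h0] at hdet0
      rw [Matrix.det_zero] at hdet0
      exact not_isUnit_zero hdet0
    have hcq : c = algebraMap ℚ K q := smul_left_injective K hJ0 (by
      show c • ψ.map (algebraMap ℚ K) = algebraMap ℚ K q • ψ.map (algebraMap ℚ K)
      rw [← hc, hmult])
    have hdg : cmp U V x = Matrix.diagonal (fun k => i (a k)) := cmp_phi hVU E
    rw [hdg, Matrix.det_diagonal, hcq] at hd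
    exact hd
  · rw [← hL]
    exact H76Y.mk_tm (b := b) hspl4 bal hdet hUV hVU g E hn hti
  · rw [← hL, H76Y.Yo_eq_YS (b := b) hspl4 bal hdet hUV hVU g E hn]
    exact YS_map i a
  · have hbar : bar b ≠ b := fun h => (hspl.self b).1 h hb
    rw [← hL]
    exact H76Y.nsl (b := b) hspl4 hUV hVU g.sh hbar hdet bal

end Pool.Agent.H45U
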