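import Pool.Agent.Lib.H45U.U3
import Pool.Agent.Lib.H76Z.BL2

/-!
# BL2: blocks are compatible with the simple ideals
-/

set_option autoImplicit false
set_option linter.unusedSectionVars false
namespace Pool.Agent.H45U
open Pool.Agent.H76P Pool.Agent.H76V Pool.Agent.H76Q Pool.Agent.H76Y Pool.Agent.H76Z
open Module Matrix Pool.Agent.H53Toric
open Pool.Agent.H76T (IsIdeal Fam)

variable {κ : Type*} {K : Type*} [Field K] [CharZero K] [Fintype κ] [DecidableEq κ]
  {L : Submodule K (Module.End K (κ → K))} [IsAlgClosed K] [Nonempty κ]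
  {Y : Submodule ℚ (κ → ℚ)} {P : Module.End ℚ Y}

/-- In dimension two all matrices with trace zero respect an alternating form. -/
theorem sy_two {κ : Type*} {K : Type*} [Field K] [Fintype κ] [DecidableEq κ]
    {L : Submodule K (Module.End K (κ → K))} (h2 : Fintype.card κ = 2)
    (htr : ∀ X ∈ L, LinearMap.trace K (κ → K) X = 0) : SyL L := by
  classical
  obtain ⟨a, b, hab, huniv⟩ := Finset.card_eq_two.1 (Finset.card_univ (α := κ) ▸ h2)
  have hall : ∀ k : κ, k = a ∨ k = b := fun k => by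
    have h1 := Finset.mem_univ k
    rw [huniv, Finset.mem_insert, Finset.mem_singleton] at h1
    exact h1
  have hsum : ∀ f : κ → K, ∑ k, f k = f a + f b := fun f => by
    rw [huniv, Finset.sum_pair hab]
  obtain ⟨J, hJ⟩ : ∃ J : Matrix κ κ K, J a a = 0 ∧ J a b = 1 ∧ J b a = -1 ∧ J b b = 0 := by
    refine ⟨Matrix.of fun k l => if k = a then (if l = b then 1 else 0) else (if l = a then -1 else 0), ?_⟩
    simp [hab, hab.symm]
  obtain ⟨haa, hab', hba, hbb⟩ := hJ
  have hJJ : J * (-J) = 1 := by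
    ext k l
    rw [Matrix.mul_apply, hsum]
    rcases hall k with rfl | rfl <;> rcases hall l with rfl | rfl <;>
      simp [haa, hab', hba, hbb, hab, hab.symm]
  have hdet : IsUnit J.det := Matrix.isUnit_det_of_right_inverse hJJ
  refine ⟨J, ?_, hdet, fun X hX => ?_⟩
  · ext k l
    rw [Matrix.transpose_apply, Matrix.neg_apply]
    rcases hall k with rfl | rfl <;> rcases hall l with rfl | rfl <;> simp [haa, hab', hba, hbb]
  · obtain ⟨A, rfl⟩ : ∃ A : Matrix κ κ K, X = phi A := ⟨phi.symm X, by simp⟩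
    have h3 : A a a + A b b = 0 := by
      have h4 := htr _ hX
      have h5 : LinearMap.trace K (κ → K) (phi A) = A.trace := Matrix.trace_toLin'_eq _
      rw [h5, Matrix.trace, hsum] at h4
      exact h4
    rw [skew_iff hdet]
    ext k l
    rw [Matrix.add_apply, Matrix.mul_apply, Matrix.mul_apply, hsum, hsum, Matrix.zero_apply]
    simp only [Matrix.transpose_apply]
    rcases hall k with rfl | rfl <;> rcases hall l with rfl | rfl <;>
      simp only [haa, hab', hba, hbb] <;>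
      first | ring1 | linear_combination h3 | linear_combination (-1 : K) * h3

theorem block_comp {t : Cl} (hP : IsBlock P) (h : TM L) (ht : ClsU t L) (hY : Yo L = Y)
    (h8 : t = .o → Fintype.card κ ≠ 8) : Comp L P := by
  cases t with
  | s =>
    obtain ⟨J, hJ⟩ := ts_of_sy ((tm_iff (Or.inl (ht.1 rfl))).1 h) (ht.1 rfl)
    exact H76Q.IsBlock.comp hP hJ ((Yo_eq (Or.inl (ht.1 rfl))).symm.trans hY)
  | o =>
    exact H76Y.comp_ne8 hP ((tm_iff (Or.inr (ht.2.1 rfl))).1 h) (h8 rfl)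
      ((Yo_eq (Or.inr (ht.2.1 rfl))).symm.trans hY)
  | n =>
    rcases Nat.lt_or_ge 2 (Fintype.card κ) with h1 | h1
    · exact H25U.compN hP h (ht.2.2 rfl h1) hY
    rcases Nat.lt_or_ge 1 (Fintype.card κ) with h2 | h1
    · have hsy := sy_two (by omega) h.cmp.tr
      obtain ⟨J, hJ⟩ := ts_of_sy ((tm_iff (Or.inl hsy)).1 h) hsy
      exact H76Q.IsBlock.comp hP hJ ((Yo_eq (Or.inl hsy)).symm.trans hY)
    · intro m I _ i
      left
      intro f _ _ k k' _
      have : Subsingleton κ := Fintype.card_le_one_iff_subsingleton.1 h1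
      rw [Subsingleton.elim k k']

theorem block_good {n : ℕ} (hn : 0 < n) {Y : Submodule ℚ (Fin n → ℚ)} {P : Module.End ℚ Y} (t : Cl)
    (h8 : t = .o → n ≠ 8) (hP : IsBlock P) : GoodU t P := by
  intro K _ _ _ L h ht hY
  have : Nonempty (Fin n) := ⟨⟨0, hn⟩⟩
  exact block_comp hP h ht hY fun h1 => by
    rw [Fintype.card_fin]
    exact h8 h1

/-- The blocks of a configuration are good. -/
theorem exists_blocksU {n : ℕ} (hn : 0 < n) {Y : Submodule ℚ (Fin n → ℚ)}
    (hs : ∀ g ∈ Y, ∑ k, g k = 0) (t : Cl) (h8 : t = .o → n ≠ 8) :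
    ∃ FF : Finset (Module.End ℚ Y), (∀ P ∈ FF, Sp P ∧ P ≠ 0 ∧ GoodU t P) ∧
      (∀ P ∈ FF, ∀ P' ∈ FF, P ≠ P' → P * P' = 0) ∧ ∑ P ∈ FF, P = 1 ∧
      (∀ π : Equiv.Perm (Fin n), (∀ g ∈ Y, g ∘ π ∈ Y) → ∀ P ∈ FF, ∃ P' ∈ FF, MvP π P P') ∧
      (FF.card = 1 → IsBlock (1 : Module.End ℚ Y)) := by
  classical
  have : Nonempty (Fin n) := ⟨⟨0, hn⟩⟩
  obtain ⟨B, hB, hsum, horth, hsp⟩ := exists_isBlock (Y := Y) hs
  refine ⟨B, fun P hP => ⟨(hsp P hP).1, (hsp P hP).2, ?_⟩, horth, hsum, fun π hπ P hP => ?_,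
    fun h1 => isBlock_one hs hB h1⟩
  · exact block_good hn t h8 ((hB P).1 hP)
  · obtain ⟨P', -, hP', -, -, h1, h2⟩ := ((hB P).1 hP).perm hπ
    exact ⟨P', (hB P').2 hP', h1, h2⟩

end Pool.Agent.H45U
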