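import Pool.Agent.Lib.H76Y.W10a

/-!
# the classes of the first coordinate have the same number of elements
-/

set_option autoImplicit false
set_option linter.unusedSectionVars false
namespace Pool.Agent.H45U
open Module Matrix Polynomial Pool.Agent.H53Toric
open Pool.Agent.H76P Pool.Agent.H76Q Pool.Agent.H76Y

variable {κ : Type*} [Fintype κ] [DecidableEq κ] {Y : Submodule ℚ (κ → ℚ)} {P : Module.End ℚ Y}

theorem w10_fib (hsep : ∀ a b : κ, a ≠ b → ∃ f ∈ Y, f a ≠ f b) (hP : Sp P) [Nonempty κ] :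
    ∃ N : ℕ, Fintype.card κ = N * nz P ∧ ∀ f : κ → ℕ, FunP P f → N ∣ ∑ k, f k := by
  classical
  have hE := w10a_equiv P
  have hfin : Finite (Quot (cz P)) := Finite.of_surjective (Quot.mk (cz P)) Quot.mk_surjective
  have : Fintype (Quot (cz P)) := Fintype.ofFinite _
  obtain ⟨k₀⟩ : Nonempty κ := inferInstance
  set N := Nat.card {k // cz P k k₀} with hN
  have hNk : ∀ k₁, Nat.card {k // cz P k k₁} = N := fun k₁ =>
    le_antisymm (w10a_fib hsep hP k₁ k₀) (w10a_fib hsep hP k₀ k₁)
  have key : ∀ f : κ → ℕ, ∀ g : Quot (cz P) → ℕ, (∀ k, g (Quot.mk _ k) = f k) →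
      ∑ k, f k = N * ∑ x, g x := by
    intro f g hg
    rw [← Finset.sum_fiberwise Finset.univ (fun k => Quot.mk (cz P) k) f, Finset.mul_sum]
    refine Finset.sum_congr rfl fun x _ => ?_
    obtain ⟨k₁, rfl⟩ := Quot.mk_surjective x
    have h2 : ∀ k ∈ Finset.univ.filter (fun k => Quot.mk (cz P) k = Quot.mk (cz P) k₁), f k = f k₁ := by
      intro k hk
      rw [← hg, ← hg, (Finset.mem_filter.1 hk).2]
    rw [Finset.sum_congr rfl h2, Finset.sum_const, smul_eq_mul, hg]
    congr 1
    rw [← hNk k₁, Nat.card_eq_fintype_card, Fintype.card_subtype]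
    congr 1
    ext k
    rw [Finset.mem_filter, Finset.mem_filter]
    simp only [Finset.mem_univ, true_and]
    exact hE.quot_mk_eq_iff _ _
  refine ⟨N, ?_, fun f hf => ?_⟩
  · have h1 := key (fun _ => 1) (fun _ => 1) fun _ => rfl
    rw [Finset.sum_const, Finset.sum_const, Finset.card_univ, Finset.card_univ, smul_eq_mul, mul_one,
      smul_eq_mul, mul_one] at h1
    rw [h1, nz, Nat.card_eq_fintype_card]
  · rw [key f (Quot.lift f fun k k' h => hf k k' h) fun _ => rfl]
    exact dvd_mul_right _ _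

/-- The number of elements divides the number of values `1` times the number of classes. -/
theorem nz_dvd (hsep : ∀ a b : κ, a ≠ b → ∃ f ∈ Y, f a ≠ f b) (hP : Sp P) {ε : κ → ℚ}
    (hε : FunP P ε) [Nonempty κ] :
    Fintype.card κ ∣ (Finset.univ.filter fun k => ε k = 1).card * nz P := by
  classical
  obtain ⟨N, h1, h2⟩ := w10_fib hsep hP
  obtain ⟨m, hm⟩ := h2 (fun k => if ε k = 1 then 1 else 0) fun k k' h => by
    show (if ε k = 1 then 1 else 0) = if ε k' = 1 then 1 else 0
    rw [hε k k' h]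
  rw [← Finset.card_filter] at hm
  rw [h1, hm]
  exact ⟨m, by ring⟩

/-- A block which is not zero has at least two classes. -/
theorem nz_two {ε : κ → ℚ} (hε : FunP P ε) {k k' : κ} (hne : ε k ≠ ε k') : 2 ≤ nz P := by
  have hE := w10a_equiv P
  have hfin : Finite (Quot (cz P)) := Finite.of_surjective (Quot.mk (cz P)) Quot.mk_surjective
  have h1 : Quot.mk (cz P) k ≠ Quot.mk (cz P) k' := fun h =>
    hne (hε k k' ((hE.quot_mk_eq_iff _ _).1 h))
  have h2 : Nontrivial (Quot (cz P)) := ⟨_, _, h1⟩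
  exact Finite.one_lt_card

end Pool.Agent.H45U
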