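import Pool.Agent.Lib.H76Z.A2d

/-!
# the configuration under an automorphism which inverts the eigenvalues
-/

set_option autoImplicit false
set_option linter.unusedSectionVars false
namespace Pool.Agent.H45U
open Module Matrix Polynomial Pool.Agent.H53Toric
open Pool.Agent.H76P Pool.Agent.H76Q Pool.Agent.H76Y Pool.Agent.H76Z

/-- In the definition of `YS` the relations with sum `0` are enough. -/
theorem ys_of {κ : Type*} [Fintype κ] [DecidableEq κ] {K : Type*} [Field K] {d : κ → K}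
    (hd : ∀ k, d k ≠ 0) {f : κ → ℚ} (h1 : ∑ k, f k = 0)
    (h2 : ∀ m : κ → ℤ, ∏ k, d k ^ m k = 1 → ∑ k, m k = 0 → ∑ k, (m k : ℚ) * f k = 0) : f ∈ YS d := by
  classical
  refine a2_mem.2 ⟨h1, ?_⟩
  by_cases hz : ∀ m : κ → ℤ, ∏ k, d k ^ m k = 1 → ∑ k, m k = 0
  · refine ⟨0, fun m hm => ?_⟩
    have h3 : ∑ k, (m k : ℚ) * (f k - 0) = ∑ k, (m k : ℚ) * f k :=
      Finset.sum_congr rfl fun k _ => by rw [sub_zero]
    exact h3.trans (h2 m hm (hz m hm))
  · push Not at hz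
    obtain ⟨m0, hm0, hS0⟩ := hz
    have hS0' : ((∑ k, m0 k : ℤ) : ℚ) ≠ 0 := by exact_mod_cast hS0
    refine ⟨(∑ k, (m0 k : ℚ) * f k) / ((∑ k, m0 k : ℤ) : ℚ), fun m hm => ?_⟩
    obtain ⟨S0, hS0d⟩ : ∃ S0 : ℤ, S0 = ∑ k, m0 k := ⟨_, rfl⟩
    obtain ⟨S, hSd⟩ : ∃ S : ℤ, S = ∑ k, m k := ⟨_, rfl⟩
    rw [← hS0d] at hS0'
    have h3 : ∏ k, d k ^ (S0 * m k - S * m0 k) = 1 := by
      have h4 : ∏ k, d k ^ (S0 * m k - S * m0 k) =
          (∏ k, d k ^ m k) ^ S0 * ((∏ k, d k ^ m0 k) ^ S)⁻¹ := by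
        rw [← Finset.prod_zpow, ← Finset.prod_zpow, ← Finset.prod_inv_distrib, ← Finset.prod_mul_distrib]
        refine Finset.prod_congr rfl fun k _ => ?_
        rw [zpow_sub₀ (hd k), mul_comm S0, mul_comm S, _root_.zpow_mul, _root_.zpow_mul, div_eq_mul_inv]
      rw [h4, hm, hm0, _root_.one_zpow, _root_.one_zpow, inv_one, mul_one]
    have h4 : ∑ k, (S0 * m k - S * m0 k) = 0 := by
      rw [Finset.sum_sub_distrib, ← Finset.mul_sum, ← Finset.mul_sum, ← hS0d, ← hSd]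
      ring
    have h5 := h2 _ h3 h4
    have h6 : (S0 : ℚ) * ∑ k, (m k : ℚ) * f k = (S : ℚ) * ∑ k, (m0 k : ℚ) * f k := by
      have h7 : ∑ k, ((S0 * m k - S * m0 k : ℤ) : ℚ) * f k =
          (S0 : ℚ) * ∑ k, (m k : ℚ) * f k - (S : ℚ) * ∑ k, (m0 k : ℚ) * f k := by
        rw [Finset.mul_sum, Finset.mul_sum, ← Finset.sum_sub_distrib]
        refine Finset.sum_congr rfl fun k _ => ?_
        push_cast
        ring
      rw [h7, sub_eq_zero] at h5
      exact h5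
    have h8 : ∑ k, (m k : ℚ) * (f k - (∑ k, (m0 k : ℚ) * f k) / (S0 : ℚ)) =
        ∑ k, (m k : ℚ) * f k - (S : ℚ) * ((∑ k, (m0 k : ℚ) * f k) / (S0 : ℚ)) := by
      rw [Finset.sum_congr rfl fun k _ => mul_sub _ _ _, Finset.sum_sub_distrib, ← Finset.sum_mul, hSd]
      push_cast
      ring
    rw [← hS0d, h8, sub_eq_zero, mul_div_assoc', eq_div_iff hS0', mul_comm _ (S0 : ℚ), h6]

/-- An automorphism which maps the eigenvalues to `q / d` respects the configuration. -/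
theorem YS_dual {κ : Type*} [Fintype κ] [DecidableEq κ] {K : Type*} [Field K]
    {d : κ → K} (hd : ∀ k, d k ≠ 0) {s : K →+* K} {σ : Equiv.Perm κ} {q : K} (hq0 : q ≠ 0)
    (hσ : ∀ k, s (d k) * d (σ k) = q) {f : κ → ℚ}
    (hf : f ∈ YS d) : f ∘ σ ∈ YS d := by
  obtain ⟨h1, c, h2⟩ := a2_mem.1 hf
  refine ys_of hd ?_ fun m hm hS => ?_
  · rw [← h1]
    exact Equiv.sum_comp σ f
  · -- the relation for the image
    have h3 : ∏ k, d (σ k) ^ m k = 1 := by
      have h4 : ∏ k, (s (d k)) ^ m k = 1 := by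
        have h5 : ∏ k, (s (d k)) ^ m k = s (∏ k, d k ^ m k) := by
          rw [map_prod]
          exact Finset.prod_congr rfl fun k _ => (map_zpow₀ s _ _).symm
        rw [h5, hm, map_one]
      have h5 : ∏ k, (s (d k) * d (σ k)) ^ m k = 1 := by
        rw [Finset.prod_congr rfl fun k _ => by rw [hσ k], a2d_zpow hq0, hS, zpow_zero]
      simp only [mul_zpow] at h5
      rw [Finset.prod_mul_distrib, h4, one_mul] at h5
      exact h5
    have h4 : ∏ k, d k ^ m (σ.symm k) = 1 := by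
      rw [← h3, ← Equiv.prod_comp σ fun k => d k ^ m (σ.symm k)]
      exact Finset.prod_congr rfl fun k _ => by rw [Equiv.symm_apply_apply]
    have h5 := h2 _ h4
    have h6 : ∑ k, (m (σ.symm k) : ℚ) * (f k - c) = ∑ k, (m k : ℚ) * (f ∘ σ) k := by
      have h7 : ∑ k, (m (σ.symm k) : ℚ) * (f k - c) = ∑ k, (m k : ℚ) * (f (σ k) - c) := by
        rw [← Equiv.sum_comp σ]
        exact Finset.sum_congr rfl fun k _ => by rw [Equiv.symm_apply_apply]
      rw [h7, Finset.sum_congr rfl fun k _ => mul_sub _ _ _, Finset.sum_sub_distrib, ← Finset.sum_mul]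
      have h8 : ∑ k, (m k : ℚ) = 0 := by exact_mod_cast hS
      rw [h8, zero_mul, sub_zero]
      rfl
    rw [← h6]
    exact h5

end Pool.Agent.H45U
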