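import Pool.Agent.Lib.H45U.U1
import Pool.Agent.Lib.H25U.Bridge
import Pool.Agent.Lib.H45Q.S1

/-!
# NS: a component respects no form if the eigenvalues of Frobenius are not dual to themselves
-/

set_option autoImplicit false
set_option linter.unusedSectionVars false
namespace Pool.Agent.H45U
open Module Matrix Polynomial Pool.Agent.H53Toric
open Pool.Agent.H25U
open Pool.Agent.H76P hiding Hs Yo pt pt_apply wc IsWt
open Pool.Agent.H76Q
open Pool.Agent.H76Y hiding CmpN TM LocN GoodN Cls Core3 PartN MumN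
open Pool.Agent.H76Z hiding LocN GoodN Cls Core3
open Pool.Agent.H76U (cmp preL Lb)
open Pool.Agent.H45Q (cmp_par cmp_inv inv_comm)

section
variable {ι : Type*} [Fintype ι] [DecidableEq ι] {K : Type*} [Field K] [CharZero K]
  {e : Matrix ι ι K} {n : ℕ} {U : Matrix ι (Fin n) K} {V : Matrix (Fin n) ι K}

/-- The group generated by the one parameter groups preserves an invariant form up to scalars. -/
theorem form_tgen [Nonempty (Fin n)] (hUV : e = U * V) (hVU : V * U = 1) {𝓗 : Set (Matrix ι ι K)}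
    {L : Submodule K (Module.End K (Fin n → K))} (hL : CmpN L)
    (par : ∀ k ∈ 𝓗, k * k = k ∧ k * e = e * k ∧ ∃ c : ℚ, phi (cmp U V ((2 : K) • k - (c : K) • 1)) ∈ L)
    {B : (Fin n → K) →ₗ[K] (Fin n → K) →ₗ[K] K} (hB : B ≠ 0)
    (hinv : ∀ X ∈ L, ∀ v w, B (X v) w + B v (X w) = 0)
    {y : Matrix ι ι K} (hy : y ∈ Submonoid.closure {x | ∃ k ∈ 𝓗, ∃ t : K, t ≠ 0 ∧ x = 1 + (t - 1) • k}) :
    y * e = e * y ∧ ∃ c : K, ∀ v w, B (phi (cmp U V y) v) (phi (cmp U V y) w) = c * B v w := by
  induction hy using Submonoid.closure_induction with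
  | mem y hy =>
    obtain ⟨k, hk, t, ht, rfl⟩ := hy
    obtain ⟨hkk, hke, c, hc⟩ := par k hk
    refine ⟨by rw [add_mul, mul_add, one_mul, mul_one, smul_mul_assoc, mul_smul_comm, hke], ?_⟩
    obtain ⟨z, hz⟩ : ∃ z, z = phi (cmp U V ((2 : K) • k - (c : K) • 1)) := ⟨_, rfl⟩
    obtain ⟨w, hw⟩ : ∃ w, w = phi (cmp U V ((2 : K) • k - 1)) := ⟨_, rfl⟩
    rw [← hz] at hc
    have hww : w * w = 1 := by rw [hw]; exact cmp_inv hUV hVU hkk hke
    have hzw : w = z + ((c : K) - 1) • 1 := by
      have e1 : (2 : K) • k - 1 = ((2 : K) • k - (c : K) • 1) + ((c : K) - 1) • (1 : Matrix ι ι K) := by module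
      rw [hw, hz, e1, map_add, map_smul, Pool.Agent.H76U.cmp_one hUV hVU, map_add, map_smul, map_one]
    have hpar := cmp_par hUV hVU k t
    rw [← hw] at hpar
    rw [hpar]
    by_cases hz0 : z = 0
    · rw [hz0, zero_add] at hzw
      refine ⟨((1 + t) / 2 + (t - 1) / 2 * ((c : K) - 1)) * ((1 + t) / 2 + (t - 1) / 2 * ((c : K) - 1)), fun v u => ?_⟩
      have h1 : ∀ v : Fin n → K, (((1 + t) / 2) • (1 : Module.End K (Fin n → K)) + ((t - 1) / 2) • w) v =
          ((1 + t) / 2 + (t - 1) / 2 * ((c : K) - 1)) • v := by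
        intro v
        rw [hzw, LinearMap.add_apply, LinearMap.smul_apply, LinearMap.smul_apply, LinearMap.smul_apply,
          Module.End.one_apply]
        module
      rw [h1, h1, map_smul, map_smul, LinearMap.smul_apply, smul_eq_mul, smul_eq_mul]
      ring
    · have h0 : (c : K) - 1 = 0 := hL.shift_zero hB hinv hc hz0 (by rw [← hzw]; exact hww)
      rw [h0, zero_smul, add_zero] at hzw
      refine ⟨t, fun v u => ?_⟩
      have h1 : ∀ v u, B (w v) u = -B v (w u) := fun v u => by
        rw [hzw]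
        exact eq_neg_of_add_eq_zero_left (hinv z hc v u)
      have h2 : ∀ v, w (w v) = v := fun v => LinearMap.congr_fun hww v
      have h3 : B (w v) (w u) = -B v u := by rw [h1, h2]
      simp only [LinearMap.add_apply, LinearMap.smul_apply, Module.End.one_apply, map_add, map_smul, smul_eq_mul]
      rw [h3, h1 v u]
      ring
  | one =>
    refine ⟨by rw [one_mul, mul_one], 1, fun v w => ?_⟩
    rw [Pool.Agent.H76U.cmp_one hUV hVU, map_one, one_mul, Module.End.one_apply, Module.End.one_apply]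
  | mul a b _ _ iha ihb =>
    obtain ⟨ha, c, hc⟩ := iha
    obtain ⟨hb, c', hc'⟩ := ihb
    refine ⟨by rw [mul_assoc, hb, ← mul_assoc, ha, mul_assoc], c * c', fun v w => ?_⟩
    rw [Pool.Agent.H76U.cmp_mul hUV hVU hb, map_mul, Module.End.mul_apply, Module.End.mul_apply, hc, hc', mul_assoc]

/-- The component respects no form if the eigenvalues of an element of the group are not dual to themselves. -/
theorem ns_roots {Ω : Type*} [Field Ω] (i : Ω →+* K) [Nonempty (Fin n)] {J : Matrix ι ι K} {S 𝓗 : Set (Matrix ι ι K)}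
    {x : Matrix ι ι K} {a : Fin n → Ω} {Y : Submodule ℚ (Fin n → ℚ)}
    (h : LocU J S 𝓗 e x U V (fun k => i (a k)) Y)
    (hx : x ∈ Submonoid.closure {x | ∃ k ∈ 𝓗, ∃ t : K, t ≠ 0 ∧ x = 1 + (t - 1) • k})
    (hno : ¬ ∃ z : Ω, ∀ k, ∃ k', a k * a k' = z) : NsL (LcN J S U V) := by
  classical
  intro B hinv
  by_contra hB
  obtain ⟨-, c, hc⟩ := form_tgen h.UV h.VU h.ts.cmp h.par hB hinv hx
  have hker : ∀ v, B v = 0 → v = 0 := by
    intro v hv
    rcases h.ts.cmp.irr (LinearMap.ker B) (by
      intro X hX v hv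
      rw [LinearMap.mem_ker] at hv ⊢
      ext w
      have h1 := hinv X hX v (Pi.single w 1)
      rw [hv, LinearMap.zero_apply, add_zero] at h1
      exact h1) with h1 | h1
    · have h2 : v ∈ LinearMap.ker B := hv
      rw [h1, Submodule.mem_bot] at h2
      exact h2
    · exact absurd (LinearMap.ker_eq_top.1 h1) hB
  have hd : ∀ k, phi (cmp U V x) (Pi.single k 1) = i (a k) • Pi.single k (1 : K) := by
    intro k
    have h1 : cmp U V x = Matrix.diagonal (fun k => i (a k)) := by
      show V * x * U = _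
      rw [Matrix.mul_assoc, h.ec.eig, ← Matrix.mul_assoc, h.VU, Matrix.one_mul]
    rw [h1]
    show Matrix.toLin' (Matrix.diagonal fun k => i (a k)) (Pi.single k 1) = _
    rw [Matrix.toLin'_apply]
    ext l
    rw [Matrix.mulVec_diagonal]
    by_cases hkl : l = k
    · subst hkl
      simp
    · simp [hkl]
  have hex : ∀ k, ∃ k', B (Pi.single k 1) (Pi.single k' 1) ≠ 0 := by
    intro k
    by_contra hcon
    push Not at hcon
    have h1 : B (Pi.single k 1) = 0 := by
      apply LinearMap.ext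
      intro w
      have h2 : w = ∑ l, w l • (Pi.single l (1 : K)) := by
        ext l
        rw [Finset.sum_apply]
        simp [Pi.single_apply]
      rw [h2, map_sum, LinearMap.zero_apply]
      refine Finset.sum_eq_zero fun l _ => ?_
      rw [map_smul, hcon l, smul_zero]
    have h3 := congrFun (hker _ h1) k
    rw [Pi.single_eq_same, Pi.zero_apply] at h3
    exact one_ne_zero h3
  have hprod : ∀ k k', B (Pi.single k 1) (Pi.single k' 1) ≠ 0 → i (a k) * i (a k') = c := by
    intro k k' hne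
    have h1 := hc (Pi.single k 1) (Pi.single k' 1)
    rw [hd, hd, map_smul, map_smul, LinearMap.smul_apply, smul_eq_mul, smul_eq_mul, ← mul_assoc] at h1
    rw [mul_comm (i (a k)), mul_right_cancel₀ hne h1]
  obtain ⟨k₀⟩ := ‹Nonempty (Fin n)›
  obtain ⟨k₁, hk₁⟩ := hex k₀
  refine hno ⟨a k₀ * a k₁, fun k => ?_⟩
  obtain ⟨k', hk'⟩ := hex k
  refine ⟨k', i.injective ?_⟩
  rw [map_mul, map_mul, hprod _ _ hk', hprod _ _ hk₁]

end

end Pool.Agent.H45U
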