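import Pool.Agent.Lib.H45U.W2a
import Pool.Agent.Lib.H25W.Hodge
import Pool.Agent.Lib.H76Q.G12

/-!
# the characters of the group and the multiplicities
-/

set_option autoImplicit false
set_option linter.unusedSectionVars false
namespace Pool.Agent.H45U
open Pool.Agent.H76Y Pool.Agent.H76Z
open Pool.Agent.H76P Pool.Agent.H76V Pool.Agent.H76Q
open Module Matrix Polynomial Pool.Agent.H53Toric
open Pool.Agent.H76P
open Pool.Agent.H76T (IsIdeal Fam Lc)
open Pool.Agent.H76U (cmp preL IsSplitting)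
open Pool.Agent.H76RM (spanK similD)

variable {ι : Type*} [Fintype ι] [DecidableEq ι] {ψ : Matrix ι ι ℚ}
    {D : Subalgebra ℚ (Matrix ι ι ℚ)} {M : Type*} [Field M] [NumberField M]
    {m : ℕ} {cl : Fin m → Cl} {bar : Fin m → Fin m} {e : Fin m → Matrix ι ι M} {u₀ : Matrix ι ι M} {G : Type*} [Group G]
    {ρ : ∀ (l : ℕ) [Fact l.Prime], G →* Matrix.GeneralLinearGroup ι ℚ_[l]}
    {p : ℕ} [Fact p.Prime] {σ : G} {q : ℚ} {F : Fin m → M[X]}
    {φ μ ν : Matrix ι ι (AlgebraicClosure ℚ_[p])} {v : AlgebraicClosure ℚ_[p] → ℚ}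
    {Δ : Set (AlgebraicClosure ℚ_[p] ≃+* AlgebraicClosure ℚ_[p])}
    {Ω : Type*} [Field Ω] [CharZero Ω] [IsAlgClosed Ω] [Algebra.IsAlgebraic ℚ Ω] {j : M →+* Ω}
    {R : Finset Ω} {N : Set ℕ} {hd : Fin m → Ω → ℕ} {ub : Fin m → Prop}
    (C : Core5a ψ D cl bar e u₀ ρ p σ q F φ μ ν v Δ j R N hd ub)

include C

/-- A linear relation between the multiplicities at `p` holds for all projectors at all `l`. -/
theorem Core5a.hodge_of (a : Fin m → ℤ) (a₀ : ℤ)
    (hR : ∀ r ∈ R, ∑ b, a b * (hd b r : ℤ) + a₀ = 0)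
    (l : ℕ) [Fact l.Prime] {h : Matrix ι ι (AlgebraicClosure ℚ_[l])}
    (hh : h ∈ properProj (AlgebraicClosure ℚ_[l]) (ρ l)) (i : M →+* AlgebraicClosure ℚ_[l]) :
    ∑ b, a b * ((h * (e b).map i).rank : ℤ) + a₀ = 0 := by
  obtain ⟨i', rfl⟩ := Pool.Agent.H76Q.g12_ext j i
  exact (C.hodge_iff l i' a a₀).2 hR h hh

/-- A component without a form which is balanced at `p` is balanced. -/
theorem Core5a.bal_n (b : Fin m) (hR : ∀ r ∈ R, 2 * hd b r = (e b).rank)
    (l : ℕ) [Fact l.Prime] (h : Matrix ι ι (AlgebraicClosure ℚ_[l]))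
    (hh : h ∈ properProj (AlgebraicClosure ℚ_[l]) (ρ l)) (i : M →+* AlgebraicClosure ℚ_[l]) :
    2 * (h * (e b).map i).rank = (e b).rank := by
  have h1 := C.hodge_of (fun b' => if b' = b then 2 else 0) (-((e b).rank : ℤ)) (fun r hr => by
    have h2 := hR r hr
    simp only [ite_mul, zero_mul, Finset.sum_ite_eq', Finset.mem_univ, if_true]
    omega) l hh i
  simp only [ite_mul, zero_mul, Finset.sum_ite_eq', Finset.mem_univ, if_true] at h1
  omega

end Pool.Agent.H45U
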