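import Pool.Agent.Lib.H45U.W2a
import Pool.Agent.Lib.H45U.NS
import Pool.Agent.Lib.H45U.WH
import Pool.Agent.Lib.H45U.A7
import Pool.Agent.Lib.H45U.W1
import Pool.Agent.Lib.H45U.F3
import Pool.Agent.Lib.H25U.Bridge
import Pool.Agent.Lib.H76Z.W2
import Pool.Agent.Lib.H76Z.W9

/-!
# the local data
-/

set_option autoImplicit false
set_option linter.unusedSectionVars false
namespace Pool.Agent.H45U
open Pool.Agent.H76Y Pool.Agent.H76Z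
open Pool.Agent.H76P Pool.Agent.H76V Pool.Agent.H76Q
open Module Matrix Polynomial Pool.Agent.H53Toric
open Pool.Agent.H76P
open Pool.Agent.H76T (IsIdeal Fam Lc)
open Pool.Agent.H76U (cmp preL IsSplitting)
open Pool.Agent.H76RM (spanK similD)

theorem nodual_fin {M Ω : Type*} [Field M] [Field Ω] {j : M →+* Ω} {F : M[X]} {n : ℕ} {a : Fin n → Ω}
    (hroot : ∀ y : Ω, F.eval₂ j y = 0 ↔ ∃ k, y = a k) (h : NoDual j F) :
    ¬ ∃ z : Ω, ∀ k, ∃ k', a k * a k' = z := by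
  rintro ⟨z, hz⟩
  refine h ⟨z, fun y hy => ?_⟩
  obtain ⟨k, rfl⟩ := (hroot y).1 hy
  obtain ⟨k', hk'⟩ := hz k
  exact ⟨a k', (hroot _).2 ⟨k', rfl⟩, hk'⟩

variable {ι : Type*} [Fintype ι] [DecidableEq ι] {ψ : Matrix ι ι ℚ}
    {D : Subalgebra ℚ (Matrix ι ι ℚ)} {M : Type*} [Field M] [NumberField M]
    {m : ℕ} {cl : Fin m → Cl} {bar : Fin m → Fin m} {e : Fin m → Matrix ι ι M} {u₀ : Matrix ι ι M} {G : Type*} [Group G]
    {ρ : ∀ (l : ℕ) [Fact l.Prime], G →* Matrix.GeneralLinearGroup ι ℚ_[l]}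
    {p : ℕ} [Fact p.Prime] {σ : G} {q : ℚ} {F : Fin m → M[X]}
    {φ μ ν : Matrix ι ι (AlgebraicClosure ℚ_[p])} {v : AlgebraicClosure ℚ_[p] → ℚ}
    {Δ : Set (AlgebraicClosure ℚ_[p] ≃+* AlgebraicClosure ℚ_[p])}
    {Ω : Type*} [Field Ω] [CharZero Ω] [IsAlgClosed Ω] [Algebra.IsAlgebraic ℚ Ω] {j : M →+* Ω}
    {R : Finset Ω} {N : Set ℕ} {hd : Fin m → Ω → ℕ} {ub : Fin m → Prop}
    (C : Core5 ψ D cl bar e u₀ ρ p σ q F φ μ ν v Δ j R N hd ub)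

include C

theorem Core5.locp (b : Fin m)
    {n : ℕ} {a : Fin n → Ω} (ha : Function.Injective a)
    (hroot : ∀ y : Ω, (F b).eval₂ j y = 0 ↔ ∃ k, y = a k)
    (i : Ω →+* AlgebraicClosure ℚ_[p]) :
    ∃ (H₀ : Subgroup G) (U : Matrix ι (Fin n) (AlgebraicClosure ℚ_[p]))
      (V : Matrix (Fin n) ι (AlgebraicClosure ℚ_[p])), H₀.FiniteIndex ∧
      LocU (ψ.map (algebraMap ℚ (AlgebraicClosure ℚ_[p]))) (img (AlgebraicClosure ℚ_[p]) (ρ p) H₀)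
        (properProj (AlgebraicClosure ℚ_[p]) (ρ p)) ((e b).map (i.comp j)) φ
        U V (fun k => i (a k)) (YS a) ∧
      ClsU (cl b) (LcN (ψ.map (algebraMap ℚ (AlgebraicClosure ℚ_[p])))
        (img (AlgebraicClosure ℚ_[p]) (ρ p) H₀) U V) := by
  obtain ⟨H₀, U, V, hfin, hL, h1, h2, h3⟩ := C.locp0 b ha hroot i
  refine ⟨H₀, U, V, hfin, hL, h1, h2, fun hb h4 => ?_⟩
  have hn := C.card b ha hroot
  have : Nonempty (Fin n) := ⟨⟨0, hL.pos⟩⟩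
  rw [Fintype.card_fin] at h4
  rcases C.alt b hb with h5 | h5 | ⟨r, hr, h5, h6, h7⟩ | h5
  · omega
  · exact (h3 fun h hh => by rw [C.bal_n b h5 p h hh (i.comp j), hn]).2.2.2 hb
  · exact C.cls_n b ha hroot hr h5 h6 h7 hL.ts hL.yo
  · exact ns_roots i hL C.crys.phigen (nodual_fin hroot h5)

theorem Core5.locl (b : Fin m)
    {n : ℕ} {a : Fin n → Ω} (ha : Function.Injective a)
    (hroot : ∀ y : Ω, (F b).eval₂ j y = 0 ↔ ∃ k, y = a k)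
    (l : ℕ) [Fact l.Prime] (hl : l ≠ p) (i : Ω →+* AlgebraicClosure ℚ_[l]) :
    ∃ (H₀ : Subgroup G) (U : Matrix ι (Fin n) (AlgebraicClosure ℚ_[l]))
      (V : Matrix (Fin n) ι (AlgebraicClosure ℚ_[l])), H₀.FiniteIndex ∧
      LocU (ψ.map (algebraMap ℚ (AlgebraicClosure ℚ_[l]))) (img (AlgebraicClosure ℚ_[l]) (ρ l) H₀)
        (properProj (AlgebraicClosure ℚ_[l]) (ρ l)) ((e b).map (i.comp j))
        ((ρ l σ).1.map (algebraMap ℚ_[l] (AlgebraicClosure ℚ_[l])))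
        U V (fun k => i (a k)) (YS a) ∧
      ClsU (cl b) (LcN (ψ.map (algebraMap ℚ (AlgebraicClosure ℚ_[l])))
        (img (AlgebraicClosure ℚ_[l]) (ρ l) H₀) U V) := by
  obtain ⟨H₀, U, V, hfin, hL, h1, h2, h3⟩ := C.locl0 b ha hroot l hl i
  refine ⟨H₀, U, V, hfin, hL, h1, h2, fun hb h4 => ?_⟩
  have hn := C.card b ha hroot
  have : Nonempty (Fin n) := ⟨⟨0, hL.pos⟩⟩
  rw [Fintype.card_fin] at h4
  rcases C.alt b hb with h5 | h5 | ⟨r, hr, h5, h6, h7⟩ | h5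
  · omega
  · exact (h3 fun h hh => by rw [C.bal_n b h5 l h hh (i.comp j), hn]).2.2.2 hb
  · exact C.cls_n b ha hroot hr h5 h6 h7 hL.ts hL.yo
  · exact ns_roots i hL (C.gen l σ) (nodual_fin hroot h5)

end Pool.Agent.H45U
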