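import Pool.Agent.Lib.H76Y.E1
import Pool.Agent.Lib.H76Q.E3
import Pool.Agent.Lib.H45U.U3

/-!
# the semilinear automorphism of an automorphism of the field
-/

set_option autoImplicit false
set_option linter.unusedSectionVars false
namespace Pool.Agent.H45U
open Pool.Agent.H76Y Pool.Agent.H76Z
open Pool.Agent.H76Q
open Module Matrix Polynomial Pool.Agent.H53Toric
open Pool.Agent.H76P
open Pool.Agent.H76T (IsIdeal Fam Lc)
open Pool.Agent.H76V (Cmp)
open Pool.Agent.H76U (cmp preL IsSplitting)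
open Pool.Agent.H76RM (spanK similD)

theorem det_phi {K : Type*} [Field K] {n : ℕ} (A : Matrix (Fin n) (Fin n) K) :
    LinearMap.det (phi A : Module.End K (Fin n → K)) = A.det := by
  have : (phi A : Module.End K (Fin n → K)) = Matrix.toLin' A := rfl
  rw [this, LinearMap.det_toLin']

theorem trace_phi {K : Type*} [Field K] {n : ℕ} (A : Matrix (Fin n) (Fin n) K) :
    LinearMap.trace K (Fin n → K) (phi A : Module.End K (Fin n → K)) = A.trace := by
  have : (phi A : Module.End K (Fin n → K)) = Matrix.toLin' A := rfl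
  rw [this, Matrix.trace_toLin'_eq]

variable {ι : Type*} [Fintype ι] [DecidableEq ι] {K : Type*} [Field K] [CharZero K]
  [IsAlgClosed K] {J : Matrix ι ι K} {S 𝓗 : Set (Matrix ι ι K)} {e x : Matrix ι ι K} {q : K} {n : ℕ}
  {U : Matrix ι (Fin n) K} {V : Matrix (Fin n) ι K} {d : Fin n → K}
  {Y : Submodule ℚ (Fin n → ℚ)}

theorem exists_theta (h : LocU J S 𝓗 e x U V d Y) {τ : K ≃+* K} (he : e.map τ = e)
    (hx : x.map τ = x) (hJ : J.map τ = J) (hS : ∀ s ∈ S, s.map τ = s)
    {σ : Equiv.Perm (Fin n)} (hσ : ∀ k, τ (d k) = d (σ k)) :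
    ∃ θ : Module.End K (Fin n → K) ≃+* Module.End K (Fin n → K),
      ThetaN (LcN J S U V) θ τ σ ∧
      ∀ X, (U * LinearMap.toMatrix' X * V).map τ = U * LinearMap.toMatrix' (θ X) * V := by
  have hUV := h.UV
  have hVU := h.VU
  have hVe : V * e = V := by rw [hUV, ← Matrix.mul_assoc, hVU, Matrix.one_mul]
  have heU : e * U = U := by rw [hUV, Matrix.mul_assoc, hVU, Matrix.mul_one]
  have heUt : e * U.map τ = U.map τ := by
    nth_rw 1 [← he]
    rw [← e3_map_mul, heU]
  have hVte : V.map τ * e = V.map τ := by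
    nth_rw 1 [← he]
    rw [← e3_map_mul, hVe]
  have hUVt : U.map τ * V.map τ = e := by rw [← e3_map_mul, ← hUV, he]
  obtain ⟨C, hC⟩ : ∃ C, C = V * U.map τ := ⟨_, rfl⟩
  obtain ⟨C', hC'⟩ : ∃ C', C' = V.map τ * U := ⟨_, rfl⟩
  have hCC : C * C' = 1 := by
    calc C * C' = V * (U.map τ * V.map τ) * U := by rw [hC, hC']; simp only [Matrix.mul_assoc]
      _ = 1 := by rw [hUVt, hVe, hVU]
  have hCl : ∀ l k, C l k ≠ 0 → l = σ k := by
    intro l k hne
    have hVx : V * x = Matrix.diagonal d * V := by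
      calc V * x = V * e * x := by rw [hVe]
        _ = V * (x * U) * V := by
            rw [Matrix.mul_assoc V e x, h.ex, hUV]
            simp only [Matrix.mul_assoc]
        _ = V * U * Matrix.diagonal d * V := by rw [h.ec.eig]; simp only [Matrix.mul_assoc]
        _ = _ := by rw [hVU, Matrix.one_mul]
    have hxU : x * U.map τ = U.map τ * Matrix.diagonal (fun k => d (σ k)) := by
      have h1 := congrArg (fun M : Matrix ι (Fin n) K => M.map τ) h.ec.eig
      beta_reduce at h1
      rw [e3_map_mul, e3_map_mul, hx] at h1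
      rw [h1]
      congr 1
      ext a b
      rw [Matrix.map_apply, Matrix.diagonal_apply, Matrix.diagonal_apply]
      split_ifs
      · exact hσ a
      · exact map_zero τ
    have h2 : Matrix.diagonal d * C = C * Matrix.diagonal (fun k => d (σ k)) := by
      rw [hC, ← Matrix.mul_assoc, ← hVx, Matrix.mul_assoc, hxU, Matrix.mul_assoc]
    have h3 := congrFun (congrFun h2 l) k
    rw [Matrix.diagonal_mul, Matrix.mul_diagonal, mul_comm (C l k)] at h3
    exact h.ec.inj (mul_right_cancel₀ hne h3)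
  have hmat : ∀ X : Module.End K (Fin n → K), ∃ y : Matrix (Fin n) (Fin n) K, X = phi y ∧
      LinearMap.toMatrix' X = y := by
    intro X
    obtain ⟨y, rfl⟩ := (phi (ι := Fin n) (K := K)).surjective X
    exact ⟨y, rfl, (phi (ι := Fin n) (K := K)).symm_apply_apply y⟩
  have hC'C : C' * C = 1 := _root_.mul_eq_one_comm.1 hCC
  have htr : ∀ X : Module.End K (Fin n → K), LinearMap.trace K (Fin n → K) (H76T.tht τ hCC X) =
      τ (LinearMap.trace K (Fin n → K) X) := by
    intro X
    obtain ⟨y, rfl, -⟩ := hmat X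
    rw [H76T.tht_apply, trace_phi, trace_phi, Matrix.trace_mul_comm, ← Matrix.mul_assoc, hC'C, Matrix.one_mul]
    exact (AddMonoidHom.map_trace (τ : K →+* K).toAddMonoidHom y).symm
  have hdet : ∀ X : Module.End K (Fin n → K), LinearMap.det (H76T.tht τ hCC X) =
      τ (LinearMap.det X) := by
    intro X
    obtain ⟨y, rfl, -⟩ := hmat X
    rw [H76T.tht_apply, det_phi, det_phi, Matrix.det_mul, Matrix.det_mul, mul_right_comm, ← Matrix.det_mul, hCC, Matrix.det_one, one_mul]
    exact (RingHom.map_det (τ : K →+* K) y).symm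
  have hcmp : ∀ A : Matrix ι ι K, H76T.tht τ hCC (phi (cmp U V A)) = phi (cmp U V (A.map τ)) := by
    intro A
    rw [H76T.tht_apply]
    congr 1
    rw [H76U.cmp_apply, H76U.cmp_apply, e3_map_mul, e3_map_mul, hC, hC']
    calc V * U.map τ * (V.map τ * A.map τ * U.map τ) * (V.map τ * U) =
        V * (U.map τ * V.map τ) * A.map τ * ((U.map τ * V.map τ) * U) := by
          simp only [Matrix.mul_assoc]
      _ = _ := by rw [hUVt, hVe, heU]
  have hS' : ∀ s ∈ S, s.map τ.symm = s := by
    intro s hs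
    nth_rw 1 [← hS s hs]
    exact H76T.map_symmm τ s
  have hJs : J.map τ.symm = J := by
    nth_rw 1 [← hJ]
    exact H76T.map_symmm τ J
  have hLb : ∀ X : Module.End K (Fin n → K), H76T.tht τ hCC X ∈ H76U.Lb J S U V ↔ X ∈ H76U.Lb J S U V := by
    intro X
    constructor
    · intro hX
      obtain ⟨y, hy, -⟩ := hmat (H76T.tht τ hCC X)
      rw [hy] at hX
      obtain ⟨A, hA, hAy⟩ := H76U.mem_Lb.1 hX
      have h1 : H76T.tht τ hCC (phi (cmp U V (A.map τ.symm))) = H76T.tht τ hCC X := by
        rw [hcmp, H76T.map_symmm', hAy, hy]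
      rw [← (H76T.tht τ hCC).injective h1]
      exact H76U.mem_Lb.2 ⟨_, e3_preL hJs hS' hA, rfl⟩
    · intro hX
      obtain ⟨y, rfl, -⟩ := hmat X
      obtain ⟨A, hA, rfl⟩ := H76U.mem_Lb.1 hX
      rw [hcmp]
      exact H76U.mem_Lb.2 ⟨_, e3_preL hJ hS hA, rfl⟩
  refine ⟨H76T.tht τ hCC, ⟨H76T.tht_smul τ hCC, fun g => ?_, fun X => ?_, fun X => ?_⟩, fun X => ?_⟩
  · rw [← phi_diag, H76T.tht_apply, ← phi_diag]
    congr 1
    have h1 : C * (Matrix.diagonal g).map τ = Matrix.diagonal (fun k => τ (g (σ.symm k))) * C := by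
      have h2 : (Matrix.diagonal g).map τ = Matrix.diagonal (fun k => τ (g k)) := by
        ext a b
        rw [Matrix.map_apply, Matrix.diagonal_apply, Matrix.diagonal_apply]
        split_ifs
        · rfl
        · exact map_zero τ
      rw [h2]
      ext l k
      rw [Matrix.diagonal_mul, Matrix.mul_diagonal]
      by_cases hz : C l k = 0
      · rw [hz, zero_mul, mul_zero]
      · rw [hCl l k hz, Equiv.symm_apply_apply, mul_comm]
    rw [h1, Matrix.mul_assoc, hCC, Matrix.mul_one]
  · show (_ ∧ _) ↔ (_ ∧ _)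
    rw [hLb, htr, map_eq_zero]
  · exact hdet X
  · obtain ⟨y, rfl, hy⟩ := hmat X
    rw [hy, H76T.tht_apply]
    have h1 : LinearMap.toMatrix' (phi (C * y.map τ * C')) = C * y.map τ * C' :=
      (phi (ι := Fin n) (K := K)).symm_apply_apply _
    rw [h1, e3_map_mul, e3_map_mul, hC, hC']
    calc U.map τ * y.map τ * V.map τ = (e * U.map τ) * y.map τ * (V.map τ * e) := by rw [heUt, hVte]
      _ = _ := by
          rw [hUV]
          simp only [Matrix.mul_assoc]

end Pool.Agent.H45U
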