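import Pool.Agent.Lib.H45U.W3
import Pool.Agent.Lib.H45U.E6
import Pool.Agent.Lib.H76Y.D2
import Pool.Agent.Lib.H76Q.D3
import Pool.Agent.Lib.H76Q.E5
import Pool.Agent.Lib.H45U.U3
import Pool.Agent.Lib.H76Z.W4

/-!
# W4: reciprocity
-/

set_option autoImplicit false
set_option linter.unusedSectionVars false
namespace Pool.Agent.H45U
open Pool.Agent.H76Y Pool.Agent.H76Z
open Pool.Agent.H76P Pool.Agent.H76V Pool.Agent.H76Q
open Module Matrix Polynomial Pool.Agent.H53Toric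
open Pool.Agent.H76P
open Pool.Agent.H76T (IsIdeal Fam Lc)
open Pool.Agent.H76U (cmp preL IsSplitting)
open Pool.Agent.H76RM (spanK similD)

variable {ι : Type*} [Fintype ι] [DecidableEq ι] {ψ : Matrix ι ι ℚ}
    {D : Subalgebra ℚ (Matrix ι ι ℚ)} {M : Type*} [Field M] [NumberField M]
    {m : ℕ} {cl : Fin m → Cl} {bar : Fin m → Fin m} {e : Fin m → Matrix ι ι M} {u₀ : Matrix ι ι M} {G : Type*} [Group G]
    {ρ : ∀ (l : ℕ) [Fact l.Prime], G →* Matrix.GeneralLinearGroup ι ℚ_[l]}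
    {p : ℕ} [Fact p.Prime] {σ : G} {q : ℚ} {F : Fin m → M[X]}
    {φ μ ν : Matrix ι ι (AlgebraicClosure ℚ_[p])} {v : AlgebraicClosure ℚ_[p] → ℚ}
    {Δ : Set (AlgebraicClosure ℚ_[p] ≃+* AlgebraicClosure ℚ_[p])}
    {Ω : Type*} [Field Ω] [CharZero Ω] [IsAlgClosed Ω] [Algebra.IsAlgebraic ℚ Ω] {j : M →+* Ω}
    {R : Finset Ω} {N : Set ℕ} {hd : Fin m → Ω → ℕ} {ub : Fin m → Prop}
    (C : Core5 ψ D cl bar e u₀ ρ p σ q F φ μ ν v Δ j R N hd ub)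

include C

theorem Core5.recl (b : Fin m)
    {n : ℕ} {a : Fin n → Ω} (ha : Function.Injective a)
    (hroot : ∀ y : Ω, (F b).eval₂ j y = 0 ↔ ∃ k, y = a k)
    {P : Module.End ℚ (YS a)} (hP : Sp P) (hg : GoodU (cl b) P) {t : Fin n → Ω} (ht : Lift P a t) :
    ∃ (x : Ω → ℕ) (c : Ω), c ≠ 0 ∧ (∀ s ∈ GamP j R a P, s ∈ fixMu n Ω → s c = c) ∧
      ∏ k, t k = (∏ r ∈ R, r ^ x r) * c ^ n := by
  classical
  let i₀ : Ω →+* AlgebraicClosure ℚ_[p] := (IsAlgClosed.lift : Ω →ₐ[ℚ] AlgebraicClosure ℚ_[p]).toRingHom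
  obtain ⟨H₁, U₁, V₁, -, hL₁, -⟩ := C.locp b ha hroot i₀
  have : Nonempty (Fin n) := ⟨⟨0, hL₁.pos⟩⟩
  have hn := C.card b ha hroot
  obtain ⟨Γ₀, hΓ₀⟩ := exists_gam (a := a) (P := P) j R
  obtain ⟨T₀, hT₀⟩ := gam_open (a := a) (P := P) j R
  have hA := C.arith b
  rw [← hn] at hA
  have hmem : ∀ s, s ∈ Γ₀ ⊓ fixMu n Ω ↔ s ∈ GamP j R a P ∧ s ∈ fixMu n Ω := by
    intro s
    rw [Subgroup.mem_inf, hΓ₀]
  obtain ⟨x, c, hc0, hc, hprod⟩ := hA.cheb (Γ₀ ⊓ fixMu n Ω)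
    ⟨T₀ ∪ (Polynomial.nthRoots n (1 : Ω)).toFinset, fun s hs => (hmem s).2 ⟨hT₀ s fun y hy =>
      hs y (Finset.mem_union_left _ hy), fun z hz => hs z (Finset.mem_union_right _ (by
        rw [Multiset.mem_toFinset, Polynomial.mem_nthRoots hL₁.pos]
        exact hz))⟩⟩
    (fun s hs => ((hmem s).1 hs).2) (fun s hs r hr => ((hmem s).1 hs).1.2.1 r hr) (∏ k, t k) (lift_prod_ne ht)
    (by
      intro s hs
      obtain ⟨⟨-, -, σ', h1, h2⟩, -⟩ := (hmem s).1 hs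
      exact lift_prod ht s σ' h1 h2)
    (by
      intro l _ hl i hdec hsq
      have hlp : l ≠ p := by
        intro h
        apply hl
        rw [h]
        exact C.hN
      obtain ⟨H₀, U, V, hfin, hL, hcls⟩ := C.locl b ha hroot l hlp i
      have hres : ∀ τ : AlgebraicClosure ℚ_[l] ≃ₐ[ℚ_[l]] AlgebraicClosure ℚ_[l], ∃ s : Ω ≃+* Ω,
          (∀ y, τ (i y) = i (s y)) ∧ s ∈ GamP j R a P := by
        intro τ
        obtain ⟨s, hs⟩ := exists_res i τ.toRingEquiv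
        exact ⟨s, hs, ((hmem s).1 (hdec τ s hs)).1⟩
      refine power_at (ρ l) hL (C.gen l) (hA.recl l hl i hsq) hP (hg _ _ hL.ts hcls hL.yo) ?_ ?_ ?_ ht
      · intro τ
        ext x y
        simp
      · intro τ
        obtain ⟨s, hs, hsΓ⟩ := hres τ
        ext x y
        show τ (i (j (e b x y))) = i (j (e b x y))
        rw [hs, hsΓ.1]
      · intro τ
        obtain ⟨s, hs, hsΓ⟩ := hres τ
        obtain ⟨-, -, σ', h1, h2⟩ := hsΓ
        exact ⟨s, σ', hs, h1, h2⟩)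
  exact ⟨x, c, hc0, fun s hs hs' => hc s ((hmem s).2 ⟨hs, hs'⟩), hprod⟩

end Pool.Agent.H45U
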