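import Pool.Agent.Lib.H76Q.Q3
import Pool.Agent.Lib.H76Y.A1
import Pool.Agent.Lib.H45U.E4
import Pool.Agent.Lib.H76Q.F2
import Pool.Agent.Lib.H76Y.Y0
import Pool.Agent.Lib.H45U.U3

/-!
# integral elements
-/

set_option autoImplicit false
set_option linter.unusedSectionVars false
namespace Pool.Agent.H45U
open Pool.Agent.H76Y Pool.Agent.H76Z
open Pool.Agent.H76P Pool.Agent.H76V Pool.Agent.H76Q
open Module Matrix Polynomial Pool.Agent.H53Toric
open Pool.Agent.H76P
open Pool.Agent.H76T (IsIdeal Fam Lc)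
open Pool.Agent.H76U (cmp preL IsSplitting)
open Pool.Agent.H76RM (spanK similD)

variable {ι : Type*} [Fintype ι] [DecidableEq ι] {K : Type*} [Field K] [CharZero K]
  [IsAlgClosed K] {J : Matrix ι ι K} {S 𝓗 : Set (Matrix ι ι K)} {e x : Matrix ι ι K} {q : K} {n : ℕ}
  {U : Matrix ι (Fin n) K} {V : Matrix (Fin n) ι K} {d : Fin n → K}
  {Y : Submodule ℚ (Fin n → ℚ)}

theorem f1_one {v : K → ℚ} (hv : IsVal v) : v 1 = 0 ∧ v (-1) = 0 := by
  have h1 : v 1 = 0 := by
    have := hv.mul 1 1 one_ne_zero one_ne_zero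
    rw [mul_one] at this
    linarith
  refine ⟨h1, ?_⟩
  have hm : (-1 : K) ≠ 0 := neg_ne_zero.2 one_ne_zero
  have := hv.mul (-1) (-1) hm hm
  rw [neg_one_mul, neg_neg, h1] at this
  linarith

theorem f1_inv {v : K → ℚ} (hv : IsVal v) {t : K} (ht : t ≠ 0) : v t⁻¹ = - v t := by
  have := hv.mul t t⁻¹ ht (inv_ne_zero ht)
  rw [mul_inv_cancel₀ ht, (f1_one hv).1] at this
  linarith

theorem f1_sum {v : K → ℚ} (hv : IsVal v) {α : Type*} (s : Finset α) (f : α → K) :
    (∀ i ∈ s, f i ≠ 0 → 0 ≤ v (f i)) → ∑ i ∈ s, f i ≠ 0 → 0 ≤ v (∑ i ∈ s, f i) := by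
  classical
  induction s using Finset.induction_on with
  | empty => intro _ h; simp at h
  | insert a s ha ih =>
    intro h hne
    rw [Finset.sum_insert ha] at hne ⊢
    have ih' := ih (fun i hi => h i (Finset.mem_insert_of_mem hi))
    by_cases h1 : f a = 0
    · rw [h1, zero_add] at hne ⊢
      exact ih' hne
    · by_cases h2 : ∑ i ∈ s, f i = 0
      · rw [h2, add_zero]
        exact h a (Finset.mem_insert_self _ _) h1
      · exact le_trans (le_min (h a (Finset.mem_insert_self _ _) h1) (ih' h2)) (hv.add _ _ h1 h2 hne)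

theorem f1_mul {v : K → ℚ} (hv : IsVal v) {A B : Matrix ι ι K} (hA : IntMat v A)
    (hB : IntMat v B) : IntMat v (A * B) := by
  intro i j hij
  rw [Matrix.mul_apply] at hij ⊢
  apply f1_sum hv _ _ _ hij
  intro k _ hk
  have h1 : A i k ≠ 0 := left_ne_zero_of_mul hk
  have h2 : B k j ≠ 0 := right_ne_zero_of_mul hk
  rw [hv.mul _ _ h1 h2]
  exact add_nonneg (hA i k h1) (hB k j h2)

theorem f1_add {v : K → ℚ} (hv : IsVal v) {A B : Matrix ι ι K} (hA : IntMat v A)
    (hB : IntMat v B) : IntMat v (A + B) := by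
  intro i j hij
  rw [Matrix.add_apply] at hij ⊢
  by_cases h1 : A i j = 0
  · rw [h1, zero_add] at hij ⊢
    exact hB i j hij
  · by_cases h2 : B i j = 0
    · rw [h2, add_zero]
      exact hA i j h1
    · exact le_trans (le_min (hA i j h1) (hB i j h2)) (hv.add _ _ h1 h2 hij)

theorem f1_id {v : K → ℚ} (hv : IsVal v) : IntMat v (1 : Matrix ι ι K) := by
  intro i j hij
  by_cases h : i = j
  · rw [h, Matrix.one_apply_eq, (f1_one hv).1]
  · rw [Matrix.one_apply_ne h] at hij
    exact absurd rfl hij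

theorem f1_gen {v : K → ℚ} (hv : IsVal v) {k : Matrix ι ι K} (hk : IntMat v k) {t : K}
    (ht : t ≠ 0) (hvt : v t = 0) : IntMat v (1 + (t - 1) • k) := by
  apply f1_add hv (f1_id hv)
  intro i j hij
  rw [Matrix.smul_apply, smul_eq_mul] at hij ⊢
  have h1 : t - 1 ≠ 0 := left_ne_zero_of_mul hij
  have h2 : k i j ≠ 0 := right_ne_zero_of_mul hij
  rw [hv.mul _ _ h1 h2]
  have h3 : 0 ≤ v (t - 1) := by
    have h4 := hv.add t (-1) ht (neg_ne_zero.2 one_ne_zero) (by rwa [← sub_eq_add_neg])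
    rw [hvt, (f1_one hv).2, min_self, ← sub_eq_add_neg] at h4
    exact h4
  exact add_nonneg h3 (hk i j h2)

theorem f1_mat (A : Matrix (Fin n) (Fin n) K) : LinearMap.toMatrix' (phi A) = A := by
  have : (phi A : Module.End K (Fin n → K)) = Matrix.toLin' A := rfl
  rw [this, LinearMap.toMatrix'_toLin']

theorem f1_conj (hVU : V * U = 1) (A B : Matrix (Fin n) (Fin n) K) :
    U * (A * B) * V = (U * A * V) * (U * B * V) := by
  have h1 : (U * A * V) * (U * B * V) = U * A * (V * U) * B * V := by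
    simp only [Matrix.mul_assoc]
  rw [h1, hVU, Matrix.mul_one]
  simp only [Matrix.mul_assoc]

/-- PROOF. `Submonoid.closure_induction`.  For a generator `y = 1 + (t - 1) k` put `y' = 1 + (t⁻¹ - 1) k`; `v t⁻¹ = 0`.  With `PT_par`: if the first alternative holds take
`u = phi (cmp U V y)`, `u' = phi (cmp U V y')`: `U * cmp U V y * V = e * y * e = y * e` has integral entries (`IsVal`: sums and products of integral numbers are integral, `v 1 = 0`, `v (t - 1) ≥ 0` or
`t = 1`).  Otherwise `u = u' = 1` and `U * V = e`.  Products: `U * (A * B) * V = (U * A * V) * (U * B * V)`; `PT_mul`. -/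
theorem int_PT (h : LocU J S 𝓗 e x U V d Y) {v : K → ℚ} (hv : IsVal v) (he : IntMat v e)
    {P : Module.End ℚ Y} (hP : Sp P) (hc : Comp (LcN J S U V) P) {g : Matrix ι ι K}
    (hg : g ∈ Submonoid.closure {y | ∃ k ∈ 𝓗, IntMat v k ∧ ∃ t : K, t ≠ 0 ∧ v t = 0 ∧
      y = 1 + (t - 1) • k}) :
    ∃ u u' r t, PTN (LcN J S U V) P (phi (cmp U V g)) u r t ∧ v t = 0 ∧ u * u' = 1 ∧
      IntMat v (U * LinearMap.toMatrix' u * V) ∧ IntMat v (U * LinearMap.toMatrix' u' * V) := by
  have : Nonempty (Fin n) := ⟨⟨0, h.pos⟩⟩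
  have key : g * e = e * g ∧
    ∃ u u' r t, PTN (LcN J S U V) P (phi (cmp U V g)) u r t ∧ v t = 0 ∧ u * u' = 1 ∧
      IntMat v (U * LinearMap.toMatrix' u * V) ∧ IntMat v (U * LinearMap.toMatrix' u' * V) := by
    induction hg using Submonoid.closure_induction with
    | mem y hy =>
      obtain ⟨k, hk, hki, t, ht, hvt, rfl⟩ := hy
      obtain ⟨hkk, hke, c, hkL⟩ := h.par k hk
      have hye : ∀ t : K, (1 + (t - 1) • k) * e = e * (1 + (t - 1) • k) := by
        intro t
        rw [add_mul, mul_add, one_mul, mul_one, smul_mul_assoc, mul_smul_comm, hke]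
      refine ⟨hye t, ?_⟩
      obtain ⟨hyy, hpar⟩ := par_spec h.UV h.VU hkk hke (c : K)
      rcases PT_parE (P := P) h.ts hc hkL hyy ht with h1 | h1
      · rw [← hpar t] at h1
        refine ⟨_, phi (cmp U V (1 + (t⁻¹ - 1) • k)), _, _, h1, by
          rw [(IsVal.basic hv).2.2.2 t ht, hvt, mul_zero], ?_, ?_, ?_⟩
        · rw [← map_mul, ← Pool.Agent.H76U.cmp_mul h.UV h.VU (hye t⁻¹)]
          have e1 : (1 + (t - 1) • k) * (1 + (t⁻¹ - 1) • k) = 1 := by
            rw [add_mul, one_mul, mul_add, mul_one, smul_mul_assoc, mul_smul_comm, hkk, smul_smul,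
              add_assoc, ← add_smul, ← add_smul]
            have : t⁻¹ - 1 + (t - 1 + (t - 1) * (t⁻¹ - 1)) = 0 := by
              field_simp
              ring
            rw [this, zero_smul, add_zero]
          rw [e1, Pool.Agent.H76U.cmp_one h.UV h.VU, map_one]
        · rw [f1_mat, Pool.Agent.H76U.cmp_apply]
          have e1 : U * (V * (1 + (t - 1) • k) * U) * V = e * (1 + (t - 1) • k) * e := by
            rw [h.UV]
            simp only [Matrix.mul_assoc]
          rw [e1]
          exact f1_mul hv (f1_mul hv he (f1_gen hv hki ht hvt)) he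
        · rw [f1_mat, Pool.Agent.H76U.cmp_apply]
          have e1 : U * (V * (1 + (t⁻¹ - 1) • k) * U) * V = e * (1 + (t⁻¹ - 1) • k) * e := by
            rw [h.UV]
            simp only [Matrix.mul_assoc]
          rw [e1]
          exact f1_mul hv (f1_mul hv he (f1_gen hv hki (inv_ne_zero ht)
            (by rw [f1_inv hv ht, hvt, neg_zero]))) he
      · rw [← hpar t] at h1
        refine ⟨_, 1, _, _, h1, (f1_one hv).1, one_mul 1, ?_, ?_⟩
        · rw [LinearMap.toMatrix'_one, Matrix.mul_one, ← h.UV]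
          exact he
        · rw [LinearMap.toMatrix'_one, Matrix.mul_one, ← h.UV]
          exact he
    | one =>
      refine ⟨by rw [one_mul, mul_one], 1, 1, 1, 1, ?_, (f1_one hv).1, one_mul 1, ?_, ?_⟩
      · rw [Pool.Agent.H76U.cmp_one h.UV h.VU, map_one]
        exact PT_one h.ts
      · rw [LinearMap.toMatrix'_one, Matrix.mul_one, ← h.UV]
        exact he
      · rw [LinearMap.toMatrix'_one, Matrix.mul_one, ← h.UV]
        exact he
    | mul g1 g2 _ _ h1 h2 =>
      obtain ⟨hc1, u1, u1', r1, t1, hp1, hv1, hu1, hi1, hi1'⟩ := h1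
      obtain ⟨hc2, u2, u2', r2, t2, hp2, hv2, hu2, hi2, hi2'⟩ := h2
      refine ⟨?_, u1 * u2, u2' * u1', r1 * r2, t1 * t2, ?_, ?_, ?_, ?_, ?_⟩
      · rw [mul_assoc, hc2, ← mul_assoc, hc1, mul_assoc]
      · rw [Pool.Agent.H76U.cmp_mul h.UV h.VU hc2, map_mul]
        exact PT_mul h.ts h.yo hP hp1 hp2
      · rw [hv.mul _ _ hp1.2.2.2.1 hp2.2.2.2.1, hv1, hv2, add_zero]
      · calc u1 * u2 * (u2' * u1') = u1 * (u2 * u2') * u1' := by simp only [mul_assoc]
          _ = 1 := by rw [hu2, mul_one, hu1]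
      · have e1 : U * LinearMap.toMatrix' (u1 * u2) * V =
            (U * LinearMap.toMatrix' u1 * V) * (U * LinearMap.toMatrix' u2 * V) := by
          rw [LinearMap.toMatrix'_mul]
          exact f1_conj h.VU _ _
        rw [e1]
        exact f1_mul hv hi1 hi2
      · have e1 : U * LinearMap.toMatrix' (u2' * u1') * V =
            (U * LinearMap.toMatrix' u2' * V) * (U * LinearMap.toMatrix' u1' * V) := by
          rw [LinearMap.toMatrix'_mul]
          exact f1_conj h.VU _ _
        rw [e1]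
        exact f1_mul hv hi2' hi1'
  exact key.2

end Pool.Agent.H45U
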