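import Pool.Agent.Lib.H76Q.B1
import Pool.Agent.Lib.H76Q.Q3
import Pool.Agent.Lib.H76Y.A1
import Pool.Agent.Lib.H76Y.C1
import Pool.Agent.Lib.H76Y.C2
import Pool.Agent.Lib.H76Y.C3
import Pool.Agent.Lib.H45U.F3
import Pool.Agent.Lib.H76Y.Y0
import Pool.Agent.Lib.H45U.U3

/-!
# unramified factors
-/

set_option autoImplicit false
set_option linter.unusedSectionVars false
namespace Pool.Agent.H45U
open Pool.Agent.H76Y Pool.Agent.H76Z
open Pool.Agent.H76P Pool.Agent.H76V Pool.Agent.H76Q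
open Module Matrix Polynomial Pool.Agent.H53Toric
open Pool.Agent.H76P
open Pool.Agent.H76T (IsIdeal Fam Lc)
open Pool.Agent.H76U (cmp preL IsSplitting)
open Pool.Agent.H76RM (spanK similD)

variable {ι : Type*} [Fintype ι] [DecidableEq ι] {K : Type*} [Field K] [CharZero K]
  [IsAlgClosed K] {J : Matrix ι ι K} {S 𝓗 : Set (Matrix ι ι K)} {e x : Matrix ι ι K} {q : K} {n : ℕ}
  {U : Matrix ι (Fin n) K} {V : Matrix (Fin n) ι K} {d : Fin n → K}
  {Y : Submodule ℚ (Fin n → ℚ)}

/-- The linear map `X ↦ U X V`. -/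
noncomputable def f4_T (U : Matrix ι (Fin n) K) (V : Matrix (Fin n) ι K) :
    Module.End K (Fin n → K) →ₗ[K] Matrix ι ι K where
  toFun X := U * (phi.symm X) * V
  map_add' := by
    intro X X'
    rw [map_add, Matrix.mul_add, Matrix.add_mul]
  map_smul' := by
    intro c X
    rw [map_smul, Matrix.mul_smul, Matrix.smul_mul]
    rfl

theorem f4_T_apply (U : Matrix ι (Fin n) K) (V : Matrix (Fin n) ι K) (X : Module.End K (Fin n → K)) :
    f4_T U V X = U * (phi.symm X) * V := rfl

theorem f4_left (hUV : e = U * V) (hVU : V * U = 1) {C : Matrix ι ι K} (hC : C * e = e * C)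
    (X : Module.End K (Fin n → K)) :
    C * f4_T U V X = f4_T U V (phi (cmp U V C) * X) := by
  rw [f4_T_apply, f4_T_apply, map_mul, AlgEquiv.symm_apply_apply]
  calc C * (U * phi.symm X * V) = (C * U) * phi.symm X * V := by simp only [Matrix.mul_assoc]
    _ = (U * cmp U V C) * phi.symm X * V := by rw [Pool.Agent.H76U.P_cmp hUV hVU hC]
    _ = U * (cmp U V C * phi.symm X) * V := by simp only [Matrix.mul_assoc]

theorem f4_right (hUV : e = U * V) (hVU : V * U = 1) {C : Matrix ι ι K} (hC : C * e = e * C)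
    (X : Module.End K (Fin n → K)) :
    f4_T U V X * C = f4_T U V (X * phi (cmp U V C)) := by
  rw [f4_T_apply, f4_T_apply, map_mul, AlgEquiv.symm_apply_apply]
  calc U * phi.symm X * V * C = U * phi.symm X * (V * C) := by simp only [Matrix.mul_assoc]
    _ = U * phi.symm X * (cmp U V C * V) := by rw [Pool.Agent.H76U.cmp_Q hUV hVU hC]
    _ = U * (phi.symm X * cmp U V C) * V := by simp only [Matrix.mul_assoc]

theorem f4_inj (hVU : V * U = 1) {X X' : Module.End K (Fin n → K)}
    (h : f4_T U V X = f4_T U V X') : X = X' := by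
  have h1 : ∀ Z : Module.End K (Fin n → K), V * f4_T U V Z * U = phi.symm Z := by
    intro Z
    rw [f4_T_apply]
    calc V * (U * phi.symm Z * V) * U = (V * U) * phi.symm Z * (V * U) := by
          simp only [Matrix.mul_assoc]
      _ = phi.symm Z := by rw [hVU, Matrix.one_mul, Matrix.mul_one]
  have h2 := congrArg (fun A => V * A * U) h
  simp only [h1] at h2
  exact phi.symm.injective h2

/-- PROOF. Let `I'` be an ideal of `L = LcN J S U V`, `InP P I'`, and `I = {U * toMatrix' X * V : X ∈ I'}`.  `I` is `adStable` for `zlie S`: `C ∈ zlie S` commutes with `e`, so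
`C * U X V - U X V * C = U (cmp C * X - X * cmp C) V`, and `cmp C = X' + c` with `X' ∈ L` (`h.lie`).  `μ` commutes with `I`: `μ * U X V = U (cmp μ) X V`, `phi (cmp μ) = (1 + dq ε) / 2`
(`HT_spec`), `dq ε ∈ AZ L (1 - P)` (`dq_AZ` for `1 - P`, `Comp.compl`, `Sp.compl`), `X ∈ AZ L P`, `AZ_comm`.  So `hz` gives `z * U X V = U X V * z`; multiply with `V`, `U`. -/
theorem unr_comm (h : LocU J S 𝓗 e x U V d Y) {μ : Matrix ι ι K} (hμ : μ ∈ 𝓗)
    (hμx : μ * x = x * μ) {ε : Fin n → ℚ} (hε : IsHT μ x e d ε) {P : Module.End ℚ Y}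
    (hP : Sp P) (hc : Comp (LcN J S U V) P) (hεP : FunP (1 - P) ε) {z : Matrix ι ι K}
    (hze : z * e = e * z)
    (hz : ∀ I : Submodule K (Matrix ι ι K), adStable (zlie S) I → (∀ X ∈ I, μ * X = X * μ) →
      ∀ X ∈ I, z * X = X * z) :
    ∀ A ∈ AZ (LcN J S U V) P, phi (cmp U V z) * A = A * phi (cmp U V z) := by
  have : Nonempty (Fin n) := ⟨⟨0, h.pos⟩⟩
  have key : ∀ X ∈ {X | ∃ I, IsIdeal (LcN J S U V) I ∧ InP P I ∧ X ∈ I},
      phi (cmp U V z) * X = X * phi (cmp U V z) := by
    rintro X ⟨I', hI', hIP, hX⟩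
    obtain ⟨_, hμe, -⟩ := h.par μ hμ
    have h1 := hz (I'.map (f4_T U V)) ?_ ?_ (f4_T U V X) (Submodule.mem_map_of_mem hX)
    · rw [f4_left h.UV h.VU hze, f4_right h.UV h.VU hze] at h1
      exact f4_inj h.VU h1
    · rintro C hC _ ⟨X', hX', rfl⟩
      obtain ⟨hCe, c, hc1⟩ := h.lie C hC
      rw [f4_left h.UV h.VU hCe, f4_right h.UV h.VU hCe, ← map_sub]
      refine Submodule.mem_map_of_mem ?_
      have h2 := hI'.2 _ hc1 X' hX'
      have h3 : phi (cmp U V (C - c • 1)) = phi (cmp U V C) - c • 1 := by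
        rw [map_sub, map_smul, Pool.Agent.H76U.cmp_one h.UV h.VU, map_sub, map_smul, map_one]
      have h4 : phi (cmp U V C) * X' - X' * phi (cmp U V C)
          = phi (cmp U V (C - c • 1)) * X' - X' * phi (cmp U V (C - c • 1)) := by
        rw [h3, sub_mul, mul_sub, smul_mul_assoc, mul_smul_comm, one_mul, mul_one]
        abel
      rw [h4]
      exact h2
    · rintro _ ⟨X', hX', rfl⟩
      rw [f4_left h.UV h.VU hμe, f4_right h.UV h.VU hμe]
      congr 1
      obtain ⟨hval, -, c, hY, -⟩ := HT_spec h hμ hμx hε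
      have h5 : X' ∈ AZ (LcN J S U V) P := Algebra.subset_adjoin ⟨I', hI', hIP, hX'⟩
      have h6 : dq (fun k => ε k - c) ∈ AZ (LcN J S U V) (1 - P) :=
        dq_AZ h.ts h.yo hP.compl hc.compl hY fun k k' hk => by
          show ε k - c = ε k' - c
          rw [hεP k k' hk]
      have h7 := AZ_comm h.ts h.yo hP X' h5 _ h6
      rw [dq_sub_const, mul_sub, sub_mul, mul_smul_comm, smul_mul_assoc, mul_one, one_mul,
        sub_left_inj] at h7
      rw [← hval] at h7
      have h8 : phi (cmp U V ((2 : K) • μ - 1)) = (2 : K) • phi (cmp U V μ) - 1 := by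
        rw [map_sub, map_smul, Pool.Agent.H76U.cmp_one h.UV h.VU, map_sub, map_smul, map_one]
      rw [h8, mul_sub, sub_mul, mul_one, one_mul, sub_left_inj, mul_smul_comm, smul_mul_assoc] at h7
      exact (smul_right_injective _ (two_ne_zero : (2 : K) ≠ 0) h7).symm
  intro A hA
  have h9 : AZ (LcN J S U V) P ≤ Subalgebra.centralizer K {phi (cmp U V z)} := by
    unfold AZ
    refine Algebra.adjoin_le fun X hX => ?_
    rw [SetLike.mem_coe, Subalgebra.mem_centralizer_iff]
    intro Z hZ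
    rw [Set.mem_singleton_iff.1 hZ]
    exact key X hX
  have h10 := h9 hA
  rw [Subalgebra.mem_centralizer_iff] at h10
  exact h10 _ (Set.mem_singleton _)

end Pool.Agent.H45U
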