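import Pool.Agent.Lib.H76Y.F5
import Pool.Agent.Lib.H45U.U3

/-!
# comparison of two pure tensors
-/

set_option autoImplicit false
set_option linter.unusedSectionVars false
namespace Pool.Agent.H45U
open Pool.Agent.H76P Pool.Agent.H76V Pool.Agent.H76Q Pool.Agent.H76Y
open Module Matrix Pool.Agent.H53Toric
open Pool.Agent.H76P
open Pool.Agent.H76T (IsIdeal Fam)

variable {κ : Type*} {K : Type*} [Field K] [CharZero K] [Fintype κ] [DecidableEq κ]
  {L : Submodule K (Module.End K (κ → K))} {J : Matrix κ κ K} [IsAlgClosed K] [Nonempty κ]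
  {Y : Submodule ℚ (κ → ℚ)} {P : Module.End ℚ Y}

/-- PROOF. As `H76Q.unr_u` (F5).  `PT_inv` gives `y'`, `u'` with `y y' = 1`, `u u' = 1` and factorisations of `Ξ'`, `X'`.  `X' * (Ξ * Φ * Ξ')` is a pure tensor with first factor
`s = u' * (y * w * y')` (`PT_mul`); its second factor `ρ` has `det ρ ≠ 0`, so is invertible (`LinearMap.isUnit_iff_isUnit_det` or `LinearMap.equivOfDetNeZero`); `s ρ` commutes with `AZ L P`
and so does `ρ` (`AZ_comm`), so `s` commutes with `AZ L P`; as `s ∈ AZ L P` it commutes with `AZ L (1 - P)`, too (`AZ_comm`), so `s` is a scalar (`AZ_scalar`), not `0`.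
Determinants: `det (y * w * y') = t'`, `det (c • z) = c ^ n det z` (`LinearMap.det_smul`, `Module.finrank_pi`). -/
theorem unr_u (h : TM L) (hY : Yo L = Y) (hP : Sp P) (hc : Comp L P)
    {X X' Φ Ξ Ξ' u r w r' y r'' : Module.End K (κ → K)} {t t' t'' : K} (h1 : PTN L P X u r t)
    (h2 : PTN L P Φ w r' t') (h3 : PTN L P Ξ y r'' t'') (hΞ : Ξ * Ξ' = 1) (hX : X * X' = 1)
    (hz : ∀ A ∈ AZ L P, (X' * (Ξ * Φ * Ξ')) * A = A * (X' * (Ξ * Φ * Ξ'))) :
    ∃ (c : K) (y' : Module.End K (κ → K)), c ≠ 0 ∧ y * y' = 1 ∧ u = c • (y * w * y') ∧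
      t = c ^ Fintype.card κ * t' := by
  obtain ⟨y', r3, hyy, h3'⟩ := PT_inv h hY hP h3 hΞ
  obtain ⟨u', r1, huu, h1'⟩ := PT_inv h hY hP h1 hX
  have h4 := PT_mul h hY hP (PT_mul h hY hP h3 h2) h3'
  have h5 := PT_mul h hY hP h1' h4
  set ρ := r1 * (r'' * r' * r3) with hρ
  set s := u' * (y * w * y') with hs
  obtain ⟨hsA, hρA, hprod, -, -, hρd⟩ := h5
  obtain ⟨ρ', -, hρinv, -⟩ := EN.exists_inv hρA hρd
  have hs1 : ∀ A ∈ AZ L P, s * A = A * s := by
    intro A hA
    have e1 := hz A hA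
    rw [hprod] at e1
    have e2 : A * ρ = ρ * A := AZ_comm h hY hP A hA ρ hρA
    have e3 : (s * A) * ρ = (A * s) * ρ := by
      calc (s * A) * ρ = s * (A * ρ) := mul_assoc _ _ _
        _ = s * (ρ * A) := by rw [e2]
        _ = (s * ρ) * A := (mul_assoc _ _ _).symm
        _ = A * (s * ρ) := e1
        _ = (A * s) * ρ := (mul_assoc _ _ _).symm
    calc s * A = (s * A) * (ρ * ρ') := by rw [hρinv, mul_one]
      _ = ((s * A) * ρ) * ρ' := (mul_assoc _ _ _).symm
      _ = ((A * s) * ρ) * ρ' := by rw [e3]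
      _ = (A * s) * (ρ * ρ') := mul_assoc _ _ _
      _ = A * s := by rw [hρinv, mul_one]
  have hs2 : ∀ A ∈ AZ L (1 - P), s * A = A * s := fun A hA => AZ_comm h hY hP s hsA A hA
  obtain ⟨c, hcs⟩ := AZ_scalar h hc hs1 hs2
  have h6 : y * w * y' = c • u := by
    calc y * w * y' = (u * u') * (y * w * y') := by rw [huu, one_mul]
      _ = u * s := by rw [hs, mul_assoc]
      _ = c • u := by rw [hcs, mul_smul_comm, mul_one]
  have h7 : LinearMap.det (y * w * y') = t' := by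
    have h8 := h4.2.2.2.2.1
    rw [h8, mul_comm t'' t', mul_assoc, mul_inv_cancel₀ h3.2.2.2.1, mul_one]
  have hc0 : c ≠ 0 := by
    intro hc0
    rw [hc0, zero_smul] at h6
    rw [h6] at h7
    exact h2.2.2.2.1 (by rw [← h7]; exact LinearMap.det_zero'')
  have hu : u = c⁻¹ • (y * w * y') := by
    rw [h6, smul_smul, inv_mul_cancel₀ hc0, one_smul]
  refine ⟨c⁻¹, y', inv_ne_zero hc0, hyy, hu, ?_⟩
  rw [← h1.2.2.2.2.1, hu, LinearMap.det_smul, h7, Module.finrank_fintype_fun_eq_card]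

end Pool.Agent.H45U
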