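import Pool.Agent.Lib.H76Q.Q6
import Pool.Agent.Lib.H76Q.D1
import Pool.Agent.Lib.H76Q.W6
import Pool.Agent.Lib.H76Y.A1
import Pool.Agent.Lib.H76Y.D2
import Pool.Agent.Lib.H45U.W2
import Pool.Agent.Lib.H45U.W4
import Pool.Agent.Lib.H45U.W5
import Pool.Agent.Lib.H76Y.Y0
import Pool.Agent.Lib.H45U.U3
import Pool.Agent.Lib.H76Z.W6

/-!
# the Hodge-Tate type at a block
-/

set_option autoImplicit false
set_option linter.unusedSectionVars false
namespace Pool.Agent.H45U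
open Pool.Agent.H76Y Pool.Agent.H76Z
open Pool.Agent.H76P Pool.Agent.H76V Pool.Agent.H76Q
open Module Matrix Polynomial Pool.Agent.H53Toric
open Pool.Agent.H76P
open Pool.Agent.H76T (IsIdeal Fam Lc)
open Pool.Agent.H76U (cmp preL IsSplitting)
open Pool.Agent.H76RM (spanK similD)

variable {ι : Type*} [Fintype ι] [DecidableEq ι] {ψ : Matrix ι ι ℚ}
    {D : Subalgebra ℚ (Matrix ι ι ℚ)} {M : Type*} [Field M] [NumberField M]
    {m : ℕ} {cl : Fin m → Cl} {bar : Fin m → Fin m} {e : Fin m → Matrix ι ι M} {u₀ : Matrix ι ι M} {G : Type*} [Group G]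
    {ρ : ∀ (l : ℕ) [Fact l.Prime], G →* Matrix.GeneralLinearGroup ι ℚ_[l]}
    {p : ℕ} [Fact p.Prime] {σ : G} {q : ℚ} {F : Fin m → M[X]}
    {φ μ ν : Matrix ι ι (AlgebraicClosure ℚ_[p])} {v : AlgebraicClosure ℚ_[p] → ℚ}
    {Δ : Set (AlgebraicClosure ℚ_[p] ≃+* AlgebraicClosure ℚ_[p])}
    {Ω : Type*} [Field Ω] [CharZero Ω] [IsAlgClosed Ω] [Algebra.IsAlgebraic ℚ Ω] {j : M →+* Ω}
    {R : Finset Ω} {N : Set ℕ} {hd : Fin m → Ω → ℕ} {ub : Fin m → Prop}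
    (C : Core5 ψ D cl bar e u₀ ρ p σ q F φ μ ν v Δ j R N hd ub)

include C

/-- See `H76Q.Core2.ht_iff`. -/
theorem Core5.ht_iff (b : Fin m)
    {n : ℕ} {a : Fin n → Ω} (ha : Function.Injective a)
    (hroot : ∀ y : Ω, (F b).eval₂ j y = 0 ↔ ∃ k, y = a k)
    {P : Module.End ℚ (YS a)} (hP : Sp P) (hg : GoodU (cl b) P) :
    ∃ RP ⊆ R, ∀ (i : Ω →+* AlgebraicClosure ℚ_[p]) (ε : Fin n → ℚ),
      IsHT μ φ ((e b).map (i.comp j)) (fun k => i (a k)) ε →
        ((FunP P ε ∧ ∃ k k', ε k ≠ ε k') ↔ ∃ r ∈ RP, v (i r) = 1) := by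
  classical
  have hv : IsVal v := C.crys.val
  have i₀ : Ω →+* AlgebraicClosure ℚ_[p] :=
    (IsAlgClosed.lift (R := ℚ) (S := Ω) (M := AlgebraicClosure ℚ_[p])).toRingHom
  obtain ⟨H₀, U₀, V₀, hH₀, hl₀, -⟩ := C.locp b ha hroot i₀
  have : Nonempty (Fin n) := ⟨⟨0, hl₀.pos⟩⟩
  have hn0 : (n : ℚ) ≠ 0 := Nat.cast_ne_zero.2 hl₀.pos.ne'
  have ha0 : ∀ k, a k ≠ 0 := fun k h0 => hl₀.ec.ne k (by rw [h0, map_zero])
  have hsep : ∀ x y : Fin n, x ≠ y → ∃ f ∈ YS a, f x ≠ f y := by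
    intro x y hxy
    obtain ⟨f, hf, hne⟩ := hl₀.ts.sep x y hxy
    exact ⟨f, hl₀.yo ▸ hf, hne⟩
  have hg' : GoodU (cl b) (1 - P) := fun K _ _ _ L h1 h2 h3 => (hg K L h1 h2 h3).compl
  obtain ⟨u, r, hld⟩ := C.ld b ha hroot hP hg i₀
  obtain ⟨u', r', hld'⟩ := C.ld b ha hroot hP.compl hg' i₀
  obtain ⟨t, ht⟩ := exists_lift ha ha0 hP hsep hld
  obtain ⟨t', ht'⟩ := exists_lift ha ha0 hP.compl hsep hld'
  have hm0 : (∏ k, t k) ≠ 0 := lift_prod_ne ht
  have hm10 : (∏ k, t' k) ≠ 0 := lift_prod_ne ht'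
  obtain ⟨x, hx0, hxs, hxm⟩ := exists_xN ht ht' ha0 hP hld
  obtain ⟨y, c, hc0, hc, hmc⟩ := C.recl b ha hroot hP hg ht
  have hprod0 : (∏ r ∈ R, r ^ y r) ≠ 0 := by
    intro h0
    apply hm0
    rw [hmc, h0, zero_mul]
  have hR0 : ∀ r ∈ R, r ^ y r ≠ 0 := Finset.prod_ne_zero_iff.1 hprod0
  refine ⟨R.filter fun r => ¬ n ∣ y r, Finset.filter_subset _ _, fun i ε hε => ?_⟩
  obtain ⟨H₁, U, V, hH₁, hl, hcls⟩ := C.locp b ha hroot i
  have hcomp : Comp (LcN _ _ U V) P := hg _ _ hl.ts hcls hl.yo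
  obtain ⟨r₀, hr₀, hr1, hr2⟩ := C.Rval i
  obtain ⟨n₁, hn₁⟩ := C.int_val b ha hroot hP hg i hc0 hc
  have hi : ∀ {z : Ω}, z ≠ 0 → i z ≠ 0 := fun hz => (map_ne_zero i).2 hz
  have hpa0 : (∏ k, a k) ≠ 0 := Finset.prod_ne_zero_iff.2 fun k _ => ha0 k
  have hva := C.vprod b ha hroot i
  rw [HT_rank hl C.crys.mu C.crys.muphi hε] at hva
  obtain ⟨-, h01, -⟩ := HT_spec hl C.crys.mu C.crys.muphi hε
  have hconst : (∃ k k', ε k ≠ ε k') → ¬ n ∣ (Finset.univ.filter fun k => ε k = 1).card := by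
    rintro ⟨k, k', hkk⟩ hdvd
    have h1 : (Finset.univ.filter fun k => ε k = 1).card ≤ n := by
      have h2 := Finset.card_le_univ (Finset.univ.filter fun k : Fin n => ε k = 1)
      rwa [Fintype.card_fin] at h2
    rcases Nat.eq_zero_or_pos (Finset.univ.filter fun k => ε k = 1).card with h2 | h2
    · rw [Finset.card_eq_zero, Finset.filter_eq_empty_iff] at h2
      apply hkk
      rw [(h01 k).resolve_left (h2 (Finset.mem_univ k)), (h01 k').resolve_left (h2 (Finset.mem_univ k'))]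
    · have h3 := le_antisymm h1 (Nat.le_of_dvd h2 hdvd)
      have h4 : (Finset.univ.filter fun k : Fin n => ε k = 1) = Finset.univ := by
        rw [← Finset.card_eq_iff_eq_univ, h3, Fintype.card_fin]
      rw [Finset.filter_eq_self] at h4
      apply hkk
      rw [h4 k (Finset.mem_univ k), h4 k' (Finset.mem_univ k')]
  -- the value of `i (∏ t)`
  have hvm : v (i (∏ k, t k)) = y r₀ + n * n₁ := by
    rw [hmc, map_mul, map_pow, hv.mul _ _ (hi hprod0) (pow_ne_zero n (hi hc0)), w6y_vprod hv i R y hR0,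
      w6y_vpow hv (hi hc0), hn₁, Finset.sum_eq_single_of_mem r₀ hr₀, hr1, mul_one]
    intro r hr hne
    rw [hr2 r hr hne, mul_zero]
  have hex : (∃ r ∈ R.filter fun r => ¬ n ∣ y r, v (i r) = 1) ↔ ¬ n ∣ y r₀ := by
    constructor
    · rintro ⟨r, hr, hr'⟩
      obtain ⟨hrR, hrn⟩ := Finset.mem_filter.1 hr
      have hne : r = r₀ := by
        by_contra hne
        rw [hr2 r hrR hne] at hr'
        exact zero_ne_one hr'
      rw [← hne]
      exact hrn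
    · intro h
      exact ⟨r₀, Finset.mem_filter.2 ⟨hr₀, h⟩, hr1⟩
  -- first case
  have hcase1 : FunP (1 - P) ε → n ∣ y r₀ := by
    intro hε1
    obtain ⟨n₂, hn₂⟩ := C.even b ha hroot hP hg ht i hε hε1
    rw [hvm] at hn₂
    have h3 : (y r₀ : ℤ) = n * (n₂ - n₁) := by
      have h4 : ((y r₀ : ℤ) : ℚ) = ((n * (n₂ - n₁) : ℤ) : ℚ) := by
        push_cast
        linarith
      exact_mod_cast h4
    exact Int.natCast_dvd_natCast.1 ⟨_, h3⟩
  -- second case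
  have hcase2 : FunP P ε → (∃ k k', ε k ≠ ε k') → ¬ n ∣ y r₀ := by
    intro hε1 hne hdiv
    apply hconst hne
    have hε2 : FunP (1 - (1 - P)) ε := by
      have h1 : (1 - (1 - P) : Module.End ℚ (YS a)) = P := sub_sub_cancel 1 P
      rw [h1]
      exact hε1
    obtain ⟨n₂, hn₂⟩ := C.even b ha hroot hP.compl hg' ht' i hε hε2
    have hxG : ∀ s ∈ GamP j R a P, s ∈ fixMu n Ω → s x = x := by
      rintro s ⟨-, -, π, hπ, hst⟩ -
      exact hxs s π hπ hst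
    obtain ⟨n₃, hn₃⟩ := C.int_val b ha hroot hP hg i hx0 hxG
    have h4 : v (i (∏ k, t k)) + v (i (∏ k, t' k)) = n * v (i x) + v (i (∏ k, a k)) := by
      rw [← hv.mul _ _ (hi hm0) (hi hm10), ← map_mul, hxm, Fintype.card_fin, map_mul,
        map_pow, hv.mul _ _ (pow_ne_zero n (hi hx0)) (hi hpa0), w6y_vpow hv (hi hx0)]
    obtain ⟨w, hw⟩ := hdiv
    rw [hvm, hn₂, hn₃, hw, hva] at h4
    push_cast at h4
    have h5 : (((Finset.univ.filter fun k => ε k = 1).card : ℤ) : ℚ) = ((n * (w + n₁ + n₂ - n₃) : ℤ) : ℚ) := by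
      push_cast
      linarith
    have h6 : ((Finset.univ.filter fun k => ε k = 1).card : ℤ) = n * (w + n₁ + n₂ - n₃) := by
      exact_mod_cast h5
    exact Int.natCast_dvd_natCast.1 ⟨_, h6⟩
  rw [hex]
  constructor
  · rintro ⟨h1, h2⟩
    exact hcase2 h1 h2
  · intro hmem
    refine ⟨?_, ?_⟩
    · rcases HT_or hl C.crys.mu C.crys.muphi hε hcomp with h | h
      · exact h
      · exact absurd (hcase1 h) hmem
    · by_contra hcon
      push Not at hcon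
      exact hmem (hcase1 fun k k' _ => hcon k k')

end Pool.Agent.H45U
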