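import Pool.Agent.Lib.H45U.W8
import Pool.Agent.Lib.H45U.F3
import Pool.Agent.Lib.H76Y.Y1
import Pool.Agent.Lib.H76Q.A4
import Pool.Agent.Lib.H76Q.Q6
import Pool.Agent.Lib.H76Y.A1
import Pool.Agent.Lib.H45U.W2
import Pool.Agent.Lib.H76Y.Y0
import Pool.Agent.Lib.H45U.U3

/-!
# automorphisms which exchange a component and its conjugate
-/

set_option autoImplicit false
set_option linter.unusedSectionVars false
namespace Pool.Agent.H45U
open Pool.Agent.H76Y Pool.Agent.H76Z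
open Pool.Agent.H76P Pool.Agent.H76V Pool.Agent.H76Q
open Module Matrix Polynomial Pool.Agent.H53Toric
open Pool.Agent.H76P
open Pool.Agent.H76T (IsIdeal Fam Lc)
open Pool.Agent.H76U (cmp preL IsSplitting)
open Pool.Agent.H76RM (spanK similD)

variable {ι : Type*} [Fintype ι] [DecidableEq ι] {ψ : Matrix ι ι ℚ}
    {D : Subalgebra ℚ (Matrix ι ι ℚ)} {M : Type*} [Field M] [NumberField M]
    {m : ℕ} {cl : Fin m → Cl} {bar : Fin m → Fin m} {e : Fin m → Matrix ι ι M} {u₀ : Matrix ι ι M} {G : Type*} [Group G]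
    {ρ : ∀ (l : ℕ) [Fact l.Prime], G →* Matrix.GeneralLinearGroup ι ℚ_[l]}
    {p : ℕ} [Fact p.Prime] {σ : G} {q : ℚ} {F : Fin m → M[X]}
    {φ μ ν : Matrix ι ι (AlgebraicClosure ℚ_[p])} {v : AlgebraicClosure ℚ_[p] → ℚ}
    {Δ : Set (AlgebraicClosure ℚ_[p] ≃+* AlgebraicClosure ℚ_[p])}
    {Ω : Type*} [Field Ω] [CharZero Ω] [IsAlgClosed Ω] [Algebra.IsAlgebraic ℚ Ω] {j : M →+* Ω}
    {R : Finset Ω} {N : Set ℕ} {hd : Fin m → Ω → ℕ} {ub : Fin m → Prop}
    (C : Core5 ψ D cl bar e u₀ ρ p σ q F φ μ ν v Δ j R N hd ub)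

include C

theorem Core5.hs_mu (b : Fin m) : μᵀ * ψ.map (algebraMap ℚ (AlgebraicClosure ℚ_[p])) +
    ψ.map (algebraMap ℚ (AlgebraicClosure ℚ_[p])) * μ =
      ψ.map (algebraMap ℚ (AlgebraicClosure ℚ_[p])) := by
  have hι : Nonempty ι := by
    by_contra hemp
    rw [not_nonempty_iff] at hemp
    apply C.hspl.ne_zero b
    ext i'
    exact (hemp.false i').elim
  obtain ⟨H₀, -, hfin, hprime⟩ := H76RM.exists_prime (K := AlgebraicClosure ℚ_[p]) (ρ p) ⊤ inferInstance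
  obtain ⟨φ', g⟩ := mk_phT (K := AlgebraicClosure ℚ_[p]) C.hψ C.hψ0 D (ρ p) (C.lin p) (C.sim p)
    (C.semis p) (C.commt p) (C.gen p) C.frobp hfin hprime
  exact g.sh.hs μ C.crys.mu

omit C in
theorem dot_mul {n : Type*} [Fintype n] {K : Type*} [Field K] (A B C : Matrix n n K)
    (x y : n → K) : (A *ᵥ x) ⬝ᵥ (B *ᵥ (C *ᵥ y)) = x ⬝ᵥ ((Aᵀ * B * C) *ᵥ y) := by
  rw [Matrix.mulVec_mulVec, ← Matrix.vecMul_transpose, ← Matrix.dotProduct_mulVec,
    Matrix.mulVec_mulVec, Matrix.mul_assoc]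

/-- An eigenvector of `φ` in the conjugate component pairs with an eigenvector in the component. -/
theorem Core5.dual_vec (b : Fin m) {n : ℕ} {a : Fin n → Ω} (ha : Function.Injective a)
    (hroot : ∀ y : Ω, (F b).eval₂ j y = 0 ↔ ∃ k, y = a k) (i : Ω →+* AlgebraicClosure ℚ_[p])
    {z' : ι → AlgebraicClosure ℚ_[p]} (hz0 : z' ≠ 0)
    (hz : (e (bar b)).map (i.comp j) *ᵥ z' = z') {c : AlgebraicClosure ℚ_[p]}
    (hφ : φ *ᵥ z' = c • z') : ∃ k, c * i (a k) = algebraMap ℚ (AlgebraicClosure ℚ_[p]) q ∧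
      ∃ w : ι → AlgebraicClosure ℚ_[p], w ≠ 0 ∧ (e b).map (i.comp j) *ᵥ w = w ∧
        φ *ᵥ w = i (a k) • w ∧ (μ *ᵥ z' = z' → μ *ᵥ w = 0) ∧ (μ *ᵥ z' = 0 → μ *ᵥ w = w) := by
  classical
  obtain ⟨H₀, U, V, hfin, h, -⟩ := C.locp b ha hroot i
  obtain ⟨-, hdet0⟩ := gram_basic C.hψ C.hψ0 (AlgebraicClosure ℚ_[p])
  have hs0 := C.hs_mu b
  have hadj := (C.hspl.map (i.comp j)).adj b
  have hm0 := C.multp
  have huD := (C.hspl.map (i.comp j)).umem
  have hφu := C.w8_phi huD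
  have hμu := C.w8_mu huD
  have hdet : IsUnit (ψ.map (algebraMap ℚ (AlgebraicClosure ℚ_[p])) * u₀.map (i.comp j)).det := by
    rw [Matrix.det_mul]
    exact hdet0.mul (C.hspl.map (i.comp j)).unit
  have hs : μᵀ * (ψ.map (algebraMap ℚ (AlgebraicClosure ℚ_[p])) * u₀.map (i.comp j)) +
      ψ.map (algebraMap ℚ (AlgebraicClosure ℚ_[p])) * u₀.map (i.comp j) * μ =
        ψ.map (algebraMap ℚ (AlgebraicClosure ℚ_[p])) * u₀.map (i.comp j) := by
    rw [Matrix.mul_assoc _ (u₀.map (i.comp j)) μ, ← hμu, ← Matrix.mul_assoc, ← Matrix.mul_assoc,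
      ← Matrix.add_mul, hs0]
  have hm : φᵀ * (ψ.map (algebraMap ℚ (AlgebraicClosure ℚ_[p])) * u₀.map (i.comp j)) * φ =
      algebraMap ℚ (AlgebraicClosure ℚ_[p]) q •
        (ψ.map (algebraMap ℚ (AlgebraicClosure ℚ_[p])) * u₀.map (i.comp j)) := by
    calc φᵀ * (ψ.map (algebraMap ℚ (AlgebraicClosure ℚ_[p])) * u₀.map (i.comp j)) * φ =
        (φᵀ * ψ.map (algebraMap ℚ (AlgebraicClosure ℚ_[p])) * φ) * u₀.map (i.comp j) := by
          rw [Matrix.mul_assoc _ _ φ, Matrix.mul_assoc _ (u₀.map (i.comp j)) φ, ← hφu]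
          simp only [Matrix.mul_assoc]
      _ = _ := by rw [hm0, Matrix.smul_mul]
  clear hφu hμu huD
  obtain ⟨J, hJ⟩ : ∃ J, J = ψ.map (algebraMap ℚ (AlgebraicClosure ℚ_[p])) * u₀.map (i.comp j) :=
    ⟨_, rfl⟩
  rw [← hJ] at hdet hs hadj hm
  set E := (e b).map (i.comp j) with hE
  -- the functional
  have hJz : J *ᵥ z' ≠ 0 := by
    intro h0
    apply hz0
    have h1 : J⁻¹ *ᵥ (J *ᵥ z') = z' := by
      rw [Matrix.mulVec_mulVec, Matrix.nonsing_inv_mul _ hdet, Matrix.one_mulVec]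
    rw [← h1, h0, Matrix.mulVec_zero]
  have hfE : ∀ x : ι → AlgebraicClosure ℚ_[p], (E *ᵥ x) ⬝ᵥ (J *ᵥ z') = x ⬝ᵥ (J *ᵥ z') := by
    intro x
    have h1 := dot_mul E J 1 x z'
    rw [Matrix.one_mulVec, Matrix.mul_one, hadj, ← Matrix.mulVec_mulVec, hz] at h1
    exact h1
  have hfφ : ∀ x : ι → AlgebraicClosure ℚ_[p], c * ((φ *ᵥ x) ⬝ᵥ (J *ᵥ z')) =
      algebraMap ℚ (AlgebraicClosure ℚ_[p]) q * (x ⬝ᵥ (J *ᵥ z')) := by
    intro x
    have h1 := dot_mul φ J φ x z'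
    rw [hφ, Matrix.mulVec_smul, dotProduct_smul, hm, Matrix.smul_mulVec, dotProduct_smul] at h1
    exact h1
  -- an eigenvector on which it does not vanish
  have hex : ∃ k, (U *ᵥ (Pi.single k 1)) ⬝ᵥ (J *ᵥ z') ≠ 0 := by
    by_contra hcon
    push Not at hcon
    apply hJz
    have h1 : ∀ x : ι → AlgebraicClosure ℚ_[p], x ⬝ᵥ (J *ᵥ z') = 0 := by
      intro x
      rw [← hfE, h.UV, ← Matrix.mulVec_mulVec]
      set y := V *ᵥ x
      have h2 : y = ∑ k, y k • (Pi.single k (1 : AlgebraicClosure ℚ_[p])) := by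
        ext l
        rw [Finset.sum_apply]
        simp [Pi.single_apply]
      rw [h2, Matrix.mulVec_sum, sum_dotProduct]
      refine Finset.sum_eq_zero fun k _ => ?_
      rw [Matrix.mulVec_smul, smul_dotProduct, hcon k, smul_zero]
    ext x
    have h2 := h1 (Pi.single x 1)
    rw [single_one_dotProduct] at h2
    exact h2
  obtain ⟨k, hk⟩ := hex
  set u : ι → AlgebraicClosure ℚ_[p] := U *ᵥ (Pi.single k 1) with hu
  have hφu : φ *ᵥ u = i (a k) • u := by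
    have h1 : Matrix.diagonal (fun k => i (a k)) *ᵥ Pi.single k (1 : AlgebraicClosure ℚ_[p]) =
        i (a k) • Pi.single k (1 : AlgebraicClosure ℚ_[p]) := by
      ext l
      rw [Matrix.mulVec_diagonal]
      by_cases hkl : l = k
      · subst hkl
        simp
      · simp [Pi.single_apply, hkl]
    rw [hu, Matrix.mulVec_mulVec, h.ec.eig, ← Matrix.mulVec_mulVec, h1, Matrix.mulVec_smul]
  have hEu : E *ᵥ u = u := by
    rw [hu, Matrix.mulVec_mulVec]
    have h1 : E * U = U := by rw [h.UV, Matrix.mul_assoc, h.VU, Matrix.mul_one]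
    rw [h1]
  have hck : c * i (a k) = algebraMap ℚ (AlgebraicClosure ℚ_[p]) q := by
    have h1 := hfφ u
    rw [hφu, smul_dotProduct, smul_eq_mul, ← mul_assoc] at h1
    exact mul_right_cancel₀ hk h1
  refine ⟨k, hck, ?_⟩
  obtain ⟨ε, hε⟩ := exists_HT h C.crys.mu C.crys.muphi
  have hlin : ∀ w : ι → AlgebraicClosure ℚ_[p], E *ᵥ w = w → φ *ᵥ w = i (a k) • w → w ≠ 0 →
      w ⬝ᵥ (J *ᵥ z') ≠ 0 := by
    intro w hw hφw hw0
    have hu0 : u ≠ 0 := by
      intro h0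
      rw [h0, zero_dotProduct] at hk
      exact hk rfl
    obtain ⟨t, ht⟩ := C.frobp.simple (i.comp j) b (i (a k)) u w hEu hw hφu hφw hu0
    rw [ht, smul_dotProduct, smul_eq_mul]
    refine mul_ne_zero ?_ hk
    rintro rfl
    rw [zero_smul] at ht
    exact hw0 ht
  have hss : ∀ w : ι → AlgebraicClosure ℚ_[p], (μ *ᵥ w) ⬝ᵥ (J *ᵥ z') + w ⬝ᵥ (J *ᵥ (μ *ᵥ z')) =
      w ⬝ᵥ (J *ᵥ z') := by
    intro w
    have h1 := dot_mul μ J 1 w z'
    rw [Matrix.one_mulVec, Matrix.mul_one] at h1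
    rw [h1, Matrix.mulVec_mulVec, ← dotProduct_add, ← Matrix.add_mulVec, hs]
  rcases hε k with ⟨-, w, hw0, hEw, hφw, hμw⟩ | ⟨-, w, hw0, hEw, hφw, hμw⟩
  · refine ⟨w, hw0, hEw, hφw, fun h1 => ?_, fun _ => hμw⟩
    exfalso
    have h2 := hss w
    rw [hμw, h1, add_eq_left] at h2
    exact hlin w hEw hφw hw0 h2
  · refine ⟨w, hw0, hEw, hφw, fun _ => hμw, fun h1 => ?_⟩
    exfalso
    have h2 := hss w
    rw [hμw, h1, Matrix.mulVec_zero, dotProduct_zero, zero_dotProduct, add_zero] at h2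
    exact hlin w hEw hφw hw0 h2.symm

theorem Core5.w8d_vec (b : Fin m) {n : ℕ} {a : Fin n → Ω} (ha : Function.Injective a)
    (hroot : ∀ y : Ω, (F b).eval₂ j y = 0 ↔ ∃ k, y = a k) {s : Ω ≃+* Ω}
    (hlink : Linked D ((e (bar b)).map j) ((e b).map (s.toRingHom.comp j)))
    (i : Ω →+* AlgebraicClosure ℚ_[p]) : ∃ T : Matrix ι ι (AlgebraicClosure ℚ_[p]),
      φ * T = T * φ ∧ μ * T = T * μ ∧
      (∀ z, (e (bar b)).map ((i.comp s.symm.toRingHom).comp j) *ᵥ (T *ᵥ z) = T *ᵥ z) ∧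
      ∀ z, z ≠ 0 → (e b).map (i.comp j) *ᵥ z = z → T *ᵥ z ≠ 0 := by
  obtain ⟨d, hd, hne⟩ := hlink
  set i' : Ω →+* AlgebraicClosure ℚ_[p] := i.comp s.symm.toRingHom with hi'
  set E' := (e (bar b)).map (i'.comp j) with hE'
  have hE : E' ∈ spanK (AlgebraicClosure ℚ_[p]) D := H76U.spanK_map (i'.comp j) (C.hspl.mem (bar b))
  have hd' : d.map i' ∈ spanK (AlgebraicClosure ℚ_[p]) D := H76U.spanK_map i' hd
  have hEE : E' * E' = E' := by
    rw [hE', ← H76U.map_mul', C.hspl.idem]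
  have hT : ∀ A : Matrix ι ι (AlgebraicClosure ℚ_[p]),
      (∀ d ∈ spanK (AlgebraicClosure ℚ_[p]) D, A * d = d * A) →
        A * (E' * d.map i') = E' * d.map i' * A := by
    intro A hA
    rw [← Matrix.mul_assoc, hA _ hE, Matrix.mul_assoc, hA _ hd', Matrix.mul_assoc]
  refine ⟨E' * d.map i', hT _ fun d hd => C.w8_phi hd, hT _ fun d hd => C.w8_mu hd, ?_, ?_⟩
  · intro z
    rw [Matrix.mulVec_mulVec, ← Matrix.mul_assoc, hEE]
  · intro z hz0 hz
    refine C.w8_key b ha hroot i hT ?_ hz0 hz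
    have h1 : E' = ((e (bar b)).map j).map i' := by
      ext x y
      rfl
    have h2 : (e b).map (i.comp j) = ((e b).map (s.toRingHom.comp j)).map i' := by
      ext x y
      simp [hi']
    rw [h1, h2, ← H76U.map_mul', ← H76U.map_mul']
    intro h3
    apply hne
    ext x y
    have h4 := congrFun (congrFun h3 x) y
    rw [Matrix.map_apply, Matrix.zero_apply] at h4
    rw [Matrix.zero_apply]
    exact (map_eq_zero i').1 h4

/-- An automorphism `s` such that the image of the component under `s` is linked with the conjugate of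
the component: `s` maps the eigenvalues to the numbers `q / a`, and the Hodge-Tate type to the opposite
type. -/
theorem Core5.dual_linked (b : Fin m)
    {n : ℕ} {a : Fin n → Ω} (ha : Function.Injective a)
    (hroot : ∀ y : Ω, (F b).eval₂ j y = 0 ↔ ∃ k, y = a k)
    {s : Ω ≃+* Ω} (hlink : Linked D ((e (bar b)).map j) ((e b).map (s.toRingHom.comp j))) :
    ∃ π : Equiv.Perm (Fin n), (∀ k, s (a k) * a (π k) = algebraMap ℚ Ω q) ∧
      ∀ (i : Ω →+* AlgebraicClosure ℚ_[p]) (ε : Fin n → ℚ),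
        IsHT μ φ ((e b).map (i.comp j)) (fun k => i (a k)) ε →
        IsHT μ φ ((e b).map ((i.comp s.symm.toRingHom).comp j))
          (fun k => i.comp s.symm.toRingHom (a k)) (fun k => - ε (π.symm k)) := by
  have hq : ∀ i' : Ω →+* AlgebraicClosure ℚ_[p], algebraMap ℚ (AlgebraicClosure ℚ_[p]) q =
      i' (algebraMap ℚ Ω q) := fun i' => by
    simp
  have hmap : ∀ k, ∃ k', s (a k) * a k' = algebraMap ℚ Ω q := by
    intro k
    let i : Ω →+* AlgebraicClosure ℚ_[p] :=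
      (IsAlgClosed.lift (R := ℚ) (S := Ω) (M := AlgebraicClosure ℚ_[p])).toRingHom
    obtain ⟨T, hTφ, -, hTE, hT0⟩ := C.w8d_vec b ha hroot hlink i
    have h1 : (F b).eval₂ (i.comp j) (i (a k)) = 0 := by
      rw [← Polynomial.hom_eval₂, (hroot _).2 ⟨k, rfl⟩, map_zero]
    obtain ⟨z, hz0, hz, hφz⟩ := (C.frobp.eig (i.comp j) b (i (a k))).2 h1
    obtain ⟨k', hk', -⟩ := C.dual_vec b ha hroot (i.comp s.symm.toRingHom) (hT0 z hz0 hz) (hTE z)
      (c := i (a k)) (by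
        rw [Matrix.mulVec_mulVec, hTφ, ← Matrix.mulVec_mulVec, hφz, Matrix.mulVec_smul])
    refine ⟨k', ?_⟩
    have h3 : i (a k) = (i.comp s.symm.toRingHom) (s (a k)) := by simp
    rw [h3, hq (i.comp s.symm.toRingHom), ← map_mul] at hk'
    exact (i.comp s.symm.toRingHom).injective hk'
  choose g hg using hmap
  have hq0 : algebraMap ℚ Ω q ≠ 0 := by
    intro h0
    have h1 : q = 0 := by
      rw [← map_zero (algebraMap ℚ Ω)] at h0
      exact (algebraMap ℚ Ω).injective h0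
    have h2 := C.vq
    exact absurd (C.multp) (by
      rw [h1, map_zero, zero_smul]
      intro h3
      have h4 := congrArg Matrix.det h3
      obtain ⟨-, hdet⟩ := gram_basic C.hψ C.hψ0 (AlgebraicClosure ℚ_[p])
      have hι : Nonempty ι := by
        by_contra hemp
        rw [not_nonempty_iff] at hemp
        apply C.hspl.ne_zero b
        ext i'
        exact (hemp.false i').elim
      rw [Matrix.det_mul, Matrix.det_mul, Matrix.det_transpose, Matrix.det_zero] at h4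
      exact mul_ne_zero (mul_ne_zero C.frobp.idc.1 hdet.ne_zero) C.frobp.idc.1 h4)
  have hginj : Function.Injective g := by
    intro k k' hkk
    apply ha
    apply s.injective
    have h1 := hg k
    have h2 := hg k'
    rw [← hkk, ← h1] at h2
    have h3 : a (g k) ≠ 0 := by
      intro h0
      rw [h0, mul_zero] at h1
      exact hq0 h1.symm
    exact (mul_right_cancel₀ h3 h2).symm
  let π : Equiv.Perm (Fin n) := Equiv.ofBijective g (Finite.injective_iff_bijective.1 hginj)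
  refine ⟨π, hg, ?_⟩
  intro i ε hε k
  obtain ⟨T, hTφ, hTμ, hTE, hT0⟩ := C.w8d_vec b ha hroot hlink i
  set k₀ := π.symm k with hk₀
  have hk : π k₀ = k := by rw [hk₀, Equiv.apply_symm_apply]
  have hak : s (a k₀) * a k = algebraMap ℚ Ω q := by
    have h1 := hg k₀
    have h2 : g k₀ = k := hk
    rwa [h2] at h1
  have hT2 : ∀ z, z ≠ 0 → (e b).map (i.comp j) *ᵥ z = z → φ *ᵥ z = i (a k₀) • z →
      ∃ w : ι → AlgebraicClosure ℚ_[p], w ≠ 0 ∧
        (e b).map ((i.comp s.symm.toRingHom).comp j) *ᵥ w = w ∧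
        φ *ᵥ w = i.comp s.symm.toRingHom (a k) • w ∧
        (μ *ᵥ z = z → μ *ᵥ w = 0) ∧ (μ *ᵥ z = 0 → μ *ᵥ w = w) := by
    intro z hz0 hz hφz
    obtain ⟨k', hk', w, hw0, hEw, hφw, hμ1, hμ2⟩ := C.dual_vec b ha hroot (i.comp s.symm.toRingHom)
      (hT0 z hz0 hz) (hTE z) (c := i (a k₀)) (by
        rw [Matrix.mulVec_mulVec, hTφ, ← Matrix.mulVec_mulVec, hφz, Matrix.mulVec_smul])
    have hkk : k' = k := by
      have h3 : i (a k₀) = (i.comp s.symm.toRingHom) (s (a k₀)) := by simp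
      rw [h3, hq (i.comp s.symm.toRingHom), ← map_mul] at hk'
      have h4 := (i.comp s.symm.toRingHom).injective hk'
      rw [← hak] at h4
      have h5 : s (a k₀) ≠ 0 := by
        intro h0
        rw [h0, zero_mul] at hak
        exact hq0 hak.symm
      exact ha (mul_left_cancel₀ h5 h4)
    subst hkk
    refine ⟨w, hw0, hEw, hφw, fun h1 => hμ1 ?_, fun h1 => hμ2 ?_⟩
    · rw [Matrix.mulVec_mulVec, hTμ, ← Matrix.mulVec_mulVec, h1]
    · rw [Matrix.mulVec_mulVec, hTμ, ← Matrix.mulVec_mulVec, h1, Matrix.mulVec_zero]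
  rcases hε k₀ with ⟨h1, z, hz0, hz, hφz, hμz⟩ | ⟨h1, z, hz0, hz, hφz, hμz⟩
  · obtain ⟨w, hw0, hEw, hφw, hμ1, -⟩ := hT2 z hz0 hz hφz
    right
    refine ⟨?_, w, hw0, hEw, hφw, hμ1 hμz⟩
    show -ε k₀ = -1
    rw [h1]
  · obtain ⟨w, hw0, hEw, hφw, -, hμ2⟩ := hT2 z hz0 hz hφz
    left
    refine ⟨?_, w, hw0, hEw, hφw, hμ2 hμz⟩
    show -ε k₀ = 1
    rw [h1, neg_neg]

end Pool.Agent.H45U
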