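import Pool.Agent.Lib.H76Q.A2
import Pool.Agent.Lib.H76Q.B1
import Pool.Agent.Lib.H76Q.Q6
import Pool.Agent.Lib.H45U.W6
import Pool.Agent.Lib.H76Y.A1
import Pool.Agent.Lib.H45U.W7
import Pool.Agent.Lib.H45U.W8
import Pool.Agent.Lib.H45U.W8d
import Pool.Agent.Lib.H45U.A2d
import Pool.Agent.Lib.H76Y.Y0
import Pool.Agent.Lib.H45U.U3

/-!
# the numbers of blocks
-/

set_option autoImplicit false
set_option linter.unusedSectionVars false
namespace Pool.Agent.H45U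
open Pool.Agent.H76Y Pool.Agent.H76Z
open Pool.Agent.H76P Pool.Agent.H76V Pool.Agent.H76Q
open Module Matrix Polynomial Pool.Agent.H53Toric
open Pool.Agent.H76P
open Pool.Agent.H76T (IsIdeal Fam Lc)
open Pool.Agent.H76U (cmp preL IsSplitting)
open Pool.Agent.H76RM (spanK similD)

variable {ι : Type*} [Fintype ι] [DecidableEq ι] {ψ : Matrix ι ι ℚ}
    {D : Subalgebra ℚ (Matrix ι ι ℚ)} {M : Type*} [Field M] [NumberField M]
    {m : ℕ} {cl : Fin m → Cl} {bar : Fin m → Fin m} {e : Fin m → Matrix ι ι M} {u₀ : Matrix ι ι M} {G : Type*} [Group G]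
    {ρ : ∀ (l : ℕ) [Fact l.Prime], G →* Matrix.GeneralLinearGroup ι ℚ_[l]}
    {p : ℕ} [Fact p.Prime] {σ : G} {q : ℚ} {F : Fin m → M[X]}
    {φ μ ν : Matrix ι ι (AlgebraicClosure ℚ_[p])} {v : AlgebraicClosure ℚ_[p] → ℚ}
    {Δ : Set (AlgebraicClosure ℚ_[p] ≃+* AlgebraicClosure ℚ_[p])}
    {Ω : Type*} [Field Ω] [CharZero Ω] [IsAlgClosed Ω] [Algebra.IsAlgebraic ℚ Ω] {j : M →+* Ω}
    {R : Finset Ω} {N : Set ℕ} {hd : Fin m → Ω → ℕ} {ub : Fin m → Prop}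
    (C : Core5 ψ D cl bar e u₀ ρ p σ q F φ μ ν v Δ j R N hd ub)

include C

theorem Core5.w9_i (b : Fin m) {r : Ω} (hr : r ∈ R) :
    ∃ i : Ω →+* AlgebraicClosure ℚ_[p], v (i r) = 1 := by
  obtain ⟨i₀⟩ := w9_exists_i p Ω
  obtain ⟨r₀, hr₀, h1, -⟩ := C.Rval i₀
  obtain ⟨s, hs⟩ := C.Rtrans r hr r₀ hr₀
  refine ⟨i₀.comp s.toRingHom, ?_⟩
  show v (i₀ (s r)) = 1
  rw [hs, h1]

theorem Core5.w9_uniq {r r' : Ω} (hr : r ∈ R) (hr' : r' ∈ R)
    (i : Ω →+* AlgebraicClosure ℚ_[p]) (h : v (i r) = 1) (h' : v (i r') = 1) : r = r' := by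
  obtain ⟨r₁, -, -, h2⟩ := C.Rval i
  have h3 : ∀ x ∈ R, v (i x) = 1 → x = r₁ := by
    intro x hx hv
    by_contra hne
    rw [h2 x hx hne] at hv
    exact zero_ne_one hv
  rw [h3 r hr h, h3 r' hr' h']

theorem Core5.w9_HT (b : Fin m) {n : ℕ} {a : Fin n → Ω} (ha : Function.Injective a)
    (hroot : ∀ y : Ω, (F b).eval₂ j y = 0 ↔ ∃ k, y = a k) (i : Ω →+* AlgebraicClosure ℚ_[p]) :
    0 < n ∧ ∃ (ε : Fin n → ℚ) (c : ℚ), IsHT μ φ ((e b).map (i.comp j)) (fun k => i (a k)) ε ∧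
      (fun k => ε k - c) ∈ YS a ∧ (∀ k, ε k = 1 ∨ ε k = -1) ∧
      (∀ P : Module.End ℚ (YS a), GoodU (cl b) P → FunP P ε ∨ FunP (1 - P) ε) ∧
      (μ * (e b).map (i.comp j)).rank = (Finset.univ.filter fun k => ε k = 1).card := by
  obtain ⟨H₀, U, V, -, hloc, hcls⟩ := C.locp b ha hroot i
  obtain ⟨ε, hε⟩ := exists_HT hloc C.crys.mu C.crys.muphi
  obtain ⟨-, h2, c, h3, -⟩ := HT_spec hloc C.crys.mu C.crys.muphi hε
  exact ⟨hloc.pos, ε, c, hε, h3, h2, fun P hP =>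
    HT_or hloc C.crys.mu C.crys.muphi hε (hP (AlgebraicClosure ℚ_[p]) _ hloc.ts hcls hloc.yo),
    HT_rank hloc C.crys.mu C.crys.muphi hε⟩

omit C in
/-- A function with values `1`, `-1` is constant iff the number of values `1` is `0` or all. -/
theorem w9_const {n : ℕ} {ε : Fin n → ℚ} (h1 : ∀ k, ε k = 1 ∨ ε k = -1) :
    (∃ k k', ε k ≠ ε k') ↔ (Finset.univ.filter fun k => ε k = 1).card ≠ 0 ∧
      (Finset.univ.filter fun k => ε k = 1).card ≠ n := by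
  classical
  constructor
  · rintro ⟨k, k', hkk⟩
    constructor
    · intro h0
      rw [Finset.card_eq_zero, Finset.filter_eq_empty_iff] at h0
      have h2 : ∀ k, ε k = -1 := fun k => (h1 k).resolve_left (h0 (Finset.mem_univ k))
      exact hkk (by rw [h2, h2])
    · intro h0
      have h2 : (Finset.univ.filter fun k => ε k = 1).card = (Finset.univ : Finset (Fin n)).card := by
        rw [h0, Finset.card_univ, Fintype.card_fin]
      rw [Finset.card_filter_eq_iff] at h2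
      exact hkk (by rw [h2 k (Finset.mem_univ k), h2 k' (Finset.mem_univ k')])
  · rintro ⟨h2, h3⟩
    have h4 : ∃ k, ε k = 1 := by
      by_contra hcon
      push Not at hcon
      apply h2
      rw [Finset.card_eq_zero, Finset.filter_eq_empty_iff]
      exact fun k _ => hcon k
    have h5 : ∃ k, ε k ≠ 1 := by
      by_contra hcon
      push Not at hcon
      apply h3
      have h6 : (Finset.univ.filter fun k => ε k = 1) = Finset.univ := by
        rw [Finset.filter_eq_self]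
        exact fun k _ => hcon k
      rw [h6, Finset.card_univ, Fintype.card_fin]
    obtain ⟨k, hk⟩ := h4
    obtain ⟨k', hk'⟩ := h5
    exact ⟨k, k', fun h6 => hk' (by rw [← h6, hk])⟩

theorem Core5.types5 (b : Fin m)
    {n : ℕ} {a : Fin n → Ω} (ha : Function.Injective a)
    (hroot : ∀ y : Ω, (F b).eval₂ j y = 0 ↔ ∃ k, y = a k)
    {FF : Finset (Module.End ℚ (YS a))} (hFF : ∀ P ∈ FF, Sp P ∧ P ≠ 0 ∧ GoodU (cl b) P)
    (horth : ∀ P ∈ FF, ∀ P' ∈ FF, P ≠ P' → P * P' = 0) (hsum : ∑ P ∈ FF, P = 1)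
    (hperm : ∀ π : Equiv.Perm (Fin n), (∀ g ∈ YS a, g ∘ π ∈ YS a) → ∀ P ∈ FF,
      ∃ P' ∈ FF, MvP π P P') :
    ∃ RP : Module.End ℚ (YS a) → Finset Ω, (∀ P ∈ FF, RP P ⊆ R ∧ (RP P).Nonempty) ∧
      (∀ r ∈ R, (∃ P ∈ FF, r ∈ RP P) ↔ hd b r ≠ 0 ∧ hd b r ≠ (e b).rank) ∧
      (∀ P ∈ FF, ∀ P' ∈ FF, ∀ r, r ∈ RP P → r ∈ RP P' → P = P') ∧
      (∀ P ∈ FF, ∀ r ∈ RP P, ∀ (i : Ω →+* AlgebraicClosure ℚ_[p]) (ε : Fin n → ℚ), v (i r) = 1 →
        IsHT μ φ ((e b).map (i.comp j)) (fun k => i (a k)) ε → FunP P ε) ∧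
      ∀ s : Ω ≃+* Ω, Linked D ((e b).map j) ((e b).map (s.toRingHom.comp j)) ∨
          Linked D ((e (bar b)).map j) ((e b).map (s.toRingHom.comp j)) →
        ∃ π : Equiv.Perm (Fin n), ((∀ k, s (a k) = a (π k)) ∧
            Linked D ((e b).map j) ((e b).map (s.toRingHom.comp j)) ∨
          bar b ≠ b ∧ (∀ k, s (a k) * a (π k) = algebraMap ℚ Ω q) ∧
            Linked D ((e (bar b)).map j) ((e b).map (s.toRingHom.comp j))) ∧
          (∀ g ∈ YS a, g ∘ π ∈ YS a) ∧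
          ∀ P ∈ FF, ∃ P' ∈ FF, MvP π P P' ∧ ∀ r ∈ RP P, s r ∈ RP P' := by
  classical
  have hSum : ∀ g ∈ YS a, ∑ k, g k = 0 := fun g hg => hg.1
  have hcard := C.card b ha hroot
  have h1 : ∀ P : Module.End ℚ (YS a), ∃ RP : Finset Ω, P ∈ FF → (RP ⊆ R ∧
      ∀ (i : Ω →+* AlgebraicClosure ℚ_[p]) (ε : Fin n → ℚ),
        IsHT μ φ ((e b).map (i.comp j)) (fun k => i (a k)) ε →
          ((FunP P ε ∧ ∃ k k', ε k ≠ ε k') ↔ ∃ r ∈ RP, v (i r) = 1)) := by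
    intro P
    by_cases hP : P ∈ FF
    · obtain ⟨RP, h2, h3⟩ := C.ht_iff b ha hroot (hFF P hP).1 (hFF P hP).2.2
      exact ⟨RP, fun _ => ⟨h2, h3⟩⟩
    · exact ⟨∅, fun h => absurd h hP⟩
  choose RP hRP using h1
  have hK : ∀ P ∈ FF, ∀ r ∈ R, ∀ (i : Ω →+* AlgebraicClosure ℚ_[p]) (ε : Fin n → ℚ),
      v (i r) = 1 → IsHT μ φ ((e b).map (i.comp j)) (fun k => i (a k)) ε →
        ((FunP P ε ∧ ∃ k k', ε k ≠ ε k') ↔ r ∈ RP P) := by
    intro P hP r hr i ε hv hε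
    rw [(hRP P hP).2 i ε hε]
    constructor
    · rintro ⟨r', hr', hv'⟩
      rw [C.w9_uniq hr ((hRP P hP).1 hr') i hv hv']
      exact hr'
    · intro h
      exact ⟨r, h, hv⟩
  have hsub : ∀ (P : Module.End ℚ (YS a)) (ε : Fin n → ℚ) (c : ℚ), FunP P ε →
      FunP P (fun k => ε k - c) := by
    intro P ε c h k k' hk
    show ε k - c = ε k' - c
    rw [h k k' hk]
  have hdisj : ∀ P ∈ FF, ∀ P' ∈ FF, ∀ r, r ∈ RP P → r ∈ RP P' → P = P' := by
    intro P hP P' hP' r hr hr'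
    by_contra hne
    have hrR := (hRP P hP).1 hr
    obtain ⟨i, hi⟩ := C.w9_i b hrR
    obtain ⟨hn, ε, c, hε, hεY, hε1, -⟩ := C.w9_HT b ha hroot i
    have : Nonempty (Fin n) := ⟨⟨0, hn⟩⟩
    obtain ⟨h2, k, k', hkk⟩ := (hK P hP r hrR i ε hi hε).2 hr
    obtain ⟨h3, -⟩ := (hK P' hP' r hrR i ε hi hε).2 hr'
    have h4 := (FunP_iff (hFF P hP).1 hSum ⟨_, hεY⟩).1 (hsub P ε c h2)
    have h5 := (FunP_iff (hFF P' hP').1 hSum ⟨_, hεY⟩).1 (hsub P' ε c h3)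
    have h6 : (P * P') ⟨_, hεY⟩ = ⟨_, hεY⟩ := by
      show P (P' ⟨_, hεY⟩) = ⟨_, hεY⟩
      rw [h5, h4]
    rw [horth P hP P' hP' hne] at h6
    have h7 : (0 : Fin n → ℚ) = fun k => ε k - c := congrArg Subtype.val h6
    have h8 := congrFun h7 k
    have h9 := congrFun h7 k'
    simp only [Pi.zero_apply] at h8 h9
    exact hkk (by linarith)
  have hnon : ∀ P ∈ FF, (RP P).Nonempty := by
    intro P hP
    obtain ⟨i, ε, h2, h3, h4⟩ := C.onto b ha hroot (hFF P hP).1 (hFF P hP).2.2 (hFF P hP).2.1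
    obtain ⟨r, hr, -⟩ := ((hRP P hP).2 i ε h2).1 ⟨h3, h4⟩
    exact ⟨r, hr⟩
  refine ⟨RP, fun P hP => ⟨(hRP P hP).1, hnon P hP⟩, ?_, hdisj, fun P hP r hr i ε hi hε =>
    ((hK P hP r ((hRP P hP).1 hr) i ε hi hε).2 hr).1, ?_⟩
  · intro r hr
    obtain ⟨i, hi⟩ := C.w9_i b hr
    obtain ⟨hn, ε, c, hε, hεY, hε1, hor, hcnt⟩ := C.w9_HT b ha hroot i
    have hhd := C.hdg b i r hr hi
    rw [hcnt] at hhd
    have hco : (∃ k k', ε k ≠ ε k') ↔ hd b r ≠ 0 ∧ hd b r ≠ (e b).rank := by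
      rw [← hcard, ← hhd]
      exact w9_const hε1
    constructor
    · rintro ⟨P, hP, hrP⟩
      exact hco.1 ((hK P hP r hr i ε hi hε).2 hrP).2
    · intro h0
      have hnc := hco.2 h0
      obtain ⟨k, k', hkk⟩ := hnc
      have : Nonempty (Fin n) := ⟨k⟩
      have h2 : ∃ P ∈ FF, P ⟨_, hεY⟩ ≠ 0 := by
        by_contra hcon
        push Not at hcon
        have h3 : (∑ P ∈ FF, P) ⟨_, hεY⟩ = 0 := by
          rw [LinearMap.sum_apply]
          exact Finset.sum_eq_zero hcon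
        rw [hsum] at h3
        have h7 : (fun k => ε k - c) = (0 : Fin n → ℚ) := congrArg Subtype.val h3
        have h8 := congrFun h7 k
        have h9 := congrFun h7 k'
        simp only [Pi.zero_apply] at h8 h9
        exact hkk (by linarith)
      obtain ⟨P, hP, hPε⟩ := h2
      refine ⟨P, hP, (hK P hP r hr i ε hi hε).1 ⟨?_, k, k', hkk⟩⟩
      rcases hor P (hFF P hP).2.2 with h3 | h3
      · exact h3
      · exfalso
        have h4 := (FunP_iff (hFF P hP).1.compl hSum ⟨_, hεY⟩).1 (hsub _ ε c h3)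
        apply hPε
        have h5 : (⟨_, hεY⟩ : YS a) - P ⟨_, hεY⟩ = ⟨_, hεY⟩ := h4
        rwa [sub_eq_self] at h5
  · intro s hlink
    have key : ∀ (π : Equiv.Perm (Fin n)), (∀ g ∈ YS a, g ∘ π ∈ YS a) →
        (∀ (i : Ω →+* AlgebraicClosure ℚ_[p]) (ε : Fin n → ℚ),
          IsHT μ φ ((e b).map (i.comp j)) (fun k => i (a k)) ε →
          ∃ ε' : Fin n → ℚ, (∀ k k', ε (π.symm k) = ε (π.symm k') ↔ ε' k = ε' k') ∧
            IsHT μ φ ((e b).map ((i.comp s.symm.toRingHom).comp j))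
              (fun k => i.comp s.symm.toRingHom (a k)) ε') →
        ∀ P ∈ FF, ∃ P' ∈ FF, MvP π P P' ∧ ∀ r ∈ RP P, s r ∈ RP P' := by
      intro π hY hπ2 P hP
      obtain ⟨P'', hP'', hmv⟩ := hperm π hY P hP
      refine ⟨P'', hP'', hmv, ?_⟩
      intro r₁ hr₁
      have hr₁R := (hRP P hP).1 hr₁
      obtain ⟨i, hi⟩ := C.w9_i b hr₁R
      obtain ⟨hn, ε, c, hε, hεY, hε1, hor, -⟩ := C.w9_HT b ha hroot i
      obtain ⟨h2, k₁, k₂, hkk⟩ := (hK P hP r₁ hr₁R i ε hi hε).2 hr₁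
      obtain ⟨ε', hεε, h3⟩ := hπ2 i ε hε
      refine (hK P'' hP'' (s r₁) (C.Rstab s r₁ hr₁R) (i.comp s.symm.toRingHom) _ ?_ h3).1 ⟨?_, ?_⟩
      · show v (i (s.symm (s r₁))) = 1
        rw [s.symm_apply_apply, hi]
      · intro k k' hk
        apply (hεε k k').1
        apply h2
        rw [hmv.1, π.apply_symm_apply, π.apply_symm_apply]
        exact hk
      · refine ⟨π k₁, π k₂, fun h4 => hkk ?_⟩
        have h5 := (hεε _ _).2 h4
        rwa [π.symm_apply_apply, π.symm_apply_apply] at h5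
    have hlink' : Linked D ((e b).map j) ((e b).map (s.toRingHom.comp j)) ∨
        bar b ≠ b ∧ Linked D ((e (bar b)).map j) ((e b).map (s.toRingHom.comp j)) := by
      rcases hlink with h | h
      · exact Or.inl h
      · by_cases hb : bar b = b
        · rw [hb] at h
          exact Or.inl h
        · exact Or.inr ⟨hb, h⟩
    rcases hlink' with hlink | ⟨hb, hlink⟩
    · obtain ⟨π, hπ, hπ2⟩ := C.linked b ha hroot hlink
      have hY : ∀ g ∈ YS a, g ∘ π ∈ YS a := fun g hg =>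
        YS_perm (s := s.toRingHom) (fun k => (hπ k).symm) hg
      exact ⟨π, Or.inl ⟨hπ, hlink⟩, hY, key π hY fun i ε hε =>
        ⟨_, fun k k' => Iff.rfl, hπ2 i ε hε⟩⟩
    · obtain ⟨π, hπ, hπ2⟩ := C.dual_linked b ha hroot hlink
      have hY : ∀ g ∈ YS a, g ∘ π ∈ YS a := fun g hg =>
        YS_dual (s := s.toRingHom) (C.ne b hroot) (C.q_ne b) hπ hg
      exact ⟨π, Or.inr ⟨hb, hπ, hlink⟩, hY, key π hY fun i ε hε =>
        ⟨_, fun k k' => ⟨fun h => congrArg Neg.neg h, fun h => neg_injective h⟩, hπ2 i ε hε⟩⟩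

end Pool.Agent.H45U
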