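import Pool.Agent.Lib.H76W.Big
import Pool.Agent.Lib.H45U.BL2
import Pool.Agent.Lib.H45U.W9
import Pool.Agent.Lib.H45U.W10

/-!
# the numbers of points of the blocks
-/

set_option autoImplicit false
set_option linter.unusedSectionVars false
namespace Pool.Agent.H45U
open Pool.Agent.H76Y Pool.Agent.H76Z
open Pool.Agent.H76P Pool.Agent.H76V Pool.Agent.H76Q
open Module Matrix Polynomial Pool.Agent.H53Toric
open Pool.Agent.H76P
open Pool.Agent.H76T (IsIdeal Fam Lc)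
open Pool.Agent.H76U (cmp preL IsSplitting)
open Pool.Agent.H76RM (spanK similD)

/-- The dimensions `A` of the tensor factors of a component of dimension `n` and of the class `t`: if
`n ≠ 8`, all but one are at least `3`, and at least `6` if there is a form, except for `n = 4` and a
symmetric form; if `n = 8` and there is a form, they are not `4`. -/
def Big (t : Cl) (n : ℕ) {k : ℕ} (A : Fin k → ℕ) : Prop :=
  (n ≠ 8 → (t = .o ∧ n = 4) ∨ ∃ x₀, ∀ x, x ≠ x₀ → 3 ≤ A x ∧ (t ≠ .n → 6 ≤ A x)) ∧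
    (n = 8 → t ≠ .n → ∀ x, A x ≠ 4)

/-- The blocks of a configuration are good. -/
theorem exists_blocksU2 {n : ℕ} (hn : 0 < n) {Y : Submodule ℚ (Fin n → ℚ)}
    (hs : ∀ g ∈ Y, ∑ k, g k = 0) (t : Cl) (h8 : t = .o → n ≠ 8) :
    ∃ FF : Finset (Module.End ℚ Y), (∀ P ∈ FF, Sp P ∧ P ≠ 0 ∧ GoodU t P) ∧
      (∀ P ∈ FF, ∀ P' ∈ FF, P ≠ P' → P * P' = 0) ∧ ∑ P ∈ FF, P = 1 ∧
      (∀ π : Equiv.Perm (Fin n), (∀ g ∈ Y, g ∘ π ∈ Y) → ∀ P ∈ FF, ∃ P' ∈ FF, MvP π P P') ∧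
      (FF.card = 1 → IsBlock (1 : Module.End ℚ Y)) ∧ ∀ P ∈ FF, IsBlock P := by
  classical
  have : Nonempty (Fin n) := ⟨⟨0, hn⟩⟩
  obtain ⟨B, hB, hsum, horth, hsp⟩ := exists_isBlock (Y := Y) hs
  refine ⟨B, fun P hP => ⟨(hsp P hP).1, (hsp P hP).2, ?_⟩, horth, hsum, fun π hπ P hP => ?_,
    fun h1 => isBlock_one hs hB h1, fun P hP => (hB P).1 hP⟩
  · exact block_good hn t h8 ((hB P).1 hP)
  · obtain ⟨P', -, hP', -, -, h1, h2⟩ := ((hB P).1 hP).perm hπ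
    exact ⟨P', (hB P').2 hP', h1, h2⟩

/-- The functions of the configuration are odd for the pairing of a form. -/
theorem bar_of {κ : Type*} [Fintype κ] [DecidableEq κ] {K : Type*} [Field K] [CharZero K]
    {L : Submodule K (Module.End K (κ → K))} {J : Matrix κ κ K} (hdet : IsUnit J.det)
    (hsk : ∀ X ∈ L, adjE J X = -X) {Y : Submodule ℚ (κ → ℚ)}
    (hY : ∀ f ∈ Y, (dq f : Module.End K (κ → K)) ∈ L) (hsep : ∀ a b : κ, a ≠ b → ∃ f ∈ Y, f a ≠ f b) :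
    ∃ bar : Equiv.Perm κ, (∀ k, bar (bar k) = k) ∧ ∀ f ∈ Y, ∀ k, f (bar k) = -f k := by
  have hex : ∀ k, ∃ l, J k l ≠ 0 := by
    intro k
    by_contra hcon
    push Not at hcon
    rw [Matrix.det_eq_zero_of_row_eq_zero k hcon] at hdet
    exact not_isUnit_zero hdet
  choose b hb using hex
  have hopp : ∀ f ∈ Y, ∀ k, f (b k) = -f k := by
    intro f hf k
    have h1 := hsk _ (hY f hf)
    have h2 : (dq f : Module.End K (κ → K)) = phi (Matrix.diagonal fun a => (f a : K)) := by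
      refine LinearMap.ext fun v => funext fun a => ?_
      rw [phi_apply, Matrix.mulVec_diagonal]
      exact dg_apply _ _ _
    rw [h2, skew_iff hdet] at h1
    have h3 := congrFun (congrFun h1 k) (b k)
    rw [Matrix.add_apply, Matrix.diagonal_transpose, Matrix.diagonal_mul, Matrix.mul_diagonal,
      Matrix.zero_apply] at h3
    have h4 : ((f k : K) + (f (b k) : K)) * J k (b k) = 0 := by rw [← h3]; ring
    have h5 := (mul_eq_zero.1 h4).resolve_right (hb k)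
    have h6 : f k + f (b k) = 0 := by exact_mod_cast h5
    linarith
  have hbb : ∀ k, b (b k) = k := by
    intro k
    by_contra hne
    obtain ⟨f, hf, hf2⟩ := hsep _ _ hne
    exact hf2 (by rw [hopp f hf, hopp f hf, neg_neg])
  exact ⟨⟨b, b, hbb, hbb⟩, hbb, hopp⟩

variable {ι : Type*} [Fintype ι] [DecidableEq ι] {ψ : Matrix ι ι ℚ}
    {D : Subalgebra ℚ (Matrix ι ι ℚ)} {M : Type*} [Field M] [NumberField M]
    {m : ℕ} {cl : Fin m → Cl} {bar : Fin m → Fin m} {e : Fin m → Matrix ι ι M} {u₀ : Matrix ι ι M} {G : Type*} [Group G]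
    {ρ : ∀ (l : ℕ) [Fact l.Prime], G →* Matrix.GeneralLinearGroup ι ℚ_[l]}
    {p : ℕ} [Fact p.Prime] {σ : G} {q : ℚ} {F : Fin m → M[X]}
    {φ μ ν : Matrix ι ι (AlgebraicClosure ℚ_[p])} {v : AlgebraicClosure ℚ_[p] → ℚ}
    {Δ : Set (AlgebraicClosure ℚ_[p] ≃+* AlgebraicClosure ℚ_[p])}
    {Ω : Type*} [Field Ω] [CharZero Ω] [IsAlgClosed Ω] [Algebra.IsAlgebraic ℚ Ω] {j : M →+* Ω}
    {R : Finset Ω} {N : Set ℕ} {hd : Fin m → Ω → ℕ} {ub : Fin m → Prop}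
    (C : Core5 ψ D cl bar e u₀ ρ p σ q F φ μ ν v Δ j R N hd ub)

include C

/-- The pairing of the eigenvalues of a component with a form. -/
theorem Core5.exists_bar (b : Fin m) (hb : cl b ≠ .n) {n : ℕ} {a : Fin n → Ω} (ha : Function.Injective a)
    (hroot : ∀ y : Ω, (F b).eval₂ j y = 0 ↔ ∃ k, y = a k) :
    ∃ bar' : Equiv.Perm (Fin n), (∀ k, bar' (bar' k) = k) ∧ ∀ f ∈ YS a, ∀ k, f (bar' k) = -f k := by
  obtain ⟨i⟩ := w9_exists_i p Ω
  obtain ⟨H₀, U, V, -, hL, hcls⟩ := C.locp b ha hroot i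
  obtain ⟨J, hJd, hsk⟩ : ∃ J : Matrix (Fin n) (Fin n) (AlgebraicClosure ℚ_[p]), IsUnit J.det ∧
      ∀ X ∈ LcN (ψ.map (algebraMap ℚ (AlgebraicClosure ℚ_[p])))
        (img (AlgebraicClosure ℚ_[p]) (ρ p) H₀) U V, adjE J X = -X := by
    cases hc : cl b with
    | s => obtain ⟨J, -, h1, h2⟩ := hcls.1 hc; exact ⟨J, h1, h2⟩
    | o => obtain ⟨J, -, h1, h2⟩ := hcls.2.1 hc; exact ⟨J, h1, h2⟩
    | n => exact absurd hc hb
  refine bar_of hJd hsk (fun f hf => H25U.Yo_mem (by rw [hL.yo]; exact hf)) fun k l hkl => ?_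
  obtain ⟨f, hf, hne⟩ := hL.ts.sep k l hkl
  exact ⟨f, hL.yo ▸ hf, hne⟩

/-- **The numbers of points of the blocks.** -/
theorem Core5.big_of (b : Fin m) {n : ℕ} {a : Fin n → Ω} (ha : Function.Injective a)
    (hroot : ∀ y : Ω, (F b).eval₂ j y = 0 ↔ ∃ k, y = a k)
    {FF : Finset (Module.End ℚ (YS a))} (hB : ∀ P ∈ FF, IsBlock P)
    (hFF : ∀ P ∈ FF, Sp P ∧ P ≠ 0 ∧ GoodU (cl b) P) {k : ℕ} (hk : 0 < k)
    (E : {P // P ∈ FF} ≃ Fin k) : Big (cl b) n (fun x => nz (E.symm x).1) := by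
  classical
  obtain ⟨i₀⟩ := w9_exists_i p Ω
  obtain ⟨H₀, U, V, -, hL, -⟩ := C.locp b ha hroot i₀
  have hne : Nonempty (Fin n) := ⟨⟨0, hL.pos⟩⟩
  have hSum : ∀ g ∈ YS a, ∑ k, g k = 0 := fun g hg => hg.1
  have htwo : ∀ P ∈ FF, 2 ≤ nz P ∧ ∃ f : YS a, P f = f ∧ f ≠ 0 ∧ ∃ c : ℚ, ∀ k, (f : Fin n → ℚ) k = c + 1 ∨
      (f : Fin n → ℚ) k = c - 1 := by
    intro P hP
    obtain ⟨i, ε, hε, hf, k₁, k₂, hkk⟩ := C.onto b ha hroot (hFF P hP).1 (hFF P hP).2.2 (hFF P hP).2.1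
    obtain ⟨H₁, U₁, V₁, -, hL₁, -⟩ := C.locp b ha hroot i
    obtain ⟨-, h2, c, h3, -⟩ := HT_spec hL₁ C.crys.mu C.crys.muphi hε
    refine ⟨nz_two hf hkk, ⟨_, h3⟩, ?_, fun h0 => hkk ?_, -c, fun k => ?_⟩
    · refine (FunP_iff (hFF P hP).1 hSum ⟨_, h3⟩).1 fun k k' hk => ?_
      show ε k - c = ε k' - c
      rw [hf k k' hk]
    · have h4 := congrArg Subtype.val h0
      have h5 : ε k₁ - c = 0 := congrFun h4 k₁
      have h6 : ε k₂ - c = 0 := congrFun h4 k₂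
      linarith
    · show ε k - c = -c + 1 ∨ ε k - c = -c - 1
      rcases h2 k with h4 | h4
      · left; rw [h4]; ring
      · right; rw [h4]; ring
  have hsix : cl b ≠ .n → ∀ P ∈ FF, Atom (ptS (YS a)) P.dualMap → 3 ≤ nz P → 6 ≤ nz P := by
    intro hb P hP hat h3
    obtain ⟨bar', hbb, hbar⟩ := C.exists_bar b hb ha hroot
    obtain ⟨-, f, hf, hf0, c, hf2⟩ := htwo P hP
    exact H76W.atom_six hat bar' hbb hbar hf hf0 hf2 h3
  constructor
  · intro h8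
    right
    have h8' : Fintype.card (Fin n) ≠ 8 := by rwa [Fintype.card_fin]
    by_cases hall : ∃ x₀ : Fin k, ¬ (Atom (ptS (YS a)) (E.symm x₀).1.dualMap ∧
        cnt (ptS (YS a)) (E.symm x₀).1.dualMap ≠ 2)
    · obtain ⟨x₀, hx₀⟩ := hall
      refine ⟨x₀, fun x hx => ?_⟩
      have h1 : Atom (ptS (YS a)) (E.symm x).1.dualMap ∧ cnt (ptS (YS a)) (E.symm x).1.dualMap ≠ 2 := by
        by_contra hn
        apply hx
        have h2 := H76W.block_two hSum h8' (hB _ (E.symm x).2) (hB _ (E.symm x₀).2) hn hx₀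
        exact E.symm.injective (Subtype.ext h2)
      have h2 := (htwo _ (E.symm x).2).1
      have h3 : nz (E.symm x).1 ≠ 2 := by rw [nz_eq]; exact h1.2
      show 3 ≤ nz (E.symm x).1 ∧ (cl b ≠ .n → 6 ≤ nz (E.symm x).1)
      exact ⟨by omega, fun hb => hsix hb _ (E.symm x).2 h1.1 (by omega)⟩
    · push Not at hall
      refine ⟨⟨0, hk⟩, fun x _ => ?_⟩
      have h2 := (htwo _ (E.symm x).2).1
      have h3 : nz (E.symm x).1 ≠ 2 := by rw [nz_eq]; exact (hall x).2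
      show 3 ≤ nz (E.symm x).1 ∧ (cl b ≠ .n → 6 ≤ nz (E.symm x).1)
      exact ⟨by omega, fun hb => hsix hb _ (E.symm x).2 (hall x).1 (by omega)⟩
  · intro h8 hb x h4
    have h1 : Atom (ptS (YS a)) (E.symm x).1.dualMap := by
      rcases hB _ (E.symm x).2 with h | h | h
      · exact h.2
      · exact absurd (by rw [Fintype.card_fin]; exact h8) h.1
      · exact absurd (by rw [Fintype.card_fin]; exact h8) h.1
    have h2 : nz (E.symm x).1 = 4 := h4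
    have h3 := hsix hb _ (E.symm x).2 h1 (by omega)
    omega

end Pool.Agent.H45U
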