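import Pool.Agent.Lib.H76Q.X7
import Pool.Agent.Lib.H76Q.E6
import Pool.Agent.Lib.H45U.W2
import Pool.Agent.Lib.H45U.E3
import Pool.Agent.Lib.H86L.L8
import Pool.Agent.Lib.H76Y.BL2
import Pool.Agent.Lib.H76T.TA4
import Pool.Agent.Lib.H76Z.W13b
import Pool.Agent.Lib.H45U.U3

/-!
# no block is exchanged with its complement
-/

set_option autoImplicit false
set_option linter.unusedSectionVars false
namespace Pool.Agent.H45U
open Pool.Agent.H76Y Pool.Agent.H76Z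
open Pool.Agent.H76P Pool.Agent.H76V Pool.Agent.H76Q
open Module Matrix Polynomial Pool.Agent.H53Toric
open Pool.Agent.H76P
open Pool.Agent.H76T (IsIdeal Fam Lc)
open Pool.Agent.H76U (cmp preL IsSplitting)
open Pool.Agent.H76RM (spanK similD)

variable {ι : Type*} [Fintype ι] [DecidableEq ι] {ψ : Matrix ι ι ℚ}
    {D : Subalgebra ℚ (Matrix ι ι ℚ)} {M : Type*} [Field M] [NumberField M]
    {m : ℕ} {cl : Fin m → Cl} {bar : Fin m → Fin m} {e : Fin m → Matrix ι ι M} {u₀ : Matrix ι ι M} {G : Type*} [Group G]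
    {ρ : ∀ (l : ℕ) [Fact l.Prime], G →* Matrix.GeneralLinearGroup ι ℚ_[l]}
    {p : ℕ} [Fact p.Prime] {σ : G} {q : ℚ} {F : Fin m → M[X]}
    {φ μ ν : Matrix ι ι (AlgebraicClosure ℚ_[p])} {v : AlgebraicClosure ℚ_[p] → ℚ}
    {Δ : Set (AlgebraicClosure ℚ_[p] ≃+* AlgebraicClosure ℚ_[p])}
    {Ω : Type*} [Field Ω] [CharZero Ω] [IsAlgClosed Ω] [Algebra.IsAlgebraic ℚ Ω] {j : M →+* Ω}
    {R : Finset Ω} {N : Set ℕ} {hd : Fin m → Ω → ℕ} {ub : Fin m → Prop}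
    (C : Core5 ψ D cl bar e u₀ ρ p σ q F φ μ ν v Δ j R N hd ub)

include C

theorem Core5.no_half (b : Fin m) (hb : cl b = .s) {n : ℕ} {a : Fin n → Ω} (ha : Function.Injective a)
    (hroot : ∀ y : Ω, (F b).eval₂ j y = 0 ↔ ∃ k, y = a k) {z : Module.End ℚ (YS a)}
    (hz : Sp z) (hG : ∀ (K : Type) [Field K] [CharZero K] [IsAlgClosed K]
      (L : Submodule K (Module.End K (Fin n → K))) (J : Matrix (Fin n) (Fin n) K),
      H76Q.TS L J → H76P.Yo L = YS a → Comp L z) {s : Ω ≃+* Ω}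
    (hpr : Pr D ((e b).map j) ((e b).map (s.toRingHom.comp j)))
    {π : Equiv.Perm (Fin n)} (hπ : ∀ k, s (a k) = a (π k)) (hmv : MvP π z (1 - z))
    (l : ℕ) [Fact l.Prime] (hl : l ≠ p) (i : Ω →+* AlgebraicClosure ℚ_[l])
    (t : AlgebraicClosure ℚ_[l] ≃ₐ[ℚ_[l]] AlgebraicClosure ℚ_[l])
    (ht1 : ∀ k, t (i (a k)) = i (s (a k))) (ht2 : ∀ c : M, t (i (j c)) = i (s (j c))) : False := by
  classical
  obtain ⟨H₀, U, V, hfin, hloc, hcls⟩ := C.locl b ha hroot l hl i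
  have hne : Nonempty (Fin n) := ⟨⟨0, hloc.pos⟩⟩
  obtain ⟨J₀, hTS⟩ := ts_of_sy ((tm_iff (Or.inl (hcls.1 hb))).1 hloc.ts) (hcls.1 hb)
  obtain ⟨a₁, ha₁, a', ha', h1, h2, h3, h4, h5, h6⟩ := hpr.map i
  have e1 : ((e b).map j).map i = (e b).map (i.comp j) := by
    ext x y
    rfl
  have e2 : ((e b).map (s.toRingHom.comp j)).map i = (e b).map (i.comp (s.toRingHom.comp j)) := by
    ext x y
    rfl
  have e3 : (e b).map (i.comp (s.toRingHom.comp j)) = ((e b).map (i.comp j)).map t.toRingEquiv := by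
    ext x y
    exact (ht2 _).symm
  rw [e1] at h2 h3 h6
  rw [e2] at h1 h4 h5
  rw [e3] at h1 h4 h5
  have hlinS : ∀ y ∈ spanK (AlgebraicClosure ℚ_[l]) D, ∀ g : G,
      (ρ l g).1.map (algebraMap ℚ_[l] (AlgebraicClosure ℚ_[l])) * y =
        y * (ρ l g).1.map (algebraMap ℚ_[l] (AlgebraicClosure ℚ_[l])) := by
    intro y hy g
    refine Submodule.span_induction (p := fun y _ => (ρ l g).1.map (algebraMap ℚ_[l] (AlgebraicClosure ℚ_[l])) * y =
        y * (ρ l g).1.map (algebraMap ℚ_[l] (AlgebraicClosure ℚ_[l]))) ?_ ?_ ?_ ?_ hy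
    · rintro _ ⟨d, hd, rfl⟩
      have h7 := congrArg (fun m : Matrix ι ι ℚ_[l] => m.map (algebraMap ℚ_[l] (AlgebraicClosure ℚ_[l]))) (C.lin l g d hd)
      have h8 : (d.map (algebraMap ℚ ℚ_[l])).map (algebraMap ℚ_[l] (AlgebraicClosure ℚ_[l])) =
          d.map (algebraMap ℚ (AlgebraicClosure ℚ_[l])) := by
        ext i j
        simp
      simp only [Matrix.map_mul] at h7
      rw [h8] at h7
      exact h7
    · rw [Matrix.mul_zero, Matrix.zero_mul]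
    · intro y y' _ _ h7 h8
      rw [Matrix.mul_add, Matrix.add_mul, h7, h8]
    · intro c y _ h7
      rw [Matrix.mul_smul, Matrix.smul_mul, h7]
  have hzl : ∀ y ∈ spanK (AlgebraicClosure ℚ_[l]) D, ∀ A ∈ zlie (img (AlgebraicClosure ℚ_[l]) (ρ l) H₀), y * A = A * y := by
    intro y hy A hA
    refine (H76RM.zlie_commute (img_one (ρ l) H₀) ?_ hA).symm
    rintro _ ⟨g, -, rfl⟩
    exact hlinS y hy g
  obtain ⟨θ, hθ, -⟩ := H86L.exists_theta2N (J := ψ.map (algebraMap ℚ (AlgebraicClosure ℚ_[l])))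
    (S := img (AlgebraicClosure ℚ_[l]) (ρ l) H₀) hloc.UV hloc.VU hloc.ec hloc.ex (τ := t.toRingEquiv)
    h1 h2 h3 h4 h5 (hlinS a' ha' σ) (hzl a₁ ha₁)
    (H76Q.e6_fix t _) (by
      ext x y
      show t (algebraMap ℚ (AlgebraicClosure ℚ_[l]) (ψ x y)) = algebraMap ℚ (AlgebraicClosure ℚ_[l]) (ψ x y)
      rw [IsScalarTower.algebraMap_apply ℚ ℚ_[l] (AlgebraicClosure ℚ_[l]), t.commutes]) (fun x hx => by
      obtain ⟨g, -, rfl⟩ := hx
      exact H76Q.e6_fix t _) (σ := π) (fun k => by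
      show t (i (a k)) = i (a (π k))
      rw [ht1, hπ])
  have hyo : H76P.Yo (LcN (ψ.map (algebraMap ℚ (AlgebraicClosure ℚ_[l])))
      (img (AlgebraicClosure ℚ_[l]) (ρ l) H₀) U V) = YS a :=
    (Yo_eq (Or.inl (hcls.1 hb))).symm.trans hloc.yo
  exact H76Q.no_swap hTS hyo hz (hG _ _ _ hTS hyo) (theta_adj hTS hθ) hmv

end Pool.Agent.H45U
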