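import Pool.Agent.Lib.H45U.W2
import Pool.Agent.Lib.H76W.Supp
import Pool.Agent.Lib.H76W.FixS
import Pool.Agent.Lib.H76W.Pr
import Pool.Agent.Lib.H76Q.E6
import Pool.Agent.Lib.H76Z.W14

/-!
# a component with bad reduction at almost all primes: a block is fixed
-/

set_option autoImplicit false
set_option linter.unusedSectionVars false
namespace Pool.Agent.H45U
open Pool.Agent.H76Y Pool.Agent.H76Z
open Pool.Agent.H76P Pool.Agent.H76V Pool.Agent.H76Q
open Module Matrix Polynomial Pool.Agent.H53Toric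
open Pool.Agent.H76P
open Pool.Agent.H76T (IsIdeal Fam Lc)
open Pool.Agent.H76U (cmp preL IsSplitting)
open Pool.Agent.H76RM (spanK similD)

variable {ι : Type*} [Fintype ι] [DecidableEq ι] {ψ : Matrix ι ι ℚ}
    {D : Subalgebra ℚ (Matrix ι ι ℚ)} {M : Type*} [Field M] [NumberField M]
    {m : ℕ} {cl : Fin m → Cl} {bar : Fin m → Fin m} {e : Fin m → Matrix ι ι M} {u₀ : Matrix ι ι M} {G : Type*} [Group G]
    {ρ : ∀ (l : ℕ) [Fact l.Prime], G →* Matrix.GeneralLinearGroup ι ℚ_[l]}
    {p : ℕ} [Fact p.Prime] {σ : G} {q : ℚ} {F : Fin m → M[X]}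
    {φ μ ν : Matrix ι ι (AlgebraicClosure ℚ_[p])} {v : AlgebraicClosure ℚ_[p] → ℚ}
    {Δ : Set (AlgebraicClosure ℚ_[p] ≃+* AlgebraicClosure ℚ_[p])}
    {Ω : Type*} [Field Ω] [CharZero Ω] [IsAlgClosed Ω] [Algebra.IsAlgebraic ℚ Ω] {j : M →+* Ω}
    {R : Finset Ω} {N : Set ℕ} {hd : Fin m → Ω → ℕ} {ub : Fin m → Prop}
    (C : Core5 ψ D cl bar e u₀ ρ p σ q F φ μ ν v Δ j R N hd ub)

/-- The trace of a square zero matrix is zero. -/
theorem fx_trace {n : ℕ} {K : Type*} [Field K] {B : Matrix (Fin n) (Fin n) K} (hB : B * B = 0) :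
    B.trace = 0 := by
  have h1 : IsNilpotent B := ⟨2, by rw [pow_two, hB]⟩
  exact (Matrix.isNilpotent_trace_of_isNilpotent h1).eq_zero

theorem fx_trace' {K : Type*} [Field K] {B : Matrix ι ι K} (hB : B * B = 0) :
    B.trace = 0 := by
  have h1 : IsNilpotent B := ⟨2, by rw [pow_two, hB]⟩
  exact (Matrix.isNilpotent_trace_of_isNilpotent h1).eq_zero

include C

/-- A component with bad reduction at almost all primes has a block which is fixed. -/
theorem Core5.fixb (b : Fin m) (hb : ub b) {n : ℕ} {a : Fin n → Ω} (ha : Function.Injective a)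
    (hroot : ∀ y : Ω, (F b).eval₂ j y = 0 ↔ ∃ k, y = a k) (_hn : 0 < n)
    {FF : Finset (Module.End ℚ (YS a))} (hFF : ∀ P ∈ FF, Sp P ∧ P ≠ 0 ∧ GoodU (cl b) P)
    (horth : ∀ P ∈ FF, ∀ P' ∈ FF, P ≠ P' → P * P' = 0) (hsum : ∑ P ∈ FF, P = 1)
    {s : Ω ≃+* Ω} {π : Equiv.Perm (Fin n)}
    (hs1 : (∀ k, s (a k) = a (π k)) ∧ Linked D ((e b).map j) ((e b).map (s.toRingHom.comp j)) ∨
      bar b ≠ b ∧ (∀ k, s (a k) * a (π k) = algebraMap ℚ Ω q) ∧
        Linked D ((e (bar b)).map j) ((e b).map (s.toRingHom.comp j)))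
    (_hY : ∀ g ∈ YS a, g ∘ π ∈ YS a)
    (g : Module.End ℚ (YS a) → Module.End ℚ (YS a)) (hg : ∀ P ∈ FF, g P ∈ FF ∧ MvP π P (g P)) :
    ∃ P ∈ FF, g P = P := by
  classical
  obtain ⟨T₀, hT₀⟩ : ∃ T₀ : Finset Ω, T₀ = Finset.univ.image a ∪ Finset.univ.image (fun i => j (Module.finBasis ℚ M i)) := ⟨_, rfl⟩
  obtain ⟨l, hl, hlN, i, t, hit⟩ := C.dec s T₀
  have hlp : l ≠ p := fun h => hlN (h ▸ C.hN)
  have ht1 : ∀ k, t (i (a k)) = i (s (a k)) := fun k => hit (a k) (by
    rw [hT₀, Finset.mem_union]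
    exact Or.inl (Finset.mem_image_of_mem a (Finset.mem_univ k)))
  have ht2 : ∀ c : M, t (i (j c)) = i (s (j c)) := by
    intro c
    obtain ⟨f1, hf1⟩ : ∃ f1 : M →+* AlgebraicClosure ℚ_[l], ∀ x, f1 x = t (i (j x)) :=
      ⟨(t.toRingEquiv.toRingHom.comp i).comp j, fun _ => rfl⟩
    obtain ⟨f2, hf2⟩ : ∃ f2 : M →+* AlgebraicClosure ℚ_[l], ∀ x, f2 x = i (s (j x)) :=
      ⟨(i.comp s.toRingHom).comp j, fun _ => rfl⟩
    rw [← hf1, ← hf2]
    conv_lhs => rw [← (Module.finBasis ℚ M).sum_repr c]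
    conv_rhs => rw [← (Module.finBasis ℚ M).sum_repr c]
    rw [map_sum, map_sum]
    refine Finset.sum_congr rfl fun x _ => ?_
    rw [map_rat_smul f1, map_rat_smul f2]
    congr 1
    rw [hf1, hf2]
    exact hit _ (by
      rw [hT₀, Finset.mem_union]
      exact Or.inr (Finset.mem_image_of_mem (fun i => j (Module.finBasis ℚ M i)) (Finset.mem_univ x)))
  obtain ⟨H₀, U, V, hfin, hloc, hcls⟩ := C.locl b ha hroot l hlp i
  obtain ⟨X, hXX, hXz, hXe⟩ := C.bad b hb l hlN
  have hne : Nonempty (Fin n) := ⟨⟨0, hloc.pos⟩⟩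
  obtain ⟨A, hA⟩ : ∃ A, A = X.map (algebraMap ℚ_[l] (AlgebraicClosure ℚ_[l])) := ⟨_, rfl⟩
  have hAz : A ∈ zlie (img (AlgebraicClosure ℚ_[l]) (ρ l) H₀) := hA ▸ hXz H₀ hfin
  have hAe : A * (e b).map (i.comp j) ≠ 0 := hA ▸ hXe (i.comp j)
  have hAA : A * A = 0 := by
    rw [hA, ← Matrix.map_mul, hXX]
    ext x y
    simp
  have hAt : A.map t.toRingEquiv = A := hA ▸ H76Q.e6_fix t _
  clear hXe hXz
  obtain ⟨hcom, c, hc⟩ := hloc.lie A hAz
  -- the matrix in the component
  obtain ⟨B, hB⟩ : ∃ B, B = V * A * U := ⟨_, rfl⟩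
  have hBB : B * B = 0 := by
    calc B * B = V * (A * (U * V)) * A * U := by
          rw [hB]
          simp only [Matrix.mul_assoc]
      _ = V * (U * V) * (A * A) * U := by
          rw [← hloc.UV, hcom]
          simp only [Matrix.mul_assoc]
      _ = 0 := by rw [hAA, Matrix.mul_zero, Matrix.zero_mul]
  have hB0 : B ≠ 0 := by
    intro h0
    apply hAe
    calc A * (e b).map (i.comp j) = A * (e b).map (i.comp j) * (e b).map (i.comp j) := by
          rw [Matrix.mul_assoc, (C.hspl.map (i.comp j)).idem b]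
      _ = (e b).map (i.comp j) * A * (e b).map (i.comp j) := by rw [hcom]
      _ = U * B * V := by
          rw [hloc.UV, hB]
          simp only [Matrix.mul_assoc]
      _ = 0 := by rw [h0, Matrix.mul_zero, Matrix.zero_mul]
  have hcmp : cmp U V (A - c • 1) = B - c • 1 := by
    rw [Pool.Agent.H76U.cmp_apply, Matrix.mul_sub, Matrix.sub_mul, hB, Matrix.mul_smul, Matrix.mul_one,
      Matrix.smul_mul, hloc.VU]
  rw [hcmp] at hc
  have hc0 : c = 0 := by
    have h1 := hloc.ts.cmp.tr _ hc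
    have h2 : LinearMap.trace (AlgebraicClosure ℚ_[l]) (Fin n → AlgebraicClosure ℚ_[l]) (phi (B - c • 1)) =
        (B - c • 1).trace := Matrix.trace_toLin'_eq _
    rw [h2, Matrix.trace_sub, fx_trace hBB, Matrix.trace_smul, Matrix.trace_one, zero_sub, neg_eq_zero,
      Fintype.card_fin, smul_eq_mul, mul_eq_zero] at h1
    rcases h1 with h1 | h1
    · exact h1
    · exact absurd (Nat.cast_eq_zero.1 h1) hloc.pos.ne'
  rw [hc0, zero_smul, sub_zero] at hc
  -- the linear data
  have e1 : ∀ b' : Fin m, ((e b').map j).map i = (e b').map (i.comp j) := by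
    intro b'
    ext x y
    rfl
  have e2 : ((e b).map (s.toRingHom.comp j)).map i = (e b).map (i.comp (s.toRingHom.comp j)) := by
    ext x y
    rfl
  have e3 : (e b).map (i.comp (s.toRingHom.comp j)) = ((e b).map (i.comp j)).map t.toRingEquiv := by
    ext x y
    exact (ht2 _).symm
  have hlinS : ∀ y ∈ spanK (AlgebraicClosure ℚ_[l]) D, ∀ g : G,
      (ρ l g).1.map (algebraMap ℚ_[l] (AlgebraicClosure ℚ_[l])) * y =
        y * (ρ l g).1.map (algebraMap ℚ_[l] (AlgebraicClosure ℚ_[l])) := by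
    intro y hy g
    refine Submodule.span_induction (p := fun y _ => (ρ l g).1.map (algebraMap ℚ_[l] (AlgebraicClosure ℚ_[l])) * y =
        y * (ρ l g).1.map (algebraMap ℚ_[l] (AlgebraicClosure ℚ_[l]))) ?_ ?_ ?_ ?_ hy
    · rintro _ ⟨d, hd, rfl⟩
      have h7 := congrArg (fun m : Matrix ι ι ℚ_[l] => m.map (algebraMap ℚ_[l] (AlgebraicClosure ℚ_[l]))) (C.lin l g d hd)
      have h8 : (d.map (algebraMap ℚ ℚ_[l])).map (algebraMap ℚ_[l] (AlgebraicClosure ℚ_[l])) =
          d.map (algebraMap ℚ (AlgebraicClosure ℚ_[l])) := by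
        ext i j
        simp
      simp only [Matrix.map_mul] at h7
      rw [h8] at h7
      exact h7
    · rw [Matrix.mul_zero, Matrix.zero_mul]
    · intro y y' _ _ h7 h8
      rw [Matrix.mul_add, Matrix.add_mul, h7, h8]
    · intro c y _ h7
      rw [Matrix.mul_smul, Matrix.smul_mul, h7]
  have hzl : ∀ y ∈ spanK (AlgebraicClosure ℚ_[l]) D, y * A = A * y := by
    intro y hy
    refine (H76RM.zlie_commute (img_one (ρ l) H₀) ?_ hAz).symm
    rintro _ ⟨g, -, rfl⟩
    exact hlinS y hy g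
  have hσt : ((ρ l σ).1.map (algebraMap ℚ_[l] (AlgebraicClosure ℚ_[l]))).map t.toRingEquiv =
      (ρ l σ).1.map (algebraMap ℚ_[l] (AlgebraicClosure ℚ_[l])) := H76Q.e6_fix t _
  have hBp : LinearMap.toMatrix' (phi B : Module.End (AlgebraicClosure ℚ_[l]) (Fin n → AlgebraicClosure ℚ_[l])) = B :=
    LinearMap.toMatrix'_toLin' B
  have hsup : (∀ k l', LinearMap.toMatrix' (phi B : Module.End (AlgebraicClosure ℚ_[l]) (Fin n → AlgebraicClosure ℚ_[l])) k l' ≠ 0 ↔
        LinearMap.toMatrix' (phi B : Module.End (AlgebraicClosure ℚ_[l]) (Fin n → AlgebraicClosure ℚ_[l])) (π k) (π l') ≠ 0) ∨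
      ∀ k l', LinearMap.toMatrix' (phi B : Module.End (AlgebraicClosure ℚ_[l]) (Fin n → AlgebraicClosure ℚ_[l])) k l' ≠ 0 ↔
        LinearMap.toMatrix' (phi B : Module.End (AlgebraicClosure ℚ_[l]) (Fin n → AlgebraicClosure ℚ_[l])) (π l') (π k) ≠ 0 := by
    rw [hBp]
    rcases hs1 with ⟨hπ, hlink⟩ | ⟨-, hπ, hlink⟩
    · left
      intro k l'
      obtain ⟨a₁, ha₁, a', ha', h1, h2, h3, h4, h5, h6⟩ := (H76W.pr_of_linked2 C.hspl.zero j s b b hlink).map i
      rw [e1] at h2 h3 h6
      rw [e2] at h1 h4 h5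
      rw [e3] at h1 h4 h5
      rw [hB]
      exact H76W.supp_link (t := t.toRingEquiv) (π := π) hloc.UV hloc.VU hloc.ec hcom.symm h1 h3 (hlinS a' ha' σ)
        (hzl a' ha').symm hσt hAt (fun k => by
          show t (i (a k)) = i (a (π k))
          rw [ht1, hπ]) k l'
    · right
      intro k l'
      obtain ⟨a₁, ha₁, a', ha', h1, h2, h3, h4, h5, h6⟩ := (H76W.pr_of_linked2 C.hspl.zero j s (bar b) b hlink).map i
      rw [e1] at h2 h3 h6
      rw [e2] at h1 h4 h5
      rw [e3] at h1 h4 h5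
      obtain ⟨-, hdet0⟩ := gram_basic C.hψ C.hψ0 (AlgebraicClosure ℚ_[l])
      have huD := (C.hspl.map (i.comp j)).umem
      have hdet : IsUnit (ψ.map (algebraMap ℚ (AlgebraicClosure ℚ_[l])) * u₀.map (i.comp j)).det := by
        rw [Matrix.det_mul]
        exact hdet0.mul (C.hspl.map (i.comp j)).unit
      have hadj := (C.hspl.map (i.comp j)).adj (bar b)
      rw [C.hspl.barbar b] at hadj
      have hm0 : ((ρ l σ).1.map (algebraMap ℚ_[l] (AlgebraicClosure ℚ_[l])))ᵀ *
          ψ.map (algebraMap ℚ (AlgebraicClosure ℚ_[l])) * (ρ l σ).1.map (algebraMap ℚ_[l] (AlgebraicClosure ℚ_[l])) =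
          algebraMap ℚ (AlgebraicClosure ℚ_[l]) q • ψ.map (algebraMap ℚ (AlgebraicClosure ℚ_[l])) := by
        have h1 := congrArg (fun m : Matrix ι ι ℚ_[l] => m.map (algebraMap ℚ_[l] (AlgebraicClosure ℚ_[l]))) (C.mult l hlp)
        have h2 : (ψ.map (algebraMap ℚ ℚ_[l])).map (algebraMap ℚ_[l] (AlgebraicClosure ℚ_[l])) =
            ψ.map (algebraMap ℚ (AlgebraicClosure ℚ_[l])) := by
          ext i j
          simp
        have h3 : (algebraMap ℚ ℚ_[l] q • ψ.map (algebraMap ℚ ℚ_[l])).map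
            (algebraMap ℚ_[l] (AlgebraicClosure ℚ_[l])) =
            algebraMap ℚ (AlgebraicClosure ℚ_[l]) q • ψ.map (algebraMap ℚ (AlgebraicClosure ℚ_[l])) := by
          ext i j
          simp
        simp only [Matrix.map_mul] at h1
        rw [h2, h3, Matrix.transpose_map] at h1
        exact h1
      have hm : ((ρ l σ).1.map (algebraMap ℚ_[l] (AlgebraicClosure ℚ_[l])))ᵀ *
          (ψ.map (algebraMap ℚ (AlgebraicClosure ℚ_[l])) * u₀.map (i.comp j)) *
            (ρ l σ).1.map (algebraMap ℚ_[l] (AlgebraicClosure ℚ_[l])) =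
          algebraMap ℚ (AlgebraicClosure ℚ_[l]) q •
            (ψ.map (algebraMap ℚ (AlgebraicClosure ℚ_[l])) * u₀.map (i.comp j)) := by
        rw [← Matrix.smul_mul, ← hm0]
        simp only [Matrix.mul_assoc]
        rw [← hlinS _ huD σ]
      have hψne : ψ.map (algebraMap ℚ (AlgebraicClosure ℚ_[l])) ≠ 0 := by
        intro h0
        have hι : Nonempty ι := by
          by_contra hemp
          rw [not_nonempty_iff] at hemp
          apply C.hspl.ne_zero b
          ext i'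
          exact (hemp.false i').elim
        rw [h0, Matrix.det_zero] at hdet0
        exact hdet0.ne_zero rfl
      obtain ⟨c', hc'⟩ := H76P.zlie_sim (img_one (ρ l) H₀) hψne (by
        rintro _ ⟨g, -, rfl⟩
        obtain ⟨c', hc'⟩ := C.sim l g
        refine ⟨algebraMap ℚ_[l] _ c', ?_⟩
        have h1 := congrArg (fun m : Matrix ι ι ℚ_[l] => m.map (algebraMap ℚ_[l] (AlgebraicClosure ℚ_[l]))) hc'
        have h2 : (ψ.map (algebraMap ℚ ℚ_[l])).map (algebraMap ℚ_[l] (AlgebraicClosure ℚ_[l])) =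
            ψ.map (algebraMap ℚ (AlgebraicClosure ℚ_[l])) := by
          ext i j
          simp
        have h3 : (c' • ψ.map (algebraMap ℚ ℚ_[l])).map
            (algebraMap ℚ_[l] (AlgebraicClosure ℚ_[l])) =
            algebraMap ℚ_[l] (AlgebraicClosure ℚ_[l]) c' • ψ.map (algebraMap ℚ (AlgebraicClosure ℚ_[l])) := by
          ext i j
          simp
        simp only [Matrix.map_mul] at h1
        rw [h2, h3, Matrix.transpose_map] at h1
        exact h1) hAz
      have hc'0 : c' = 0 := by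
        have h7 : Aᵀ + ψ.map (algebraMap ℚ (AlgebraicClosure ℚ_[l])) * A *
            (ψ.map (algebraMap ℚ (AlgebraicClosure ℚ_[l])))⁻¹ = c' • 1 := by
          have h8 := congrArg (fun m => m * (ψ.map (algebraMap ℚ (AlgebraicClosure ℚ_[l])))⁻¹) hc'
          beta_reduce at h8
          rwa [Matrix.add_mul, Matrix.mul_assoc, Matrix.mul_nonsing_inv _ hdet0, Matrix.mul_one,
            Matrix.smul_mul, Matrix.mul_nonsing_inv _ hdet0] at h8
        have h8 := congrArg Matrix.trace h7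
        rw [Matrix.trace_add, Matrix.trace_transpose, fx_trace' hAA, Matrix.trace_mul_comm, ← Matrix.mul_assoc,
          Matrix.nonsing_inv_mul _ hdet0, Matrix.one_mul, fx_trace' hAA, Matrix.trace_smul, Matrix.trace_one,
          add_zero, smul_eq_mul] at h8
        rcases mul_eq_zero.1 h8.symm with h9 | h9
        · exact h9
        · have hι : Nonempty ι := by
            by_contra hemp
            rw [not_nonempty_iff] at hemp
            apply C.hspl.ne_zero b
            ext i'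
            exact (hemp.false i').elim
          exact absurd (Nat.cast_eq_zero.1 h9) Fintype.card_ne_zero
      rw [hc'0, zero_smul] at hc'
      have hNJ : Aᵀ * (ψ.map (algebraMap ℚ (AlgebraicClosure ℚ_[l])) * u₀.map (i.comp j)) =
          -(ψ.map (algebraMap ℚ (AlgebraicClosure ℚ_[l])) * u₀.map (i.comp j) * A) := by
        rw [← Matrix.mul_assoc, eq_neg_of_add_eq_zero_left hc', Matrix.neg_mul, Matrix.mul_assoc _ A,
          ← hzl _ huD, Matrix.mul_assoc]
      have hq0 : algebraMap ℚ (AlgebraicClosure ℚ_[l]) q ≠ 0 := by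
        intro h0
        have h1 : q = 0 := by
          rw [← map_zero (algebraMap ℚ (AlgebraicClosure ℚ_[l]))] at h0
          exact (algebraMap ℚ (AlgebraicClosure ℚ_[l])).injective h0
        have h2 := C.vq
        have hι : Nonempty ι := by
          by_contra hemp
          rw [not_nonempty_iff] at hemp
          apply C.hspl.ne_zero b
          ext i'
          exact (hemp.false i').elim
        exact absurd (C.multp) (by
          rw [h1, map_zero, zero_smul]
          intro h3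
          have h4 := congrArg Matrix.det h3
          obtain ⟨-, hdet⟩ := gram_basic C.hψ C.hψ0 (AlgebraicClosure ℚ_[p])
          rw [Matrix.det_mul, Matrix.det_mul, Matrix.det_transpose, Matrix.det_zero] at h4
          exact mul_ne_zero (mul_ne_zero C.frobp.idc.1 hdet.ne_zero) C.frobp.idc.1 h4)
      rw [hB]
      exact H76W.supp_dual (t := t.toRingEquiv) (π := π) hloc.UV hloc.VU hloc.ec hcom.symm h1 h3
        (hlinS a' ha' σ) (hzl a' ha').symm hσt hAt hadj hdet hm hNJ hq0 (fun k => by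
          show t (i (a k)) * i (a (π k)) = algebraMap ℚ (AlgebraicClosure ℚ_[l]) q
          rw [ht1, ← map_mul, hπ]
          simp) k l'
  exact H76W.fix_supp hloc.ts hloc.yo (fun P hP => ⟨(hFF P hP).1, (hFF P hP).2.2 _ _ hloc.ts hcls hloc.yo⟩)
    horth hsum hc (fun h0 => hB0 (by
      rw [← hBp, h0, map_zero])) (by
      rw [← map_mul, hBB, map_zero]) hsup g hg

end Pool.Agent.H45U
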