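import Pool.Agent.Lib.H76Q.Q6
import Pool.Agent.Lib.H76Q.W10a
import Pool.Agent.Lib.H76Y.A1
import Pool.Agent.Lib.H76Q.W10b
import Pool.Agent.Lib.H45U.W14
import Pool.Agent.Lib.H45U.W7
import Pool.Agent.Lib.H45U.W9
import Pool.Agent.Lib.H76Y.Y0
import Pool.Agent.Lib.H76Y.W10a
import Pool.Agent.Lib.H45U.W10
import Pool.Agent.Lib.H45U.WFix
import Pool.Agent.Lib.H45U.U3

/-!
# the partition
-/

set_option autoImplicit false
set_option linter.unusedSectionVars false
namespace Pool.Agent.H45U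
open Pool.Agent.H76Y Pool.Agent.H76Z
open Pool.Agent.H76P Pool.Agent.H76V Pool.Agent.H76Q
open Module Matrix Polynomial TensorProduct Pool.Agent.H53Toric
open Pool.Agent.H76P
open Pool.Agent.H76T (IsIdeal Fam Lc)
open Pool.Agent.H76U (cmp preL IsSplitting)
open Pool.Agent.H76RM (spanK similD)

variable {ι : Type*} [Fintype ι] [DecidableEq ι] {ψ : Matrix ι ι ℚ}
    {D : Subalgebra ℚ (Matrix ι ι ℚ)} {M : Type*} [Field M] [NumberField M]
    {m : ℕ} {cl : Fin m → Cl} {bar : Fin m → Fin m} {e : Fin m → Matrix ι ι M} {u₀ : Matrix ι ι M} {G : Type*} [Group G]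
    {ρ : ∀ (l : ℕ) [Fact l.Prime], G →* Matrix.GeneralLinearGroup ι ℚ_[l]}
    {p : ℕ} [Fact p.Prime] {σ : G} {q : ℚ} {F : Fin m → M[X]}
    {φ μ ν : Matrix ι ι (AlgebraicClosure ℚ_[p])} {v : AlgebraicClosure ℚ_[p] → ℚ}
    {Δ : Set (AlgebraicClosure ℚ_[p] ≃+* AlgebraicClosure ℚ_[p])}
    {Ω : Type*} [Field Ω] [CharZero Ω] [IsAlgClosed Ω] [Algebra.IsAlgebraic ℚ Ω] {j : M →+* Ω}
    {R : Finset Ω} {N : Set ℕ} {hd : Fin m → Ω → ℕ} {ub : Fin m → Prop}
    (C : Core5 ψ D cl bar e u₀ ρ p σ q F φ μ ν v Δ j R N hd ub)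

include C


/-- The decomposition of the set `R` given by a family of good blocks. -/
theorem Core5.partd2 (b : Fin m) {n : ℕ} {a : Fin n → Ω} (ha : Function.Injective a)
    (hroot : ∀ y : Ω, (F b).eval₂ j y = 0 ↔ ∃ k, y = a k) (hn : 0 < n)
    {FF : Finset (Module.End ℚ (YS a))} (hFF : ∀ P ∈ FF, Sp P ∧ P ≠ 0 ∧ GoodU (cl b) P)
    (horth : ∀ P ∈ FF, ∀ P' ∈ FF, P ≠ P' → P * P' = 0) (hsum : ∑ P ∈ FF, P = 1)
    (hperm : ∀ π : Equiv.Perm (Fin n), (∀ g ∈ YS a, g ∘ π ∈ YS a) → ∀ P ∈ FF,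
      ∃ P' ∈ FF, MvP π P P') (E : {P // P ∈ FF} ≃ Fin FF.card) :
    ∃ c : Ω → Option (Fin FF.card),
      PartU D j (cl b = .s) (ub b) (e b) (e (bar b)) (F b) q R (hd b) c (fun x => nz (E.symm x).1) ∧
      n = ∏ x, nz (E.symm x).1 := by
  classical
  have hne : Nonempty (Fin n) := ⟨⟨0, hn⟩⟩
  have h0 : ∀ f ∈ YS a, ∑ k, f k = 0 := fun f hf => hf.1
  have hSp : ∀ P ∈ FF, Sp P := fun P hP => (hFF P hP).1
  have hcard := C.card b ha hroot
  obtain ⟨RP, hRP, hcov, hdis, hRP2, hmove⟩ := C.types5 b ha hroot hFF horth hsum hperm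
  have ha0 := C.ne b hroot
  have hq0 := C.q_ne b
  obtain ⟨i₀⟩ := w9_exists_i p Ω
  have hsep : ∀ k l, k ≠ l → ∃ g ∈ YS a, g k ≠ g l :=
    YS_sep ha0 fun k l n hn h => ha (C.tor b ((hroot _).2 ⟨k, rfl⟩) ((hroot _).2 ⟨l, rfl⟩) hn h)
  obtain ⟨c, hc, hcn⟩ : ∃ c : Ω → Option (Fin FF.card), (∀ (P : Module.End ℚ (YS a)) (hP : P ∈ FF) (r : Ω),
      r ∈ RP P → c r = some (E ⟨P, hP⟩)) ∧ ∀ r, (¬ ∃ P ∈ FF, r ∈ RP P) → c r = none := by
    refine ⟨fun r => if h : ∃ P : {P // P ∈ FF}, r ∈ RP P.1 then some (E h.choose) else none,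
      fun P hP r hr => ?_, fun r hr => ?_⟩
    · have h : ∃ P : {P // P ∈ FF}, r ∈ RP P.1 := ⟨⟨P, hP⟩, hr⟩
      simp only [dif_pos h]
      congr 2
      exact Subtype.ext (hdis _ h.choose.2 _ hP r h.choose_spec hr)
    · have h : ¬ ∃ P : {P // P ∈ FF}, r ∈ RP P.1 := fun ⟨P, h⟩ => hr ⟨P.1, P.2, h⟩
      simp only [dif_neg h]
  have hcs : ∀ r x, c r = some x → r ∈ RP (E.symm x).1 := by
    intro r x h
    by_cases hr : ∃ P ∈ FF, r ∈ RP P
    · obtain ⟨P, hP, hrP⟩ := hr
      rw [hc P hP r hrP, Option.some_inj] at h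
      rw [← h, Equiv.symm_apply_apply]
      exact hrP
    · rw [hcn r hr] at h
      exact absurd h (by simp)
  refine ⟨c, ⟨?_, ?_, ?_, ?_, ?_⟩, ?_⟩
  · intro r hr
    have h1 := hcov r hr
    by_cases h2 : ∃ P ∈ FF, r ∈ RP P
    · have h3 := h1.1 h2
      obtain ⟨P, hP, hrP⟩ := h2
      rw [hc P hP r hrP]
      constructor
      · intro h4
        exact absurd h4 (by simp)
      · rintro (h4 | h4)
        · exact absurd h4 h3.1
        · exact absurd h4 h3.2
    · rw [hcn r h2]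
      constructor
      · intro _
        by_contra h4
        exact h2 (h1.2 ⟨fun h5 => h4 (Or.inl h5), fun h5 => h4 (Or.inr h5)⟩)
      · intro _
        rfl
  · intro x
    obtain ⟨r, hr⟩ := (hRP (E.symm x).1 (E.symm x).2).2
    refine ⟨r, (hRP (E.symm x).1 (E.symm x).2).1 hr, ?_⟩
    rw [hc _ (E.symm x).2 r hr, Subtype.coe_eta, Equiv.apply_symm_apply]
  · intro r hr x hx
    have hrP := hcs r x hx
    obtain ⟨i, hi⟩ := C.w9_i b hr
    obtain ⟨-, ε, c', hε, -, hε1, -, hcnt⟩ := C.w9_HT b ha hroot i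
    have hf := hRP2 (E.symm x).1 (E.symm x).2 r hrP i ε hi hε
    rw [← hcard, ← C.hdg b i r hr hi, hcnt]
    have h1 := nz_dvd hsep (hSp _ (E.symm x).2) hf
    rwa [Fintype.card_fin] at h1
  · intro x
    obtain ⟨i, ε, hε, hf, k, k', hkk⟩ := C.onto b ha hroot (hFF _ (E.symm x).2).1
      (hFF _ (E.symm x).2).2.2 (hFF _ (E.symm x).2).2.1
    exact nz_two hf hkk
  · intro s hlink
    obtain ⟨π₀, hs1, hs2, hs3⟩ := hmove s hlink
    -- a permutation which acts trivially or as an inversion fixes all blocks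
    have htriv : ∀ P : Module.End ℚ (YS a), (∀ k, π₀ k = k) ∨
        (∀ k, a k * a (π₀ k) = algebraMap ℚ Ω q) → MvP π₀ P P := by
      intro P h
      rcases h with h | h
      · exact ⟨fun k k' => by rw [h, h], fun k k' => by rw [h, h]⟩
      · have hbb : ∀ k, π₀ (π₀ k) = k := by
          intro k
          apply ha
          have h1 := h k
          have h3 := h (π₀ k)
          rw [← h1, mul_comm (a k)] at h3
          exact mul_left_cancel₀ (ha0 _) h3
        have hneg : ∀ (f : YS a) (k : Fin n), (f : Fin n → ℚ) (π₀ k) = -(f : Fin n → ℚ) k :=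
          fun f k => YS_bar ha0 h f.2 k
        have hczb : ∀ (P : Module.End ℚ (YS a)) (k k' : Fin n), cz P k k' → cz P (π₀ k) (π₀ k') := by
          intro P k k' h f
          rw [hneg, hneg, h f]
        refine ⟨fun k k' => ⟨hczb P k k', fun h => ?_⟩, fun k k' => ⟨hczb (1 - P) k k', fun h => ?_⟩⟩
        · have h1 := hczb P _ _ h
          rwa [hbb, hbb] at h1
        · have h1 := hczb (1 - P) _ _ h
          rwa [hbb, hbb] at h1
    obtain ⟨g, hg⟩ : ∃ g : Module.End ℚ (YS a) → Module.End ℚ (YS a), ∀ P ∈ FF, g P ∈ FF ∧ MvP π₀ P (g P) ∧ ∀ r ∈ RP P, s r ∈ RP (g P) := by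
      refine ⟨fun P => if h : P ∈ FF then (hs3 P h).choose else P, fun P hP => ?_⟩
      simp only [dif_pos hP]
      exact (hs3 P hP).choose_spec
    have hinj : ∀ P ∈ FF, ∀ P' ∈ FF, g P = g P' → P = P' := by
      intro P hP P' hP' h
      have h3 := (hg P hP).2.1
      have h4 := (hg P' hP').2.1
      rw [← h] at h4
      exact g10_ext h0 (hSp P hP) (hSp P' hP') (fun k k' => (h3.1 k k').trans (h4.1 k k').symm)
        fun k k' => (h3.2 k k').trans (h4.2 k k').symm
    let G' : {P // P ∈ FF} → {P // P ∈ FF} := fun P => ⟨g P.1, (hg P.1 P.2).1⟩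
    have hG'inj : Function.Injective G' := fun P P' h => Subtype.ext (hinj P.1 P.2 P'.1 P'.2 (congrArg Subtype.val h))
    obtain ⟨g', hg'⟩ : ∃ g' : Equiv.Perm {P // P ∈ FF}, ∀ P, (g' P).1 = g P.1 :=
      ⟨Equiv.ofBijective G' (Finite.injective_iff_bijective.1 hG'inj), fun _ => rfl⟩
    have hg'pow : ∀ (k : ℕ) (P : {P // P ∈ FF}), ((g' ^ k) P).1 = g^[k] P.1 := by
      intro k
      induction k with
      | zero => intro P; rfl
      | succ k ih =>
        intro P
        rw [Function.iterate_succ_apply', pow_succ', Equiv.Perm.mul_apply, hg', ih]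
    obtain ⟨π, hπ⟩ : ∃ π : Equiv.Perm (Fin FF.card), ∀ x, π x = E (g' (E.symm x)) :=
      ⟨(E.symm.trans g').trans E, fun _ => rfl⟩
    have hπpow : ∀ (k : ℕ) (x : Fin FF.card), (π ^ k) x = E ((g' ^ k) (E.symm x)) := by
      intro k
      induction k with
      | zero => intro x; exact (E.apply_symm_apply x).symm
      | succ k ih =>
        intro x
        rw [pow_succ', Equiv.Perm.mul_apply, ih, hπ, Equiv.symm_apply_apply, pow_succ', Equiv.Perm.mul_apply]
    refine ⟨π, ?_, ?_, ?_, ?_, ?_⟩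
    · intro r hr
      by_cases hex : ∃ P ∈ FF, r ∈ RP P
      · obtain ⟨P, hP, hrP⟩ := hex
        rw [hc P hP r hrP, Option.map_some, hπ, Equiv.symm_apply_apply,
          hc (g P) (hg P hP).1 (s r) ((hg P hP).2.2 r hrP)]
        congr 2
        exact Subtype.ext (hg' ⟨P, hP⟩).symm
      · rw [hcn r hex, Option.map_none]
        refine hcn _ fun h3 => hex ?_
        -- `s` permutes the finite set of the elements which belong to a block
        let T : Finset Ω := R.filter fun r => ∃ P ∈ FF, r ∈ RP P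
        have hT : T.image s ⊆ T := by
          intro y hy
          obtain ⟨x, hx, rfl⟩ := Finset.mem_image.1 hy
          obtain ⟨hxR, P, hP, hxP⟩ := Finset.mem_filter.1 hx
          exact Finset.mem_filter.2 ⟨C.Rstab s x hxR, g P, (hg P hP).1, (hg P hP).2.2 x hxP⟩
        have hT' : T.image s = T := Finset.eq_of_subset_of_card_le hT
          (by rw [Finset.card_image_of_injective _ s.injective])
        have h4 : s r ∈ T.image s := by
          rw [hT']
          exact Finset.mem_filter.2 ⟨C.Rstab s r hr, h3⟩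
        obtain ⟨x, hx, hxr⟩ := Finset.mem_image.1 h4
        rw [← s.injective hxr]
        exact (Finset.mem_filter.1 hx).2
    · intro x
      show nz (E.symm (π x)).1 = nz (E.symm x).1
      rw [hπ, Equiv.symm_apply_apply, hg']
      exact (nz_mv (hg _ (E.symm x).2).2.1).symm
    · intro hy
      have h3 : (∀ k, π₀ k = k) ∨ (∀ k, a k * a (π₀ k) = algebraMap ℚ Ω q) := by
        rcases hs1 with ⟨hs1, -⟩ | ⟨-, hs1, -⟩
        · right
          intro k
          rw [← hs1, mul_comm]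
          exact hy (a k) ((hroot _).2 ⟨k, rfl⟩)
        · left
          intro k
          apply ha
          have h4 := hy (a k) ((hroot _).2 ⟨k, rfl⟩)
          rw [← hs1 k] at h4
          have h5 : s (a k) ≠ 0 := fun h0 => ha0 k (by rwa [_root_.map_eq_zero] at h0)
          exact (mul_left_cancel₀ h5 h4).symm
      have h5 : ∀ P ∈ FF, g P = P := by
        intro P hP
        have h6 := (hg P hP).2.1
        have h7 := htriv P h3
        refine g10_ext h0 (hSp _ (hg P hP).1) (hSp P hP) (fun k k' => ?_) fun k k' => ?_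
        · have h8 := h6.1 (π₀.symm k) (π₀.symm k')
          have h9 := h7.1 (π₀.symm k) (π₀.symm k')
          rw [Equiv.apply_symm_apply, Equiv.apply_symm_apply] at h8 h9
          exact h8.symm.trans h9
        · have h8 := h6.2 (π₀.symm k) (π₀.symm k')
          have h9 := h7.2 (π₀.symm k) (π₀.symm k')
          rw [Equiv.apply_symm_apply, Equiv.apply_symm_apply] at h8 h9
          exact h8.symm.trans h9
      ext x
      rw [hπ, Equiv.Perm.one_apply]
      have h6 : g' (E.symm x) = E.symm x := Subtype.ext ((hg' _).trans (h5 _ (E.symm x).2))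
      rw [h6, Equiv.apply_symm_apply]
    · intro hb
      have hbar : bar b = b := (C.hspl.self b).2 (by rw [hb]; decide)
      rcases hs1 with ⟨hs1, hlink'⟩ | ⟨hb', -⟩
      · obtain ⟨u, hu, P, hP, hgu⟩ := C.odd b hb ha hroot hn hFF horth hsum hlink' hs1 g
          fun P hP => ⟨(hg P hP).1, (hg P hP).2.1⟩
        refine ⟨u, E ⟨P, hP⟩, hu, ?_⟩
        rw [hπpow, Equiv.symm_apply_apply]
        congr 1
        exact Subtype.ext ((hg'pow u ⟨P, hP⟩).trans hgu)
      · exact absurd hbar hb'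
    · intro hb
      obtain ⟨P, hP, hgP⟩ := C.fixb b hb ha hroot hn hFF horth hsum hs1 hs2 g
        fun P hP => ⟨(hg P hP).1, (hg P hP).2.1⟩
      refine ⟨E ⟨P, hP⟩, ?_⟩
      rw [hπ, Equiv.symm_apply_apply]
      congr 1
      exact Subtype.ext ((hg' ⟨P, hP⟩).trans hgP)
  · have h7 := prod_nz h0 hsep hSp horth hsum
    rw [Fintype.card_fin] at h7
    refine h7.trans ?_
    rw [← Finset.prod_coe_sort]
    exact Fintype.prod_equiv E _ _ fun P => by rw [Equiv.symm_apply_apply]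

/-- The decomposition of the set `R` given by a family of good blocks. -/
theorem Core5.partd (b : Fin m) {n : ℕ} {a : Fin n → Ω} (ha : Function.Injective a)
    (hroot : ∀ y : Ω, (F b).eval₂ j y = 0 ↔ ∃ k, y = a k) (hn : 0 < n)
    {FF : Finset (Module.End ℚ (YS a))} (hFF : ∀ P ∈ FF, Sp P ∧ P ≠ 0 ∧ GoodU (cl b) P)
    (horth : ∀ P ∈ FF, ∀ P' ∈ FF, P ≠ P' → P * P' = 0) (hsum : ∑ P ∈ FF, P = 1)
    (hperm : ∀ π : Equiv.Perm (Fin n), (∀ g ∈ YS a, g ∘ π ∈ YS a) → ∀ P ∈ FF,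
      ∃ P' ∈ FF, MvP π P P') (_h2 : 0 < FF.card) :
    ∃ (c : Ω → Option (Fin FF.card)) (A : Fin FF.card → ℕ),
      PartU D j (cl b = .s) (ub b) (e b) (e (bar b)) (F b) q R (hd b) c A ∧
      n = ∏ x, A x := by
  obtain ⟨c, h1, h2⟩ := C.partd2 b ha hroot hn hFF horth hsum hperm FF.equivFin
  exact ⟨c, _, h1, h2⟩

end Pool.Agent.H45U
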