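import Pool.Agent.Lib.H76Z.G10
import Pool.Agent.Lib.H45U.W11a
import Pool.Agent.Lib.H76Q.BL3
import Pool.Agent.Lib.H25Y.FullO
import Pool.Agent.Lib.H76Y.G10
import Pool.Agent.Lib.H45U.BL2
import Pool.Agent.Lib.H45U.Big1
import Pool.Agent.Lib.H45U.U2
import Pool.Agent.Lib.H25U.FullV
import Pool.Agent.Lib.H25U.FullD
import Pool.Agent.Lib.H45U.U3

/-!
# the Lie algebra of a component
-/

set_option autoImplicit false
set_option linter.unusedSectionVars false
namespace Pool.Agent.H45U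
open Pool.Agent.H76Y Pool.Agent.H76Z
open Pool.Agent.H76P Pool.Agent.H76V Pool.Agent.H76Q
open Module Matrix Polynomial Pool.Agent.H53Toric
open Pool.Agent.H76P
open Pool.Agent.H76T (IsIdeal Fam Lc)
open Pool.Agent.H76U (cmp preL IsSplitting)
open Pool.Agent.H76RM (spanK similD)

/-- In dimension two the configuration consists of all functions with sum zero. -/
theorem ys_two {n : ℕ} (h2 : n ≤ 2) {Y : Submodule ℚ (Fin n → ℚ)} (hs : ∀ g ∈ Y, ∑ k, g k = 0)
    (hsep : ∀ k l, k ≠ l → ∃ g ∈ Y, g k ≠ g l) {f : Fin n → ℚ} (hf : ∑ k, f k = 0) : f ∈ Y := by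
  interval_cases n
  · have : f = 0 := Subsingleton.elim _ _
    rw [this]
    exact Y.zero_mem
  · have : f = 0 := by
      ext k
      rw [Fin.sum_univ_one] at hf
      rw [Subsingleton.elim k 0, hf, Pi.zero_apply]
    rw [this]
    exact Y.zero_mem
  · obtain ⟨g, hg, hne⟩ := hsep 0 1 (by decide)
    have h1 := hs g hg
    rw [Fin.sum_univ_two] at h1 hf
    have h3 : g 0 ≠ 0 := by
      intro h0
      rw [h0, zero_add] at h1
      exact hne (by rw [h0, h1])
    have h4 : f = (f 0 / g 0) • g := by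
      ext k
      fin_cases k
      · show f 0 = f 0 / g 0 * g 0
        rw [div_mul_cancel₀ _ h3]
      · show f 1 = f 0 / g 0 * g 1
        have h5 : g 1 = -g 0 := by linarith
        have h6 : f 1 = -f 0 := by linarith
        rw [h5, h6]
        field_simp
    rw [h4]
    exact Y.smul_mem _ hg

variable {ι : Type*} [Fintype ι] [DecidableEq ι] {ψ : Matrix ι ι ℚ}
    {D : Subalgebra ℚ (Matrix ι ι ℚ)} {M : Type*} [Field M] [NumberField M]
    {m : ℕ} {cl : Fin m → Cl} {bar : Fin m → Fin m} {e : Fin m → Matrix ι ι M} {u₀ : Matrix ι ι M} {G : Type*} [Group G]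
    {ρ : ∀ (l : ℕ) [Fact l.Prime], G →* Matrix.GeneralLinearGroup ι ℚ_[l]}
    {p : ℕ} [Fact p.Prime] {σ : G} {q : ℚ} {F : Fin m → M[X]}
    {φ μ ν : Matrix ι ι (AlgebraicClosure ℚ_[p])} {v : AlgebraicClosure ℚ_[p] → ℚ}
    {Δ : Set (AlgebraicClosure ℚ_[p] ≃+* AlgebraicClosure ℚ_[p])}
    {Ω : Type*} [Field Ω] [CharZero Ω] [IsAlgClosed Ω] [Algebra.IsAlgebraic ℚ Ω] {j : M →+* Ω}
    {R : Finset Ω} {N : Set ℕ} {hd : Fin m → Ω → ℕ} {ub : Fin m → Prop}
    (C : Core5 ψ D cl bar e u₀ ρ p σ q F φ μ ν v Δ j R N hd ub)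

include C


/-- The rank of the idempotent is even if the component respects a form. -/
theorem Core5.rank_even (b : Fin m) (hb : cl b ≠ .n) : Even (e b).rank := by
  obtain ⟨i⟩ := w9_exists_i p Ω
  rw [← C.bal p μ C.crys.mu (i.comp j) b hb]
  exact even_two_mul _

theorem Core5.rank_pos (b : Fin m) : 0 < (e b).rank := by
  obtain ⟨a, ha, hroot⟩ := C.enum b
  obtain ⟨i⟩ := w9_exists_i p Ω
  obtain ⟨H₀, U, V, -, hloc, -⟩ := C.locp b ha hroot i
  exact hloc.pos

/-- The component without a form is full at `p`. -/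
theorem Core5.full_p (b : Fin m) (hb : cl b = .n) (h1 : 1 < (e b).rank)
    (twon : (∀ r ∈ R, hd b r = 0 ∨ hd b r = (e b).rank ∨ 2 * hd b r = (e b).rank) → ∀ k : ℕ, 4 ≤ k → Even k →
      (e b).rank ≠ 2 ^ k)
    (bin : (∃ r ∈ R, hd b r ≠ 0 ∧ hd b r ≠ (e b).rank ∧ 2 * hd b r ≠ (e b).rank) →
      ∀ N k : ℕ, 2 ≤ k → k + 2 ≤ N → (e b).rank = N.choose k →
        ∃ r ∈ R, hd b r ≠ 0 ∧ hd b r ≠ (e b).rank ∧ hd b r ≠ (N - 1).choose k ∧
          hd b r ≠ (N - 1).choose (k - 1))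
    {a : Fin (e b).rank → Ω} (ha : Function.Injective a)
    (hroot : ∀ y : Ω, (F b).eval₂ j y = 0 ↔ ∃ k, y = a k)
    (hB : IsBlock (1 : Module.End ℚ (YS a))) {f : Fin (e b).rank → ℚ} (hf : ∑ k, f k = 0) :
    f ∈ YS a := by
  obtain ⟨i⟩ := w9_exists_i p Ω
  have ha0 := C.ne b hroot
  have hsep : ∀ k l, k ≠ l → ∃ g ∈ YS a, g k ≠ g l :=
    YS_sep ha0 fun k l n hn h => ha (C.tor b ((hroot _).2 ⟨k, rfl⟩) ((hroot _).2 ⟨l, rfl⟩) hn h)
  rcases Nat.lt_or_ge 2 (e b).rank with h2 | h2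
  swap
  · exact ys_two (Y := YS a) h2 (fun g hg => hg.1) hsep hf
  obtain ⟨H₀, U, V, -, hloc, hcls⟩ := C.locp b ha hroot i
  have : Nonempty (Fin (e b).rank) := ⟨⟨0, hloc.pos⟩⟩
  have hns := hcls.2.2 hb (by rw [Fintype.card_fin]; exact h2)
  rw [← hloc.yo]
  refine H25U.Yo_of_full hloc.ts ?_ hf
  by_cases h4 : ∃ r ∈ R, hd b r ≠ 0 ∧ hd b r ≠ (e b).rank ∧ 2 * hd b r ≠ (e b).rank
  · obtain ⟨r, hr, h5, h6, h7⟩ := h4
    obtain ⟨ε, c, hε, hc, hcard⟩ := C.ht_at b ha hroot hr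
    rcases H25U.rigid_of_oneU hloc.ts hns hloc.yo hB hε (by rw [w9_const hε, hcard]; exact ⟨h5, h6⟩)
      hc (by rw [hcard, Fintype.card_fin]; exact h7) with h9 | ⟨N, k, hk, hkN, h9, h10⟩
    · exact h9
    · exfalso
      rw [Fintype.card_fin] at h9
      obtain ⟨r', hr', g1, g2, g3, g4⟩ := bin ⟨r, hr, h5, h6, h7⟩ N k hk hkN h9
      obtain ⟨ε', c', hε', hc', hcard'⟩ := C.ht_at b ha hroot hr'
      rcases h10 ε' hε' (by rw [w9_const hε', hcard']; exact ⟨g1, g2⟩) c' hc' with h11 | h11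
      · exact g3 (hcard'.symm.trans h11)
      · exact g4 (hcard'.symm.trans h11)
  · have h5 : ∀ r ∈ R, hd b r = 0 ∨ hd b r = (e b).rank ∨ 2 * hd b r = (e b).rank := by
      intro r hr
      by_contra h6
      push Not at h6
      exact h4 ⟨r, hr, h6⟩
    -- an element of `R` at which the multiplicity is not extreme
    have hn0 : (1 : Module.End ℚ (YS a)) ≠ 0 := by
      intro h0
      obtain ⟨g, hg, hne⟩ := hsep ⟨0, by omega⟩ ⟨1, by omega⟩ (by
        intro h; exact absurd (congrArg Fin.val h) (by simp))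
      have h6 : (⟨g, hg⟩ : YS a) = 0 := by
        have h7 := LinearMap.congr_fun h0 ⟨g, hg⟩
        exact h7
      have h7 : g = 0 := congrArg Subtype.val h6
      exact hne (by rw [h7]; rfl)
    have hgood : GoodU (cl b) (1 : Module.End ℚ (YS a)) :=
      block_good hloc.pos (cl b) (fun h => by rw [hb] at h; cases h) hB
    obtain ⟨i', ε', hε', -, k₁, k₂, hkk⟩ := C.onto b ha hroot (P := 1) ⟨mul_one 1, fun x y => ⟨y, fun f => by
      rw [Module.End.one_apply]; ring⟩⟩ hgood hn0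
    obtain ⟨r, hr, hv, -⟩ := C.Rval i'
    obtain ⟨H₁, U₁, V₁, -, hL₁, -⟩ := C.locp0 b ha hroot i'
    obtain ⟨-, g1, c₁, g2, -⟩ := HT_spec hL₁ C.crys.mu C.crys.muphi hε'
    have g3 := HT_rank hL₁ C.crys.mu C.crys.muphi hε'
    rw [C.hdg b i' r hr hv] at g3
    have g4 := (w9_const g1).1 ⟨k₁, k₂, hkk⟩
    rw [← g3] at g4
    have h3 : 2 * hd b r = (e b).rank := by
      rcases h5 r hr with h6 | h6 | h6
      · exact absurd h6 g4.1
      · exact absurd h6 g4.2
      · exact h6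
    refine H25U.full_of_oneU hloc.ts hns hloc.yo hB g1 ⟨k₁, k₂, hkk⟩ g2 (fun _ k hk hk2 => ?_) (fun h => ?_)
    · rw [Fintype.card_fin]
      exact twon h5 k hk hk2
    · rw [Fintype.card_fin, ← g3] at h
      exact absurd h3 h

/-- The component theorem: if the decompositions of the set of embeddings are excluded, the Lie algebra
of the component is the whole symplectic, orthogonal or special linear algebra. -/
theorem Core5.comp (part : ∀ b (k : ℕ) (c : Ω → Option (Fin k)) (A : Fin k → ℕ), 2 ≤ k →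
      PartU D j (cl b = .s) (ub b) (e b) (e (bar b)) (F b) q R (hd b) c A → Big (cl b) (e b).rank A →
      (e b).rank ≠ ∏ x, A x)
    (two : ∀ b (k : ℕ), 3 ≤ k → (cl b = .s → 4 ≤ k) → cl b ≠ .n → (e b).rank ≠ 2 ^ k)
    (binom : ∀ b (k : ℕ), (cl b = .s → 3 ≤ k ∧ Odd k) → (cl b = .o → 4 ≤ k ∧ Even k) →
      cl b ≠ .n → (e b).rank ≠ k.centralBinom)
    (twon : ∀ b, cl b = .n → (∀ r ∈ R, hd b r = 0 ∨ hd b r = (e b).rank ∨ 2 * hd b r = (e b).rank) →
      ∀ k : ℕ, 4 ≤ k → Even k → (e b).rank ≠ 2 ^ k)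
    (bin : ∀ b, cl b = .n → (∃ r ∈ R, hd b r ≠ 0 ∧ hd b r ≠ (e b).rank ∧ 2 * hd b r ≠ (e b).rank) →
      ∀ N k : ℕ, 2 ≤ k → k + 2 ≤ N → (e b).rank = N.choose k →
        ∃ r ∈ R, hd b r ≠ 0 ∧ hd b r ≠ (e b).rank ∧ hd b r ≠ (N - 1).choose k ∧
          hd b r ≠ (N - 1).choose (k - 1)) (b : Fin m) :
    ∃ a : Fin (e b).rank → Ω, Function.Injective a ∧
      (∀ y : Ω, (F b).eval₂ j y = 0 ↔ ∃ k, y = a k) ∧
      ∀ (K : Type) [Field K] [CharZero K] [IsAlgClosed K]
        (L : Submodule K (Module.End K (Fin (e b).rank → K))), TM L → Yo L = YS a →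
        (cl b = .s → ∀ J : Matrix (Fin (e b).rank) (Fin (e b).rank) K, Jᵀ = -J → IsUnit J.det →
          (∀ X ∈ L, adjE J X = -X) → ∀ X, adjE J X = -X → X ∈ L) ∧
        (cl b = .o → ∀ J : Matrix (Fin (e b).rank) (Fin (e b).rank) K, Jᵀ = J → IsUnit J.det →
          (∀ X ∈ L, adjE J X = -X) → ∀ X, adjE J X = -X → X ∈ L) ∧
        (cl b = .n → ∀ X : Module.End K (Fin (e b).rank → K),
          LinearMap.trace K (Fin (e b).rank → K) X = 0 → X ∈ L) := by
  obtain ⟨a, ha, hroot⟩ := C.enum b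
  have hn := C.rank_pos b
  have ha0 := C.ne b hroot
  have hsep : ∀ k l, k ≠ l → ∃ g ∈ YS a, g k ≠ g l :=
    YS_sep ha0 fun k l n hn h => ha (C.tor b ((hroot _).2 ⟨k, rfl⟩) ((hroot _).2 ⟨l, rfl⟩) hn h)
  have hs : ∀ g ∈ YS a, ∑ k, g k = 0 := fun g hg => hg.1
  obtain ⟨FF, hFF, horth, hsum, hperm, hone, hblock⟩ := exists_blocksU2 hn hs (cl b) fun h8 h9 =>
    two b 3 le_rfl (fun h => by rw [h8] at h; cases h) (by rw [h8]; decide)
      (by rw [h9]; norm_num)
  have : Nonempty (Fin (e b).rank) := ⟨⟨0, hn⟩⟩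
  have hF2 : FF.card ≤ 1 := by
    by_contra h5
    obtain ⟨c, h7, h8⟩ := C.partd2 b ha hroot hn hFF horth hsum hperm FF.equivFin
    exact part b FF.card c _ (by omega) h7 (C.big_of b ha hroot hblock hFF (by omega) FF.equivFin) h8
  have hF0 : FF.card = 0 → (e b).rank = 1 := by
    intro h6
    have h7 := prod_nz hs hsep (fun P hP => (hFF P hP).1) horth hsum
    rw [Finset.card_eq_zero.1 h6, Finset.prod_empty, Fintype.card_fin] at h7
    exact h7
  have hB : cl b ≠ .n ∨ 1 < (e b).rank → IsBlock (1 : Module.End ℚ (YS a)) := by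
    intro h
    refine hone ?_
    by_contra h6
    have h7 : (e b).rank = 1 := hF0 (by omega)
    rcases h with h | h
    · have h8 := C.rank_even b h
      rw [h7] at h8
      exact absurd h8 (by decide)
    · omega
  refine ⟨a, ha, hroot, fun K _ _ _ L hT hY => ⟨fun hb J hJ hJd hsk X hX => ?_,
    fun hb J hJ hJd hsk X hX => ?_, fun hb X hX => ?_⟩⟩
  · have hsy : SyL L := ⟨J, hJ, hJd, hsk⟩
    have hT' := (tm_iff (Or.inl hsy)).1 hT
    have hY' : H76P.Yo L = YS a := (Yo_eq (Or.inl hsy)).symm.trans hY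
    have hTS : TS L J := ⟨⟨hT'.cmp.lie, hT'.cmp.irr, hJ, hJd, hsk, hT'.cmp.gen⟩, hT'.diag, hT'.sep⟩
    refine full_of_one hTS hY' (hB (Or.inl (by rw [hb]; decide))) (fun k hk => ?_)
      (fun k hk hk2 => ?_) hX
    · rw [Fintype.card_fin]
      exact two b k (by omega) (fun _ => hk) (by rw [hb]; decide)
    · rw [Fintype.card_fin]
      exact binom b k (fun _ => ⟨hk, hk2⟩) (fun h => by rw [hb] at h; cases h)
        (by rw [hb]; decide)
  · have hor : OrL L := ⟨J, hJ, hJd, hsk⟩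
    have hT' := (tm_iff (Or.inr hor)).1 hT
    have hY' : H76P.Yo L = YS a := (Yo_eq (Or.inr hor)).symm.trans hY
    refine full_of_oneO hT' hJ hJd hsk hY' (hB (Or.inl (by rw [hb]; decide))) (fun k hk => ?_)
      (fun k hk hk2 => ?_) hX
    · rw [Fintype.card_fin]
      exact two b k hk (fun h => by rw [hb] at h; cases h) (by rw [hb]; decide)
    · rw [Fintype.card_fin]
      exact binom b k (fun h => by rw [hb] at h; cases h) (fun _ => ⟨hk, hk2⟩)
        (by rw [hb]; decide)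
  · by_cases h1 : (e b).rank = 1
    · have h2 : X = 0 := by
        have h3 : Subsingleton (Fin (e b).rank) := by rw [h1]; infer_instance
        obtain ⟨k⟩ := ‹Nonempty (Fin (e b).rank)›
        have h4 : LinearMap.trace K (Fin (e b).rank → K) X = LinearMap.toMatrix' X k k := by
          rw [LinearMap.trace_eq_matrix_trace K (Pi.basisFun K _), LinearMap.toMatrix_eq_toMatrix',
            Matrix.trace, Fintype.sum_subsingleton _ k]
          rfl
        rw [h4] at hX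
        apply LinearMap.toMatrix'.injective
        rw [map_zero]
        ext x y
        rw [Subsingleton.elim x k, Subsingleton.elim y k, hX]
        rfl
      rw [h2]
      exact Submodule.zero_mem _
    · have h2 : 1 < (e b).rank := by omega
      exact H25U.full_of_Yo hT (fun f hf => by
        rw [hY]
        exact C.full_p b hb h2 (twon b hb) (bin b hb) ha hroot (hB (Or.inr h2)) hf) X hX

end Pool.Agent.H45U
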