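import Pool.Agent.Lib.CHEB.C3
import Pool.Agent.Lib.H45K.K10a

/-!
# Dens: there are many principal places of degree one in a ray
-/

set_option autoImplicit false
set_option linter.unusedSectionVars false
namespace Pool.Agent.H45U
open NumberField IsDedekindDomain Filter Topology CFT

variable {F : Type} [Field F] [NumberField F]

/-- The set `Z` of finite places has natural density zero: the number of places of norm at most `x`
in `Z` divided by the number of places of norm at most `x` tends to zero. -/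
def DensZero (Z : Set (Pr F)) : Prop :=
  Tendsto (fun x : ℕ => (Set.ncard {w : Pr F | w ∈ Z ∧ Ideal.absNorm w.asIdeal ≤ x} : ℝ) /
    (Set.ncard {w : Pr F | Ideal.absNorm w.asIdeal ≤ x} : ℝ)) atTop (𝓝 0)

theorem DensZero.pi {Z : Set (Pr F)} (h : DensZero Z) :
    Tendsto (fun x : ℕ => (Set.ncard {w : Pr F | Nm w ≤ x ∧ w ∈ Z} : ℝ) / (Nat.primeCounting x : ℝ)) atTop (𝓝 0) := by
  have h1 := CFTL.nat_dens (K := F) (fun S N => pray_fin F S N) ∅ 0 ⊤ le_top 0
  rw [AddSubgroup.index_top, Nat.cast_one, div_one] at h1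
  have h2 := h.mul h1
  rw [mul_one] at h2
  refine h2.congr fun x => ?_
  have e1 : {v : Pr F | Nm v ≤ x ∧ v ∉ (∅ : Finset (Pr F)) ∧ Finsupp.single v (1 : ℤ) - 0 ∈ (⊤ : AddSubgroup (Dv F))} =
      {w : Pr F | Ideal.absNorm w.asIdeal ≤ x} := by
    ext v
    constructor
    · exact fun h => h.1
    · exact fun h => ⟨h, Finset.notMem_empty v, AddSubgroup.mem_top _⟩
  have e2 : {w : Pr F | w ∈ Z ∧ Ideal.absNorm w.asIdeal ≤ x} = {w : Pr F | Nm w ≤ x ∧ w ∈ Z} := by
    ext v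
    exact and_comm
  rw [e1, e2]
  by_cases h0 : (Set.ncard {w : Pr F | Ideal.absNorm w.asIdeal ≤ x} : ℝ) = 0
  · have h3 : (Set.ncard {w : Pr F | Nm w ≤ x ∧ w ∈ Z} : ℝ) = 0 := by
      have h4 : Set.ncard {w : Pr F | Nm w ≤ x ∧ w ∈ Z} ≤ Set.ncard {w : Pr F | Ideal.absNorm w.asIdeal ≤ x} :=
        Set.ncard_le_ncard (fun w hw => hw.1) (CFTC.nm_fin x)
      have h5 : Set.ncard {w : Pr F | Ideal.absNorm w.asIdeal ≤ x} = 0 := by exact_mod_cast h0
      exact_mod_cast Nat.le_zero.1 (h5 ▸ h4)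
    rw [h3, zero_div, zero_div, zero_mul]
  · rw [div_mul_div_comm, mul_comm (Set.ncard {w : Pr F | Ideal.absNorm w.asIdeal ≤ x} : ℝ), mul_div_mul_right _ _ h0]

/-- An element whose divisor is the place `w` generates `w`. -/
theorem gen_of_od {w : Pr F} {x : F} (hx0 : x ≠ 0) (hx : ∀ v, od v x = Finsupp.single w (1 : ℤ) v) :
    ∃ π : 𝓞 F, (π : F) = x ∧ w.asIdeal = Ideal.span {π} := by
  classical
  have hval : ∀ v : Pr F, v.valuation F x ≤ 1 := by
    intro v
    rw [val_eq v hx0, hx v]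
    by_cases h : v = w
    · rw [h, Finsupp.single_eq_same, ← WithZero.exp_zero, WithZero.exp_le_exp]
      norm_num
    · rw [Finsupp.single_eq_of_ne h, neg_zero, WithZero.exp_zero]
  obtain ⟨π, hπ⟩ := HeightOneSpectrum.mem_integers_of_valuation_le_one F x hval
  have hπ0 : π ≠ 0 := by
    rintro rfl
    rw [map_zero] at hπ
    exact hx0 hπ.symm
  have hmem : ∀ (v : Pr F) (k : ℕ), π ∈ v.asIdeal ^ k ↔ (k : ℤ) ≤ Finsupp.single w (1 : ℤ) v := by
    intro v k
    have hπ' : (π : F) = x := hπ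
    have e1 : v.intValuation π = v.valuation F (π : F) := (HeightOneSpectrum.valuation_of_algebraMap v π).symm
    rw [← HeightOneSpectrum.intValuation_le_pow_iff_mem, e1, hπ', val_eq v hx0, WithZero.exp_le_exp, hx v]
    constructor <;> intro h <;> linarith
  refine ⟨π, hπ, ?_⟩
  have h1 : π ∈ w.asIdeal := by
    have h2 := (hmem w 1).2 (by rw [Finsupp.single_eq_same]; norm_num)
    rwa [pow_one] at h2
  obtain ⟨I, hI⟩ : w.asIdeal ∣ Ideal.span {π} := by
    rw [Ideal.dvd_span_singleton]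
    exact h1
  have hItop : I = ⊤ := by
    by_contra hne
    obtain ⟨P, hP, hIP⟩ := Ideal.exists_le_maximal I hne
    have hI0 : I ≠ ⊥ := by
      rintro rfl
      rw [Ideal.mul_bot, Ideal.span_singleton_eq_bot] at hI
      exact hπ0 hI
    have hP0 : P ≠ ⊥ := fun h => hI0 (le_bot_iff.1 (h ▸ hIP))
    obtain ⟨u, hu⟩ : ∃ u : Pr F, u.asIdeal = P := ⟨⟨P, hP.isPrime, hP0⟩, rfl⟩
    have h3 : π ∈ w.asIdeal * u.asIdeal := by
      have h4 : Ideal.span {π} ≤ w.asIdeal * u.asIdeal := by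
        rw [hI, hu]
        exact Ideal.mul_mono_right hIP
      exact h4 (Ideal.mem_span_singleton_self π)
    by_cases huw : u = w
    · rw [huw, ← pow_two] at h3
      have h4 := (hmem w 2).1 h3
      rw [Finsupp.single_eq_same] at h4
      norm_num at h4
    · have h4 : π ∈ u.asIdeal ^ 1 := by
        rw [pow_one]
        exact Ideal.mul_le_right h3
      have h5 := (hmem u 1).1 h4
      rw [Finsupp.single_eq_of_ne huw] at h5
      norm_num at h5
  rw [hItop, Ideal.mul_top] at hI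
  exact hI.symm

/-- An ideal contains the elements which are small at all its prime divisors. -/
theorem mem_of_val {J : Ideal (𝓞 F)} (hJ : J ≠ ⊥) (T : Finset (Pr F)) (hT : ∀ v : Pr F, v ∈ T ↔ v.asIdeal ∣ J) :
    ∃ k : ℕ, ∀ x : 𝓞 F, (∀ v ∈ T, x ∈ v.asIdeal ^ k) → x ∈ J := by
  classical
  obtain ⟨k, hk⟩ := Ideal.exists_radical_pow_le_of_fg J (IsNoetherian.noetherian _)
  refine ⟨k, fun x hx => hk ?_⟩
  have h1 : ∏ v ∈ T, v.asIdeal ≤ J.radical := by
    rw [Ideal.radical_eq_sInf]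
    refine le_sInf fun Q hQ => ?_
    obtain ⟨hJQ, hQp⟩ := hQ
    have hQ0 : Q ≠ ⊥ := fun h => hJ (le_bot_iff.1 (h ▸ hJQ))
    obtain ⟨u, hu⟩ : ∃ u : Pr F, u.asIdeal = Q := ⟨⟨Q, hQp, hQ0⟩, rfl⟩
    have hu' : u ∈ T := (hT u).2 (by rw [hu]; exact Ideal.dvd_iff_le.2 hJQ)
    rw [← hu]
    exact Ideal.prod_le_inf.trans (Finset.inf_le hu')
  refine Ideal.pow_right_mono h1 k ?_
  rw [← Finset.prod_pow, ← IsDedekindDomain.inf_pow_eq_prod_of_prime T (fun v => v.asIdeal) (fun _ => k)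
    (fun v _ => v.prime) (fun v _ v' _ h h' => h (HeightOneSpectrum.ext h'))]
  rw [Submodule.mem_finsetInf]
  exact hx

/-- **Many principal places of degree one.** Outside a set of natural density zero there is a place of degree one
prime to `n` with a totally positive generator congruent to one. -/
theorem exists_place (S : Finset (Pr F)) {n : ℕ} (hn : n ≠ 0) {Z : Set (Pr F)} (hZ : DensZero Z) :
    ∃ (w : Pr F) (π : 𝓞 F), w ∉ S ∧ w ∉ Z ∧ (Ideal.absNorm w.asIdeal).Prime ∧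
      ¬ Ideal.absNorm w.asIdeal ∣ n ∧ w.asIdeal = Ideal.span {π} ∧ (∀ τ : F →+* ℝ, 0 < τ π) ∧
      ∀ v ∈ S, π - 1 ∈ Ideal.span {(n : 𝓞 F) ^ 2} * v.asIdeal := by
  classical
  obtain ⟨J, hJdef⟩ : ∃ J : Ideal (𝓞 F), J = Ideal.span {(n : 𝓞 F) ^ 2} * ∏ v ∈ S, v.asIdeal := ⟨_, rfl⟩
  have hn0 : (n : 𝓞 F) ≠ 0 := by exact_mod_cast hn
  have hJ : J ≠ ⊥ := by
    rw [hJdef, Ne, Ideal.mul_eq_bot, not_or]
    refine ⟨?_, ?_⟩
    · rw [Ideal.span_singleton_eq_bot]
      exact pow_ne_zero 2 hn0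
    · rw [← Ne, ← Ideal.zero_eq_bot, Finset.prod_ne_zero_iff]
      exact fun v _ => v.ne_bot
  obtain ⟨T, hT⟩ : ∃ T : Finset (Pr F), ∀ v, v ∈ T ↔ v.asIdeal ∣ J :=
    ⟨(Ideal.finite_factors (I := J) hJ).toFinset, fun v => by rw [Set.Finite.mem_toFinset]; rfl⟩
  obtain ⟨k, hk⟩ := mem_of_val hJ T hT
  have hfi := pray_fin F T k
  have hdens := CFTL.nat_dens (fun S N => pray_fin F S N) T k (Pray T k) le_rfl 0
  have hidx : (0 : ℝ) < (Pray T k).index := by
    exact_mod_cast Nat.pos_of_ne_zero hfi.index_ne_zero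
  -- the places whose degree is not one
  have hnp : Tendsto (fun x : ℕ => (Set.ncard {w : Pr F | Nm w ≤ x ∧ ¬ (Nm w).Prime} : ℝ) / (Nat.primeCounting x : ℝ))
      atTop (𝓝 0) := by
    have e1 : Tendsto (fun x : ℕ => ((Nat.primeCounting x : ℝ))⁻¹) atTop (𝓝 0) :=
      tendsto_inv_atTop_zero.comp (tendsto_natCast_atTop_atTop.comp Nat.tendsto_primeCounting)
    have e2 := (CFTC.c10_sqrt.add e1).const_mul (Pool.Agent.SZ.dg F : ℝ)
    rw [add_zero, mul_zero] at e2
    refine squeeze_zero (fun x => by positivity) (fun x => ?_) e2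
    have e0 : (Pool.Agent.SZ.dg F : ℝ) * ((Nat.sqrt x : ℝ) / (Nat.primeCounting x : ℝ) + ((Nat.primeCounting x : ℝ))⁻¹) =
        ((Pool.Agent.SZ.dg F * (Nat.sqrt x + 1) : ℕ) : ℝ) / (Nat.primeCounting x : ℝ) := by
      push_cast
      rw [← one_div, ← add_div, mul_div_assoc]
    rw [e0]
    refine div_le_div_of_nonneg_right ?_ (Nat.cast_nonneg _)
    have hfin : {w : Pr F | Nm w ≤ x ∧ ¬ (Nm w).Prime}.Finite := (CFTC.nm_fin x).subset fun w hw => hw.1
    rw [Set.ncard_eq_toFinset_card _ hfin]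
    have e3 := CHEB.card_le' hfin.toFinset (Nat.sqrt x) fun w hw => ?_
    · exact_mod_cast e3
    · rw [Set.Finite.mem_toFinset] at hw
      obtain ⟨h1, h2⟩ := hw
      have h3 := CHEB.two_le_Nm w
      rw [Nat.le_sqrt']
      exact (Nat.minFac_sq_le_self (by omega) h2).trans h1
  -- a good place
  have hgood : ∃ w : Pr F, (w ∉ T ∧ Finsupp.single w (1 : ℤ) ∈ Pray T k) ∧ w ∉ Z ∧ (Nm w).Prime := by
    by_contra hcon
    push Not at hcon
    have h1 := (hdens.sub (hZ.pi.add hnp))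
    rw [add_zero, sub_zero] at h1
    have h3 : (1 : ℝ) / (Pray T k).index ≤ 0 := by
      refine le_of_tendsto' h1 fun x => ?_
      rw [← add_div, ← sub_div]
      refine div_nonpos_of_nonpos_of_nonneg ?_ (Nat.cast_nonneg _)
      rw [sub_nonpos]
      have hf : ∀ P : Pr F → Prop, {w : Pr F | Nm w ≤ x ∧ P w}.Finite := fun P => (CFTC.nm_fin x).subset fun w hw => hw.1
      have h4 : {v : Pr F | Nm v ≤ x ∧ v ∉ T ∧ Finsupp.single v (1 : ℤ) - 0 ∈ Pray T k} ⊆
          {w : Pr F | Nm w ≤ x ∧ w ∈ Z} ∪ {w : Pr F | Nm w ≤ x ∧ ¬ (Nm w).Prime} := by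
        rintro v ⟨h5, h6, h7⟩
        rw [sub_zero] at h7
        by_cases h8 : v ∈ Z
        · exact Or.inl ⟨h5, h8⟩
        · exact Or.inr ⟨h5, hcon v ⟨h6, h7⟩ h8⟩
      have h5 := (Set.ncard_le_ncard h4 ((hf _).union (hf _))).trans (Set.ncard_union_le _ _)
      exact_mod_cast h5
    have h4 : (0 : ℝ) < 1 / (Pray T k).index := by positivity
    linarith
  obtain ⟨w, ⟨hwT, x, hx, hxw⟩, hwZ, hwp⟩ := hgood
  have hod : ∀ v, od v x = Finsupp.single w (1 : ℤ) v := by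
    intro v
    by_cases hv : v ∈ T
    · rw [hx.od_eq hv, Finsupp.single_eq_of_ne (show v ≠ w from fun h => hwT (h ▸ hv))]
    · exact (hxw v hv).symm
  obtain ⟨π, hπ, hgen⟩ := gen_of_od hx.ne hod
  have hmemS : ∀ v ∈ S, v ∈ T := fun v hv => (hT v).2 (by
    rw [hJdef]
    exact Dvd.dvd.mul_left (Finset.dvd_prod_of_mem _ hv) _)
  refine ⟨w, π, fun h => hwT (hmemS w h), hwZ, hwp, fun hdvd => hwT ((hT w).2 ?_), hgen, fun τ => ?_, fun v hv => ?_⟩
  · -- the residue characteristic does not divide `n`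
    have h1 : (Ideal.absNorm w.asIdeal : 𝓞 F) ∈ w.asIdeal := Ideal.absNorm_mem _
    obtain ⟨c, hc⟩ := hdvd
    have h2 : (n : 𝓞 F) ∈ w.asIdeal := by
      rw [hc, Nat.cast_mul]
      exact Ideal.mul_mem_right _ _ h1
    rw [hJdef]
    refine Dvd.dvd.mul_right ?_ _
    rw [Ideal.dvd_span_singleton]
    exact Ideal.pow_mem_of_mem _ h2 2 two_pos
  · rw [hπ]
    exact hx.pos τ
  · have h1 : π - 1 ∈ J := by
      refine hk _ fun u hu => ?_
      have e1 : u.intValuation (π - 1) = u.valuation F ((π - 1 : 𝓞 F) : F) :=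
        (HeightOneSpectrum.valuation_of_algebraMap u (π - 1)).symm
      rw [← HeightOneSpectrum.intValuation_le_pow_iff_mem, e1]
      have h2 := hx.cong u hu
      rw [← hπ] at h2
      have h3 : ((π - 1 : 𝓞 F) : F) = (π : F) - 1 := by
        show algebraMap (𝓞 F) F (π - 1) = algebraMap (𝓞 F) F π - 1
        rw [map_sub, map_one]
      rw [h3]
      exact h2.le
    rw [hJdef] at h1
    refine Ideal.mul_mono_right ?_ h1
    exact Ideal.prod_le_inf.trans (Finset.inf_le hv)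

end Pool.Agent.H45U
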