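import Pool.Agent.Lib.H45U.W8d
import Pool.Agent.Lib.H34V.P03
import Pool.Agent.Lib.H86L.N5
import Pool.Agent.Lib.H86L.O4
import Pool.Agent.Lib.H25W.Pairs
import Pool.Agent.Lib.H76Y.BAL

/-!
# F5a: the fifth version over an abstract group
-/

set_option autoImplicit false
set_option linter.unusedSectionVars false
namespace Pool.Agent.H45U
open Pool.Agent.H76Y Pool.Agent.H76Z
open Pool.Agent.H76P Pool.Agent.H76V Pool.Agent.H76Q
open Module Matrix Polynomial Pool.Agent.H53Toric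
open Pool.Agent.H76P
open Pool.Agent.H76T (IsIdeal Fam Lc)
open Pool.Agent.H76U (cmp preL IsSplitting typeGrp)
open Pool.Agent.H76RM (spanK similD)

section
variable {ι : Type*} [Fintype ι] [DecidableEq ι] {K : Type*} [Field K] [CharZero K]

theorem rank_tr {e h : Matrix ι ι K} (he : e * e = e) (hh : h * h = h) (hhe : h * e = e * h) :
    ((h * e).rank : K) = (h * e).trace := by
  have h1 : (h * e) * (h * e) = h * e := by
    calc (h * e) * (h * e) = h * (e * h) * e := by simp only [Matrix.mul_assoc]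
      _ = h * (h * e) * e := by rw [hhe]
      _ = (h * h) * (e * e) := by simp only [Matrix.mul_assoc]
      _ = h * e := by rw [hh, he]
  have h6 : phi (h * e) * phi (h * e) = phi (h * e) := by rw [← map_mul, h1]
  have h7 := trace_idem h6
  have h8 : LinearMap.trace K (ι → K) (phi (h * e)) = (h * e).trace := Matrix.trace_toLin'_eq _
  rw [h8] at h7
  exact h7.symm

/-- The ranks of `h e` and `h e'` if `e'` is the adjoint of `e` and `1 - h` the adjoint of `h`. -/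
theorem rank_pair {J e e' h : Matrix ι ι K} (hJ : IsUnit J.det) (he : e * e = e) (he' : e' * e' = e')
    (hadj : eᵀ * J = J * e') (hh : h * h = h) (hhe : h * e = e * h) (hhe' : h * e' = e' * h)
    (hs : hᵀ * J + J * h = J) : (h * e).rank + (h * e').rank = e.rank := by
  have h1 := rank_tr he hh hhe
  have h2 := rank_tr he' hh hhe'
  have h3 := rank_tr (h := 1) he (one_mul 1) (by rw [one_mul, mul_one])
  rw [one_mul] at h3
  have hcon : ∀ A B : Matrix ι ι K, Aᵀ * J = J * B → A.trace = B.trace := by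
    intro A B hAB
    have h4 : B = J⁻¹ * Aᵀ * J := by
      rw [Matrix.mul_assoc, hAB, ← Matrix.mul_assoc, Matrix.nonsing_inv_mul _ hJ, Matrix.one_mul]
    rw [h4, Matrix.mul_assoc, Matrix.trace_mul_comm, Matrix.mul_assoc, Matrix.mul_nonsing_inv _ hJ,
      Matrix.mul_one, Matrix.trace_transpose]
  have h4 := hcon e e' hadj
  have h5 : (h * e)ᵀ * J = J * (e' - h * e') := by
    have h6 : hᵀ * J = J - J * h := eq_sub_of_add_eq hs
    rw [hhe, Matrix.transpose_mul, Matrix.mul_assoc, hadj, ← Matrix.mul_assoc, h6, Matrix.sub_mul,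
      Matrix.mul_sub, Matrix.mul_assoc]
  have h6 := hcon _ _ h5
  rw [Matrix.trace_sub, ← h4] at h6
  have h7 : ((h * e).rank + (h * e').rank : K) = e.rank := by
    rw [h1, h2, h3, h6]
    ring
  exact_mod_cast h7

end

variable {ι : Type*} [Fintype ι] [DecidableEq ι] {ψ : Matrix ι ι ℚ}
    {D : Subalgebra ℚ (Matrix ι ι ℚ)} {M : Type*} [Field M] [NumberField M]
    {m : ℕ} {cl : Fin m → Cl} {bar : Fin m → Fin m} {e : Fin m → Matrix ι ι M} {u₀ : Matrix ι ι M} {G : Type*} [Group G]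
    {ρ : ∀ (l : ℕ) [Fact l.Prime], G →* Matrix.GeneralLinearGroup ι ℚ_[l]}
    {p : ℕ} [Fact p.Prime] {σ : G} {q : ℚ} {F : Fin m → M[X]}
    {φ μ ν : Matrix ι ι (AlgebraicClosure ℚ_[p])} {v : AlgebraicClosure ℚ_[p] → ℚ}
    {Δ : Set (AlgebraicClosure ℚ_[p] ≃+* AlgebraicClosure ℚ_[p])}
    {Ω : Type} [Field Ω] [CharZero Ω] [IsAlgClosed Ω] [Algebra.IsAlgebraic ℚ Ω] {j : M →+* Ω}
    {R : Finset Ω} {N : Set ℕ} {hd : Fin m → Ω → ℕ} {ub : Fin m → Prop}
    (C : Core5 ψ D cl bar e u₀ ρ p σ q F φ μ ν v Δ j R N hd ub)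

include C

/-- The multiplicities of a component and of its conjugate. -/
theorem Core5.hd_bar (b : Fin m) {r : Ω} (hr : r ∈ R) : hd b r + hd (bar b) r = (e b).rank := by
  obtain ⟨i, hi⟩ := C.w2_i hr
  obtain ⟨-, hdet0⟩ := gram_basic C.hψ C.hψ0 (AlgebraicClosure ℚ_[p])
  have hspl : Splits D ψ cl bar (fun c => (e c).map (i.comp j)) (u₀.map (i.comp j)) := C.hspl.map (i.comp j)
  have hdet : IsUnit (ψ.map (algebraMap ℚ (AlgebraicClosure ℚ_[p])) * u₀.map (i.comp j)).det := by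
    rw [Matrix.det_mul]
    exact hdet0.mul hspl.unit
  have hs0 := C.hs_mu b
  have hμu := C.w8_mu hspl.umem
  have hs : μᵀ * (ψ.map (algebraMap ℚ (AlgebraicClosure ℚ_[p])) * u₀.map (i.comp j)) +
      ψ.map (algebraMap ℚ (AlgebraicClosure ℚ_[p])) * u₀.map (i.comp j) * μ =
        ψ.map (algebraMap ℚ (AlgebraicClosure ℚ_[p])) * u₀.map (i.comp j) := by
    rw [Matrix.mul_assoc _ (u₀.map (i.comp j)) μ, ← hμu, ← Matrix.mul_assoc, ← Matrix.mul_assoc,
      ← Matrix.add_mul, hs0]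
  have h1 := rank_pair hdet (hspl.idem b) (hspl.idem (bar b)) (hspl.adj b) C.crys.mu.1.1
    (C.w8_mu (hspl.mem b)) (C.w8_mu (hspl.mem (bar b))) hs
  rw [C.hdg b i r hr hi, C.hdg (bar b) i r hr hi, H76U.rank_idem_map (C.hspl.idem b)] at h1
  exact h1

/-- A component with a form is balanced. -/
theorem Core5.hd_form {b : Fin m} (hb : cl b ≠ .n) {r : Ω} (hr : r ∈ R) : 2 * hd b r = (e b).rank := by
  have h1 := C.hd_bar b hr
  rw [(C.hspl.self b).2 hb] at h1
  omega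

theorem Core5.rank_bar (b : Fin m) : (e (bar b)).rank = (e b).rank := by
  obtain ⟨i⟩ := H76Z.w9_exists_i p Ω
  obtain ⟨r, hr, -⟩ := C.Rval i
  have h1 := C.hd_bar b hr
  have h2 := C.hd_bar (bar b) hr
  rw [C.hspl.barbar] at h2
  omega

/-- The eigenvalues of the conjugate component. -/
theorem Core5.root_bar (b : Fin m) {y : Ω} (hy : (F b).eval₂ j y = 0) :
    ∃ y' : Ω, (F (bar b)).eval₂ j y' = 0 ∧ y * y' = algebraMap ℚ Ω q := by
  obtain ⟨a, ha, hroot⟩ := C.enum (bar b)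
  obtain ⟨i⟩ := H76Z.w9_exists_i p Ω
  have h1 : (F b).eval₂ (i.comp j) (i y) = 0 := by
    rw [← Polynomial.hom_eval₂, hy, map_zero]
  obtain ⟨z, hz0, hz, hφ⟩ := (C.frobp.eig (i.comp j) b (i y)).2 h1
  obtain ⟨k, hk, -⟩ := C.dual_vec (bar b) ha hroot i hz0 (by rw [C.hspl.barbar]; exact hz) hφ
  refine ⟨a k, (hroot _).2 ⟨k, rfl⟩, i.injective ?_⟩
  rw [map_mul, hk]
  simp

/-- **The fifth version over an abstract group.** -/
theorem Core5.final
    -- the components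
    (part : ∀ b (k : ℕ) (c : Ω → Option (Fin k)) (A : Fin k → ℕ), 2 ≤ k →
      PartU D j (cl b = .s) (ub b) (e b) (e (bar b)) (F b) q R (hd b) c A → Big (cl b) (e b).rank A →
      (e b).rank ≠ ∏ x, A x)
    (two : ∀ b (k : ℕ), 3 ≤ k → (e b).rank = 2 ^ k →
      (cl b = .s → 4 ≤ k → H45Q.Gen1 ρ ∧ ¬ (5 ≤ k ∧ (k % 4 = 1 ∨ k % 4 = 2))) ∧
      (cl b = .o → H45Q.Gen1 ρ ∧ (k % 4 = 1 ∨ k % 4 = 2)))
    (binom : ∀ b (k : ℕ), (cl b = .s → 3 ≤ k ∧ Odd k) → (cl b = .o → 4 ≤ k ∧ Even k) →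
      cl b ≠ .n → (e b).rank = k.centralBinom →
        ∃ (c : Ω ≃+* Ω) (T₀ : Finset Ω) (N' : Set ℕ), H86L.Real3 D ρ σ q bar e F j c T₀ N')
    (twon : ∀ b, cl b = .n → (∀ r ∈ R, hd b r = 0 ∨ hd b r = (e b).rank ∨ 2 * hd b r = (e b).rank) →
      ∀ k : ℕ, 4 ≤ k → Even k → (e b).rank ≠ 2 ^ k)
    (bin : ∀ b, cl b = .n → (∃ r ∈ R, hd b r ≠ 0 ∧ hd b r ≠ (e b).rank ∧ 2 * hd b r ≠ (e b).rank) →
      (∀ N k : ℕ, 2 ≤ k → k + 2 ≤ N → (e b).rank = N.choose k →
        ∃ r ∈ R, hd b r ≠ 0 ∧ hd b r ≠ (e b).rank ∧ hd b r ≠ (N - 1).choose k ∧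
          hd b r ≠ (N - 1).choose (k - 1)) ∨
      ∃ (c : Ω ≃+* Ω) (r : Ω), r ∈ R ∧ c r = r ∧ Linked D ((e (bar b)).map j) ((e b).map (c.toRingHom.comp j)))
    -- the pairs of components
    (six : ∀ b c, cl b = .o → cl c = .n → (e b).rank = 6 → (e c).rank = 4 →
      (∃ r ∈ R, hd c r ≠ 1 ∧ hd c r ≠ 3) ∨ NoSix j (F b) (F c))
    (tw : ∀ b c, cl b = .n → cl c = .n → c ≠ b → c ≠ bar b → 2 ≤ (e b).rank → (e c).rank = (e b).rank →
      (∀ r ∈ R, hd b r = hd c r) ∨ (∃ r ∈ R, hd b r ≠ hd c r ∧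
        ¬ ((hd b r = 0 ∨ hd b r = (e b).rank) ∧ (hd c r = 0 ∨ hd c r = (e b).rank))) ∨
      NoProp j (F b) (F c))
    (l : ℕ) [Fact l.Prime] (i : M →+* AlgebraicClosure ℚ_[l]) (H : Subgroup G) (hH : H.FiniteIndex) :
    monodromy (AlgebraicClosure ℚ_[l]) (ρ l) H =
      typeGrp (AlgebraicClosure ℚ_[l]) ψ D (fun b => (e b).map i) {n | ∃ r ∈ R, ∀ b, n b = hd b r} := by
  obtain ⟨i', rfl⟩ := Pool.Agent.H76Q.g12_ext j i
  choose a ha hroot hf using fun b => H86L.comp_real5 C part two binom twon bin b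
  have four' : ∀ b, cl b = .o → (e b).rank ≠ 4 ∧ (e b).rank ≠ 8 := fun b hb =>
    ⟨fun h4 => by
      obtain ⟨k, c, A, hk, hP, hA⟩ := H86L.four_part C b hb h4
      exact part b k c A hk hP ⟨fun _ => Or.inl ⟨hb, h4⟩, fun h8 => absurd h8 (by rw [h4]; norm_num)⟩ hA,
    fun h8 => absurd ((two b 3 le_rfl (by rw [h8]; norm_num)).2 hb).2 (by decide)⟩
  have hbn : ∀ c, cl c = .n → cl (bar c) = .n := by
    intro c hc
    by_contra h1
    have h2 := (C.hspl.self (bar c)).2 h1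
    rw [C.hspl.barbar] at h2
    exact (C.hspl.self c).1 h2.symm hc
  refine H34V.final_of5 C four' ha hroot (fun b => hf b) l i' (fun z z₀ => C.hodge_iff l i' z z₀)
    ?_ ?_ ?_ H hH
  · intro b c hb hc h6 h4 f f' hff
    by_contra hcon
    push Not at hcon
    rcases six b c hb hc h6 h4 with ⟨r, hr, h1, h3⟩ | hno
    · rcases C.pair_six (by rw [hb]; decide) (ha b) (hroot b) (ha c) (hroot c) h6 h4 f f' hff hcon hr with h | h
      · exact h1 h
      · exact h3 h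
    · obtain ⟨k₀⟩ : Nonempty (Fin (e b).rank) := ⟨⟨0, by omega⟩⟩
      have h1 := C.ne c (hroot c)
      refine hno ⟨a b k₀ / (a c (f k₀) * a c (f' k₀)), fun y hy => ?_⟩
      obtain ⟨k, rfl⟩ := (hroot b y).1 hy
      refine ⟨a c (f k), a c (f' k), (hroot c _).2 ⟨_, rfl⟩, (hroot c _).2 ⟨_, rfl⟩,
        fun h => hff k (ha c h), ?_⟩
      have h2 := hcon k k₀
      have h3 := h1 (f k₀)
      have h5 := h1 (f' k₀)
      field_simp
      linear_combination h2
  · intro b c hcb hcb' h2 hrk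
    by_contra hcon
    push Not at hcon
    obtain ⟨⟨r₀, hr₀, hne⟩, π, hπ⟩ := hcon
    have key := fun r (hr : r ∈ R) => C.pair_dir (ha b) (hroot b) (ha c) (hroot c) hrk π hπ hr
    by_cases hb : cl b = .n
    · by_cases hc : cl c = .n
      · rcases tw b c hb hc hcb hcb' h2 hrk with h | ⟨r, hr, h3, h4⟩ | hno
        · exact hne (h r₀ hr₀)
        · rcases key r hr with h5 | ⟨h5, h6⟩ | ⟨h5, h6⟩
          · exact h3 h5
          · exact h4 ⟨Or.inl h5, Or.inr h6⟩
          · exact h4 ⟨Or.inr h5, Or.inl h6⟩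
        · obtain ⟨k₀⟩ : Nonempty (Fin (e b).rank) := ⟨⟨0, by omega⟩⟩
          refine hno ⟨a c (π k₀) / a b k₀, fun y hy => ?_⟩
          obtain ⟨k, rfl⟩ := (hroot b y).1 hy
          have h3 := C.ne b (hroot b) k₀
          refine (hroot c _).2 ⟨π k, ?_⟩
          rw [div_mul_eq_mul_div, div_eq_iff h3]
          exact hπ k₀ k
      · have h3 := C.hd_form hc hr₀
        rcases key r₀ hr₀ with h5 | ⟨h5, h6⟩ | ⟨h5, h6⟩
        · exact hne h5
        · omega
        · omega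
    · have h3 := C.hd_form hb hr₀
      rcases key r₀ hr₀ with h5 | ⟨h5, h6⟩ | ⟨h5, h6⟩
      · exact hne h5
      · omega
      · omega
  · intro b c hcb hcb' h2 hrk
    by_contra hcon
    push Not at hcon
    obtain ⟨⟨r₀, hr₀, hne⟩, π, hπ⟩ := hcon
    have key := fun r (hr : r ∈ R) => C.pair_dual (ha b) (hroot b) (ha c) (hroot c) hrk π hπ hr
    by_cases hb : cl b = .n
    · by_cases hc : cl c = .n
      · have hcc : bar c ≠ b := fun h => hcb' (by rw [← h, C.hspl.barbar])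
        have hcc' : bar c ≠ bar b := fun h => hcb (by rw [← C.hspl.barbar c, h, C.hspl.barbar])
        have hrc : (e (bar c)).rank = (e b).rank := by rw [C.rank_bar, hrk]
        rcases tw b (bar c) hb (hbn c hc) hcc hcc' h2 hrc with h | ⟨r, hr, h3, h4⟩ | hno
        · have h5 := C.hd_bar c hr₀
          have h6 := h r₀ hr₀
          omega
        · have h7 := C.hd_bar c hr
          rcases key r hr with h5 | ⟨h5, h6⟩ | ⟨h5, h6⟩
          · omega
          · exact h4 ⟨Or.inl h5, Or.inr (by omega)⟩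
          · exact h4 ⟨Or.inr h5, Or.inl (by omega)⟩
        · obtain ⟨k₀⟩ : Nonempty (Fin (e b).rank) := ⟨⟨0, by omega⟩⟩
          have hb0 := C.ne b (hroot b)
          have hc0 := C.ne c (hroot c)
          refine hno ⟨algebraMap ℚ Ω q / (a c (π k₀) * a b k₀), fun y hy => ?_⟩
          obtain ⟨k, rfl⟩ := (hroot b y).1 hy
          obtain ⟨y', hy', hyy⟩ := C.root_bar c ((hroot c (a c (π k))).2 ⟨_, rfl⟩)
          have h3 : algebraMap ℚ Ω q / (a c (π k₀) * a b k₀) * a b k = y' := by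
            have h4 := hb0 k
            have h5 := hc0 (π k)
            rw [← hπ k k₀, ← hyy]
            field_simp
          rw [h3]
          exact hy'
      · have h3 := C.hd_form hc hr₀
        rcases key r₀ hr₀ with h5 | ⟨h5, h6⟩ | ⟨h5, h6⟩
        · exact hne h5
        · omega
        · omega
    · have h3 := C.hd_form hb hr₀
      rcases key r₀ hr₀ with h5 | ⟨h5, h6⟩ | ⟨h5, h6⟩
      · exact hne h5
      · omega
      · omega

end Pool.Agent.H45U
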