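import Pool.Agent.Lib.H45K.K9
import Pool.Agent.Lib.H76Q.E5

/-!
# N1: the group generated by the eigenvalues of Frobenius
-/

set_option autoImplicit false
set_option linter.unusedSectionVars false
namespace Pool.Agent.H45U
open Polynomial H45K

section
variable {Ω : Type} [Field Ω] [CharZero Ω] [IsAlgClosed Ω] [Algebra.IsAlgebraic ℚ Ω]
variable {K : Type*} [Field K] [CharZero K] [IsAlgClosed K] {v : K → ℚ}

/-- The elements with a power of `p` as denominator and with absolute values which are powers of `p`. -/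
def Wl (p : ℕ) (z : Ω) : Prop :=
  z ≠ 0 ∧ (∃ N : ℕ, IsIntegral ℤ ((p : Ω) ^ N * z)) ∧
    ∃ k : ℤ, ∀ c : Ω →+* ℂ, ‖c z‖ ^ 2 = (p : ℝ) ^ k

theorem Wl.mul {p : ℕ} (hp : p ≠ 0) {z w : Ω} (hz : Wl p z) (hw : Wl p w) : Wl p (z * w) := by
  obtain ⟨h1, ⟨N, h2⟩, k, h3⟩ := hz
  obtain ⟨g1, ⟨N', g2⟩, k', g3⟩ := hw
  refine ⟨mul_ne_zero h1 g1, ⟨N + N', ?_⟩, k + k', fun c => ?_⟩
  · have e : (p : Ω) ^ (N + N') * (z * w) = (p : Ω) ^ N * z * ((p : Ω) ^ N' * w) := by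
      rw [pow_add]
      ring
    rw [e]
    exact h2.mul g2
  · rw [map_mul, norm_mul, mul_pow, h3, g3, zpow_add₀ (Nat.cast_ne_zero.2 hp)]

/-- A root of a Weil polynomial and its inverse. -/
theorem Wl.root {p : ℕ} (hp : p ≠ 0) {f : ℤ[X]} (hf : f.Monic)
    (hW : ∀ z : ℂ, aeval z f = 0 → ‖z‖ ^ 2 = p) {a : Ω} (ha : aeval a f = 0) :
    Wl p a ∧ Wl p a⁻¹ := by
  have hroot : ∀ c : Ω →+* ℂ, ‖c a‖ ^ 2 = p := by
    intro c
    refine hW _ ?_
    have h2 := congrArg c ha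
    rw [map_zero, aeval_def, hom_eval₂] at h2
    rw [aeval_def, show algebraMap ℤ ℂ = c.comp (algebraMap ℤ Ω) from RingHom.ext_int _ _]
    exact h2
  have c₀ : Ω →+* ℂ := (IsAlgClosed.lift : Ω →ₐ[ℚ] ℂ).toRingHom
  have hpR : (p : ℝ) ≠ 0 := Nat.cast_ne_zero.2 hp
  have ha0 : a ≠ 0 := by
    rintro rfl
    have h2 := hroot c₀
    rw [map_zero, norm_zero, zero_pow two_ne_zero] at h2
    exact hpR h2.symm
  have hinv : aeval ((p : Ω) / a) f = 0 := by
    apply c₀.injective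
    rw [map_zero, aeval_def, hom_eval₂]
    have h2 := hroot c₀
    have h3 : c₀ ((p : Ω) / a) = (starRingEnd ℂ) (c₀ a) := by
      rw [map_div₀, map_natCast, div_eq_iff ((map_ne_zero c₀).2 ha0), mul_comm, Complex.mul_conj, Complex.normSq_eq_norm_sq, h2]
      simp
    rw [h3]
    have h4 : eval₂ (c₀.comp (algebraMap ℤ Ω)) ((starRingEnd ℂ) (c₀ a)) f = (starRingEnd ℂ) (c₀ (aeval a f)) := by
      rw [aeval_def, hom_eval₂, hom_eval₂]
      congr 1
      exact RingHom.ext_int _ _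
    rw [h4, ha, map_zero, map_zero]
  refine ⟨⟨ha0, ⟨0, ?_⟩, 1, fun c => ?_⟩, inv_ne_zero ha0, ⟨1, ?_⟩, -1, fun c => ?_⟩
  · rw [pow_zero, one_mul]
    exact ⟨f, hf, ha⟩
  · rw [zpow_one, hroot]
  · rw [pow_one, ← div_eq_mul_inv]
    exact ⟨f, hf, hinv⟩
  · rw [map_inv₀, norm_inv, inv_pow, hroot, zpow_neg, zpow_one]

theorem Wl.prime {p : ℕ} (hp : p ≠ 0) : Wl p (p : Ω) ∧ Wl p (p : Ω)⁻¹ := by
  have hpΩ : (p : Ω) ≠ 0 := Nat.cast_ne_zero.2 hp
  have hn : ∀ c : Ω →+* ℂ, ‖c (p : Ω)‖ ^ 2 = (p : ℝ) ^ (2 : ℤ) := by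
    intro c
    rw [map_natCast, Complex.norm_natCast]
    norm_cast
  refine ⟨⟨hpΩ, ⟨0, ?_⟩, 2, hn⟩, inv_ne_zero hpΩ, ⟨1, ?_⟩, -2, fun c => ?_⟩
  · rw [pow_zero, one_mul]
    have h1 : (p : Ω) = algebraMap ℤ Ω p := by simp
    rw [h1]
    exact isIntegral_algebraMap
  · rw [pow_one, mul_inv_cancel₀ hpΩ]
    exact isIntegral_one
  · rw [map_inv₀, norm_inv, inv_pow, hn, zpow_neg]

theorem int_of_val' (hv : IsV v) {p : ℕ} (hp : p.Prime) (h1 : v (p : K) = 1) {ζ : Ω} (h0 : ζ ≠ 0)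
    (h : ∀ i : Ω →+* K, v (i ζ) = 0) : ∀ N : ℕ, IsIntegral ℤ ((p : Ω) ^ N * ζ) → IsIntegral ℤ ζ := by
  have hpΩ : (p : Ω) ≠ 0 := Nat.cast_ne_zero.2 hp.ne_zero
  have hpK : (p : K) ≠ 0 := Nat.cast_ne_zero.2 hp.ne_zero
  intro N
  induction N with
  | zero =>
    intro h2
    rwa [pow_zero, one_mul] at h2
  | succ N ih =>
    intro h2
    apply ih
    refine int_of_val hv hp h1 _ ?_ fun i => Or.inr ?_
    · rw [← mul_assoc, ← pow_succ']
      exact h2
    · rw [map_mul, map_pow, map_natCast, hv.mul _ _ (pow_ne_zero N hpK) ((map_ne_zero i).2 h0),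
        hv.pow hpK, h1, h]
      positivity

/-- An element of the group generated by `p` and the eigenvalues whose valuations are all zero is a
root of unity. -/
theorem neat_of (hv : IsV v) {p : ℕ} (hp : p.Prime) (h1 : v (p : K) = 1) (f : ℤ[X]) (hf : f.Monic)
    (hW : ∀ z : ℂ, aeval z f = 0 → ‖z‖ ^ 2 = p) {S : Set Ωˣ}
    (hS : ∀ z ∈ S, (z : Ω) = p ∨ aeval (z : Ω) f = 0) {z : Ωˣ} (hz : z ∈ Subgroup.closure S)
    (hvz : ∀ i : Ω →+* K, v (i z) = 0) : ∃ n : ℕ, n ≠ 0 ∧ z ^ n = 1 := by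
  classical
  have hpΩ : (p : Ω) ≠ 0 := Nat.cast_ne_zero.2 hp.ne_zero
  have hpK : (p : K) ≠ 0 := Nat.cast_ne_zero.2 hp.ne_zero
  have key : ∀ z ∈ Subgroup.closure S, Wl p (z : Ω) ∧ Wl p (z : Ω)⁻¹ := by
    intro z hz
    induction hz using Subgroup.closure_induction with
    | mem z hz =>
      rcases hS z hz with h | h
      · rw [h]
        exact Wl.prime hp.ne_zero
      · exact Wl.root hp.ne_zero hf hW h
    | one =>
      have h2 : Wl p (1 : Ω) := ⟨one_ne_zero, ⟨0, by rw [pow_zero, one_mul]; exact isIntegral_one⟩, 0,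
        fun c => by rw [map_one, norm_one, one_pow, zpow_zero]⟩
      rw [Units.val_one, inv_one]
      exact ⟨h2, h2⟩
    | mul x y _ _ hx hy =>
      rw [Units.val_mul, mul_inv]
      exact ⟨hx.1.mul hp.ne_zero hy.1, hx.2.mul hp.ne_zero hy.2⟩
    | inv x _ hx =>
      rw [Units.val_inv_eq_inv_val, inv_inv]
      exact ⟨hx.2, hx.1⟩
  obtain ⟨⟨h0, ⟨N, hN⟩, k, hk⟩, -⟩ := key z hz
  have hzi : IsIntegral ℤ (z : Ω) := int_of_val' hv hp h1 h0 hvz N hN
  have c₀ : Ω →+* ℂ := (IsAlgClosed.lift : Ω →ₐ[ℚ] ℂ).toRingHom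
  obtain ⟨s, hs⟩ := Pool.Agent.H76Q.exists_res c₀ (starRingAut : ℂ ≃+* ℂ)
  have h2 : (z : Ω) * s z = (p : Ω) ^ k := by
    apply c₀.injective
    rw [map_mul, ← hs, map_zpow₀, map_natCast]
    show c₀ z * (starRingEnd ℂ) (c₀ z) = _
    rw [Complex.mul_conj, Complex.normSq_eq_norm_sq, hk c₀]
    push_cast
    rfl
  obtain ⟨i⟩ : Nonempty (Ω →+* K) := ⟨(IsAlgClosed.lift : Ω →ₐ[ℚ] K).toRingHom⟩
  have hvz0 : ∀ x : K, x ≠ 0 → ∀ k : ℤ, v (x ^ k) = k * v x := by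
    intro x hx k
    obtain ⟨n, rfl | rfl⟩ := k.eq_nat_or_neg
    · rw [zpow_natCast, hv.pow hx]
      push_cast
      ring
    · have h3 : v (x ^ (-(n : ℤ))) + v (x ^ n) = 0 := by
        rw [← hv.mul _ _ (zpow_ne_zero _ hx) (pow_ne_zero _ hx), zpow_neg, zpow_natCast,
          inv_mul_cancel₀ (pow_ne_zero _ hx)]
        have h4 := hv.mul 1 1 one_ne_zero one_ne_zero
        rw [mul_one] at h4
        linarith
      rw [hv.pow hx] at h3
      push_cast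
      linarith
  have hk0 : k = 0 := by
    have h3 : v (i ((z : Ω) * s z)) = 0 := by
      rw [map_mul, hv.mul _ _ ((map_ne_zero i).2 h0) ((map_ne_zero i).2 ((map_ne_zero s).2 h0)), hvz i]
      have h4 := hvz (i.comp s.toRingHom)
      have h5 : i.comp s.toRingHom (z : Ω) = i (s z) := rfl
      rw [h5] at h4
      rw [h4, add_zero]
    rw [h2, map_zpow₀, map_natCast, hvz0 _ hpK, h1, mul_one] at h3
    exact_mod_cast h3
  have hnorm : ∀ c : Ω →+* ℂ, ‖c z‖ = 1 := by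
    intro c
    have h3 := hk c
    rw [hk0, zpow_zero] at h3
    exact (sq_eq_sq₀ (norm_nonneg _) zero_le_one).1 (by rw [h3, one_pow])
  obtain ⟨ζ, hζ⟩ : ∃ ζ : Ω, ζ = z := ⟨_, rfl⟩
  rw [← hζ] at hzi
  have hfd : FiniteDimensional ℚ (IntermediateField.adjoin ℚ {ζ}) :=
    IntermediateField.adjoin.finiteDimensional (Algebra.IsAlgebraic.isAlgebraic ζ).isIntegral
  have hNF : NumberField (IntermediateField.adjoin ℚ {ζ}) := {}
  have hgi : IsIntegral ℤ (IntermediateField.AdjoinSimple.gen ℚ ζ) := by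
    have h2 : IsIntegral ℤ (algebraMap (IntermediateField.adjoin ℚ {ζ}) Ω (IntermediateField.AdjoinSimple.gen ℚ ζ)) := by
      rw [IntermediateField.AdjoinSimple.algebraMap_gen]
      exact hzi
    exact (isIntegral_algebraMap_iff (algebraMap (IntermediateField.adjoin ℚ {ζ}) Ω).injective).1 h2
  obtain ⟨n, hn, hn1⟩ := NumberField.Embeddings.pow_eq_one_of_norm_eq_one (IntermediateField.adjoin ℚ {ζ}) ℂ hgi fun φ => by
    obtain ⟨s, hs⟩ := IntermediateField.exists_algHom_of_splits_of_aeval (K := ℂ) (F := ℚ) (E := Ω)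
      (fun x => ⟨(Algebra.IsAlgebraic.isAlgebraic x).isIntegral, IsAlgClosed.splits _⟩) (x := ζ)
      (y := φ (IntermediateField.AdjoinSimple.gen ℚ ζ)) (by
        have h2 := aeval_algHom_apply φ.toRatAlgHom (IntermediateField.AdjoinSimple.gen ℚ ζ) (minpoly ℚ ζ)
        have h3 : aeval (IntermediateField.AdjoinSimple.gen ℚ ζ) (minpoly ℚ ζ) = 0 := by
          apply (algebraMap (IntermediateField.adjoin ℚ {ζ}) Ω).injective
          rw [map_zero, ← aeval_algebraMap_apply, IntermediateField.AdjoinSimple.algebraMap_gen]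
          exact minpoly.aeval ℚ _
        rw [h3, map_zero] at h2
        exact h2)
    rw [← hs, hζ]
    exact hnorm s.toRingHom
  refine ⟨n, by omega, ?_⟩
  have h8 := congrArg (algebraMap (IntermediateField.adjoin ℚ {ζ}) Ω) hn1
  rw [map_pow, IntermediateField.AdjoinSimple.algebraMap_gen, map_one, hζ] at h8
  exact Units.ext (by rw [Units.val_pow_eq_pow_val, h8, Units.val_one])

end

end Pool.Agent.H45U
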