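import Pool.Agent.Lib.H45Q.F4b
import Pool.Agent.Lib.H45U.N1
import Pool.Agent.Lib.H45U.W2a
import Pool.Agent.Lib.H76W.Dec
import Pool.Agent.Lib.H76W.Bad

/-!
# N2: the conditions of the fifth version over a number field
-/

set_option autoImplicit false
set_option linter.unusedSectionVars false
namespace Pool.Agent.H45U
open Module Matrix Polynomial Pool.Agent.H53Toric NumberField ST32
open Pool.Agent.H76Q
open Pool.Agent.H76P (properProj EigOn)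
open Pool.Agent.H76U (IsSplitting)
open Pool.Agent.H76RM (spanK similD)
open Pool.Agent.H45Q (CrysF3 bal4_of arithN)

/-- The multiplicities as a function on the set of the conjugates of `π`. -/
theorem exists_hd {M : Type} [Field M] [NumberField M] {ι : Type} [Fintype ι] [DecidableEq ι] {m : ℕ}
    {e : Fin m → Matrix ι ι M}
    {F : Type} [Field F] [NumberField F] {Ω : Type} [Field Ω] [CharZero Ω] [IsAlgClosed Ω]
    [Algebra.IsAlgebraic ℚ Ω] {j : M →+* Ω}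
    {p : ℕ} [Fact p.Prime] {w : CFT.Pr F} (hwp : Ideal.absNorm w.asIdeal = p)
    {π : 𝓞 F} (hwπ : w.asIdeal = Ideal.span {π}) (hdF : ¬ (p : ℤ) ∣ NumberField.discr F)
    {v : AlgebraicClosure ℚ_[p] → ℚ} (hv : IsPVal p v) {μ : Matrix ι ι (AlgebraicClosure ℚ_[p])}
    (h : Fin m → (F →+* Ω) → ℕ)
    (hdg : ∀ (b : Fin m) (i : Ω →+* AlgebraicClosure ℚ_[p]) (τ : F →+* Ω), v (i (τ (π : F))) = 1 →
      (μ * (e b).map (i.comp j)).rank = h b τ) :
    ∃ hd : Fin m → Ω → ℕ, ∀ b τ, hd b (τ (π : F)) = h b τ := by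
  classical
  have hp : p.Prime := Fact.out
  have hdv : CFT.dv (π : F) = Finsupp.single w 1 := H45K.dv_gen hwπ
  have hvval : IsVal v := H45K.pval_isVal hv
  have hvp : v (p : AlgebraicClosure ℚ_[p]) = 1 := H45K.pval_p hv
  have hvd : ∀ x : AlgebraicClosure ℚ_[p], x ≠ 0 → (∀ δ ∈ inertia p v, δ x = x) → ∃ n : ℤ, v x = n := H45K.pval_dval hv
  have hval : H45K.IsV v := ⟨hvval.mul, hvval.add⟩
  have hfin : Finite (F →+* Ω) := inferInstance
  have : Fintype (F →+* Ω) := Fintype.ofFinite _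
  obtain ⟨R, hR⟩ : ∃ R : Finset Ω, ∀ x, x ∈ R ↔ ∃ τ : F →+* Ω, τ (π : F) = x :=
    ⟨Finset.univ.image (fun τ : F →+* Ω => τ (π : F)), fun x => by
      rw [Finset.mem_image]
      simp⟩
  have key : ∀ τ : F →+* Ω, ∃ i : Ω →+* AlgebraicClosure ℚ_[p], v (i (τ (π : F))) = 1 := by
    intro τ
    let i₀ : Ω →+* AlgebraicClosure ℚ_[p] :=
      (IsAlgClosed.lift (R := ℚ) (S := Ω) (M := AlgebraicClosure ℚ_[p])).toRingHom
    obtain ⟨r₀, hr₀, h1, -⟩ := H45K.rval hval hvp hdv hp hwp hR i₀ fun r hr => by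
      refine hvd (i₀ r) ?_ (fun δ hδ => ?_)
      · obtain ⟨τ, rfl⟩ := (hR r).1 hr
        rw [Ne, map_eq_zero, map_eq_zero]
        exact H45K.pi_ne hdv
      · obtain ⟨τ, rfl⟩ := (hR r).1 hr
        exact H45K.rfix hval hp hvp F hdF δ hδ.2 (i₀.comp τ) (π : F)
    obtain ⟨τ', hτ'⟩ := (hR r₀).1 hr₀
    obtain ⟨s, hs⟩ := H45K.exists_aut τ τ'
    refine ⟨i₀.comp s.toRingHom, ?_⟩
    show v (i₀ (s (τ (π : F)))) = 1
    rw [hs, hτ', h1]
  refine ⟨fun b r => if hr : ∃ τ : F →+* Ω, τ (π : F) = r then h b hr.choose else 0, fun b τ => ?_⟩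
  have hr : ∃ τ' : F →+* Ω, τ' (π : F) = τ (π : F) := ⟨τ, rfl⟩
  obtain ⟨i, hi⟩ := key τ
  simp only [dif_pos hr]
  rw [← hdg b i τ hi, ← hdg b i hr.choose (by rw [hr.choose_spec, hi])]

theorem core5a_of {ι : Type} [Fintype ι] [DecidableEq ι] {ψ : Matrix ι ι ℚ} (hψ : ψᵀ = -ψ)
    (hψ0 : ψ.det ≠ 0) (D : Subalgebra ℚ (Matrix ι ι ℚ)) {M : Type} [Field M] [NumberField M]
    {m : ℕ} (cl : Fin m → H76Z.Cl) (bar : Fin m → Fin m) (e : Fin m → Matrix ι ι M) (u : Matrix ι ι M)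
    (hspl : H76Z.Splits D ψ cl bar e u)
    {F : Type} [Field F] [NumberField F] {Ω : Type} [Field Ω] [CharZero Ω] [Algebra F Ω] [IsAlgClosure F Ω]
    [IsAlgClosed Ω] [Algebra.IsAlgebraic ℚ Ω]
    (j : M →+* Ω)
    (ρ : ∀ (l : ℕ) [Fact l.Prime], (Ω ≃ₐ[F] Ω) →* Matrix.GeneralLinearGroup ι ℚ_[l])
    (cont : ∀ (l : ℕ) [Fact l.Prime], Continuous fun g => (ρ l g : Matrix ι ι ℚ_[l]))
    (lin : ∀ (l : ℕ) [Fact l.Prime], ∀ g : Ω ≃ₐ[F] Ω, ∀ d ∈ D,
      (ρ l g).1 * d.map (algebraMap ℚ ℚ_[l]) = d.map (algebraMap ℚ ℚ_[l]) * (ρ l g).1)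
    (sim : ∀ (l : ℕ) [Fact l.Prime], ∀ g : Ω ≃ₐ[F] Ω, ∃ c : ℚ_[l],
      (ρ l g).1ᵀ * ψ.map (algebraMap ℚ ℚ_[l]) * (ρ l g).1 = c • ψ.map (algebraMap ℚ ℚ_[l]))
    (semis : ∀ (l : ℕ) [Fact l.Prime], ∀ H : Subgroup (Ω ≃ₐ[F] Ω), H.FiniteIndex →
      ∀ W : Submodule (AlgebraicClosure ℚ_[l]) (ι → AlgebraicClosure ℚ_[l]),
      (∀ s ∈ img (AlgebraicClosure ℚ_[l]) (ρ l) H, ∀ w ∈ W, s *ᵥ w ∈ W) →
      ∃ W' : Submodule (AlgebraicClosure ℚ_[l]) (ι → AlgebraicClosure ℚ_[l]),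
        (∀ s ∈ img (AlgebraicClosure ℚ_[l]) (ρ l) H, ∀ w ∈ W', s *ᵥ w ∈ W') ∧ IsCompl W W')
    (commt : ∀ (l : ℕ) [Fact l.Prime], ∀ H : Subgroup (Ω ≃ₐ[F] Ω), H.FiniteIndex →
      ∀ y : Matrix ι ι (AlgebraicClosure ℚ_[l]),
      (∀ s ∈ img (AlgebraicClosure ℚ_[l]) (ρ l) H, y * s = s * y) →
        y ∈ spanK (AlgebraicClosure ℚ_[l]) D)
    (gen : ∀ (l : ℕ) [Fact l.Prime], ∀ g : Ω ≃ₐ[F] Ω,
      (ρ l g).1.map (algebraMap ℚ_[l] (AlgebraicClosure ℚ_[l])) ∈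
        tgen (AlgebraicClosure ℚ_[l]) (ρ l))
    -- the places of bad reduction
    (S : Finset (CFT.Pr F))
    (unr : ∀ (l : ℕ) [Fact l.Prime], ∀ v ∉ S, (l : 𝓞 F) ∉ v.asIdeal →
      ∀ P : Ideal (𝓞 Ω), Above v P → ∀ g : Ω ≃ₐ[F] Ω, Inert P g → ρ l g = 1)
    -- the place `w`
    (p : ℕ) [Fact p.Prime] (w : CFT.Pr F) (hwS : w ∉ S)
    (hwp : Ideal.absNorm w.asIdeal = p)
    (π : 𝓞 F) (hwπ : w.asIdeal = Ideal.span {π}) (hpos : ∀ τ : F →+* ℝ, 0 < τ π)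
    (hpe : ∀ b, ¬ p ∣ (e b).rank)
    (hcong : ∀ b, ∀ v ∈ S, π - 1 ∈ Ideal.span {((e b).rank : 𝓞 F) ^ 2} * v.asIdeal)
    (hdF : ¬ (p : ℤ) ∣ NumberField.discr F) (hdM : ¬ (p : ℤ) ∣ NumberField.discr M)
    (σ : Ω ≃ₐ[F] Ω) (hσ : IsFrv w σ)
    (f : ℤ[X]) (hf : f.Monic) (weil : ∀ z : ℂ, aeval z f = 0 → ‖z‖ ^ 2 = p)
    (χ : Fin m → M[X])
    (mult : ∀ (l : ℕ) [Fact l.Prime], l ≠ p →
      (ρ l σ).1ᵀ * ψ.map (algebraMap ℚ ℚ_[l]) * (ρ l σ).1 = (p : ℚ_[l]) • ψ.map (algebraMap ℚ ℚ_[l]))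
    (char : ∀ (l : ℕ) [Fact l.Prime], l ≠ p →
      (ρ l σ).1.charpoly = f.map (algebraMap ℤ ℚ_[l]))
    (frob : ∀ (l : ℕ) [Fact l.Prime], l ≠ p →
      FrobT (AlgebraicClosure ℚ_[l]) (ρ l) e χ
        ((ρ l σ).1.map (algebraMap ℚ_[l] (AlgebraicClosure ℚ_[l]))))
    (neat : ∀ b, ∀ a a' : Ω, (χ b).eval₂ j a = 0 → (χ b).eval₂ j a' = 0 →
      ∀ n : ℕ, n ≠ 0 → a ^ n = a' ^ n → a = a')
    -- the representation at `p`
    (v : AlgebraicClosure ℚ_[p] → ℚ) (hv : IsPVal p v)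
    (φ μ ν : Matrix ι ι (AlgebraicClosure ℚ_[p]))
    (frobp : FrobT (AlgebraicClosure ℚ_[p]) (ρ p) e χ φ)
    (multp : φᵀ * ψ.map (algebraMap ℚ (AlgebraicClosure ℚ_[p])) * φ =
      (p : AlgebraicClosure ℚ_[p]) • ψ.map (algebraMap ℚ (AlgebraicClosure ℚ_[p])))
    (crys : CrysF3 p (ρ p) e σ φ μ ν v)
    (wa : ∀ b : Fin m, cl b = .n → ∀ i : M →+* AlgebraicClosure ℚ_[p],
      v (1 - (e b).map i + φ * (e b).map i).det = (μ * (e b).map i).rank)
    -- the multiplicities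
    (h : Fin m → (F →+* Ω) → ℕ)
    (hdg : ∀ (b : Fin m) (i : Ω →+* AlgebraicClosure ℚ_[p]) (τ : F →+* Ω), v (i (τ (π : F))) = 1 →
      (μ * (e b).map (i.comp j)).rank = h b τ)
    (hd : Fin m → Ω → ℕ) (hhd : ∀ b τ, hd b (τ (π : F)) = h b τ)
    -- bad reduction
    (ub : Fin m → Prop) (N₀ : Set ℕ) (hN₀ : N₀.Finite)
    (bad : ∀ b, ub b → ∀ (l : ℕ) [Fact l.Prime], l ∉ N₀ → ∃ g : Ω ≃ₐ[F] Ω,
      ((ρ l g).1 - 1) * ((ρ l g).1 - 1) = 0 ∧ ∀ i : M →+* AlgebraicClosure ℚ_[l],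
        ((ρ l g).1.map (algebraMap ℚ_[l] (AlgebraicClosure ℚ_[l])) - 1) * (e b).map i ≠ 0)
    (R : Finset Ω) (hR : ∀ x, x ∈ R ↔ ∃ τ : F →+* Ω, τ (π : F) = x) :
    (∀ b, ∀ a : Ω, (χ b).eval₂ j a = 0 → aeval a f = 0) ∧
    Core5a ψ D cl bar e u ρ p σ (p : ℚ) χ φ μ ν v (inertia p v) j R
      ({l | l ∣ (∏ b, (e b).rank) * p} ∪ N₀ : Set ℕ) hd ub := by
  classical
  have hp : p.Prime := Fact.out
  have hdv : CFT.dv (π : F) = Finsupp.single w 1 := H45K.dv_gen hwπ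
  have hvval : IsVal v := H45K.pval_isVal hv
  have hvp : v (p : AlgebraicClosure ℚ_[p]) = 1 := H45K.pval_p hv
  have hvd : ∀ x : AlgebraicClosure ℚ_[p], x ≠ 0 → (∀ δ ∈ inertia p v, δ x = x) → ∃ n : ℤ, v x = n := H45K.pval_dval hv
  have hval : H45K.IsV v := ⟨hvval.mul, hvval.add⟩
  have crysP : H76Y.CrysN (AlgebraicClosure ℚ_[p]) (ρ p) e σ φ μ ν v (inertia p v) :=
    { val := hvval
      mu := crys.mu
      muphi := crys.muphi
      phigen := crys.phigen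
      nu := crys.nu
      newton := crys.newton
      unr := crys.unr
      int := crys.int
      eint := crys.eint
      dfix := fun δ hδ => hδ.1
      dphi := crys.dphi
      dM := fun δ hδ i c => H45K.rfix hval hp hvp M hdM δ hδ.2 i c
      dideal := crys.dideal
      dval := hvd }
  have hRfix : ∀ i : Ω →+* AlgebraicClosure ℚ_[p], ∀ r ∈ R, ∀ δ : AlgebraicClosure ℚ_[p] ≃+* AlgebraicClosure ℚ_[p],
      δ ∈ inertia p v → δ (i r) = i r := by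
    intro i r hr δ hδ
    obtain ⟨τ, rfl⟩ := (hR r).1 hr
    exact H45K.rfix hval hp hvp F hdF δ hδ.2 (i.comp τ) (π : F)
  -- roots of F_b are roots of f
  have hroot : ∀ b, ∀ a : Ω, (χ b).eval₂ j a = 0 → aeval a f = 0 := by
    intro b a ha
    obtain ⟨l, hl, hlp⟩ : ∃ l : ℕ, l.Prime ∧ l ≠ p := by
      by_cases h : p = 2
      · exact ⟨3, Nat.prime_three, by rw [h]; norm_num⟩
      · exact ⟨2, Nat.prime_two, fun h' => h h'.symm⟩
    have hlf : Fact l.Prime := ⟨hl⟩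
    let i : Ω →ₐ[ℚ] AlgebraicClosure ℚ_[l] := IsAlgClosed.lift
    have h1 := (frob l hlp).eig (i.toRingHom.comp j) b (i.toRingHom a)
    rw [← Polynomial.hom_eval₂, ha, map_zero] at h1
    obtain ⟨z, hz, -, hz2⟩ := h1.2 rfl
    have h2 := H45K.root_of_eig hz hz2
    rw [Matrix.charpoly_map, char l hlp, Polynomial.map_map, Polynomial.eval_map] at h2
    have h3 : (algebraMap ℚ_[l] (AlgebraicClosure ℚ_[l])).comp (algebraMap ℤ ℚ_[l]) = i.toRingHom.comp (algebraMap ℤ Ω) :=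
      RingHom.ext_int _ _
    rw [h3, ← Polynomial.hom_eval₂] at h2
    rw [aeval_def]
    exact (map_eq_zero i.toRingHom).1 h2
  refine ⟨hroot, ?_⟩
  have hpQ : (∀ n : ℕ, n ≠ 0 → (p : ℚ) ^ n ≠ 1) := by
    intro n hn
    have h1 : (1 : ℚ) < p := by exact_mod_cast hp.one_lt
    exact (one_lt_pow₀ h1 hn).ne'
  have hr0 : ∀ b, (e b).rank ≠ 0 := fun b h => hpe b (h ▸ dvd_zero p)
  have hNf' : ({l | l ∣ (∏ b, (e b).rank) * p} : Set ℕ).Finite := by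
    refine (Finset.finite_toSet (Nat.divisors ((∏ b, (e b).rank) * p))).subset fun l hl => ?_
    rw [Finset.mem_coe, Nat.mem_divisors]
    exact ⟨hl, Nat.mul_ne_zero (Finset.prod_ne_zero_iff.2 fun b _ => hr0 b) hp.ne_zero⟩
  have hNf : ({l | l ∣ (∏ b, (e b).rank) * p} ∪ N₀ : Set ℕ).Finite := hNf'.union hN₀
  exact
    { hψ := hψ
      hψ0 := hψ0
      hspl := hspl
      lin := lin
      sim := sim
      semis := semis
      commt := commt
      gen := gen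
      bal := fun l _ h hh i b hb => bal4_of hψ hψ0 hspl (ρ l) (lin l) (sim l) hh i hb
      wa := wa
      hdg := fun b i r hr hv' => by
        obtain ⟨τ, rfl⟩ := (hR r).1 hr
        rw [hhd]
        exact hdg b i τ hv'
      hq := hpQ
      mult := fun l _ hl => by
        rw [map_natCast]
        exact mult l hl
      frob := frob
      frobp := frobp
      multp := by
        rw [map_natCast]
        exact multp
      crys := crysP
      vq := by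
        rw [map_natCast]
        exact hvp
      hN := Or.inl (dvd_mul_left p _)
      arith := fun b => arithN (hr0 b) ρ cont S unr p w hwS hwp π hwπ hpos (hcong b) σ hσ R hR _ hNf
        (fun l hl => Or.inl ((hl.trans (Finset.dvd_prod_of_mem (fun b => (e b).rank) (Finset.mem_univ b))).mul_right p))
        (Or.inl (dvd_mul_left p _))
      munr := fun b δ hδ z hz => H45P.mu_fix hval hp hvp (hpe b) δ hδ.2 z hz
      Rstab := fun s r hr => H45K.R_stab hR s hr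
      Rval := fun i => H45K.rval hval hvp hdv hp hwp hR i fun r hr => by
        refine hvd (i r) ?_ (fun δ hδ => hRfix i r hr δ hδ)
        obtain ⟨τ, rfl⟩ := (hR r).1 hr
        rw [Ne, map_eq_zero, map_eq_zero]
        exact H45K.pi_ne hdv
      Rfix := hRfix
      Rtrans := fun r hr r' hr' => by
        obtain ⟨τ, rfl⟩ := (hR r).1 hr
        obtain ⟨τ', rfl⟩ := (hR r').1 hr'
        obtain ⟨s, hs⟩ := H45K.exists_aut τ τ'
        exact ⟨s, hs (π : F)⟩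
      dec := fun s T => H76W.dec_all _ hNf s T
      bad := fun b hb l _ hl => H76W.bad_of (ρ l) (e b) (bad b hb l fun h => hl (Or.inr h))
      tors := fun z hz hvz => neat_of hval hp hvp f hf weil (S := {z : Ωˣ | (z : Ω) = p ∨ ∃ b, (χ b).eval₂ j (z : Ω) = 0})
          (fun z hz => by
            rcases hz with h | ⟨b, h⟩
            · exact Or.inl h
            · exact Or.inr (hroot b _ h)) (z := z) (by
              rw [map_natCast] at hz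
              exact hz) hvz
      gal := fun b a a' ha ha' hne => by
        refine H45K.gal hval hp hvp f hf weil (hroot b a ha) (hroot b a' ha') fun n hn h1 => ?_
        rw [div_pow] at h1
        by_cases h0 : a' = 0
        · rw [h0, zero_pow hn, div_zero] at h1
          exact zero_ne_one h1
        · exact hne (neat b a a' ha ha' n hn (by rwa [div_eq_one_iff_eq (pow_ne_zero _ h0)] at h1)) }

/-- A decomposition of `R` gives a decomposition of the set of embeddings. -/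
theorem mum5_of_part {ι : Type} [Fintype ι] [DecidableEq ι] {D : Subalgebra ℚ (Matrix ι ι ℚ)}
    {M : Type} [Field M] {F : Type} [Field F] [NumberField F] {Ω : Type} [Field Ω] [CharZero Ω]
    {j : M →+* Ω} {t u : Prop} {e e' : Matrix ι ι M} {χ : M[X]} {p : ℕ} (π : 𝓞 F)
    {f : ℤ[X]} (weil : ∀ z : ℂ, aeval z f = 0 → ‖z‖ ^ 2 = p)
    (hroot : ∀ a : Ω, χ.eval₂ j a = 0 → aeval a f = 0)
    {R : Finset Ω} (hR : ∀ x, x ∈ R ↔ ∃ τ : F →+* Ω, τ (π : F) = x) {h : (F →+* Ω) → ℕ} {hd : Ω → ℕ}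
    (hhd : ∀ τ, hd (τ (π : F)) = h τ) {k : ℕ} {c : Ω → Option (Fin k)}
    {A : Fin k → ℕ} (hPD : PartU D j t u e e' χ (p : ℚ) R hd c A) :
    MumU D j t u e e' F h (fun τ : F →+* Ω => c (τ (π : F))) A := by
  refine ⟨fun τ => ?_, fun x => ?_, fun τ x hx => ?_, hPD.two, fun s hs => ?_⟩
  · rw [← hhd]
    exact hPD.none _ ((hR _).2 ⟨τ, rfl⟩)
  · obtain ⟨r, hr, hcr⟩ := hPD.surj x
    obtain ⟨τ, rfl⟩ := (hR r).1 hr
    exact ⟨τ, hcr⟩
  · rw [← hhd]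
    exact hPD.dvd _ ((hR _).2 ⟨τ, rfl⟩) x hx
  · obtain ⟨π₀, h1, h2, h3, h4⟩ := hPD.perm s hs
    refine ⟨π₀, fun τ => h1 _ ((hR _).2 ⟨τ, rfl⟩), h2, fun ⟨κ, hκ⟩ => h3 fun y hy => ?_, h4⟩
    apply κ.injective
    have h5 : aeval (κ y) f = 0 := by
      have h6 := hroot y hy
      have h7 : aeval (κ y) f = κ (aeval y f) := by
        rw [aeval_def, aeval_def]
        have h8 : (algebraMap ℤ ℂ) = κ.comp (algebraMap ℤ Ω) := RingHom.ext_int _ _
        rw [h8]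
        exact (hom_eval₂ f (algebraMap ℤ Ω) κ y).symm
      rw [h7, h6, map_zero]
    rw [map_mul, hκ, mul_comm, Complex.mul_conj, Complex.normSq_eq_norm_sq, weil _ h5, map_natCast, map_natCast]
    push_cast
    rfl

end Pool.Agent.H45U
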