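import Pool.Agent.Lib.H45U.F5a
import Pool.Agent.Lib.H45U.N2
import Pool.Agent.Lib.H45Q.S5
import Pool.Agent.Lib.H86L.N6

/-!
# the final theorem over a number field, fifth version
-/

set_option autoImplicit false
set_option linter.unusedSectionVars false
namespace Pool.Agent.H45U
open Module Matrix Polynomial Pool.Agent.H53Toric NumberField ST32
open Pool.Agent.H76Q
open Pool.Agent.H76P (properProj EigOn)
open Pool.Agent.H76U (IsSplitting typeGrp)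
open Pool.Agent.H76RM (spanK similD)
open Pool.Agent.H45Q (CrysF3 Gen1)

theorem finalF5 {ι : Type} [Fintype ι] [DecidableEq ι] {ψ : Matrix ι ι ℚ} (hψ : ψᵀ = -ψ)
    (hψ0 : ψ.det ≠ 0) (D : Subalgebra ℚ (Matrix ι ι ℚ)) {M : Type} [Field M] [NumberField M]
    {m : ℕ} (cl : Fin m → H76Z.Cl) (bar : Fin m → Fin m) (e : Fin m → Matrix ι ι M) (u : Matrix ι ι M)
    (hspl : H76Z.Splits D ψ cl bar e u)
    (hpos : ∀ d ∈ D, d ≠ 0 → 0 < (d * (ψ⁻¹ * dᵀ * ψ)).trace)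
    {F : Type} [Field F] [NumberField F] {Ω : Type} [Field Ω] [CharZero Ω] [Algebra F Ω] [IsAlgClosure F Ω]
    (j : M →+* Ω)
    (ρ : ∀ (l : ℕ) [Fact l.Prime], (Ω ≃ₐ[F] Ω) →* Matrix.GeneralLinearGroup ι ℚ_[l])
    (cont : ∀ (l : ℕ) [Fact l.Prime], Continuous fun g => (ρ l g : Matrix ι ι ℚ_[l]))
    (lin : ∀ (l : ℕ) [Fact l.Prime], ∀ g : Ω ≃ₐ[F] Ω, ∀ d ∈ D,
      (ρ l g).1 * d.map (algebraMap ℚ ℚ_[l]) = d.map (algebraMap ℚ ℚ_[l]) * (ρ l g).1)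
    (sim : ∀ (l : ℕ) [Fact l.Prime], ∀ g : Ω ≃ₐ[F] Ω, ∃ c : ℚ_[l],
      (ρ l g).1ᵀ * ψ.map (algebraMap ℚ ℚ_[l]) * (ρ l g).1 = c • ψ.map (algebraMap ℚ ℚ_[l]))
    (semis : ∀ (l : ℕ) [Fact l.Prime], ∀ H : Subgroup (Ω ≃ₐ[F] Ω), H.FiniteIndex →
      ∀ W : Submodule (AlgebraicClosure ℚ_[l]) (ι → AlgebraicClosure ℚ_[l]),
      (∀ s ∈ img (AlgebraicClosure ℚ_[l]) (ρ l) H, ∀ w ∈ W, s *ᵥ w ∈ W) →
      ∃ W' : Submodule (AlgebraicClosure ℚ_[l]) (ι → AlgebraicClosure ℚ_[l]),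
        (∀ s ∈ img (AlgebraicClosure ℚ_[l]) (ρ l) H, ∀ w ∈ W', s *ᵥ w ∈ W') ∧ IsCompl W W')
    (commt : ∀ (l : ℕ) [Fact l.Prime], ∀ H : Subgroup (Ω ≃ₐ[F] Ω), H.FiniteIndex →
      ∀ y : Matrix ι ι (AlgebraicClosure ℚ_[l]),
      (∀ s ∈ img (AlgebraicClosure ℚ_[l]) (ρ l) H, y * s = s * y) →
        y ∈ spanK (AlgebraicClosure ℚ_[l]) D)
    (gen : ∀ (l : ℕ) [Fact l.Prime], ∀ g : Ω ≃ₐ[F] Ω,
      (ρ l g).1.map (algebraMap ℚ_[l] (AlgebraicClosure ℚ_[l])) ∈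
        tgen (AlgebraicClosure ℚ_[l]) (ρ l))
    -- the places of bad reduction
    (S : Finset (CFT.Pr F))
    (unr : ∀ (l : ℕ) [Fact l.Prime], ∀ v ∉ S, (l : 𝓞 F) ∉ v.asIdeal →
      ∀ P : Ideal (𝓞 Ω), Above v P → ∀ g : Ω ≃ₐ[F] Ω, Inert P g → ρ l g = 1)
    -- the place `w`
    (p : ℕ) [Fact p.Prime] (w : CFT.Pr F) (hwS : w ∉ S)
    (hwp : Ideal.absNorm w.asIdeal = p)
    (π : 𝓞 F) (hwπ : w.asIdeal = Ideal.span {π}) (hpos' : ∀ τ : F →+* ℝ, 0 < τ π)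
    (hpe : ∀ b, ¬ p ∣ (e b).rank)
    (hcong : ∀ b, ∀ v ∈ S, π - 1 ∈ Ideal.span {((e b).rank : 𝓞 F) ^ 2} * v.asIdeal)
    (hdF : ¬ (p : ℤ) ∣ NumberField.discr F) (hdM : ¬ (p : ℤ) ∣ NumberField.discr M)
    (σ : Ω ≃ₐ[F] Ω) (hσ : IsFrv w σ)
    (f : ℤ[X]) (hf : f.Monic) (weil : ∀ z : ℂ, aeval z f = 0 → ‖z‖ ^ 2 = p)
    (χ : Fin m → M[X])
    (mult : ∀ (l : ℕ) [Fact l.Prime], l ≠ p →
      (ρ l σ).1ᵀ * ψ.map (algebraMap ℚ ℚ_[l]) * (ρ l σ).1 = (p : ℚ_[l]) • ψ.map (algebraMap ℚ ℚ_[l]))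
    (char : ∀ (l : ℕ) [Fact l.Prime], l ≠ p →
      (ρ l σ).1.charpoly = f.map (algebraMap ℤ ℚ_[l]))
    (frob : ∀ (l : ℕ) [Fact l.Prime], l ≠ p →
      FrobT (AlgebraicClosure ℚ_[l]) (ρ l) e χ
        ((ρ l σ).1.map (algebraMap ℚ_[l] (AlgebraicClosure ℚ_[l]))))
    (neat : ∀ b, ∀ a a' : Ω, (χ b).eval₂ j a = 0 → (χ b).eval₂ j a' = 0 →
      ∀ n : ℕ, n ≠ 0 → a ^ n = a' ^ n → a = a')
    -- the representation at `p`
    (v : AlgebraicClosure ℚ_[p] → ℚ) (hv : IsPVal p v)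
    (φ μ ν : Matrix ι ι (AlgebraicClosure ℚ_[p]))
    (frobp : FrobT (AlgebraicClosure ℚ_[p]) (ρ p) e χ φ)
    (multp : φᵀ * ψ.map (algebraMap ℚ (AlgebraicClosure ℚ_[p])) * φ =
      (p : AlgebraicClosure ℚ_[p]) • ψ.map (algebraMap ℚ (AlgebraicClosure ℚ_[p])))
    (crys : CrysF3 p (ρ p) e σ φ μ ν v)
    (wa : ∀ b : Fin m, cl b = .n → ∀ i : M →+* AlgebraicClosure ℚ_[p],
      v (1 - (e b).map i + φ * (e b).map i).det = (μ * (e b).map i).rank)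
    -- the multiplicities
    (h : Fin m → (F →+* Ω) → ℕ)
    (hdg : ∀ (b : Fin m) (i : Ω →+* AlgebraicClosure ℚ_[p]) (τ : F →+* Ω), v (i (τ (π : F))) = 1 →
      (μ * (e b).map (i.comp j)).rank = h b τ)
    (alt : ∀ b, cl b = .n → (e b).rank ≤ 2 ∨ (∀ τ, 2 * h b τ = (e b).rank) ∨
      (∃ τ, h b τ ≠ 0 ∧ h b τ ≠ (e b).rank ∧ 2 * h b τ ≠ (e b).rank) ∨ NoDual j (χ b))
    -- bad reduction
    (ub : Fin m → Prop) (N₀ : Set ℕ) (hN₀ : N₀.Finite)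
    (bad : ∀ b, ub b → ∀ (l : ℕ) [Fact l.Prime], l ∉ N₀ → ∃ g : Ω ≃ₐ[F] Ω,
      ((ρ l g).1 - 1) * ((ρ l g).1 - 1) = 0 ∧ ∀ i : M →+* AlgebraicClosure ℚ_[l],
        ((ρ l g).1.map (algebraMap ℚ_[l] (AlgebraicClosure ℚ_[l])) - 1) * (e b).map i ≠ 0)
    -- the conditions on `F` and on the dimensions
    (part : ∀ b (k : ℕ) (c : (F →+* Ω) → Option (Fin k)) (A : Fin k → ℕ), 2 ≤ k →
      MumU D j (cl b = .s) (ub b) (e b) (e (bar b)) F (h b) c A → Big (cl b) (e b).rank A →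
      (e b).rank ≠ ∏ x, A x)
    (two : ∀ b (k : ℕ), 3 ≤ k → (e b).rank = 2 ^ k →
      (cl b = .s → 4 ≤ k → Gen1 ρ ∧ ¬ (5 ≤ k ∧ (k % 4 = 1 ∨ k % 4 = 2))) ∧
      (cl b = .o → Gen1 ρ ∧ (k % 4 = 1 ∨ k % 4 = 2)))
    (binom : ∀ b (k : ℕ), (cl b = .s → 3 ≤ k ∧ Odd k) → (cl b = .o → 4 ≤ k ∧ Even k) →
      cl b ≠ .n → (e b).rank = k.centralBinom → Nonempty (F →+* ℝ) ∧ HTRat F ρ σ)
    (twon : ∀ b, cl b = .n → (∀ τ, h b τ = 0 ∨ h b τ = (e b).rank ∨ 2 * h b τ = (e b).rank) →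
      ∀ k : ℕ, 4 ≤ k → Even k → (e b).rank ≠ 2 ^ k)
    (bin : ∀ b, cl b = .n → (∃ τ, h b τ ≠ 0 ∧ h b τ ≠ (e b).rank ∧ 2 * h b τ ≠ (e b).rank) →
      IsEmpty (F →+* ℝ) → ∀ N k : ℕ, 2 ≤ k → k + 2 ≤ N → (e b).rank = N.choose k →
        ∃ τ, h b τ ≠ 0 ∧ h b τ ≠ (e b).rank ∧ h b τ ≠ (N - 1).choose k ∧
          h b τ ≠ (N - 1).choose (k - 1))
    -- the conditions on the pairs of components
    (six : ∀ b c, cl b = .o → cl c = .n → (e b).rank = 6 → (e c).rank = 4 →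
      (∃ τ, h c τ ≠ 1 ∧ h c τ ≠ 3) ∨ NoSix j (χ b) (χ c))
    (tw : ∀ b c, cl b = .n → cl c = .n → c ≠ b → c ≠ bar b → 2 ≤ (e b).rank → (e c).rank = (e b).rank →
      (∀ τ, h b τ = h c τ) ∨ (∃ τ, h b τ ≠ h c τ ∧
        ¬ ((h b τ = 0 ∨ h b τ = (e b).rank) ∧ (h c τ = 0 ∨ h c τ = (e b).rank))) ∨
      NoProp j (χ b) (χ c)) :
    ∀ (l : ℕ) [Fact l.Prime] (i : M →+* AlgebraicClosure ℚ_[l]), ∀ H : Subgroup (Ω ≃ₐ[F] Ω), H.FiniteIndex →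
      monodromy (AlgebraicClosure ℚ_[l]) (ρ l) H =
        typeGrp (AlgebraicClosure ℚ_[l]) ψ D (fun b => (e b).map i) {n | ∃ τ : F →+* Ω, ∀ b, n b = h b τ} := by
  classical
  have hcl : IsAlgClosed Ω := IsAlgClosure.isAlgClosed F
  have halgF : Algebra.IsAlgebraic F Ω := IsAlgClosure.isAlgebraic
  have halg : Algebra.IsAlgebraic ℚ Ω := Algebra.IsAlgebraic.trans ℚ F Ω
  have hfin : Finite (F →+* Ω) := inferInstance
  have : Fintype (F →+* Ω) := Fintype.ofFinite _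
  obtain ⟨hd, hhd⟩ := exists_hd (j := j) hwp hwπ hdF hv h hdg
  obtain ⟨R, hR⟩ : ∃ R : Finset Ω, ∀ x, x ∈ R ↔ ∃ τ : F →+* Ω, τ (π : F) = x :=
    ⟨Finset.univ.image (fun τ : F →+* Ω => τ (π : F)), fun x => by
      rw [Finset.mem_image]
      simp⟩
  obtain ⟨hroot, C₀⟩ := core5a_of hψ hψ0 D cl bar e u hspl j ρ cont lin sim semis commt gen S unr p w hwS hwp
    π hwπ hpos' hpe hcong hdF hdM σ hσ f hf weil χ mult char frob neat v hv φ μ ν frobp multp crys wa h hdg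
    hd hhd ub N₀ hN₀ bad R hR
  have hex : ∀ P : Ω → Prop, (∃ r ∈ R, P r) ↔ ∃ τ : F →+* Ω, P (τ (π : F)) := by
    intro P
    constructor
    · rintro ⟨r, hr, h1⟩
      obtain ⟨τ, rfl⟩ := (hR r).1 hr
      exact ⟨τ, h1⟩
    · rintro ⟨τ, h1⟩
      exact ⟨_, (hR _).2 ⟨τ, rfl⟩, h1⟩
  have hall : ∀ P : Ω → Prop, (∀ r ∈ R, P r) ↔ ∀ τ : F →+* Ω, P (τ (π : F)) := by
    intro P
    constructor
    · exact fun h1 τ => h1 _ ((hR _).2 ⟨τ, rfl⟩)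
    · intro h1 r hr
      obtain ⟨τ, rfl⟩ := (hR r).1 hr
      exact h1 τ
  have C : Core5 ψ D cl bar e u ρ p σ (p : ℚ) χ φ μ ν v (inertia p v) j R
      ({l | l ∣ (∏ b, (e b).rank) * p} ∪ N₀ : Set ℕ) hd ub :=
    { toCore5a := C₀
      alt := fun b hb => by
        rw [hall, hex]
        simp only [hhd]
        exact alt b hb }
  have key := C.final
    (fun b k c A hk hPD hbig => part b k _ A hk (mum5_of_part π weil (hroot b) hR (hhd b) hPD) hbig) two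
    (fun b k h1 h2 h3 h4 => by
      obtain ⟨⟨τ₀⟩, N', hN', ht⟩ := binom b k h1 h2 h3 h4
      obtain ⟨c, T₀, hr⟩ := H86L.real_of4 (F := F) j τ₀ hψ hψ0 hpos hspl ρ σ p χ f weil hroot N' hN' ht
      exact ⟨c, T₀, N', hr⟩)
    (fun b hb h1 => twon b hb (by
      rw [hall] at h1
      simpa only [hhd] using h1))
    (fun b hb h1 => by
      rw [hex] at h1
      simp only [hhd] at h1
      by_cases hreal : Nonempty (F →+* ℝ)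
      · obtain ⟨c, hc, hlink⟩ := H86L.real_place5 (Ω := Ω) j hreal hψ hψ0 hpos hspl
        exact Or.inr ⟨c, algebraMap F Ω (π : F), (hR _).2 ⟨algebraMap F Ω, rfl⟩, hc _, hlink b⟩
      · refine Or.inl fun N k hk hkN hnk => ?_
        rw [hex]
        simp only [hhd]
        exact bin b hb h1 (not_nonempty_iff.1 hreal) N k hk hkN hnk)
    (fun b c hb hc h6 h4 => by
      rw [hex]
      simp only [hhd]
      exact six b c hb hc h6 h4)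
    (fun b c hb hc h1 h2 h3 h4 => by
      rw [hall, hex]
      simp only [hhd]
      exact tw b c hb hc h1 h2 h3 h4)
  intro l _ i H hH
  rw [key l i H hH]
  congr 1
  ext n
  show (∃ r ∈ R, ∀ b, n b = hd b r) ↔ ∃ τ : F →+* Ω, ∀ b, n b = h b τ
  rw [hex]
  simp only [hhd]

end Pool.Agent.H45U
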