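import Pool.Agent.Lib.H45U.Fin
import Pool.Agent.Lib.H45U.Dens

/-!
# the final theorem over a number field, sixth version: no choice of a place
-/

set_option autoImplicit false
set_option linter.unusedSectionVars false
namespace Pool.Agent.H45U
open Module Matrix Polynomial Pool.Agent.H53Toric NumberField ST32
open Pool.Agent.H76Q
open Pool.Agent.H76P (properProj EigOn)
open Pool.Agent.H76U (IsSplitting typeGrp)
open Pool.Agent.H76RM (spanK similD)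
open Pool.Agent.H45Q (CrysF3 Gen1)

/-- The data at a place `w` of residue field `𝔽_p`: a Frobenius `σ`, the characteristic polynomial `f`
of its action and the characteristic polynomials `χ b` on the components, the normalised valuation `v`,
the inverse `φ` of the crystalline Frobenius, a Hodge-Tate projector `μ` and the logarithm `ν` of
the absolute values of `φ`; and the comparison `hdg` of `μ` with the multiplicities `h`: the rank of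
`μ` on the component `b` is `h b τ` for the embeddings `τ` of `F` which induce the place `w`. -/
structure PlaceData {ι : Type} [Fintype ι] [DecidableEq ι] (ψ : Matrix ι ι ℚ)
    {M : Type} [Field M] {m : ℕ} (cl : Fin m → H76Z.Cl) (e : Fin m → Matrix ι ι M)
    {F : Type} [Field F] [NumberField F] {Ω : Type} [Field Ω] [CharZero Ω] [Algebra F Ω]
    (j : M →+* Ω) (ρ : ∀ (l : ℕ) [Fact l.Prime], (Ω ≃ₐ[F] Ω) →* Matrix.GeneralLinearGroup ι ℚ_[l])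
    (h : Fin m → (F →+* Ω) → ℕ) (nd : Fin m → Prop) (np ns : Fin m → Fin m → Prop)
    (w : CFT.Pr F) (p : ℕ) [Fact p.Prime] (σ : Ω ≃ₐ[F] Ω) (f : ℤ[X]) (χ : Fin m → M[X])
    (v : AlgebraicClosure ℚ_[p] → ℚ) (φ μ ν : Matrix ι ι (AlgebraicClosure ℚ_[p])) : Prop where
  frv : IsFrv w σ
  monic : f.Monic
  weil : ∀ z : ℂ, aeval z f = 0 → ‖z‖ ^ 2 = p
  mult : ∀ (l : ℕ) [Fact l.Prime], l ≠ p →
    (ρ l σ).1ᵀ * ψ.map (algebraMap ℚ ℚ_[l]) * (ρ l σ).1 = (p : ℚ_[l]) • ψ.map (algebraMap ℚ ℚ_[l])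
  char : ∀ (l : ℕ) [Fact l.Prime], l ≠ p → (ρ l σ).1.charpoly = f.map (algebraMap ℤ ℚ_[l])
  frob : ∀ (l : ℕ) [Fact l.Prime], l ≠ p →
    FrobT (AlgebraicClosure ℚ_[l]) (ρ l) e χ
      ((ρ l σ).1.map (algebraMap ℚ_[l] (AlgebraicClosure ℚ_[l])))
  neat : ∀ b, ∀ a a' : Ω, (χ b).eval₂ j a = 0 → (χ b).eval₂ j a' = 0 →
    ∀ n : ℕ, n ≠ 0 → a ^ n = a' ^ n → a = a'
  val : IsPVal p v
  frobp : FrobT (AlgebraicClosure ℚ_[p]) (ρ p) e χ φ
  multp : φᵀ * ψ.map (algebraMap ℚ (AlgebraicClosure ℚ_[p])) * φ =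
    (p : AlgebraicClosure ℚ_[p]) • ψ.map (algebraMap ℚ (AlgebraicClosure ℚ_[p]))
  crys : CrysF3 p (ρ p) e σ φ μ ν v
  wa : ∀ b : Fin m, cl b = .n → ∀ i : M →+* AlgebraicClosure ℚ_[p],
    v (1 - (e b).map i + φ * (e b).map i).det = (μ * (e b).map i).rank
  hdg : ∀ (b : Fin m) (i : Ω →+* AlgebraicClosure ℚ_[p]) (τ : F →+* Ω),
    (∀ x ∈ w.asIdeal, x ≠ 0 → 0 < v (i (τ (x : F)))) → (μ * (e b).map (i.comp j)).rank = h b τ
  htr : (∃ (b : Fin m) (k : ℕ), (cl b = .s → 3 ≤ k ∧ Odd k) ∧ (cl b = .o → 4 ≤ k ∧ Even k) ∧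
    cl b ≠ .n ∧ (e b).rank = k.centralBinom) → HTRat F ρ σ
  nodual : ∀ b, nd b → NoDual j (χ b)
  noprop : ∀ b c, np b c → NoProp j (χ b) (χ c)
  nosix : ∀ b c, ns b c → NoSix j (χ b) (χ c)

theorem finalF6 {ι : Type} [Fintype ι] [DecidableEq ι] {ψ : Matrix ι ι ℚ} (hψ : ψᵀ = -ψ)
    (hψ0 : ψ.det ≠ 0) (D : Subalgebra ℚ (Matrix ι ι ℚ)) {M : Type} [Field M] [NumberField M]
    {m : ℕ} (cl : Fin m → H76Z.Cl) (bar : Fin m → Fin m) (e : Fin m → Matrix ι ι M) (u : Matrix ι ι M)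
    (hspl : H76Z.Splits D ψ cl bar e u)
    (hpos : ∀ d ∈ D, d ≠ 0 → 0 < (d * (ψ⁻¹ * dᵀ * ψ)).trace)
    {F : Type} [Field F] [NumberField F] {Ω : Type} [Field Ω] [CharZero Ω] [Algebra F Ω] [IsAlgClosure F Ω]
    (j : M →+* Ω)
    (ρ : ∀ (l : ℕ) [Fact l.Prime], (Ω ≃ₐ[F] Ω) →* Matrix.GeneralLinearGroup ι ℚ_[l])
    (cont : ∀ (l : ℕ) [Fact l.Prime], Continuous fun g => (ρ l g : Matrix ι ι ℚ_[l]))
    (lin : ∀ (l : ℕ) [Fact l.Prime], ∀ g : Ω ≃ₐ[F] Ω, ∀ d ∈ D,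
      (ρ l g).1 * d.map (algebraMap ℚ ℚ_[l]) = d.map (algebraMap ℚ ℚ_[l]) * (ρ l g).1)
    (sim : ∀ (l : ℕ) [Fact l.Prime], ∀ g : Ω ≃ₐ[F] Ω, ∃ c : ℚ_[l],
      (ρ l g).1ᵀ * ψ.map (algebraMap ℚ ℚ_[l]) * (ρ l g).1 = c • ψ.map (algebraMap ℚ ℚ_[l]))
    (semis : ∀ (l : ℕ) [Fact l.Prime], ∀ H : Subgroup (Ω ≃ₐ[F] Ω), H.FiniteIndex →
      ∀ W : Submodule (AlgebraicClosure ℚ_[l]) (ι → AlgebraicClosure ℚ_[l]),
      (∀ s ∈ img (AlgebraicClosure ℚ_[l]) (ρ l) H, ∀ w ∈ W, s *ᵥ w ∈ W) →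
      ∃ W' : Submodule (AlgebraicClosure ℚ_[l]) (ι → AlgebraicClosure ℚ_[l]),
        (∀ s ∈ img (AlgebraicClosure ℚ_[l]) (ρ l) H, ∀ w ∈ W', s *ᵥ w ∈ W') ∧ IsCompl W W')
    (commt : ∀ (l : ℕ) [Fact l.Prime], ∀ H : Subgroup (Ω ≃ₐ[F] Ω), H.FiniteIndex →
      ∀ y : Matrix ι ι (AlgebraicClosure ℚ_[l]),
      (∀ s ∈ img (AlgebraicClosure ℚ_[l]) (ρ l) H, y * s = s * y) →
        y ∈ spanK (AlgebraicClosure ℚ_[l]) D)
    (gen : ∀ (l : ℕ) [Fact l.Prime], ∀ g : Ω ≃ₐ[F] Ω,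
      (ρ l g).1.map (algebraMap ℚ_[l] (AlgebraicClosure ℚ_[l])) ∈
        tgen (AlgebraicClosure ℚ_[l]) (ρ l))
    -- the places of bad reduction
    (S : Finset (CFT.Pr F))
    (unr : ∀ (l : ℕ) [Fact l.Prime], ∀ v ∉ S, (l : 𝓞 F) ∉ v.asIdeal →
      ∀ P : Ideal (𝓞 Ω), Above v P → ∀ g : Ω ≃ₐ[F] Ω, Inert P g → ρ l g = 1)
    -- the multiplicities
    (h : Fin m → (F →+* Ω) → ℕ)
    -- the places outside a set of density zero
    (nd : Fin m → Prop) (np ns : Fin m → Fin m → Prop)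
    (Z : Set (CFT.Pr F)) (hZ : DensZero Z)
    (good : ∀ w ∉ Z, ∀ (p : ℕ) [Fact p.Prime], Ideal.absNorm w.asIdeal = p →
      ∃ (σ : Ω ≃ₐ[F] Ω) (f : ℤ[X]) (χ : Fin m → M[X]) (v : AlgebraicClosure ℚ_[p] → ℚ)
        (φ μ ν : Matrix ι ι (AlgebraicClosure ℚ_[p])),
        PlaceData ψ cl e j ρ h nd np ns w p σ f χ v φ μ ν)
    (alt : ∀ b, cl b = .n → (e b).rank ≤ 2 ∨ (∀ τ, 2 * h b τ = (e b).rank) ∨
      (∃ τ, h b τ ≠ 0 ∧ h b τ ≠ (e b).rank ∧ 2 * h b τ ≠ (e b).rank) ∨ nd b)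
    -- bad reduction
    (ub : Fin m → Prop) (N₀ : Set ℕ) (hN₀ : N₀.Finite)
    (bad : ∀ b, ub b → ∀ (l : ℕ) [Fact l.Prime], l ∉ N₀ → ∃ g : Ω ≃ₐ[F] Ω,
      ((ρ l g).1 - 1) * ((ρ l g).1 - 1) = 0 ∧ ∀ i : M →+* AlgebraicClosure ℚ_[l],
        ((ρ l g).1.map (algebraMap ℚ_[l] (AlgebraicClosure ℚ_[l])) - 1) * (e b).map i ≠ 0)
    -- the conditions on `F` and on the dimensions
    (part : ∀ b (k : ℕ) (c : (F →+* Ω) → Option (Fin k)) (A : Fin k → ℕ), 2 ≤ k →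
      MumU D j (cl b = .s) (ub b) (e b) (e (bar b)) F (h b) c A → Big (cl b) (e b).rank A →
      (e b).rank ≠ ∏ x, A x)
    (two : ∀ b (k : ℕ), 3 ≤ k → (e b).rank = 2 ^ k →
      (cl b = .s → 4 ≤ k → Gen1 ρ ∧ ¬ (5 ≤ k ∧ (k % 4 = 1 ∨ k % 4 = 2))) ∧
      (cl b = .o → Gen1 ρ ∧ (k % 4 = 1 ∨ k % 4 = 2)))
    (binom : ∀ b (k : ℕ), (cl b = .s → 3 ≤ k ∧ Odd k) → (cl b = .o → 4 ≤ k ∧ Even k) →
      cl b ≠ .n → (e b).rank = k.centralBinom → Nonempty (F →+* ℝ))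
    (twon : ∀ b, cl b = .n → (∀ τ, h b τ = 0 ∨ h b τ = (e b).rank ∨ 2 * h b τ = (e b).rank) →
      ∀ k : ℕ, 4 ≤ k → Even k → (e b).rank ≠ 2 ^ k)
    (bin : ∀ b, cl b = .n → (∃ τ, h b τ ≠ 0 ∧ h b τ ≠ (e b).rank ∧ 2 * h b τ ≠ (e b).rank) →
      IsEmpty (F →+* ℝ) → ∀ N k : ℕ, 2 ≤ k → k + 2 ≤ N → (e b).rank = N.choose k →
        ∃ τ, h b τ ≠ 0 ∧ h b τ ≠ (e b).rank ∧ h b τ ≠ (N - 1).choose k ∧
          h b τ ≠ (N - 1).choose (k - 1))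
    -- the conditions on the pairs of components
    (six : ∀ b c, cl b = .o → cl c = .n → (e b).rank = 6 → (e c).rank = 4 →
      (∃ τ, h c τ ≠ 1 ∧ h c τ ≠ 3) ∨ ns b c)
    (tw : ∀ b c, cl b = .n → cl c = .n → c ≠ b → c ≠ bar b → 2 ≤ (e b).rank → (e c).rank = (e b).rank →
      (∀ τ, h b τ = h c τ) ∨ (∃ τ, h b τ ≠ h c τ ∧
        ¬ ((h b τ = 0 ∨ h b τ = (e b).rank) ∧ (h c τ = 0 ∨ h c τ = (e b).rank))) ∨ np b c) :
    ∀ (l : ℕ) [Fact l.Prime] (i : M →+* AlgebraicClosure ℚ_[l]), ∀ H : Subgroup (Ω ≃ₐ[F] Ω), H.FiniteIndex →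
      monodromy (AlgebraicClosure ℚ_[l]) (ρ l) H =
        typeGrp (AlgebraicClosure ℚ_[l]) ψ D (fun b => (e b).map i) {n | ∃ τ : F →+* Ω, ∀ b, n b = h b τ} := by
  classical
  -- the ranks are not zero
  have hrank : ∀ b, (e b).rank ≠ 0 := by
    intro b h0
    apply hspl.ne_zero b
    apply (phi (ι := ι) (K := M)).injective
    rw [map_zero]
    have h1 : finrank M (LinearMap.range (e b).mulVecLin) = 0 := h0
    rw [Submodule.finrank_eq_zero, LinearMap.range_eq_bot] at h1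
    exact h1
  obtain ⟨n, hn⟩ : ∃ n : ℕ, n = (∏ b, (e b).rank) * (NumberField.discr F).natAbs * (NumberField.discr M).natAbs :=
    ⟨_, rfl⟩
  have hn0 : n ≠ 0 := by
    rw [hn]
    refine mul_ne_zero (mul_ne_zero (Finset.prod_ne_zero_iff.2 fun b _ => hrank b) ?_) ?_
    · exact Int.natAbs_ne_zero.2 (NumberField.discr_ne_zero F)
    · exact Int.natAbs_ne_zero.2 (NumberField.discr_ne_zero M)
  have hrn : ∀ b, (e b).rank ∣ n := by
    intro b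
    rw [hn]
    exact Dvd.dvd.mul_right (Dvd.dvd.mul_right (Finset.dvd_prod_of_mem _ (Finset.mem_univ b)) _) _
  obtain ⟨w, π, hwS, hwZ, hwp, hpn, hwπ, hpos', hcong⟩ := exists_place S hn0 hZ
  obtain ⟨p, hp⟩ : ∃ p, p = Ideal.absNorm w.asIdeal := ⟨_, rfl⟩
  rw [← hp] at hwp hpn
  have : Fact p.Prime := ⟨hwp⟩
  obtain ⟨σ, f, χ, v, φ, μ, ν, P⟩ := good w hwZ p hp.symm
  have hV := H45K.pval_V P.val
  refine finalF5 hψ hψ0 D cl bar e u hspl hpos j ρ cont lin sim semis commt gen S unr p w hwS hp.symm π hwπ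
    hpos' (fun b hb => hpn (hb.trans (hrn b))) ?_ ?_ ?_ σ P.frv f P.monic P.weil χ P.mult P.char P.frob P.neat
    v P.val φ μ ν P.frobp P.multp P.crys P.wa h ?_ ?_ ub N₀ hN₀ bad part two ?_ twon bin ?_ ?_
  · intro b v' hv'
    refine Ideal.mul_mono_left ?_ (hcong v' hv')
    rw [Ideal.span_singleton_le_span_singleton]
    exact pow_dvd_pow_of_dvd (Nat.cast_dvd_cast (hrn b)) 2
  · intro hd
    exact hpn (hn ▸ Dvd.dvd.mul_right (Dvd.dvd.mul_left (Int.natCast_dvd.1 hd) _) _)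
  · intro hd
    exact hpn (hn ▸ Dvd.dvd.mul_left (Int.natCast_dvd.1 hd) _)
  · intro b i τ hτ
    refine P.hdg b i τ fun x hx hx0 => ?_
    rw [hwπ, Ideal.mem_span_singleton'] at hx
    obtain ⟨y, rfl⟩ := hx
    have hy0 : y ≠ 0 := by
      rintro rfl
      exact hx0 (zero_mul _)
    have hπ0 : π ≠ 0 := by
      rintro rfl
      exact hx0 (mul_zero _)
    have hne : ∀ z : 𝓞 F, z ≠ 0 → i (τ (z : F)) ≠ 0 := by
      intro z hz h1
      exact hz (by exact_mod_cast (map_eq_zero τ).1 ((map_eq_zero i).1 h1))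
    have h1 : i (τ ((y * π : 𝓞 F) : F)) = i (τ (y : F)) * i (τ (π : F)) := by
      rw [← map_mul, ← map_mul]
      rfl
    have h2 : IsIntegral ℤ (i (τ (y : F))) :=
      ((NumberField.RingOfIntegers.isIntegral_coe y).map τ.toIntAlgHom).map i.toIntAlgHom
    rw [h1, hV.mul _ _ (hne y hy0) (hne π hπ0), hτ]
    rcases hV.nn_integral h2 with h3 | h3
    · exact absurd h3 (hne y hy0)
    · linarith
  · intro b hb
    rcases alt b hb with h1 | h1 | h1 | h1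
    · exact Or.inl h1
    · exact Or.inr (Or.inl h1)
    · exact Or.inr (Or.inr (Or.inl h1))
    · exact Or.inr (Or.inr (Or.inr (P.nodual b h1)))
  · intro b k h1 h2 h3 h4
    exact ⟨binom b k h1 h2 h3 h4, P.htr ⟨b, k, h1, h2, h3, h4⟩⟩
  · intro b c hb hc h6 h4
    rcases six b c hb hc h6 h4 with h1 | h1
    · exact Or.inl h1
    · exact Or.inr (P.nosix b c h1)
  · intro b c hb hc h1 h2 h3 h4
    rcases tw b c hb hc h1 h2 h3 h4 with h5 | h5 | h5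
    · exact Or.inl h5
    · exact Or.inr (Or.inl h5)
    · exact Or.inr (Or.inr (P.noprop b c h5))

end Pool.Agent.H45U
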